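import Pool.Agent.H95.IS.Cen

/-!
# IS-BAD: for most primes `p` few `n` have `p ∣ Lf c 1 n` for one of the (at most `k`) centres attached to `p`

For `c ∈ cen H` and `n ∈ [N]` with `Lf c 1 n ≠ 0` the number of primes dividing `Lf c 1 n` is `≤ log₂ (2HN)` (`Lf_le`), so
`∑_{p ∈ G} (1/p) ∑_{n : p ∣ Lf c 1 n ≠ 0} w n ≤ N^(-α) log₂ (2HN)`; summing over `c ∈ cen H` (`cen_card`):
`∑_{p ∈ G} (1/p) w(B'_p) ≤ (2H+1) H N^(-α) log₂(2HN)`, `B'_p = {n ∈ [N] : ∃ c ∈ Sc p, Lf c 1 n ≠ 0, p ∣ Lf c 1 n}`. For every `c` there is at most one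
`n` with `Lf c 1 n = 0`, so the sum in the statement is `≤ w(B'_p) + k N^(-ε)`, and `k N^(-ε) ≤ τ/2` for `N ≥ N0`. If the sum is `> τ` then
`w(B'_p) > τ/2`, so the sum of `1/p` over these `p` is `≤ (2/τ) (2H+1) H N^(-α) log₂(2HN) ≤ η` for `N ≥ N0`, if `H ≤ N^δ`, `δ = α/4`.
-/

set_option autoImplicit false
open scoped Classical

namespace H95.IS

private theorem bad_card (G : Finset ℕ) (hG : ∀ p ∈ G, p.Prime) (m : ℤ) (hm : m ≠ 0) (L : ℕ)
    (hL : m.natAbs ≤ L) : (G.filter fun p : ℕ => (p : ℤ) ∣ m).card ≤ Nat.log 2 L := by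
  have hm' : m.natAbs ≠ 0 := Int.natAbs_ne_zero.mpr hm
  have h1 : (G.filter fun p : ℕ => (p : ℤ) ∣ m) ⊆ m.natAbs.primeFactors := by
    intro p hp
    rw [Finset.mem_filter] at hp
    rw [Nat.mem_primeFactors]
    exact ⟨hG p hp.1, Int.natCast_dvd.mp hp.2, hm'⟩
  have h2 : 2 ^ m.natAbs.primeFactors.card ≤ m.natAbs := by
    calc 2 ^ m.natAbs.primeFactors.card = ∏ _p ∈ m.natAbs.primeFactors, 2 := by
          rw [Finset.prod_const]
      _ ≤ ∏ p ∈ m.natAbs.primeFactors, p := by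
          apply Finset.prod_le_prod'
          intro p hp
          exact (Nat.prime_of_mem_primeFactors hp).two_le
      _ ≤ m.natAbs := Nat.le_of_dvd (Nat.pos_of_ne_zero hm') (Nat.prod_primeFactors_dvd _)
  calc (G.filter fun p : ℕ => (p : ℤ) ∣ m).card ≤ m.natAbs.primeFactors.card :=
        Finset.card_le_card h1
    _ = Nat.log 2 (2 ^ m.natAbs.primeFactors.card) := (Nat.log_pow (by norm_num) _).symm
    _ ≤ Nat.log 2 L := Nat.log_mono_right (h2.trans hL)

private theorem bad_asym (k : ℕ) {ε α η τ : ℝ} (hε : 0 < ε) (hα : 0 < α) (hη : 0 < η)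
    (hτ : 0 < τ) : ∃ N0 : ℕ, ∀ N ≥ N0, 1 ≤ N ∧ k * (N : ℝ) ^ (-ε) ≤ τ / 2 ∧
      2 / τ * (3 * (N : ℝ) ^ (-(α / 2)) * (1 + 2 * Real.logb 2 N)) ≤ η := by
  have h1 : Filter.Tendsto (fun x : ℝ => k * x ^ (-ε)) Filter.atTop (nhds (k * 0)) :=
    (tendsto_rpow_neg_atTop hε).const_mul _
  rw [mul_zero] at h1
  have h2 : Filter.Tendsto (fun x : ℝ => 2 / τ * (3 * (x ^ (-(α / 2)) + 2 / Real.log 2 *
      (Real.log x / x ^ (α / 2))))) Filter.atTop (nhds (2 / τ * (3 * (0 + 2 / Real.log 2 * 0)))) := by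
    apply Filter.Tendsto.const_mul
    apply Filter.Tendsto.const_mul
    apply Filter.Tendsto.add (tendsto_rpow_neg_atTop (by positivity))
    apply Filter.Tendsto.const_mul
    exact (isLittleO_log_rpow_atTop (by positivity : (0 : ℝ) < α / 2)).tendsto_div_nhds_zero
  simp only [mul_zero, add_zero] at h2
  have h3 := (h1.eventually (eventually_le_nhds (show (0 : ℝ) < τ / 2 by positivity))).and
    ((h2.eventually (eventually_le_nhds hη)).and (Filter.eventually_ge_atTop (1 : ℝ)))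
  have h4 := tendsto_natCast_atTop_atTop (R := ℝ) |>.eventually h3
  obtain ⟨N0, hN0⟩ := Filter.eventually_atTop.mp h4
  refine ⟨N0, fun N hN => ?_⟩
  obtain ⟨h5, h6, h7⟩ := hN0 N hN
  refine ⟨by exact_mod_cast h7, h5, ?_⟩
  refine le_trans (le_of_eq ?_) h6
  have h8 : (0 : ℝ) < N := by linarith
  rw [Real.rpow_neg h8.le, Real.logb]
  have h9 : (N : ℝ) ^ (α / 2) ≠ 0 := (Real.rpow_pos_of_pos h8 _).ne'
  have h10 : Real.log 2 ≠ 0 := (Real.log_pos (by norm_num)).ne'
  field_simp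

theorem bad (k : ℕ) {ε α η τ : ℝ} (hε : 0 < ε) (hα : 0 < α) (hη : 0 < η) (hτ : 0 < τ) :
    ∃ δ : ℝ, 0 < δ ∧ ∃ N0 : ℕ, ∀ N ≥ N0, ∀ H : ℕ, (H : ℝ) ≤ (N : ℝ) ^ δ →
      ∀ w : ℕ → ℝ, Wt N ((N : ℝ) ^ (-ε)) w →
      ∀ G : Finset ℕ, (∀ p ∈ G, p.Prime ∧ (N : ℝ) ^ α < p) →
      ∀ Sc : ℕ → Finset ℚ, (∀ p ∈ G, (Sc p).card ≤ k ∧ Sc p ⊆ cen H) →
      ∑ p ∈ G.filter (fun p : ℕ => τ < ∑ n ∈ (Finset.Icc 1 N).filter
        (fun n : ℕ => ∃ c ∈ Sc p, (p : ℤ) ∣ Lf c 1 n), w n), (1 : ℝ) / p ≤ η := by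
  obtain ⟨N0, hN0⟩ := bad_asym k hε hα hη hτ
  refine ⟨min (α / 4) 1, by positivity, N0, ?_⟩
  intro N hN H hH w hw G hG Sc hSc
  obtain ⟨hN1, hk, hη'⟩ := hN0 N hN
  have hN1' : (1 : ℝ) ≤ N := by exact_mod_cast hN1
  have hNpos : (0 : ℝ) < N := by linarith
  have hHN : (H : ℝ) ≤ N := by
    refine hH.trans ?_
    calc (N : ℝ) ^ (min (α / 4) 1) ≤ (N : ℝ) ^ (1 : ℝ) :=
          Real.rpow_le_rpow_of_exponent_le hN1' (min_le_right _ _)
      _ = N := Real.rpow_one _
  have hH4 : (H : ℝ) ≤ (N : ℝ) ^ (α / 4) := by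
    refine hH.trans ?_
    exact Real.rpow_le_rpow_of_exponent_le hN1' (min_le_left _ _)
  -- the two parts
  set V : ℕ → ℝ := fun p => ∑ c ∈ cen H, ∑ n ∈ Finset.Icc 1 N,
    (if Lf c 1 n ≠ 0 ∧ (p : ℤ) ∣ Lf c 1 n then w n else 0) with hV
  have hzero : ∀ c : ℚ, ∑ n ∈ Finset.Icc 1 N, (if Lf c 1 n = 0 then w n else 0) ≤
      (N : ℝ) ^ (-ε) := by
    intro c
    rw [← Finset.sum_filter]
    have h1 : ((Finset.Icc 1 N).filter fun n : ℕ => Lf c 1 n = 0).card ≤ 1 := by
      rw [Finset.card_le_one]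
      intro a ha b hb
      rw [Finset.mem_filter] at ha hb
      have h2 := ha.2
      have h3 := hb.2
      unfold Lf at h2 h3
      have h4 : (c.den : ℤ) * a = (c.den : ℤ) * b := by linarith
      have h5 : (c.den : ℤ) ≠ 0 := by exact_mod_cast c.den_nz
      exact_mod_cast mul_left_cancel₀ h5 h4
    calc ∑ n ∈ (Finset.Icc 1 N).filter (fun n : ℕ => Lf c 1 n = 0), w n
        ≤ ∑ _n ∈ (Finset.Icc 1 N).filter (fun n : ℕ => Lf c 1 n = 0), (N : ℝ) ^ (-ε) := by
          apply Finset.sum_le_sum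
          intro n hn
          exact hw.le n (Finset.mem_of_mem_filter n hn)
      _ = ((Finset.Icc 1 N).filter fun n : ℕ => Lf c 1 n = 0).card * (N : ℝ) ^ (-ε) := by
          rw [Finset.sum_const, nsmul_eq_mul]
      _ ≤ 1 * (N : ℝ) ^ (-ε) := by
          apply mul_le_mul_of_nonneg_right _ (Real.rpow_nonneg hNpos.le _)
          exact_mod_cast h1
      _ = _ := one_mul _
  have hW : ∀ p ∈ G, ∑ n ∈ (Finset.Icc 1 N).filter
      (fun n : ℕ => ∃ c ∈ Sc p, (p : ℤ) ∣ Lf c 1 n), w n ≤ V p + k * (N : ℝ) ^ (-ε) := by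
    intro p hp
    obtain ⟨hk1, hk2⟩ := hSc p hp
    calc ∑ n ∈ (Finset.Icc 1 N).filter (fun n : ℕ => ∃ c ∈ Sc p, (p : ℤ) ∣ Lf c 1 n), w n
        = ∑ n ∈ Finset.Icc 1 N, (if ∃ c ∈ Sc p, (p : ℤ) ∣ Lf c 1 n then w n else 0) := by
          rw [Finset.sum_filter]
      _ ≤ ∑ n ∈ Finset.Icc 1 N, ∑ c ∈ Sc p,
          ((if Lf c 1 n ≠ 0 ∧ (p : ℤ) ∣ Lf c 1 n then w n else 0) +
            (if Lf c 1 n = 0 then w n else 0)) := by
          apply Finset.sum_le_sum
          intro n _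
          have hnn : ∀ c ∈ Sc p, 0 ≤ ((if Lf c 1 n ≠ 0 ∧ (p : ℤ) ∣ Lf c 1 n then w n else 0) +
            (if Lf c 1 n = 0 then w n else 0)) := by
            intro c _
            have := hw.nonneg n
            split_ifs <;> linarith
          split_ifs with hex
          · obtain ⟨c, hc, hcd⟩ := hex
            refine le_trans ?_ (Finset.single_le_sum hnn hc)
            by_cases h0 : Lf c 1 n = 0
            · simp [h0]
            · simp [h0, hcd]
          · exact Finset.sum_nonneg hnn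
      _ = ∑ c ∈ Sc p, ((∑ n ∈ Finset.Icc 1 N,
            (if Lf c 1 n ≠ 0 ∧ (p : ℤ) ∣ Lf c 1 n then w n else 0)) +
            ∑ n ∈ Finset.Icc 1 N, (if Lf c 1 n = 0 then w n else 0)) := by
          rw [Finset.sum_comm]
          exact Finset.sum_congr rfl fun c _ => Finset.sum_add_distrib
      _ = ∑ c ∈ Sc p, (∑ n ∈ Finset.Icc 1 N,
            (if Lf c 1 n ≠ 0 ∧ (p : ℤ) ∣ Lf c 1 n then w n else 0)) +
            ∑ c ∈ Sc p, ∑ n ∈ Finset.Icc 1 N, (if Lf c 1 n = 0 then w n else 0) :=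
          Finset.sum_add_distrib
      _ ≤ V p + k * (N : ℝ) ^ (-ε) := by
          apply add_le_add
          · apply Finset.sum_le_sum_of_subset_of_nonneg hk2
            intro c _ _
            apply Finset.sum_nonneg
            intro n _
            have := hw.nonneg n
            split_ifs <;> linarith
          · calc ∑ c ∈ Sc p, ∑ n ∈ Finset.Icc 1 N, (if Lf c 1 n = 0 then w n else 0)
                ≤ ∑ _c ∈ Sc p, (N : ℝ) ^ (-ε) := Finset.sum_le_sum fun c _ => hzero c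
              _ = (Sc p).card * (N : ℝ) ^ (-ε) := by rw [Finset.sum_const, nsmul_eq_mul]
              _ ≤ k * (N : ℝ) ^ (-ε) := by
                  apply mul_le_mul_of_nonneg_right _ (Real.rpow_nonneg hNpos.le _)
                  exact_mod_cast hk1
  have hV0 : ∀ p, 0 ≤ V p := by
    intro p
    apply Finset.sum_nonneg
    intro c _
    apply Finset.sum_nonneg
    intro n _
    have := hw.nonneg n
    split_ifs <;> linarith
  -- total of V
  have hVsum : ∑ p ∈ G, V p ≤ (cen H).card * (Nat.log 2 (2 * H * N) : ℝ) := by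
    calc ∑ p ∈ G, V p = ∑ c ∈ cen H, ∑ n ∈ Finset.Icc 1 N, ∑ p ∈ G,
          (if Lf c 1 n ≠ 0 ∧ (p : ℤ) ∣ Lf c 1 n then w n else 0) := by
          rw [hV]
          simp only
          rw [Finset.sum_comm]
          exact Finset.sum_congr rfl fun c _ => Finset.sum_comm
      _ ≤ ∑ c ∈ cen H, ∑ n ∈ Finset.Icc 1 N, (Nat.log 2 (2 * H * N) : ℝ) * w n := by
          apply Finset.sum_le_sum
          intro c hc
          apply Finset.sum_le_sum
          intro n hn
          have hwn := hw.nonneg n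
          by_cases h0 : Lf c 1 n = 0
          · simp only [h0, ne_eq, not_true_eq_false, false_and, if_false, Finset.sum_const_zero]
            positivity
          · have h1 : ∑ p ∈ G, (if Lf c 1 n ≠ 0 ∧ (p : ℤ) ∣ Lf c 1 n then w n else 0) =
                ((G.filter fun p : ℕ => (p : ℤ) ∣ Lf c 1 n).card : ℝ) * w n := by
              rw [← nsmul_eq_mul, ← Finset.sum_const, Finset.sum_filter]
              exact Finset.sum_congr rfl fun p _ => by simp [h0]
            rw [h1]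
            apply mul_le_mul_of_nonneg_right _ hwn
            have h2 := Lf_le hc (Or.inl rfl) hn
            have h3 : (Lf c 1 n).natAbs ≤ 2 * H * N := by
              rw [Int.abs_eq_natAbs] at h2
              exact_mod_cast h2
            exact_mod_cast bad_card G (fun p hp => (hG p hp).1) _ h0 _ h3
      _ = (cen H).card * (Nat.log 2 (2 * H * N) : ℝ) := by
          rw [Finset.sum_const, nsmul_eq_mul, ← Finset.mul_sum, hw.sum, mul_one]
  -- conclusion
  have hcen : ((cen H).card : ℝ) ≤ 3 * (N : ℝ) ^ (α / 2) := by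
    have h1 : ((cen H).card : ℝ) ≤ (2 * H + 1) * H := by exact_mod_cast cen_card H
    have h2 : (2 * (H : ℝ) + 1) * H ≤ 3 * ((H : ℝ) * H) := by
      rcases Nat.eq_zero_or_pos H with h | h
      · simp [h]
      · have h3 : (1 : ℝ) ≤ H := by exact_mod_cast h
        nlinarith
    have h3 : (H : ℝ) * H ≤ (N : ℝ) ^ (α / 4) * (N : ℝ) ^ (α / 4) :=
      mul_le_mul hH4 hH4 (Nat.cast_nonneg _) (Real.rpow_nonneg hNpos.le _)
    rw [← Real.rpow_add hNpos, show α / 4 + α / 4 = α / 2 by ring] at h3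
    linarith
  have hlog : (Nat.log 2 (2 * H * N) : ℝ) ≤ 1 + 2 * Real.logb 2 N := by
    rcases Nat.eq_zero_or_pos H with h | h
    · have h1 : 0 ≤ Real.logb 2 N := Real.logb_nonneg (by norm_num) hN1'
      simp only [h, mul_zero, zero_mul, Nat.log_zero_right, Nat.cast_zero]
      linarith
    · have h3 : (1 : ℝ) ≤ H := by exact_mod_cast h
      have h1 : (Nat.log 2 (2 * H * N) : ℝ) ≤ Real.logb 2 ((2 * H * N : ℕ) : ℝ) :=
        Real.natLog_le_logb _ _
      refine h1.trans ?_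
      have h2 : ((2 * H * N : ℕ) : ℝ) ≤ 2 * (N * N) := by
        push_cast
        nlinarith
      calc Real.logb 2 ((2 * H * N : ℕ) : ℝ) ≤ Real.logb 2 (2 * (N * N)) := by
            apply Real.logb_le_logb_of_le (by norm_num) _ h2
            push_cast
            positivity
        _ = _ := by
            rw [Real.logb_mul (by norm_num) (by positivity), Real.logb_mul hNpos.ne' hNpos.ne',
              Real.logb_self_eq_one (by norm_num)]
            ring
  set F := G.filter (fun p : ℕ => τ < ∑ n ∈ (Finset.Icc 1 N).filter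
        (fun n : ℕ => ∃ c ∈ Sc p, (p : ℤ) ∣ Lf c 1 n), w n) with hF
  have hlog0 : 0 ≤ 1 + 2 * Real.logb 2 N := by
    have h1 : 0 ≤ Real.logb 2 N := Real.logb_nonneg (by norm_num) hN1'
    linarith
  calc ∑ p ∈ F, (1 : ℝ) / p ≤ ∑ p ∈ F, 2 / τ * ((N : ℝ) ^ (-α) * V p) := by
        apply Finset.sum_le_sum
        intro p hp
        rw [hF, Finset.mem_filter] at hp
        obtain ⟨hpG, hpτ⟩ := hp
        have h1 := hW p hpG
        have h2 : τ / 2 ≤ V p := by linarith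
        have h3 : (1 : ℝ) / p ≤ (N : ℝ) ^ (-α) := by
          rw [Real.rpow_neg hNpos.le, ← one_div]
          exact one_div_le_one_div_of_le (Real.rpow_pos_of_pos hNpos _) (hG p hpG).2.le
        have h4 : 1 ≤ 2 / τ * V p := by
          rw [div_mul_eq_mul_div, le_div_iff₀ hτ]
          linarith
        calc (1 : ℝ) / p ≤ (N : ℝ) ^ (-α) := h3
          _ = (N : ℝ) ^ (-α) * 1 := (mul_one _).symm
          _ ≤ (N : ℝ) ^ (-α) * (2 / τ * V p) :=
              mul_le_mul_of_nonneg_left h4 (Real.rpow_nonneg hNpos.le _)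
          _ = _ := by ring
    _ ≤ ∑ p ∈ G, 2 / τ * ((N : ℝ) ^ (-α) * V p) := by
        apply Finset.sum_le_sum_of_subset_of_nonneg (Finset.filter_subset _ _)
        intro p _ _
        have := hV0 p
        positivity
    _ = 2 / τ * ((N : ℝ) ^ (-α) * ∑ p ∈ G, V p) := by
        rw [Finset.mul_sum, Finset.mul_sum]
    _ ≤ 2 / τ * ((N : ℝ) ^ (-α) * (3 * (N : ℝ) ^ (α / 2) * (1 + 2 * Real.logb 2 N))) := by
        apply mul_le_mul_of_nonneg_left _ (by positivity)
        apply mul_le_mul_of_nonneg_left _ (Real.rpow_nonneg hNpos.le _)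
        refine hVsum.trans ?_
        exact mul_le_mul hcen hlog (Nat.cast_nonneg _) (by positivity)
    _ = 2 / τ * (3 * (N : ℝ) ^ (-(α / 2)) * (1 + 2 * Real.logb 2 N)) := by
        have h1 : (N : ℝ) ^ (-(α / 2)) = (N : ℝ) ^ (-α) * (N : ℝ) ^ (α / 2) := by
          rw [← Real.rpow_add hNpos]
          congr 1
          ring
        rw [h1]
        ring
    _ ≤ η := hη'

end H95.IS
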