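import Pool.Agent.H95.IS.Joint

/-!
# IS-BIG2A: the classes of a type with at least two centres are small (explicit form)

Let `t₁ ≠ t₂ ∈ T`, so their centres `c₁, c₂` are different, and put `Δ = ∏_{(s,s') ∈ T × T, s ≠ s'} |den s · num s' - den s' · num s|`, a positive
integer `≤ (2H²)^(k²)` (`det_ne`, `det_le`; `1 ≤ 2H²` since `cen H` is not empty). We may assume that the class is not empty, so
`1 ≤ t ≤ gT T n ≤ (2HN)^(lk)` (`fr_le`, `gT_le`). Put `D = (t Δ)^(l-1)`.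
Claim: for `n` in the class and `i = 1, 2`: `fr l (Lf_i n) ∣ D`, `Lf_i n = Lf c_i σ_i n`. By `fr_dvd_pow` it is enough that every prime
`q ∣ fr l (Lf_i n)` divides `t Δ`. If `q` divides some other `Lf_s n`, `s ∈ T`, `s ≠ t_i`, then `q` divides
`den_s · (den_i n - num_i) - den_i · (den_s n - num_s) = den_i num_s - den_s num_i`, so `q ∣ Δ`. Otherwise
`v_q(gT T n) = j_i v_q(Lf_i n)`, and `l ∤ v_q(Lf_i n)` (`dvd_fr_iff`), `1 ≤ j_i < l`, so `l ∤ v_q(gT T n)` and `q ∣ fr l (gT T n) = t`.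
So the class is covered by the sets `{n : fr (Lf_1 n) = d₁, fr (Lf_2 n) = d₂}` with `d₁, d₂ ∣ D`, and `joint`.
-/

set_option autoImplicit false
open scoped Classical

namespace H95.IS

private theorem big2a_dvd {l : ℕ} (hl : l.Prime) {k H : ℕ} {T : Finset (ℚ × ℤ × ℕ)}
    (hT : T ∈ typs l k H) (t Δ : ℕ) (ht : t ≠ 0) (hΔ : Δ ≠ 0)
    (hdet : ∀ s ∈ T, ∀ s' ∈ T, s ≠ s' →
      ((s.1.den : ℤ) * s'.1.num - (s'.1.den : ℤ) * s.1.num).natAbs ∣ Δ)
    (n : ℕ) (hn : dom T n) (hnt : fr l (gT T n).toNat = t) (s : ℚ × ℤ × ℕ) (hs : s ∈ T) :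
    fr l (Lf s.1 s.2.1 n).toNat ∣ (t * Δ) ^ (l - 1) := by
  obtain ⟨-, -, -, hT4⟩ := mem_typs hT
  set g : ℚ × ℤ × ℕ → ℕ := fun s => (Lf s.1 s.2.1 n).toNat with hg
  have hgc : ∀ s ∈ T, ((g s : ℕ) : ℤ) = Lf s.1 s.2.1 n := fun s hs =>
    Int.toNat_of_nonneg (hn s hs).le
  have hg0 : ∀ s ∈ T, g s ≠ 0 := by
    intro s hs h0
    have h1 := hgc s hs
    rw [h0] at h1
    have h2 := hn s hs
    rw [← h1] at h2
    simp at h2
  have hgT : (gT T n).toNat = ∏ s ∈ T, g s ^ s.2.2 := by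
    have h1 : gT T n = ((∏ s ∈ T, g s ^ s.2.2 : ℕ) : ℤ) := by
      unfold gT
      push_cast
      exact Finset.prod_congr rfl fun s hs => by rw [hgc s hs]
    rw [h1, Int.toNat_natCast]
  apply fr_dvd_pow hl.pos (mul_ne_zero ht hΔ)
  intro q hq hqd
  have hqs : q ∣ g s := hqd.trans (fr_dvd l (hg0 s hs))
  by_cases hex : ∃ s' ∈ T, s' ≠ s ∧ q ∣ g s'
  · obtain ⟨s', hs', hne, hqs'⟩ := hex
    have key : ∀ r ∈ T, q ∣ g r → (q : ℤ) ∣ (r.1.den : ℤ) * n - r.1.num := by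
      intro r hr hqr
      have h1 : (q : ℤ) ∣ Lf r.1 r.2.1 n := by
        rw [← hgc r hr]
        exact_mod_cast hqr
      unfold Lf at h1
      rcases (hT4 r hr).2.1 with h2 | h2
      · rw [h2, one_mul] at h1
        exact h1
      · rw [h2, neg_one_mul, dvd_neg] at h1
        exact h1
    have h1 := key s hs hqs
    have h2 := key s' hs' hqs'
    have h3 : (q : ℤ) ∣ (s.1.den : ℤ) * s'.1.num - (s'.1.den : ℤ) * s.1.num := by
      have h4 : (s.1.den : ℤ) * s'.1.num - (s'.1.den : ℤ) * s.1.num =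
          (s'.1.den : ℤ) * ((s.1.den : ℤ) * n - s.1.num)
            - (s.1.den : ℤ) * ((s'.1.den : ℤ) * n - s'.1.num) := by ring
      rw [h4]
      exact dvd_sub (h1.mul_left _) (h2.mul_left _)
    have h5 : q ∣ ((s.1.den : ℤ) * s'.1.num - (s'.1.den : ℤ) * s.1.num).natAbs :=
      Int.natCast_dvd.mp h3
    exact (h5.trans (hdet s hs s' hs' (Ne.symm hne))).mul_left t
  · push Not at hex
    apply Dvd.dvd.mul_right
    rw [← hnt, dvd_fr_iff l _ hq, hgT, ← Finset.mul_prod_erase T _ hs]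
    have h1 : ¬ q ∣ ∏ x ∈ T.erase s, g x ^ x.2.2 := by
      rw [hq.prime.dvd_finsetProd_iff]
      rintro ⟨a, ha, had⟩
      rw [Finset.mem_erase] at ha
      exact hex a ha.2 ha.1 (hq.dvd_of_dvd_pow had)
    have h2 : ∏ x ∈ T.erase s, g x ^ x.2.2 ≠ 0 := by
      apply Finset.prod_ne_zero_iff.mpr
      intro a ha
      exact pow_ne_zero _ (hg0 a (Finset.mem_of_mem_erase ha))
    rw [Nat.factorization_mul (pow_ne_zero _ (hg0 s hs)) h2, Nat.factorization_pow]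
    simp only [Finsupp.coe_add, Finsupp.coe_smul, Pi.add_apply, Pi.smul_apply, smul_eq_mul]
    rw [Nat.factorization_eq_zero_of_not_dvd h1, add_zero]
    intro hdv
    have h3 := (dvd_fr_iff l (g s) hq).mp hqd
    rcases hl.dvd_mul.mp hdv with h4 | h4
    · have h5 := (hT4 s hs).2.2
      have := Nat.le_of_dvd (by omega) h4
      omega
    · exact h3 h4

theorem big2a {l : ℕ} (hl : l.Prime) {k H N : ℕ} (hN : 1 ≤ N) {T : Finset (ℚ × ℤ × ℕ)}
    (hT : T ∈ typs l k H) (hT2 : 2 ≤ T.card) (t : ℕ) :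
    ∃ D : ℕ, 1 ≤ D ∧ D ≤ ((2 * H * N) ^ (l * k) * (2 * H ^ 2) ^ (k * k)) ^ (l - 1) ∧
      ((Finset.Icc 1 N).filter (fun n : ℕ => dom T n ∧ fr l (gT T n).toNat = t)).card ≤
        D.divisors.card ^ 2 * (16 * H ^ 4 * (Nat.log 2 (2 * H * N) + 1)) := by
  obtain ⟨hT1, hTk, hTd, hT4⟩ := mem_typs hT
  obtain ⟨t1, ht1, t2, ht2, hne⟩ := Finset.one_lt_card.mp (show 1 < T.card by omega)
  have hc12 : t1.1 ≠ t2.1 := fun h => hne (hTd t1 ht1 t2 ht2 h)
  have hH : 1 ≤ H := by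
    have h1 := ((mem_cen_iff H t1.1).mp (hT4 t1 ht1).1).2
    have h2 := t1.1.den_pos
    omega
  rcases Finset.eq_empty_or_nonempty
    ((Finset.Icc 1 N).filter (fun n : ℕ => dom T n ∧ fr l (gT T n).toNat = t)) with he | ⟨n0, hn0⟩
  · refine ⟨1, le_rfl, ?_, ?_⟩
    · exact Nat.one_le_pow _ _ (by positivity)
    · rw [he]
      simp
  · rw [Finset.mem_filter] at hn0
    obtain ⟨hn0N, hn0d, hn0t⟩ := hn0
    set Δ : ℕ := ∏ p ∈ T.offDiag,
      ((p.1.1.den : ℤ) * p.2.1.num - (p.2.1.den : ℤ) * p.1.1.num).natAbs with hΔ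
    have hΔ0 : Δ ≠ 0 := by
      rw [hΔ, Finset.prod_ne_zero_iff]
      intro p hp
      rw [Finset.mem_offDiag] at hp
      rw [Int.natAbs_ne_zero]
      exact det_ne fun h => hp.2.2 (hTd _ hp.1 _ hp.2.1 h)
    have hΔle : Δ ≤ (2 * H ^ 2) ^ (k * k) := by
      calc Δ ≤ ∏ _p ∈ T.offDiag, (2 * H ^ 2) := by
            apply Finset.prod_le_prod'
            intro p hp
            rw [Finset.mem_offDiag] at hp
            have h1 := det_le (hT4 _ hp.1).1 (hT4 _ hp.2.1).1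
            rw [Int.abs_eq_natAbs] at h1
            exact_mod_cast h1
        _ = (2 * H ^ 2) ^ T.offDiag.card := by rw [Finset.prod_const]
        _ ≤ (2 * H ^ 2) ^ (k * k) := by
            apply Nat.pow_le_pow_right (by positivity)
            rw [Finset.offDiag_card]
            exact (Nat.sub_le _ _).trans (Nat.mul_le_mul hTk hTk)
    have ht0 : 0 < t := by rw [← hn0t]; exact fr_pos _ _
    have htle : t ≤ (2 * H * N) ^ (l * k) := by
      have h1 := gT_pos hn0d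
      have h2 := gT_le hT hn0N hn0d
      have h3 : (gT T n0).toNat ≠ 0 := by omega
      have h4 := fr_le l h3
      rw [hn0t] at h4
      have h5 : (gT T n0).toNat ≤ (2 * H * N) ^ (l * k) := by
        zify
        rw [Int.toNat_of_nonneg h1.le]
        exact h2
      omega
    refine ⟨(t * Δ) ^ (l - 1), ?_, ?_, ?_⟩
    · exact Nat.one_le_pow _ _ (Nat.pos_of_ne_zero (mul_ne_zero ht0.ne' hΔ0))
    · exact Nat.pow_le_pow_left (Nat.mul_le_mul htle hΔle) _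
    · set D := (t * Δ) ^ (l - 1) with hD
      have hD0 : D ≠ 0 := pow_ne_zero _ (mul_ne_zero ht0.ne' hΔ0)
      have hsub : ((Finset.Icc 1 N).filter
          (fun n : ℕ => dom T n ∧ fr l (gT T n).toNat = t)) ⊆
          (D.divisors ×ˢ D.divisors).biUnion (fun d => (Finset.Icc 1 N).filter (fun n : ℕ =>
            (0 < Lf t1.1 t1.2.1 n ∧ fr l (Lf t1.1 t1.2.1 n).toNat = d.1) ∧
            (0 < Lf t2.1 t2.2.1 n ∧ fr l (Lf t2.1 t2.2.1 n).toNat = d.2))) := by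
        intro n hn
        rw [Finset.mem_filter] at hn
        obtain ⟨hnN, hnd, hnt⟩ := hn
        have hdet : ∀ s ∈ T, ∀ s' ∈ T, s ≠ s' →
            ((s.1.den : ℤ) * s'.1.num - (s'.1.den : ℤ) * s.1.num).natAbs ∣ Δ := by
          intro s hs s' hs' hss
          exact Finset.dvd_prod_of_mem
            (fun p : (ℚ × ℤ × ℕ) × (ℚ × ℤ × ℕ) =>
              ((p.1.1.den : ℤ) * p.2.1.num - (p.2.1.den : ℤ) * p.1.1.num).natAbs)
            (Finset.mem_offDiag.mpr (⟨hs, hs', hss⟩ : (s, s').1 ∈ T ∧ (s, s').2 ∈ T ∧ _))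
        rw [Finset.mem_biUnion]
        refine ⟨(fr l (Lf t1.1 t1.2.1 n).toNat, fr l (Lf t2.1 t2.2.1 n).toNat), ?_, ?_⟩
        · rw [Finset.mem_product, Nat.mem_divisors, Nat.mem_divisors]
          exact ⟨⟨big2a_dvd hl hT t Δ ht0.ne' hΔ0 hdet n hnd hnt t1 ht1, hD0⟩,
            ⟨big2a_dvd hl hT t Δ ht0.ne' hΔ0 hdet n hnd hnt t2 ht2, hD0⟩⟩
        · rw [Finset.mem_filter]
          exact ⟨hnN, ⟨hnd t1 ht1, rfl⟩, ⟨hnd t2 ht2, rfl⟩⟩
      refine (Finset.card_le_card hsub).trans ?_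
      refine (Finset.card_biUnion_le_card_mul _ _ (16 * H ^ 4 * (Nat.log 2 (2 * H * N) + 1))
        ?_).trans ?_
      · intro d _
        exact joint hl.two_le N H (hT4 t1 ht1).1 (hT4 t2 ht2).1 hc12 (hT4 t1 ht1).2.1
          (hT4 t2 ht2).2.1 d.1 d.2
      · rw [Finset.card_product, sq]

end H95.IS
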