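import Pool.Agent.H92.DivBound
import Pool.Agent.H95.IS.Big2a

/-!
# IS-BIG2B: asymptotic forms of `joint` and `big2a`

`Pool.Agent.H5.W.divisor_bound`: `D.divisors.card ≤ C D^e` for every `e > 0`. With `δ ≤ 1`, `H ≤ N^δ ≤ N`: `D ≤ N^Q` with `Q = Q(l,k)`
(`2HN ≤ N^3`, `2H² ≤ N^3` for `N ≥ 2`), so with `e = ξ/(8(Q+1))`: `D.divisors.card² ≤ C² N^(ξ/4)`. `16 H⁴ ≤ 16 N^(4δ)`, `δ = min(1, ξ/32)`, and
`Nat.log 2 (2HN) + 1 ≤ C' log N`; `C'' N^(ξ/4 + ξ/8) log N ≤ N^ξ` for `N ≥ N0`.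
-/

set_option autoImplicit false
open scoped Classical

namespace H95.IS

/-- size of the intersection of two classes -/
def jb (H N : ℕ) : ℕ := 16 * H ^ 4 * (Nat.log 2 (2 * H * N) + 1)

private theorem b2_log {c : ℝ} (hc : 0 < c) (C : ℝ) :
    ∃ N0 : ℕ, ∀ N ≥ N0, C * (Real.log (N : ℝ) + 1) ≤ (N : ℝ) ^ c := by
  have h1 : (fun x : ℝ => Real.log x) =o[Filter.atTop] fun x : ℝ => x ^ c :=
    isLittleO_log_rpow_atTop hc
  have h2 : (fun _ : ℝ => (1 : ℝ)) =o[Filter.atTop] fun x : ℝ => x ^ c := by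
    rw [Asymptotics.isLittleO_const_left]
    right
    exact Filter.tendsto_abs_atTop_atTop.comp (tendsto_rpow_atTop hc)
  have h3 := (h1.add h2).const_mul_left C
  have h4 := h3.bound one_pos
  have h5 := tendsto_natCast_atTop_atTop.eventually h4
  obtain ⟨N0, hN0⟩ := Filter.eventually_atTop.mp h5
  refine ⟨N0, fun N hN => ?_⟩
  have h6 := hN0 N hN
  rw [one_mul, Real.norm_eq_abs, Real.norm_eq_abs,
    abs_of_nonneg (Real.rpow_nonneg (Nat.cast_nonneg N) c)] at h6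
  exact (le_abs_self _).trans h6

private theorem b2_HN {δ : ℝ} (hδ : δ ≤ 1) {N H : ℕ} (hN : 2 ≤ N) (hH : (H : ℝ) ≤ (N : ℝ) ^ δ) :
    H ≤ N := by
  have hN1 : (1 : ℝ) ≤ N := by exact_mod_cast (by omega : 1 ≤ N)
  have h1 : (H : ℝ) ≤ N := by
    calc (H : ℝ) ≤ (N : ℝ) ^ δ := hH
      _ ≤ (N : ℝ) ^ (1 : ℝ) := Real.rpow_le_rpow_of_exponent_le hN1 hδ
      _ = N := Real.rpow_one _
  exact_mod_cast h1

theorem jb_small {ξ : ℝ} (hξ : 0 < ξ) : ∃ δ : ℝ, 0 < δ ∧ ∃ N0 : ℕ, ∀ N ≥ N0, ∀ H : ℕ,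
    (H : ℝ) ≤ (N : ℝ) ^ δ → (jb H N : ℝ) ≤ (N : ℝ) ^ ξ := by
  obtain ⟨N0, hN0⟩ := b2_log (c := ξ / 2) (by positivity) (16 * (3 / Real.log 2 + 1))
  refine ⟨min 1 (ξ / 8), lt_min one_pos (by positivity), max N0 2, fun N hN H hH => ?_⟩
  have hN2 : 2 ≤ N := (le_max_right _ _).trans hN
  have hN1 : (1 : ℝ) ≤ N := by exact_mod_cast (by omega : 1 ≤ N)
  have hHN : H ≤ N := b2_HN (min_le_left _ _) hN2 hH
  have h2 : 2 * H * N ≤ N ^ 3 := by
    calc 2 * H * N ≤ N * N * N := Nat.mul_le_mul_right _ (Nat.mul_le_mul hN2 hHN)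
      _ = N ^ 3 := by ring
  have hl2 : 0 < Real.log 2 := Real.log_pos (by norm_num)
  have hlN : 0 ≤ Real.log N := Real.log_nonneg hN1
  have h3 : (Nat.log 2 (2 * H * N) : ℝ) ≤ 3 * (Real.log N / Real.log 2) := by
    calc (Nat.log 2 (2 * H * N) : ℝ) ≤ (Nat.log 2 (N ^ 3) : ℝ) := by
          exact_mod_cast Nat.log_mono_right h2
      _ ≤ Real.logb 2 ((N ^ 3 : ℕ) : ℝ) := by
          exact_mod_cast Real.natLog_le_logb (N ^ 3) 2
      _ = 3 * (Real.log N / Real.log 2) := by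
          rw [Real.logb]
          push_cast
          rw [Real.log_pow]
          push_cast
          ring
  have h4 : (H : ℝ) ^ 4 ≤ (N : ℝ) ^ (ξ / 2) := by
    calc (H : ℝ) ^ 4 ≤ ((N : ℝ) ^ (min 1 (ξ / 8))) ^ 4 :=
          pow_le_pow_left₀ (Nat.cast_nonneg H) hH 4
      _ = (N : ℝ) ^ (min 1 (ξ / 8) * 4) := by
          rw [← Real.rpow_natCast, ← Real.rpow_mul (by positivity)]
          norm_num
      _ ≤ (N : ℝ) ^ (ξ / 2) := by
          apply Real.rpow_le_rpow_of_exponent_le hN1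
          linarith [min_le_right 1 (ξ / 8)]
  have h5 := hN0 N ((le_max_left _ _).trans hN)
  have h6 : 16 * ((Nat.log 2 (2 * H * N) : ℝ) + 1) ≤ (N : ℝ) ^ (ξ / 2) := by
    refine le_trans ?_ h5
    have h7 : 0 ≤ 3 / Real.log 2 := by positivity
    have h8 : 3 * (Real.log N / Real.log 2) = 3 / Real.log 2 * Real.log N := by ring
    rw [h8] at h3
    nlinarith
  have h9 : (jb H N : ℝ) = (H : ℝ) ^ 4 * (16 * ((Nat.log 2 (2 * H * N) : ℝ) + 1)) := by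
    unfold jb
    push_cast
    ring
  rw [h9]
  calc (H : ℝ) ^ 4 * (16 * ((Nat.log 2 (2 * H * N) : ℝ) + 1))
      ≤ (N : ℝ) ^ (ξ / 2) * (N : ℝ) ^ (ξ / 2) := by
        apply mul_le_mul h4 h6 (by positivity) (by positivity)
    _ = (N : ℝ) ^ ξ := by
        rw [← Real.rpow_add (by linarith)]
        congr 1
        ring

theorem big2 {l : ℕ} (hl : l.Prime) (k : ℕ) {ξ : ℝ} (hξ : 0 < ξ) : ∃ δ : ℝ, 0 < δ ∧
    ∃ N0 : ℕ, ∀ N ≥ N0, ∀ H : ℕ, (H : ℝ) ≤ (N : ℝ) ^ δ → ∀ T ∈ typs l k H, 2 ≤ T.card →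
      ∀ t : ℕ, (((Finset.Icc 1 N).filter
        (fun n : ℕ => dom T n ∧ fr l (gT T n).toNat = t)).card : ℝ) ≤ (N : ℝ) ^ ξ := by
  set Q : ℕ := (3 * (l * k) + 3 * (k * k)) * (l - 1) with hQ
  obtain ⟨C, hC, hdiv⟩ := Pool.Agent.H5.W.divisor_bound (ξ / (8 * (Q + 1))) (by positivity)
  obtain ⟨δ', hδ', N1, hN1⟩ := jb_small (ξ := ξ / 2) (by positivity)
  obtain ⟨N2, hN2⟩ := b2_log (c := ξ / 4) (by positivity) (C ^ 2)
  refine ⟨min 1 δ', lt_min one_pos hδ', max (max N1 N2) 2, fun N hN H hH T hT hT2 t => ?_⟩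
  have hN2' : 2 ≤ N := (le_max_right _ _).trans hN
  have hN1' : (1 : ℝ) ≤ N := by exact_mod_cast (by omega : 1 ≤ N)
  have hHN : H ≤ N := b2_HN (min_le_left _ _) hN2' hH
  have hHδ : (H : ℝ) ≤ (N : ℝ) ^ δ' :=
    hH.trans (Real.rpow_le_rpow_of_exponent_le hN1' (min_le_right _ _))
  have hjb := hN1 N (((le_max_left _ _).trans (le_max_left _ _)).trans hN) H hHδ
  have hlog := hN2 N (((le_max_right _ _).trans (le_max_left _ _)).trans hN)
  obtain ⟨D, hD1, hD2, hD3⟩ := big2a hl (by omega : 1 ≤ N) hT hT2 t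
  have h2 : 2 * H * N ≤ N ^ 3 := by
    calc 2 * H * N ≤ N * N * N := Nat.mul_le_mul_right _ (Nat.mul_le_mul hN2' hHN)
      _ = N ^ 3 := by ring
  have h3 : 2 * H ^ 2 ≤ N ^ 3 := by
    calc 2 * H ^ 2 ≤ N * N ^ 2 := Nat.mul_le_mul hN2' (Nat.pow_le_pow_left hHN 2)
      _ = N ^ 3 := by ring
  have hDQ : D ≤ N ^ Q := by
    calc D ≤ ((2 * H * N) ^ (l * k) * (2 * H ^ 2) ^ (k * k)) ^ (l - 1) := hD2
      _ ≤ ((N ^ 3) ^ (l * k) * (N ^ 3) ^ (k * k)) ^ (l - 1) :=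
          Nat.pow_le_pow_left (Nat.mul_le_mul (Nat.pow_le_pow_left h2 _)
            (Nat.pow_le_pow_left h3 _)) _
      _ = N ^ Q := by
          rw [← pow_mul, ← pow_mul, ← pow_add, ← pow_mul]
  have h4 : (D.divisors.card : ℝ) ≤ C * (N : ℝ) ^ (ξ / 8) := by
    calc (D.divisors.card : ℝ) ≤ C * (D : ℝ) ^ (ξ / (8 * (Q + 1))) := hdiv D hD1
      _ ≤ C * (N : ℝ) ^ (ξ / 8) := by
          apply mul_le_mul_of_nonneg_left _ hC.le
          calc (D : ℝ) ^ (ξ / (8 * (Q + 1))) ≤ ((N : ℝ) ^ (Q : ℝ)) ^ (ξ / (8 * (Q + 1))) := by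
                apply Real.rpow_le_rpow (Nat.cast_nonneg D) _ (by positivity)
                rw [Real.rpow_natCast]
                exact_mod_cast hDQ
            _ = (N : ℝ) ^ ((Q : ℝ) * (ξ / (8 * (Q + 1)))) := by
                rw [← Real.rpow_mul (by positivity)]
            _ ≤ (N : ℝ) ^ (ξ / 8) := by
                apply Real.rpow_le_rpow_of_exponent_le hN1'
                have hQ0 : (0 : ℝ) ≤ Q := Nat.cast_nonneg Q
                have h5 : (Q : ℝ) * (ξ / (8 * (Q + 1))) = (ξ / 8) * (Q / (Q + 1)) := by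
                  field_simp
                rw [h5]
                have h6 : (Q : ℝ) / (Q + 1) ≤ 1 := by
                  rw [div_le_one (by positivity)]
                  linarith
                have h7 : 0 ≤ ξ / 8 := by positivity
                nlinarith
  have h5 : (D.divisors.card : ℝ) ^ 2 ≤ C ^ 2 * (N : ℝ) ^ (ξ / 4) := by
    calc (D.divisors.card : ℝ) ^ 2 ≤ (C * (N : ℝ) ^ (ξ / 8)) ^ 2 :=
          pow_le_pow_left₀ (Nat.cast_nonneg _) h4 2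
      _ = C ^ 2 * (N : ℝ) ^ (ξ / 4) := by
          rw [mul_pow, ← Real.rpow_natCast ((N : ℝ) ^ (ξ / 8)), ← Real.rpow_mul (by positivity)]
          congr 2
          push_cast
          ring
  have h6 : C ^ 2 ≤ (N : ℝ) ^ (ξ / 4) := by
    refine le_trans ?_ hlog
    have h7 : 0 ≤ Real.log N := Real.log_nonneg hN1'
    have h8 : 0 < C ^ 2 := by positivity
    nlinarith
  have h7 : ((((Finset.Icc 1 N).filter
        (fun n : ℕ => dom T n ∧ fr l (gT T n).toNat = t)).card : ℕ) : ℝ) ≤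
        (D.divisors.card : ℝ) ^ 2 * (jb H N : ℝ) := by
    unfold jb
    exact_mod_cast hD3
  calc ((((Finset.Icc 1 N).filter
        (fun n : ℕ => dom T n ∧ fr l (gT T n).toNat = t)).card : ℕ) : ℝ)
      ≤ (D.divisors.card : ℝ) ^ 2 * (jb H N : ℝ) := h7
    _ ≤ ((N : ℝ) ^ (ξ / 4) * (N : ℝ) ^ (ξ / 4)) * (N : ℝ) ^ (ξ / 2) := by
        apply mul_le_mul _ hjb (Nat.cast_nonneg _) (by positivity)
        refine h5.trans ?_
        apply mul_le_mul_of_nonneg_right h6 (by positivity)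
    _ = (N : ℝ) ^ ξ := by
        rw [← Real.rpow_add (by linarith), ← Real.rpow_add (by linarith)]
        congr 1
        ring

end H95.IS
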