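import Pool.Agent.H95.IS.Defs

/-!
# IS-CEN: elementary facts on the centres, the linear forms and the types

* `mem_cen_iff`: `c = num / den`; if `c = a / b` with `|a| ≤ H`, `1 ≤ b ≤ H` then `num ∣ a`, `den ∣ b` (`Rat.num_div_den`,
  `Rat.den_dvd`, `Rat.num_dvd`), if `a = 0` then `num = 0`, `den = 1`.
* `cen_card`: `Finset.card_image_le`, `(2H+1) H`.
* `typs_card`: a subset of cardinality `≤ k` of a set `U` is the image of a map `Fin k → Option U`... or: the number of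
  subsets of `U` of cardinality `≤ k` is `≤ (#U + 1) ^ k` (every such subset is the range of a function `Fin k → Option U`
  intersected with `U`; or induction on `k`: insert one element or nothing). `#U = #cen · 2 · (l-1)`.
* `Lf_le`: `|σ| = 1`, `den · n ≤ H N`, `|num| ≤ H ≤ H N`.
* `Lf_ne`: `c ≠ c'` gives `den c · num c' ≠ den c' · num c`.
* `gT_le`: `0 < Lf ≤ 2HN` on the domain, at most `k` factors with exponents `≤ l`; `2HN ≤ N^3` if `H ≤ N`, `2 ≤ N`.
-/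

set_option autoImplicit false

namespace H95.IS

theorem mem_cen_iff (H : ℕ) (c : ℚ) : c ∈ cen H ↔ |c.num| ≤ (H : ℤ) ∧ c.den ≤ H := by
  unfold cen
  rw [Finset.mem_image]
  constructor
  · rintro ⟨⟨a, b⟩, hab, rfl⟩
    rw [Finset.mem_product, Finset.mem_Icc, Finset.mem_Icc] at hab
    obtain ⟨⟨ha1, ha2⟩, hb1, hb2⟩ := hab
    simp only at ha1 ha2 hb1 hb2 ⊢
    have hb0 : (b : ℤ) ≠ 0 := by
      have : b ≠ 0 := by omega
      exact_mod_cast this
    have hq : ((a : ℚ) / (b : ℚ)) = Rat.divInt a b := by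
      rw [Rat.divInt_eq_div]
      push_cast
      rfl
    rw [hq]
    constructor
    · by_cases ha : a = 0
      · subst ha
        rw [Rat.zero_divInt]
        simp
      · have h1 := Rat.num_dvd a hb0
        have h2 : |(Rat.divInt a b).num| ≤ |a| := by
          rw [← Int.natCast_natAbs, ← Int.natCast_natAbs]
          have h3 := Int.natAbs_dvd_natAbs.2 h1
          exact_mod_cast Nat.le_of_dvd (Int.natAbs_pos.2 ha) h3
        exact h2.trans (abs_le.2 ⟨by omega, ha2⟩)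
    · have h1 := Rat.den_dvd a b
      have h2 : (Rat.divInt a b).den ∣ b := by exact_mod_cast h1
      exact (Nat.le_of_dvd (by omega) h2).trans hb2
  · rintro ⟨h1, h2⟩
    refine ⟨(c.num, c.den), ?_, Rat.num_div_den c⟩
    rw [Finset.mem_product, Finset.mem_Icc, Finset.mem_Icc]
    exact ⟨abs_le.1 h1, c.den_pos, h2⟩

theorem cen_card (H : ℕ) : (cen H).card ≤ (2 * H + 1) * H := by
  unfold cen
  refine Finset.card_image_le.trans ?_
  rw [Finset.card_product, Int.card_Icc, Nat.card_Icc]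
  refine le_of_eq ?_
  congr 1
  omega

/-- the number of the subsets of cardinality at most `k` -/
theorem card_powerset_le {α : Type*} [DecidableEq α] (U : Finset α) (k : ℕ) :
    (U.powerset.filter fun T => T.card ≤ k).card ≤ (U.card + 1) ^ k := by
  classical
  induction k with
  | zero =>
    rw [pow_zero]
    have h1 : (U.powerset.filter fun T => T.card ≤ 0) ⊆ {∅} := by
      intro T hT
      rw [Finset.mem_filter] at hT
      rw [Finset.mem_singleton]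
      exact Finset.card_eq_zero.1 (Nat.le_zero.1 hT.2)
    exact (Finset.card_le_card h1).trans (by rw [Finset.card_singleton])
  | succ k ih =>
    have h1 : (U.powerset.filter fun T => T.card ≤ k + 1) ⊆
        (U.powerset.filter fun T => T.card ≤ k) ∪
          ((U ×ˢ (U.powerset.filter fun T => T.card ≤ k)).image fun x => insert x.1 x.2) := by
      intro T hT
      rw [Finset.mem_filter, Finset.mem_powerset] at hT
      rcases T.eq_empty_or_nonempty with h | ⟨t, ht⟩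
      · refine Finset.mem_union_left _ ?_
        rw [Finset.mem_filter, Finset.mem_powerset]
        exact ⟨hT.1, by rw [h, Finset.card_empty]; omega⟩
      · refine Finset.mem_union_right _ ?_
        rw [Finset.mem_image]
        refine ⟨(t, T.erase t), ?_, Finset.insert_erase ht⟩
        rw [Finset.mem_product, Finset.mem_filter, Finset.mem_powerset]
        refine ⟨hT.1 ht, (Finset.erase_subset _ _).trans hT.1, ?_⟩
        rw [Finset.card_erase_of_mem ht]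
        omega
    refine (Finset.card_le_card h1).trans ((Finset.card_union_le _ _).trans ?_)
    have h2 : ((U ×ˢ (U.powerset.filter fun T => T.card ≤ k)).image
        fun x => insert x.1 x.2).card ≤ U.card * (U.powerset.filter fun T => T.card ≤ k).card := by
      refine Finset.card_image_le.trans ?_
      rw [Finset.card_product]
    calc _ ≤ (U.card + 1) ^ k + U.card * (U.card + 1) ^ k :=
          Nat.add_le_add ih (h2.trans (Nat.mul_le_mul_left _ ih))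
      _ = (U.card + 1) ^ (k + 1) := by ring

theorem typs_card (l k H : ℕ) :
    (typs l k H).card ≤ ((2 * H + 1) * H * (2 * l) + 1) ^ k := by
  classical
  unfold typs
  have h1 : ((cen H ×ˢ (({1, -1} : Finset ℤ) ×ˢ Finset.Icc 1 (l - 1))).powerset.filter fun T =>
      T.Nonempty ∧ T.card ≤ k ∧ ∀ t ∈ T, ∀ t' ∈ T, t.1 = t'.1 → t = t') ⊆
      ((cen H ×ˢ (({1, -1} : Finset ℤ) ×ˢ Finset.Icc 1 (l - 1))).powerset.filter fun T =>
        T.card ≤ k) := by
    intro T hT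
    rw [Finset.mem_filter] at hT ⊢
    exact ⟨hT.1, hT.2.2.1⟩
  refine (Finset.card_le_card h1).trans ((card_powerset_le _ k).trans ?_)
  refine Nat.pow_le_pow_left (Nat.add_le_add_right ?_ 1) k
  rw [Finset.card_product, Finset.card_product, Nat.card_Icc]
  refine Nat.mul_le_mul (cen_card H) (Nat.mul_le_mul ?_ (by omega))
  exact Finset.card_le_two

theorem typs_small (l k : ℕ) {ξ : ℝ} (hξ : 0 < ξ) : ∃ δ : ℝ, 0 < δ ∧ ∃ N0 : ℕ, ∀ N ≥ N0,
    ∀ H : ℕ, (H : ℝ) ≤ (N : ℝ) ^ δ → ((typs l k H).card : ℝ) ≤ (N : ℝ) ^ ξ := by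
  -- `#typs ≤ (6 l N^(2 δ) + 1)^k ≤ ((6 l + 1) N^(2 δ))^k`, `δ = ξ / (4 (k + 1))`
  set δ : ℝ := ξ / (4 * (k + 1)) with hδ
  have hδ0 : 0 < δ := by positivity
  have ht : Filter.Tendsto (fun x : ℝ => ((6 * l + 1 : ℝ)) ^ k * x ^ (-(ξ / 2))) Filter.atTop
      (nhds ((6 * l + 1 : ℝ) ^ k * 0)) := (tendsto_rpow_neg_atTop (by positivity)).const_mul _
  rw [mul_zero] at ht
  have hev := (ht.comp tendsto_natCast_atTop_atTop).eventually (gt_mem_nhds one_pos)
  obtain ⟨N2, hN2⟩ := Filter.eventually_atTop.1 hev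
  refine ⟨δ, hδ0, max N2 1, fun N hN H hH => ?_⟩
  have hNN2 : N2 ≤ N := (le_max_left _ _).trans hN
  have hN1 : 1 ≤ N := (le_max_right _ _).trans hN
  have hNr : (1 : ℝ) ≤ N := by exact_mod_cast hN1
  have hN0 : (0 : ℝ) < N := by linarith
  have h1 : ((typs l k H).card : ℝ) ≤ ((2 * H + 1) * H * (2 * l) + 1 : ℝ) ^ k := by
    exact_mod_cast typs_card l k H
  have h2 : (1 : ℝ) ≤ (N : ℝ) ^ δ := Real.one_le_rpow hNr hδ0.le
  set y : ℝ := (N : ℝ) ^ δ with hy
  have hH0 : (0 : ℝ) ≤ H := Nat.cast_nonneg H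
  have hl0 : (0 : ℝ) ≤ l := Nat.cast_nonneg l
  have h3 : ((2 * H + 1) * H * (2 * l) + 1 : ℝ) ≤ (6 * l + 1) * y ^ 2 := by
    have h4 : (2 * (H : ℝ) + 1) ≤ 3 * y := by linarith
    have h5 : (2 * (H : ℝ) + 1) * H ≤ 3 * y * y :=
      mul_le_mul h4 hH hH0 (by linarith)
    have h6 : (2 * (H : ℝ) + 1) * H * (2 * l) ≤ 3 * y * y * (2 * l) :=
      mul_le_mul_of_nonneg_right h5 (by linarith)
    nlinarith
  have h4 : ((typs l k H).card : ℝ) ≤ (6 * l + 1) ^ k * (y ^ 2) ^ k := by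
    refine h1.trans ?_
    rw [← mul_pow]
    exact pow_le_pow_left₀ (by positivity) h3 k
  have h5 : (y ^ 2) ^ k ≤ (N : ℝ) ^ (ξ / 2) := by
    rw [← pow_mul, hy, ← Real.rpow_natCast, ← Real.rpow_mul hN0.le]
    refine Real.rpow_le_rpow_of_exponent_le hNr ?_
    push_cast
    have hk0 : (0 : ℝ) ≤ k := Nat.cast_nonneg k
    rw [hδ, div_mul_eq_mul_div, div_le_div_iff₀ (by positivity) (by norm_num)]
    nlinarith
  have h6 := hN2 N hNN2
  simp only [Function.comp_apply] at h6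
  have h7 : (N : ℝ) ^ ξ = (N : ℝ) ^ (ξ / 2) * (N : ℝ) ^ (ξ / 2) := by
    rw [← Real.rpow_add hN0]
    congr 1
    ring
  have h8 : (6 * l + 1 : ℝ) ^ k ≤ (N : ℝ) ^ (ξ / 2) := by
    rw [Real.rpow_neg hN0.le, ← div_eq_mul_inv, div_lt_one (Real.rpow_pos_of_pos hN0 _)] at h6
    exact h6.le
  rw [h7]
  exact h4.trans (mul_le_mul h8 h5 (by positivity) (Real.rpow_nonneg hN0.le _))

theorem mem_typs {l k H : ℕ} {T : Finset (ℚ × ℤ × ℕ)} (hT : T ∈ typs l k H) :
    T.Nonempty ∧ T.card ≤ k ∧ (∀ t ∈ T, ∀ t' ∈ T, t.1 = t'.1 → t = t') ∧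
      ∀ t ∈ T, t.1 ∈ cen H ∧ (t.2.1 = 1 ∨ t.2.1 = -1) ∧ 1 ≤ t.2.2 ∧ t.2.2 < l := by
  unfold typs at hT
  rw [Finset.mem_filter, Finset.mem_powerset] at hT
  obtain ⟨h1, h2, h3, h4⟩ := hT
  refine ⟨h2, h3, h4, fun t ht => ?_⟩
  have h5 := h1 ht
  rw [Finset.mem_product, Finset.mem_product, Finset.mem_insert, Finset.mem_singleton,
    Finset.mem_Icc] at h5
  exact ⟨h5.1, h5.2.1, h5.2.2.1, by omega⟩

theorem Lf_le {H N n : ℕ} {c : ℚ} (hc : c ∈ cen H) {σ : ℤ} (hσ : σ = 1 ∨ σ = -1)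
    (hn : n ∈ Finset.Icc 1 N) : |Lf c σ n| ≤ 2 * H * N := by
  rw [mem_cen_iff] at hc
  rw [Finset.mem_Icc] at hn
  obtain ⟨h1, h2⟩ := hc
  unfold Lf
  have h3 : |σ| = 1 := by rcases hσ with rfl | rfl <;> rfl
  rw [abs_mul, h3, one_mul]
  have h4 : ((c.den : ℤ) * n) ≤ H * N := by
    have : c.den * n ≤ H * N := Nat.mul_le_mul h2 hn.2
    exact_mod_cast this
  have h5 : (H : ℤ) ≤ H * N := by
    have : H * 1 ≤ H * N := Nat.mul_le_mul_left _ (hn.1.trans hn.2)
    rw [mul_one] at this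
    exact_mod_cast this
  have h6 : (0 : ℤ) ≤ (c.den : ℤ) * n := by positivity
  calc |(c.den : ℤ) * n - c.num| ≤ |(c.den : ℤ) * n| + |c.num| := abs_sub _ _
    _ ≤ H * N + H * N := add_le_add (by rw [abs_of_nonneg h6]; exact h4) (h1.trans h5)
    _ = 2 * H * N := by ring

theorem det_ne {c c' : ℚ} (h : c ≠ c') :
    (c.den : ℤ) * c'.num - (c'.den : ℤ) * c.num ≠ 0 := by
  intro h0
  apply h
  have h1 : c.num * (c'.den : ℤ) = c'.num * (c.den : ℤ) := by linarith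
  exact Rat.eq_iff_mul_eq_mul.2 h1

theorem det_le {H : ℕ} {c c' : ℚ} (hc : c ∈ cen H) (hc' : c' ∈ cen H) :
    |(c.den : ℤ) * c'.num - (c'.den : ℤ) * c.num| ≤ 2 * H ^ 2 := by
  rw [mem_cen_iff] at hc hc'
  obtain ⟨h1, h2⟩ := hc
  obtain ⟨h3, h4⟩ := hc'
  have h5 : |(c.den : ℤ) * c'.num| ≤ H * H := by
    rw [abs_mul, abs_of_nonneg (by positivity : (0 : ℤ) ≤ c.den)]
    exact mul_le_mul (by exact_mod_cast h2) h3 (abs_nonneg _) (by positivity)
  have h6 : |(c'.den : ℤ) * c.num| ≤ H * H := by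
    rw [abs_mul, abs_of_nonneg (by positivity : (0 : ℤ) ≤ c'.den)]
    exact mul_le_mul (by exact_mod_cast h4) h1 (abs_nonneg _) (by positivity)
  calc _ ≤ |(c.den : ℤ) * c'.num| + |(c'.den : ℤ) * c.num| := abs_sub _ _
    _ ≤ H * H + H * H := add_le_add h5 h6
    _ = 2 * H ^ 2 := by ring

theorem gT_pos {T : Finset (ℚ × ℤ × ℕ)} {n : ℕ} (h : dom T n) : 0 < gT T n := by
  unfold gT
  exact Finset.prod_pos fun t ht => pow_pos (h t ht) _

theorem gT_le {l k H N : ℕ} {T : Finset (ℚ × ℤ × ℕ)} (hT : T ∈ typs l k H) {n : ℕ}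
    (hn : n ∈ Finset.Icc 1 N) (h : dom T n) : gT T n ≤ (2 * H * N : ℤ) ^ (l * k) := by
  obtain ⟨h1, h2, h3, h4⟩ := mem_typs hT
  obtain ⟨t0, ht0⟩ := h1
  have hB1 : (1 : ℤ) ≤ 2 * H * N := by
    have h5 := Lf_le (h4 t0 ht0).1 (h4 t0 ht0).2.1 hn
    have h6 := h t0 ht0
    rw [abs_of_pos h6] at h5
    omega
  have h5 : ∀ t ∈ T, Lf t.1 t.2.1 n ^ t.2.2 ≤ (2 * H * N : ℤ) ^ l := by
    intro t ht
    have h6 := Lf_le (h4 t ht).1 (h4 t ht).2.1 hn
    rw [abs_of_pos (h t ht)] at h6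
    exact (pow_le_pow_left₀ (h t ht).le h6 _).trans (pow_le_pow_right₀ hB1 (h4 t ht).2.2.2.le)
  unfold gT
  calc _ ≤ ∏ _t ∈ T, (2 * H * N : ℤ) ^ l :=
        Finset.prod_le_prod (fun t ht => (pow_pos (h t ht) _).le) h5
    _ = (2 * H * N : ℤ) ^ (l * T.card) := by rw [Finset.prod_const, pow_mul]
    _ ≤ (2 * H * N : ℤ) ^ (l * k) := pow_le_pow_right₀ hB1 (Nat.mul_le_mul_left _ h2)

theorem gT_pow_le {l k H N : ℕ} (hN : 2 ≤ N) (hH : H ≤ N) {T : Finset (ℚ × ℤ × ℕ)}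
    (hT : T ∈ typs l k H) {n : ℕ} (hn : n ∈ Finset.Icc 1 N) (h : dom T n) :
    gT T n ^ l ≤ ((N ^ (3 * l ^ 2 * k) : ℕ) : ℤ) := by
  have h1 := gT_le hT hn h
  have h2 : (2 * H * N : ℤ) ≤ (N : ℤ) ^ 3 := by
    have h3 : 2 * H * N ≤ N ^ 3 := by
      calc 2 * H * N ≤ N * N * N := Nat.mul_le_mul_right _ (Nat.mul_le_mul hN hH)
        _ = N ^ 3 := by ring
    exact_mod_cast h3
  have h3 : (0 : ℤ) ≤ 2 * H * N := by positivity
  calc gT T n ^ l ≤ ((2 * H * N : ℤ) ^ (l * k)) ^ l := pow_le_pow_left₀ (gT_pos h).le h1 l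
    _ ≤ (((N : ℤ) ^ 3) ^ (l * k)) ^ l :=
        pow_le_pow_left₀ (pow_nonneg h3 _) (pow_le_pow_left₀ h3 h2 _) l
    _ = ((N ^ (3 * l ^ 2 * k) : ℕ) : ℤ) := by
        push_cast
        rw [← pow_mul, ← pow_mul]
        congr 1
        ring

end H95.IS
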