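import Pool.Agent.H63.MA.RMkC

/-!
# IS-CHV: the residue symbol at a good prime `v` of norm `p` as a character of `ℤ/p`

`chv D v a = 0` if `a ∈ v`, and `ep l (LL v a)` otherwise. Let `p = nm v` be prime. `ℤ → 𝓞 K / v` has kernel `pℤ` (`p ∈ v` since `N v ∈ v`:
`Ideal.absNorm_mem`; `v` is proper) and is surjective (`#(𝓞 K/v) = p`).
* `chv_mem`: `(a : 𝓞 K) ∈ v.asIdeal ↔ (p : ℤ) ∣ a`.
* `chv_mul`: `LL_mul` (`RMkB`), `ep_add`; a product is in the prime ideal iff a factor is.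
* `chv_pow`: `ep l x ^ l = 1` (`ep_add` repeatedly or `ep l (l • x)`, `(l : ZMod l) = 0`).
* `chv_ker`: for `p ∤ a, b`: `chv a = chv b` iff `LL v a = LL v b` (`ep` is injective: `ep_add`, `ep_eq_one`) iff
  `lg l ζ v (a b⁻¹) = 0` (`LL_unit`: `ord v = 0`; `lg_mul`) iff (`lg_eq_zero_iff` / `symb_lg_iff`) `a b⁻¹` is an `l`-th power in `𝓞 K / v`, iff it is an
  `l`-th power in `ZMod p` (isomorphism `ZMod p ≃ 𝓞 K / v`; every class is the class of an integer). `l ∣ p - 1`: `dvd_nm`. `Gd v` gives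
  `v ∉ S0`, so `v` is not above `l` (`D.above`).
-/

set_option autoImplicit false

open scoped NumberField Classical
open H63.MA

noncomputable section

namespace H95.IS

variable {K : Type} [Field K] [NumberField K] {l : ℕ} {ζ : K}

/-- the residue symbol at `v` -/
def chv (D : RD K l ζ) (v : Pl K) (a : ℤ) : ℂ :=
  if (a : 𝓞 K) ∈ v.asIdeal then 0
  else if h : (a : K) ≠ 0 then ep l (D.LL v (Units.mk0 (a : K) h)) else 0

theorem chv_mem (D : RD K l ζ) {v : Pl K} (hv : D.Gd v) (a : ℤ) :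
    (a : 𝓞 K) ∈ v.asIdeal ↔ (nm v : ℤ) ∣ a := by
  have hp : (nm v).Prime := hv.2
  have hN : ((nm v : ℕ) : 𝓞 K) ∈ v.asIdeal := Ideal.absNorm_mem v.asIdeal
  constructor
  · intro ha
    by_contra hna
    have h1 : IsCoprime (nm v : ℤ) a :=
      (Prime.coprime_iff_not_dvd (Nat.prime_iff_prime_int.1 hp)).2 hna
    obtain ⟨x, y, hxy⟩ := h1
    have h2 : (1 : 𝓞 K) ∈ v.asIdeal := by
      have h3 : (1 : 𝓞 K) = (x : 𝓞 K) * ((nm v : ℕ) : 𝓞 K) + (y : 𝓞 K) * (a : 𝓞 K) := by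
        have h4 := congrArg (fun z : ℤ => (z : 𝓞 K)) hxy
        push_cast at h4
        exact h4.symm
      rw [h3]
      exact v.asIdeal.add_mem (v.asIdeal.mul_mem_left _ hN) (v.asIdeal.mul_mem_left _ ha)
    exact v.isPrime.ne_top ((Ideal.eq_top_iff_one _).2 h2)
  · rintro ⟨c, rfl⟩
    push_cast
    exact v.asIdeal.mul_mem_right _ hN

theorem chv_ne (D : RD K l ζ) {v : Pl K} (hv : D.Gd v) {a : ℤ} (h : ¬ (nm v : ℤ) ∣ a) :
    (a : K) ≠ 0 := by
  intro h0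
  apply h
  have : a = 0 := by exact_mod_cast h0
  rw [this]
  exact dvd_zero _

theorem chv_eq (D : RD K l ζ) {v : Pl K} (hv : D.Gd v) {a : ℤ} (h : ¬ (nm v : ℤ) ∣ a) :
    chv D v a = ep l (D.LL v (Units.mk0 (a : K) (chv_ne D hv h))) := by
  unfold chv
  rw [if_neg (fun h1 => h ((chv_mem D hv a).1 h1)), dif_pos (chv_ne D hv h)]

theorem chv_zero (D : RD K l ζ) {v : Pl K} (hv : D.Gd v) {a : ℤ} (h : (nm v : ℤ) ∣ a) :
    chv D v a = 0 := by
  unfold chv
  rw [if_pos ((chv_mem D hv a).2 h)]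

theorem chv_mul (hl : l.Prime) (hζ : IsPrimitiveRoot ζ l) (D : RD K l ζ) {v : Pl K}
    (hv : D.Gd v) (a b : ℤ) : chv D v (a * b) = chv D v a * chv D v b := by
  have hp : Prime (nm v : ℤ) := Nat.prime_iff_prime_int.1 hv.2
  by_cases ha : (nm v : ℤ) ∣ a
  · rw [chv_zero D hv ha, zero_mul, chv_zero D hv (Dvd.dvd.mul_right ha b)]
  by_cases hb : (nm v : ℤ) ∣ b
  · rw [chv_zero D hv hb, mul_zero, chv_zero D hv (Dvd.dvd.mul_left hb a)]
  have hab : ¬ (nm v : ℤ) ∣ a * b := fun h => by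
    rcases hp.dvd_or_dvd h with h | h
    · exact ha h
    · exact hb h
  rw [chv_eq D hv ha, chv_eq D hv hb, chv_eq D hv hab, ← ep_add hl,
    ← LL_mul hl hζ D.toRD0 hv.1]
  congr 2
  ext
  push_cast
  rfl

theorem chv_ep_pow (hl : l.Prime) (x : ZMod l) (n : ℕ) : ep l x ^ n = ep l (n * x) := by
  induction n with
  | zero => rw [pow_zero, Nat.cast_zero, zero_mul, ep_zero]
  | succ n ih =>
    rw [pow_succ, ih, ← ep_add hl]
    congr 1
    push_cast
    ring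

theorem chv_pow (hl : l.Prime) (D : RD K l ζ) {v : Pl K} (hv : D.Gd v) {a : ℤ}
    (h : ¬ (nm v : ℤ) ∣ a) : chv D v a ^ l = 1 := by
  rw [chv_eq D hv h, chv_ep_pow hl, ZMod.natCast_self, zero_mul, ep_zero]

theorem chv_ep_inj (hl : l.Prime) {x y : ZMod l} (h : ep l x = ep l y) : x = y := by
  have h1 : ep l (x - y) * ep l y = 1 * ep l y := by
    rw [← ep_add hl, sub_add_cancel, h, one_mul]
  have h2 : ep l y ≠ 0 := by
    intro h0
    have := ep_norm l y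
    rw [h0, norm_zero] at this
    exact zero_ne_one this
  have h3 := mul_right_cancel₀ h2 h1
  exact sub_eq_zero.1 ((ep_eq_one hl _).1 h3)

/-- the ring isomorphism of `ZMod p` and the residue field -/
theorem chv_iso (D : RD K l ζ) {v : Pl K} (hv : D.Gd v) :
    ∃ e : ZMod (nm v) →+* (𝓞 K ⧸ v.asIdeal), Function.Bijective e := by
  have hp : Fact (nm v).Prime := ⟨hv.2⟩
  have : v.asIdeal.IsMaximal := v.isMaximal
  have hnt : Nontrivial (𝓞 K ⧸ v.asIdeal) := Ideal.Quotient.nontrivial_iff.2 v.isPrime.ne_top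
  have hchar : CharP (𝓞 K ⧸ v.asIdeal) (nm v) := by
    refine ⟨fun n => ?_⟩
    have h1 := chv_mem D hv (n : ℤ)
    rw [Int.cast_natCast, Int.natCast_dvd_natCast] at h1
    rw [← h1, ← Ideal.Quotient.eq_zero_iff_mem, map_natCast]
  have hfin : Finite (𝓞 K ⧸ v.asIdeal) := Ideal.finiteQuotientOfFreeOfNeBot _ v.ne_bot
  refine ⟨ZMod.castHom (dvd_refl (nm v)) (𝓞 K ⧸ v.asIdeal), ?_⟩
  rw [Nat.bijective_iff_injective_and_card]
  refine ⟨RingHom.injective _, ?_⟩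
  rw [Nat.card_zmod]
  exact (symb_card v).symm

theorem chv_ker (hl : l.Prime) (hζ : IsPrimitiveRoot ζ l) (D : RD K l ζ) {v : Pl K}
    (hv : D.Gd v) {a b : ℤ} (ha : ¬ (nm v : ℤ) ∣ a) (hb : ¬ (nm v : ℤ) ∣ b) :
    chv D v a = chv D v b ↔
      ∃ u : ZMod (nm v), u ≠ 0 ∧ (a : ZMod (nm v)) = b * u ^ l := by
  have hvab : ¬ Above l v := fun h => hv.1 (D.above v h)
  set A : Kˣ := Units.mk0 (a : K) (chv_ne D hv ha) with hA
  set B' : Kˣ := Units.mk0 (b : K) (chv_ne D hv hb) with hB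
  have hval : ∀ {c : ℤ}, ¬ (nm v : ℤ) ∣ c → v.valuation K (c : K) = 1 := by
    intro c hc
    have h1 : (c : 𝓞 K) ∉ v.asIdeal := fun h => hc ((chv_mem D hv c).1 h)
    have h2 := (v.valuation_eq_one_iff_notMem (K := K)).2 h1
    rwa [map_intCast] at h2
  have hrs : ∀ c : ℤ, symb_rs v (c : K) = (c : 𝓞 K ⧸ v.asIdeal) := by
    intro c
    have h1 := symb_rs_int v (c : 𝓞 K)
    rw [map_intCast, map_intCast] at h1
    exact h1
  have hoA : ord v A = 0 := (ord_eq_zero_iff v A).2 (hval ha)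
  have hoB : ord v B' = 0 := (ord_eq_zero_iff v B').2 (hval hb)
  have hLA : D.LL v A = lg l ζ v A := LL_unit hl hζ D.toRD0 hv.1 hoA
  have hLB : D.LL v B' = lg l ζ v B' := LL_unit hl hζ D.toRD0 hv.1 hoB
  obtain ⟨e, he⟩ := chv_iso D hv
  rw [chv_eq D hv ha, chv_eq D hv hb, ← hA, ← hB]
  constructor
  · intro h
    have h1 := chv_ep_inj hl h
    rw [hLA, hLB] at h1
    have h2 : lg l ζ v (A * B'⁻¹) = 0 := by
      rw [lg_mul hl hζ hvab hoA (by rw [ord_inv, hoB, neg_zero])]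
      have h3 := lg_zpow hl hζ hvab hoB (-1)
      rw [zpow_neg_one] at h3
      rw [h3, h1]
      push_cast
      ring
    have hoAB : ord v (A * B'⁻¹) = 0 := by rw [ord_mul, ord_inv, hoA, hoB]; rfl
    obtain ⟨y, hy0, hy⟩ := (lg_eq_zero_iff hl hζ hvab hoAB).1 h2
    have hy1 := (ord_eq_zero_iff v y).1 hy0
    obtain ⟨u, hu⟩ := he.2 (symb_rs v (y : K))
    refine ⟨u, ?_, ?_⟩
    · rintro rfl
      rw [map_zero] at hu
      exact symb_rs_ne v hy1 hu.symm
    · apply he.1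
      rw [map_mul, map_pow, map_intCast, map_intCast, hu, ← hrs, ← hrs]
      have h4 : (a : K) = (b : K) * (y : K) ^ l * ((A * B'⁻¹ * (y ^ l)⁻¹ : Kˣ) : K) := by
        have h5 : A = B' * y ^ l * (A * B'⁻¹ * (y ^ l)⁻¹) := by
          rw [mul_comm B' (y ^ l), mul_assoc, mul_comm A B'⁻¹, mul_assoc B'⁻¹, mul_inv_cancel_left,
            mul_comm A, mul_inv_cancel_left]
        have h6 := congrArg (fun z : Kˣ => (z : K)) h5
        simpa [hA, hB] using h6
      have hw1 := (ord_eq_zero_iff v _).1 (ord_of_one1 hy)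
      have hyl : v.valuation K ((y : K) ^ l) = 1 := by rw [map_pow, hy1, one_pow]
      conv_lhs => rw [h4]
      rw [symb_rs_mul v (by rw [map_mul, hval hb, hyl, one_mul]) hw1.le,
        symb_rs_mul v (hval hb).le hyl.le, symb_rs_pow v hy1.le, symb_rs_of_one1 hy, mul_one]
  · rintro ⟨u, hu0, hu⟩
    congr 1
    rw [hLA, hLB, symb_lg_iff hl hζ hvab hoA, ← symb_lg hl hζ hvab hoB]
    have h1 : (a : 𝓞 K ⧸ v.asIdeal) = (b : 𝓞 K ⧸ v.asIdeal) * e u ^ l := by
      have := congrArg e hu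
      rwa [map_mul, map_pow, map_intCast, map_intCast] at this
    have hA' : symb_rs v (A : K) = (a : 𝓞 K ⧸ v.asIdeal) := hrs a
    have hB' : symb_rs v (B' : K) = (b : 𝓞 K ⧸ v.asIdeal) := hrs b
    have heu : e u ≠ 0 := fun h => hu0 (he.1 (by rw [h, map_zero]))
    rw [hA', hB', h1, mul_pow, ← pow_mul, Nat.mul_div_cancel' (dvd_nm hl hζ hvab)]
    have h2 := symb_pow_card v heu
    rw [h2, mul_one]

end H95.IS
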