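import Pool.Agent.H95.IS.FinA

/-!
# IS-COV: the structure theorem for sets, one exponent `l` (cells missed completely)

Let `hmiss p`: no `n ∈ X` is in the cell at `p`. Apply `weights` with `ε/2`, `κ = 1`: constants `δ₁, c, N₁`; `δ = min(δ₁, δ of jb_small with ξ = ε/4, 1/2)`.
Classes are labelled by `x = (c0, σ, t)`, `c0 ∈ cen H`, `σ = ±1`; `K x = {n ∈ X : 0 < Lf c0 σ n, fr l (Lf c0 σ n).toNat = t}`. `x` is *big* if
`|K x| ≥ N^(ε/2)`. Only labels in the finite set `cen H × {1,-1} × [0, 2HN]` can be big (`fr_le`, `Lf_le`).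
1. At most `2/c` labels are big: let `F` be a set of `m ≥ 1` big labels and `w n = (1/m) ∑_{x ∈ F} [n ∈ K x]/|K x|`. The total mass is `1` and
   `w n ≤ N^(-ε/2)`, and `w` vanishes outside `X`, so the cells at `p ∈ G` have mass `0` (`CellW` with `κ = 1`). `weights` gives a label `y`
   with `w(K y) ≥ c` (the sum over `[N]` of `w` on the class of `y`). Now `w(K y) ≤ (1/m) ∑_{x ∈ F} |K x ∩ K y|/|K x|`, the term `x = y` is `≤ 1`, and for `x ≠ y`:
   `|K x ∩ K y| ≤ jb H N` (`joint`) if the centres differ, and `K x ∩ K y = ∅` if the centres agree (`Lf c (-σ) = - Lf c σ`, or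
   `t ≠ t'`). So `c ≤ 1/m + jb H N N^(-ε/2) ≤ 1/m + N^(-ε/4) ≤ 1/m + c/2` for `N ≥ N0`, `m ≤ 2/c`. Hence the set `F` of all big labels
   has `|F| ≤ 2/c` (a subset with more than `2/c` elements would be a contradiction).
2. Let `X' = X \ ∪_{x ∈ F} K x`. If `|X'| > N^ε` then `weights` for `w n = 1/|X'|` on `X'` (`≤ N^(-ε) ≤ N^(-ε/2)`) gives a label `y` with
   `|K y ∩ X'| ≥ c |X'| ≥ c N^ε ≥ N^(ε/2)`; so `y` is big, `y ∈ F`, `K y ∩ X' = ∅`: contradiction.
3. `poly_class` for the labels in `F` (their classes are not empty) gives the polynomials; a finset of polynomials of cardinality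
   `≤ |F|` (image of `F` under a choice function).
-/

set_option autoImplicit false
open scoped Classical

namespace H95.IS

/-- the numerical conditions on `N` -/
private theorem cov_num {ε c : ℝ} (hε : 0 < ε) (hc : 0 < c) : ∃ N3 : ℕ, ∀ N ≥ N3,
    4 ≤ N ∧ (N : ℝ) ^ (-(ε / 4)) ≤ c / 2 := by
  have h1 : Filter.Tendsto (fun x : ℝ => x ^ (-(ε / 4))) Filter.atTop (nhds 0) :=
    tendsto_rpow_neg_atTop (by positivity)
  have h2 : ∀ᶠ x : ℝ in Filter.atTop, x ^ (-(ε / 4)) ≤ c / 2 :=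
    h1.eventually (Iic_mem_nhds (by positivity))
  obtain ⟨x0, hx0⟩ := Filter.eventually_atTop.1 h2
  refine ⟨max 4 ⌈x0⌉₊, fun N hN => ⟨le_trans (le_max_left _ _) hN, hx0 N ?_⟩⟩
  exact (Nat.le_ceil x0).trans (by exact_mod_cast le_trans (le_max_right _ _) hN)

/-- two classes with different labels have few common elements -/
private theorem cov_joint {l : ℕ} (hl : 2 ≤ l) (N H : ℕ) {X : Finset ℕ}
    (hX : X ⊆ Finset.Icc 1 N) {x y : ℚ × ℤ × ℕ} (hx : x.1 ∈ cen H) (hy : y.1 ∈ cen H)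
    (hx2 : x.2.1 = 1 ∨ x.2.1 = -1) (hy2 : y.2.1 = 1 ∨ y.2.1 = -1) (hne : x ≠ y) :
    (X.filter (fun n : ℕ => (0 < Lf x.1 x.2.1 n ∧ fr l (Lf x.1 x.2.1 n).toNat = x.2.2) ∧
      (0 < Lf y.1 y.2.1 n ∧ fr l (Lf y.1 y.2.1 n).toNat = y.2.2))).card ≤ jb H N := by
  by_cases h1 : x.1 = y.1
  · have h2 : X.filter (fun n : ℕ => (0 < Lf x.1 x.2.1 n ∧
        fr l (Lf x.1 x.2.1 n).toNat = x.2.2) ∧
        (0 < Lf y.1 y.2.1 n ∧ fr l (Lf y.1 y.2.1 n).toNat = y.2.2)) = ∅ := by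
      rw [Finset.filter_eq_empty_iff]
      rintro n - ⟨⟨a1, a2⟩, b1, b2⟩
      by_cases h3 : x.2.1 = y.2.1
      · apply hne
        rw [← h1, ← h3, a2] at b2
        exact Prod.ext h1 (Prod.ext h3 b2)
      · rw [← h1] at b1
        have h4 : x.2.1 = - y.2.1 := by
          rcases hx2 with e | e <;> rcases hy2 with e' | e' <;> rw [e, e'] at h3 ⊢
          · exact absurd rfl h3
          · rfl
          · exact absurd rfl h3
        unfold Lf at a1 b1
        rw [h4] at a1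
        have h5 : -y.2.1 * ((x.1.den : ℤ) * n - x.1.num) =
          -(y.2.1 * ((x.1.den : ℤ) * n - x.1.num)) := by ring
        rw [h5] at a1
        omega
    rw [h2, Finset.card_empty]
    exact Nat.zero_le _
  · refine le_trans (Finset.card_le_card ?_)
      (joint hl N H hx hy h1 hx2 hy2 x.2.2 y.2.2)
    intro n hn
    rw [Finset.mem_filter] at hn ⊢
    exact ⟨hX hn.1, hn.2⟩

theorem setB {l : ℕ} (hl : l.Prime) (k : ℕ) {ε η α β : ℝ} (hε : 0 < ε) (hη : 0 < η)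
    (hα : 0 < α)
    (hlin : ∀ B : ℕ, ∃ (r m0 N0 : ℕ) (P0 C1 : ℝ), ∀ N ≥ N0,
      ∃ S : CharSys l ((N : ℝ) ^ α) ((N : ℝ) ^ β), S.Bnd (N ^ B) r m0 P0 C1) :
    ∃ δ C : ℝ, 0 < δ ∧ 0 < C ∧ ∃ N0 : ℕ, ∀ N ≥ N0, ∀ H : ℕ, (H : ℝ) ≤ (N : ℝ) ^ δ →
      ∀ X : Finset ℕ, X ⊆ Finset.Icc 1 N →
      ∀ G : Finset ℕ, (∀ p ∈ G, p.Prime ∧ (N : ℝ) ^ α < p ∧ (p : ℝ) ≤ (N : ℝ) ^ β ∧ l ∣ p - 1 ∧
        ∃ (S : Finset ℚ) (θ : ℚ → ZMod p), S.card ≤ k ∧ S ⊆ cen H ∧ (∀ c ∈ S, θ c ≠ 0) ∧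
          ∀ n ∈ X, ¬ inCell l p S θ n) → η ≤ ∑ p ∈ G, (1 : ℝ) / p →
      ∃ F : Finset (Polynomial ℚ), (F.card : ℝ) ≤ C ∧
        (∀ f ∈ F, f.natDegree = l ∧ HtPoly ((N : ℝ) ^ (2 : ℕ)) f) ∧
        ((X.filter fun n : ℕ => ∀ f ∈ F, ∀ y ∈ Finset.Icc 1 N, f.eval ((y : ℕ) : ℚ) ≠ n).card : ℝ) ≤
          (N : ℝ) ^ ε := by
  obtain ⟨δ₁, c, hδ₁, hc, N₁, hW⟩ := weights hl k (ε := ε / 2) (κ := 1) (by linarith) one_pos hη
    hα hlin
  obtain ⟨δ₂, hδ₂, N₂, hjb⟩ := jb_small (ξ := ε / 4) (by linarith)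
  obtain ⟨N₃, hN₃⟩ := cov_num hε hc
  refine ⟨min δ₁ (min δ₂ (1 / 2)), 2 / c, by positivity, by positivity,
    max N₁ (max N₂ N₃), ?_⟩
  intro N hN H hH X hX G hG hηG
  obtain ⟨hN4, hNc⟩ := hN₃ N (le_trans (le_trans (le_max_right _ _) (le_max_right _ _)) hN)
  have hN1 : (1 : ℝ) ≤ N := by
    have : 1 ≤ N := by omega
    exact_mod_cast this
  have hN0 : (0 : ℝ) < N := by linarith
  have hH1 : (H : ℝ) ≤ (N : ℝ) ^ δ₁ :=
    hH.trans (Real.rpow_le_rpow_of_exponent_le hN1 (min_le_left _ _))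
  have hH2 : (H : ℝ) ≤ (N : ℝ) ^ δ₂ :=
    hH.trans (Real.rpow_le_rpow_of_exponent_le hN1 ((min_le_right _ _).trans (min_le_left _ _)))
  have hH3 : 2 * H ≤ N := by
    have h1 : (H : ℝ) ≤ (N : ℝ) ^ (1 / 2 : ℝ) :=
      hH.trans (Real.rpow_le_rpow_of_exponent_le hN1
        ((min_le_right _ _).trans (min_le_right _ _)))
    rw [← Real.sqrt_eq_rpow] at h1
    have h2 : (H : ℝ) ^ 2 ≤ N := by
      have := pow_le_pow_left₀ (Nat.cast_nonneg H) h1 2
      rwa [Real.sq_sqrt hN0.le] at this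
    have h3 : H ^ 2 ≤ N := by exact_mod_cast h2
    by_contra hcon
    push Not at hcon
    have h4 : 3 ≤ H := by omega
    nlinarith
  have hjbN := hjb N (le_trans (le_trans (le_max_left _ _) (le_max_right _ _)) hN) H hH2
  have hWN := hW N (le_trans (le_max_left _ _) hN) H hH1
  -- the classes
  obtain ⟨K, hK⟩ : ∃ K : ℚ × ℤ × ℕ → Finset ℕ, ∀ x, K x = X.filter (fun n : ℕ =>
      0 < Lf x.1 x.2.1 n ∧ fr l (Lf x.1 x.2.1 n).toNat = x.2.2) := ⟨_, fun _ => rfl⟩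
  have hKX : ∀ x, K x ⊆ X := by
    intro x
    rw [hK]
    exact Finset.filter_subset _ _
  -- the weighted theorem
  have hA : ∀ w : ℕ → ℝ, Wt N ((N : ℝ) ^ (-(ε / 2))) w → (∀ n, n ∉ X → w n = 0) →
      ∃ y : ℚ × ℤ × ℕ, y.1 ∈ cen H ∧ (y.2.1 = 1 ∨ y.2.1 = -1) ∧ c ≤ ∑ n ∈ K y, w n := by
    intro w hw hw0
    obtain ⟨c0, hc0, σ, hσ, t, ht⟩ := hWN w hw G (by
      intro p hp
      obtain ⟨h1, h2, h3, h4, S, θ, h5, h6, h7, h8⟩ := hG p hp
      refine ⟨h1, h2, h3, h4, S, θ, h5, h6, h7, ?_⟩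
      have h9 : ∑ n ∈ (Finset.Icc 1 N).filter (fun n => inCell l p S θ n), w n = 0 := by
        refine Finset.sum_eq_zero fun n hn => ?_
        apply hw0
        intro hnX
        exact h8 n hnX (Finset.mem_filter.1 hn).2
      rw [h9]
      simp) hηG
    refine ⟨(c0, σ, t), hc0, hσ, ht.trans (le_of_eq ?_)⟩
    rw [hK]
    symm
    refine Finset.sum_subset ?_ ?_
    · intro n hn
      rw [Finset.mem_filter] at hn ⊢
      exact ⟨hX hn.1, hn.2⟩
    · intro n hn hn2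
      apply hw0
      intro hnX
      exact hn2 (Finset.mem_filter.2 ⟨hnX, (Finset.mem_filter.1 hn).2⟩)
  -- labels
  obtain ⟨Lab, hLab⟩ : ∃ Lab : Finset (ℚ × ℤ × ℕ), Lab =
      cen H ×ˢ (({1, -1} : Finset ℤ) ×ˢ Finset.range (2 * H * N + 1)) := ⟨_, rfl⟩
  have hLabm : ∀ x ∈ Lab, x.1 ∈ cen H ∧ (x.2.1 = 1 ∨ x.2.1 = -1) := by
    intro x hx
    rw [hLab, Finset.mem_product, Finset.mem_product] at hx
    obtain ⟨h1, h2, -⟩ := hx
    refine ⟨h1, ?_⟩
    simpa using h2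
  have hmLab : ∀ x : ℚ × ℤ × ℕ, x.1 ∈ cen H → (x.2.1 = 1 ∨ x.2.1 = -1) → (K x).Nonempty →
      x ∈ Lab := by
    intro x h1 h2 h3
    obtain ⟨n, hn⟩ := h3
    rw [hK, Finset.mem_filter] at hn
    obtain ⟨hnX, h4, h5⟩ := hn
    rw [hLab, Finset.mem_product, Finset.mem_product]
    refine ⟨h1, by simpa using h2, ?_⟩
    rw [Finset.mem_range]
    have h6 : (Lf x.1 x.2.1 n).toNat ≠ 0 := by omega
    have h7 := fr_le l h6
    have h8 := Lf_le h1 h2 (hX hnX)
    rw [abs_of_pos h4] at h8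
    rw [← h5]
    have h9 : (Lf x.1 x.2.1 n).toNat ≤ 2 * H * N := by
      have : ((Lf x.1 x.2.1 n).toNat : ℤ) ≤ ((2 * H * N : ℕ) : ℤ) := by
        rw [Int.toNat_of_nonneg h4.le]
        push_cast
        exact h8
      exact_mod_cast this
    omega
  obtain ⟨big, hbig⟩ : ∃ big : Finset (ℚ × ℤ × ℕ), big =
      Lab.filter (fun x => (N : ℝ) ^ (ε / 2) ≤ ((K x).card : ℝ)) := ⟨_, rfl⟩
  have hNε : 0 < (N : ℝ) ^ (ε / 2) := Real.rpow_pos_of_pos hN0 _
  have hbigm : ∀ x ∈ big, (x.1 ∈ cen H ∧ (x.2.1 = 1 ∨ x.2.1 = -1)) ∧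
      (N : ℝ) ^ (ε / 2) ≤ ((K x).card : ℝ) := by
    intro x hx
    rw [hbig, Finset.mem_filter] at hx
    exact ⟨hLabm x hx.1, hx.2⟩
  have hinv : (N : ℝ) ^ (-(ε / 2)) = ((N : ℝ) ^ (ε / 2))⁻¹ := Real.rpow_neg hN0.le _
  -- the number of the big labels
  have hcard : (big.card : ℝ) ≤ 2 / c := by
    by_contra hcon
    push Not at hcon
    have hm0 : (0 : ℝ) < big.card := lt_trans (by positivity) hcon
    obtain ⟨w, hw⟩ : ∃ w : ℕ → ℝ, ∀ n, w n = (big.card : ℝ)⁻¹ *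
        ∑ x ∈ big, (if n ∈ K x then ((K x).card : ℝ)⁻¹ else 0) := ⟨_, fun _ => rfl⟩
    have hKpos : ∀ x ∈ big, (0 : ℝ) < (K x).card := fun x hx =>
      lt_of_lt_of_le hNε (hbigm x hx).2
    have hwt : Wt N ((N : ℝ) ^ (-(ε / 2))) w := by
      refine ⟨?_, ?_, ?_⟩
      · intro n
        rw [hw]
        refine mul_nonneg (inv_nonneg.2 hm0.le) (Finset.sum_nonneg fun x _ => ?_)
        split_ifs
        · positivity
        · exact le_rfl
      · have h1 : ∀ x ∈ big, ∑ n ∈ Finset.Icc 1 N,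
            (if n ∈ K x then ((K x).card : ℝ)⁻¹ else 0) = 1 := by
          intro x hx
          rw [← Finset.sum_filter]
          have h2 : (Finset.Icc 1 N).filter (fun n => n ∈ K x) = K x := by
            ext n
            rw [Finset.mem_filter]
            exact ⟨fun h => h.2, fun h => ⟨hX (hKX x h), h⟩⟩
          rw [h2, Finset.sum_const, nsmul_eq_mul]
          exact mul_inv_cancel₀ (hKpos x hx).ne'
        simp only [hw]
        rw [← Finset.mul_sum, Finset.sum_comm, Finset.sum_congr rfl h1, Finset.sum_const,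
          nsmul_eq_mul, mul_one]
        exact inv_mul_cancel₀ hm0.ne'
      · intro n _
        rw [hw]
        have h1 : ∑ x ∈ big, (if n ∈ K x then ((K x).card : ℝ)⁻¹ else 0) ≤
            ∑ _x ∈ big, (N : ℝ) ^ (-(ε / 2)) := by
          refine Finset.sum_le_sum fun x hx => ?_
          rw [hinv]
          split_ifs
          · exact inv_anti₀ hNε (hbigm x hx).2
          · positivity
        rw [Finset.sum_const, nsmul_eq_mul] at h1
        rw [inv_mul_le_iff₀ hm0]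
        exact h1
    obtain ⟨y, hy1, hy2, hy3⟩ := hA w hwt (by
      intro n hn
      rw [hw]
      have h1 : ∑ x ∈ big, (if n ∈ K x then ((K x).card : ℝ)⁻¹ else 0) = 0 :=
        Finset.sum_eq_zero fun x _ => if_neg fun h => hn (hKX x h)
      rw [h1, mul_zero])
    have h1 : ∑ n ∈ K y, w n = (big.card : ℝ)⁻¹ *
        ∑ x ∈ big, ((K y ∩ K x).card : ℝ) * ((K x).card : ℝ)⁻¹ := by
      simp only [hw]
      rw [← Finset.mul_sum, Finset.sum_comm]
      congr 1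
      refine Finset.sum_congr rfl fun x _ => ?_
      rw [← Finset.sum_filter, Finset.sum_const, nsmul_eq_mul, Finset.filter_mem_eq_inter]
    have hq : (N : ℝ) ^ (ε / 4) * ((N : ℝ) ^ (ε / 2))⁻¹ = (N : ℝ) ^ (-(ε / 4)) := by
      rw [← hinv, ← Real.rpow_add hN0]
      congr 1
      ring
    have h2 : ∑ x ∈ big, ((K y ∩ K x).card : ℝ) * ((K x).card : ℝ)⁻¹ ≤
        ∑ x ∈ big, ((if x = y then (1 : ℝ) else 0) + (N : ℝ) ^ (-(ε / 4))) := by
      refine Finset.sum_le_sum fun x hx => ?_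
      have hq0 : 0 ≤ (N : ℝ) ^ (-(ε / 4)) := Real.rpow_nonneg hN0.le _
      by_cases hxy : x = y
      · rw [if_pos hxy]
        have h3 : ((K y ∩ K x).card : ℝ) ≤ (K x).card := by
          exact_mod_cast Finset.card_le_card Finset.inter_subset_right
        have h4 : ((K y ∩ K x).card : ℝ) * ((K x).card : ℝ)⁻¹ ≤ 1 := by
          rw [mul_inv_le_iff₀ (hKpos x hx), one_mul]
          exact h3
        linarith
      · rw [if_neg hxy, zero_add, ← hq]
        have h3 : ((K y ∩ K x).card : ℝ) ≤ (N : ℝ) ^ (ε / 4) := by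
          refine le_trans ?_ hjbN
          have h4 := cov_joint hl.two_le N H hX (hbigm x hx).1.1 hy1 (hbigm x hx).1.2 hy2 hxy
            (X := X)
          have h5 : K y ∩ K x ⊆ X.filter (fun n : ℕ => (0 < Lf x.1 x.2.1 n ∧
              fr l (Lf x.1 x.2.1 n).toNat = x.2.2) ∧
              (0 < Lf y.1 y.2.1 n ∧ fr l (Lf y.1 y.2.1 n).toNat = y.2.2)) := by
            intro n hn
            rw [Finset.mem_inter, hK, hK, Finset.mem_filter, Finset.mem_filter] at hn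
            rw [Finset.mem_filter]
            exact ⟨hn.1.1, hn.2.2, hn.1.2⟩
          exact_mod_cast (Finset.card_le_card h5).trans h4
        exact mul_le_mul h3 (inv_anti₀ hNε (hbigm x hx).2) (by positivity) (by positivity)
    have h3 : ∑ x ∈ big, ((if x = y then (1 : ℝ) else 0) + (N : ℝ) ^ (-(ε / 4))) ≤
        1 + big.card * (N : ℝ) ^ (-(ε / 4)) := by
      rw [Finset.sum_add_distrib, Finset.sum_const, nsmul_eq_mul, Finset.sum_ite_eq']
      split_ifs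
      · exact le_rfl
      · linarith
    have h4 : c * big.card ≤ 1 + big.card * (N : ℝ) ^ (-(ε / 4)) := by
      rw [h1, inv_mul_eq_div, le_div_iff₀ hm0] at hy3
      exact hy3.trans (h2.trans h3)
    have h5 : (big.card : ℝ) * (N : ℝ) ^ (-(ε / 4)) ≤ big.card * (c / 2) :=
      mul_le_mul_of_nonneg_left hNc hm0.le
    have h6 : 2 < big.card * c := by
      rw [div_lt_iff₀ hc] at hcon
      exact hcon
    linarith
  -- the rest
  obtain ⟨X', hX'⟩ : ∃ X' : Finset ℕ, X' = X.filter (fun n => ∀ x ∈ big, n ∉ K x) := ⟨_, rfl⟩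
  have hX'X : X' ⊆ X := by
    rw [hX']
    exact Finset.filter_subset _ _
  have hrest : (X'.card : ℝ) ≤ (N : ℝ) ^ ε := by
    by_contra hcon
    push Not at hcon
    have hNε2 : 0 < (N : ℝ) ^ ε := Real.rpow_pos_of_pos hN0 _
    have hm0 : (0 : ℝ) < X'.card := lt_trans hNε2 hcon
    obtain ⟨w, hw⟩ : ∃ w : ℕ → ℝ, ∀ n, w n = if n ∈ X' then (X'.card : ℝ)⁻¹ else 0 :=
      ⟨_, fun _ => rfl⟩
    have hle : (N : ℝ) ^ (ε / 2) ≤ (N : ℝ) ^ ε :=
      Real.rpow_le_rpow_of_exponent_le hN1 (by linarith)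
    have hwt : Wt N ((N : ℝ) ^ (-(ε / 2))) w := by
      refine ⟨?_, ?_, ?_⟩
      · intro n
        rw [hw]
        split_ifs
        · positivity
        · exact le_rfl
      · simp only [hw]
        rw [← Finset.sum_filter]
        have h2 : (Finset.Icc 1 N).filter (fun n => n ∈ X') = X' := by
          ext n
          rw [Finset.mem_filter]
          exact ⟨fun h => h.2, fun h => ⟨hX (hX'X h), h⟩⟩
        rw [h2, Finset.sum_const, nsmul_eq_mul]
        exact mul_inv_cancel₀ hm0.ne'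
      · intro n _
        rw [hw, hinv]
        split_ifs
        · exact inv_anti₀ hNε (hle.trans hcon.le)
        · positivity
    obtain ⟨y, hy1, hy2, hy3⟩ := hA w hwt (by
      intro n hn
      rw [hw]
      exact if_neg fun h => hn (hX'X h))
    have h1 : ∑ n ∈ K y, w n = ((K y ∩ X').card : ℝ) * (X'.card : ℝ)⁻¹ := by
      simp only [hw]
      rw [← Finset.sum_filter, Finset.sum_const, nsmul_eq_mul, Finset.filter_mem_eq_inter]
    rw [h1, ← div_eq_mul_inv, le_div_iff₀ hm0] at hy3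
    have h2 : (N : ℝ) ^ (ε / 2) ≤ ((K y ∩ X').card : ℝ) := by
      have e1 : (N : ℝ) ^ (-(ε / 2)) ≤ c := by
        have e2 : (N : ℝ) ^ (-(ε / 2)) ≤ (N : ℝ) ^ (-(ε / 4)) :=
          Real.rpow_le_rpow_of_exponent_le hN1 (by linarith)
        linarith
      have e3 : (N : ℝ) ^ (ε / 2) = (N : ℝ) ^ (-(ε / 2)) * (N : ℝ) ^ ε := by
        rw [← Real.rpow_add hN0]
        congr 1
        ring
      calc (N : ℝ) ^ (ε / 2) = (N : ℝ) ^ (-(ε / 2)) * (N : ℝ) ^ ε := e3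
        _ ≤ c * X'.card := mul_le_mul e1 hcon.le hNε2.le hc.le
        _ ≤ _ := hy3
    have h3 : (0 : ℝ) < ((K y ∩ X').card : ℝ) := lt_of_lt_of_le hNε h2
    have h4 : (K y ∩ X').Nonempty := by
      rw [← Finset.card_pos]
      exact_mod_cast h3
    obtain ⟨n, hn⟩ := h4
    rw [Finset.mem_inter] at hn
    have h5 : y ∈ big := by
      rw [hbig, Finset.mem_filter]
      refine ⟨hmLab y hy1 hy2 ⟨n, hn.1⟩, h2.trans ?_⟩
      exact_mod_cast Finset.card_le_card Finset.inter_subset_left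
    have h6 := hn.2
    rw [hX', Finset.mem_filter] at h6
    exact h6.2 y h5 hn.1
  -- the polynomials
  have hpoly : ∀ x : ℚ × ℤ × ℕ, ∃ f : Polynomial ℚ, x ∈ big → (f.natDegree = l ∧
      HtPoly ((N : ℝ) ^ (2 : ℕ)) f ∧ ∀ n ∈ K x, ∃ y ∈ Finset.Icc 1 N, f.eval (y : ℚ) = n) := by
    intro x
    by_cases hx : x ∈ big
    · have hb := hbigm x hx
      have hne : (K x).Nonempty := by
        rw [← Finset.card_pos]
        have : (0 : ℝ) < (K x).card := lt_of_lt_of_le hNε hb.2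
        exact_mod_cast this
      obtain ⟨n₀, hn₀⟩ := hne
      rw [hK, Finset.mem_filter] at hn₀
      obtain ⟨f, hf1, hf2, hf3⟩ := poly_class hl.two_le (by omega : 1 ≤ N) hH3 hb.1.1 hb.1.2 x.2.2
        ⟨n₀, hX hn₀.1, hn₀.2⟩
      refine ⟨f, fun _ => ⟨hf1, hf2, fun n hn => ?_⟩⟩
      rw [hK, Finset.mem_filter] at hn
      exact hf3 n (hX hn.1) hn.2.1 hn.2.2
    · exact ⟨0, fun h => absurd h hx⟩
  choose f hf using hpoly
  refine ⟨big.image f, ?_, ?_, ?_⟩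
  · exact le_trans (by exact_mod_cast Finset.card_image_le) hcard
  · intro g hg
    obtain ⟨x, hx, rfl⟩ := Finset.mem_image.1 hg
    exact ⟨(hf x hx).1, (hf x hx).2.1⟩
  · refine le_trans ?_ hrest
    refine Nat.cast_le.2 (Finset.card_le_card ?_)
    intro n hn
    simp only [Finset.mem_filter] at hn
    rw [hX', Finset.mem_filter]
    refine ⟨hn.1, fun x hx hnx => ?_⟩
    obtain ⟨y, hy, hyn⟩ := (hf x hx).2.2 n hnx
    exact hn.2 (f x) (Finset.mem_image_of_mem f hx) y hy hyn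

end H95.IS
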