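import Mathlib

/-!
# H95 IS: definitions (MP_20b81e_nt, inverse sieve theorem for power residue cells)

Everything in this file is a definition (plus trivial membership lemmas).

* `fr l m`: the `l`-free part `∏ q ^ (v_q(m) mod l)` of `m`.
* `CharSys l lo hi`: a finite family of characters of order `l` of the integers modulo primes in `(lo, hi]` (one for every
  prime `q ≡ 1 mod l` at least). `Bnd`: the three bounds (multiplicity, mass, Linnik type count).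
* `cen H`: the rationals of height `≤ H`. `Lf c σ n = σ (den c · n - num c)`.
* a *type* `T` is a finite set of triples `(c, σ, j)`; `dom T n`: all `Lf c σ n > 0`; `gT T n = ∏ (Lf c σ n) ^ j`.
* `Wm`: mass of the class `{n ∈ [N] : dom T n, fr (gT T n) = t}`. `ST`: the character sum of the type `T`.
-/

set_option autoImplicit false

open scoped Classical

noncomputable section

namespace H95.IS

/-- the `l`-free part of `m` -/
def fr (l m : ℕ) : ℕ := m.factorization.prod fun q e => q ^ (e % l)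

/-- `m` is `l`-free (and nonzero) -/
def LFree (l m : ℕ) : Prop := m ≠ 0 ∧ ∀ q : ℕ, m.factorization q < l

/-- a system of characters of order `l` modulo the primes `≡ 1 mod l` in `(lo, hi]` -/
structure CharSys (l : ℕ) (lo hi : ℝ) where
  ι : Type
  V : Finset ι
  p : ι → ℕ
  χ : ι → ℤ → ℂ
  prime : ∀ i ∈ V, (p i).Prime
  lo_lt : ∀ i ∈ V, lo < p i
  le_hi : ∀ i ∈ V, (p i : ℝ) ≤ hi
  mul : ∀ i ∈ V, ∀ a b : ℤ, χ i (a * b) = χ i a * χ i b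
  zero : ∀ i ∈ V, ∀ a : ℤ, (p i : ℤ) ∣ a → χ i a = 0
  pow : ∀ i ∈ V, ∀ a : ℤ, ¬ (p i : ℤ) ∣ a → χ i a ^ l = 1
  ker : ∀ i ∈ V, ∀ a b : ℤ, ¬ (p i : ℤ) ∣ a → ¬ (p i : ℤ) ∣ b →
    (χ i a = χ i b ↔ ∃ u : ZMod (p i), u ≠ 0 ∧ (a : ZMod (p i)) = b * u ^ l)
  surj : ∀ q : ℕ, q.Prime → lo < q → (q : ℝ) ≤ hi → l ∣ q - 1 → ∃ i ∈ V, p i = q

/-- the sum over the primes of a character system at `s` -/
def CharSys.P {l : ℕ} {lo hi : ℝ} (S : CharSys l lo hi) (s : ℤ) : ℂ :=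
  ∑ i ∈ S.V, S.χ i s / (S.p i : ℂ)

/-- the bounds for a character system -/
structure CharSys.Bnd {l : ℕ} {lo hi : ℝ} (S : CharSys l lo hi) (M r m0 : ℕ) (P0 C1 : ℝ) :
    Prop where
  mult : ∀ q : ℕ, (S.V.filter fun i => S.p i = q).card ≤ m0
  mass : ∑ i ∈ S.V, (1 : ℝ) / S.p i ≤ P0
  count : ∀ ρ : ℝ, 0 < ρ → ρ ≤ 1 →
    (((Finset.Icc 1 M).filter fun s : ℕ => LFree l s ∧ ρ < ‖S.P s‖).card : ℝ) * ρ ^ (2 * r) ≤ C1

/-- rationals of height at most `H` -/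
def cen (H : ℕ) : Finset ℚ :=
  (Finset.Icc (-(H : ℤ)) H ×ˢ Finset.Icc 1 H).image fun x : ℤ × ℕ => (x.1 : ℚ) / (x.2 : ℚ)

/-- the linear form `σ (den c · n - num c)` -/
def Lf (c : ℚ) (σ : ℤ) (n : ℕ) : ℤ := σ * ((c.den : ℤ) * n - c.num)

/-- domain of a type -/
def dom (T : Finset (ℚ × ℤ × ℕ)) (n : ℕ) : Prop := ∀ t ∈ T, 0 < Lf t.1 t.2.1 n

/-- the polynomial of a type -/
def gT (T : Finset (ℚ × ℤ × ℕ)) (n : ℕ) : ℤ := ∏ t ∈ T, Lf t.1 t.2.1 n ^ t.2.2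

/-- the types: nonempty sets of at most `k` triples with different centres, `σ = ±1`, `1 ≤ j < l` -/
def typs (l k H : ℕ) : Finset (Finset (ℚ × ℤ × ℕ)) :=
  (cen H ×ˢ (({1, -1} : Finset ℤ) ×ˢ Finset.Icc 1 (l - 1))).powerset.filter fun T =>
    T.Nonempty ∧ T.card ≤ k ∧ ∀ t ∈ T, ∀ t' ∈ T, t.1 = t'.1 → t = t'

/-- the mass of the class `t` of the type `T` -/
def Wm (l N : ℕ) (w : ℕ → ℝ) (T : Finset (ℚ × ℤ × ℕ)) (t : ℕ) : ℝ :=
  ∑ n ∈ (Finset.Icc 1 N).filter (fun n => dom T n ∧ fr l (gT T n).toNat = t), w n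

/-- the character sum of the type `T` over the `n ∈ A` with `dom T n` -/
def ST {l : ℕ} {lo hi : ℝ} (S : CharSys l lo hi) (i : S.ι) (w : ℕ → ℝ) (A : Finset ℕ)
    (T : Finset (ℚ × ℤ × ℕ)) : ℂ :=
  ∑ n ∈ A.filter (fun n => dom T n), (w n : ℂ) * S.χ i (gT T n)

/-- the elements of `[N]` in classes of mass `< τ` -/
def light (l N : ℕ) (w : ℕ → ℝ) (T : Finset (ℚ × ℤ × ℕ)) (τ : ℝ) : Finset ℕ :=
  (Finset.Icc 1 N).filter fun n => dom T n ∧ Wm l N w T (fr l (gT T n).toNat) < τ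

/-- the elements of `[N]` in classes of mass `≥ τ` -/
def heavy (l N : ℕ) (w : ℕ → ℝ) (T : Finset (ℚ × ℤ × ℕ)) (τ : ℝ) : Finset ℕ :=
  (Finset.Icc 1 N).filter fun n => dom T n ∧ τ ≤ Wm l N w T (fr l (gT T n).toNat)

/-- weights of total mass `1` on `[N]` with maximum at most `m` -/
structure Wt (N : ℕ) (m : ℝ) (w : ℕ → ℝ) : Prop where
  nonneg : ∀ n, 0 ≤ w n
  sum : ∑ n ∈ Finset.Icc 1 N, w n = 1
  le : ∀ n ∈ Finset.Icc 1 N, w n ≤ m

/-- the cell modulo `p` with centres `c ∈ S` and residues `θ c`: `den c · n - num c ∈ θ c · (nonzero l-th powers)` -/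
def inCell (l p : ℕ) (S : Finset ℚ) (θ : ℚ → ZMod p) (n : ℕ) : Prop :=
  ∀ c ∈ S, ∃ u : ZMod p, u ≠ 0 ∧ (c.den : ZMod p) * (n : ZMod p) - (c.num : ZMod p) = θ c * u ^ l

/-- the weighted cell hypothesis at `p`: the cell has mass at most `(1 - κ) l ^ {-|S|}` -/
def CellW (l k H N : ℕ) (κ : ℝ) (w : ℕ → ℝ) (p : ℕ) : Prop :=
  ∃ (S : Finset ℚ) (θ : ℚ → ZMod p), S.card ≤ k ∧ S ⊆ cen H ∧ (∀ c ∈ S, θ c ≠ 0) ∧
    (l : ℝ) ^ S.card * ∑ n ∈ (Finset.Icc 1 N).filter (fun n => inCell l p S θ n), w n ≤ 1 - κ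

end H95.IS
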