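import Pool.Agent.H63.MA.Ray

/-!
# H95 IS: definitions over a number field

`plN K y`: the primes of norm `≤ y`. `sw lam P I = ∑_{T ⊆ P, all v ∈ T divide I} lam T` (Selberg weight). `Rough z I`: all primes dividing `I`
have norm `> z`.
-/

set_option autoImplicit false

open scoped NumberField Classical
open H63.MA

noncomputable section

namespace H95.IS

variable (K : Type) [Field K] [NumberField K]

theorem plN_fin (y : ℝ) : {v : Pl K | (nm v : ℝ) ≤ y}.Finite := by
  have h1 : {I : Ideal (𝓞 K) | Ideal.absNorm I ≤ ⌊y⌋₊}.Finite :=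
    Ideal.finite_setOfPred_absNorm_le _
  refine Set.Finite.subset (h1.preimage (f := fun v : Pl K => v.asIdeal) ?_) ?_
  · intro v _ w _ h
    exact IsDedekindDomain.HeightOneSpectrum.ext h
  · intro v hv
    exact Nat.le_floor hv

/-- the primes of norm at most `y` -/
def plN (y : ℝ) : Finset (Pl K) := (plN_fin K y).toFinset

theorem mem_plN {y : ℝ} {v : Pl K} : v ∈ plN K y ↔ (nm v : ℝ) ≤ y := by
  unfold plN
  rw [Set.Finite.mem_toFinset]
  rfl

variable {K}

/-- Selberg weight -/
def sw (lam : Finset (Pl K) → ℝ) (P : Finset (Pl K)) (I : Ideal (𝓞 K)) : ℝ :=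
  ∑ T ∈ P.powerset.filter (fun T => ∀ v ∈ T, v.asIdeal ∣ I), lam T

/-- all primes dividing `I` have norm `> z` -/
def Rough (z : ℝ) (I : Ideal (𝓞 K)) : Prop := ∀ v : Pl K, v.asIdeal ∣ I → z < nm v

end H95.IS
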