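import Pool.Agent.H95.IS.Pos
import Pool.Agent.H95.IS.Cen

/-!
# IS-EXTR: a type whose sum is large for a positive proportion of the primes has a large class

`pos` with `A = [N] ∩ dom T`, `G = gT T`, `M = N^(3 l² k)` (`gT_pos`, `gT_pow_le`), `W` = the maximum of the masses `Wm l N w T t` (over
the finitely many `t` which occur; `W ≥ 0`), `ρ = min 1 (η2 κ3²/4)`:
`η2 κ3² ≤ ∑_i (1/p i) ‖ST S i w [N] T‖² ≤ ρ + P0 C1 ρ^(-2r) W + m0 log₂ M / N^α ≤ η2 κ3²/4 + P0 C1 ρ^(-2r) W + η2 κ3²/4` for `N ≥ N0`.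
So `W ≥ (η2 κ3²/2) / (P0 C1 ρ^(-2r) + 1) =: c > 0` (`P0, C1 ≥ 0` if `Bnd` holds; define `c` with `|P0| |C1|`).
-/

set_option autoImplicit false
open scoped Classical

namespace H95.IS

private theorem logN (a m0 : ℕ) {α e : ℝ} (hα : 0 < α) (he : 0 < e) : ∃ N0 : ℕ, ∀ N ≥ N0,
    (m0 : ℝ) * (Nat.log 2 (N ^ a) : ℝ) / (N : ℝ) ^ α ≤ e := by
  have h1 := (isLittleO_log_rpow_atTop hα).def
    (show (0 : ℝ) < e / (2 * (m0 * a) + 1) by positivity)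
  have h2 := tendsto_natCast_atTop_atTop (R := ℝ) |>.eventually h1
  obtain ⟨N0, hN0⟩ := Filter.eventually_atTop.1 h2
  refine ⟨max N0 1, fun N hN => ?_⟩
  have h3 := hN0 N ((le_max_left _ _).trans hN)
  have hN1 : 1 ≤ N := (le_max_right _ _).trans hN
  have hNr : (0 : ℝ) < N := by exact_mod_cast hN1
  have hlog : 0 ≤ Real.log N := Real.log_natCast_nonneg _
  have hpow : 0 < (N : ℝ) ^ α := Real.rpow_pos_of_pos hNr _
  rw [Real.norm_eq_abs, Real.norm_eq_abs, abs_of_nonneg hlog, abs_of_nonneg hpow.le] at h3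
  have h4 : (Nat.log 2 (N ^ a) : ℝ) ≤ 2 * a * Real.log N := by
    have h5 : (Nat.log 2 (N ^ a) : ℝ) ≤ Real.logb 2 ((N ^ a : ℕ) : ℝ) :=
      Real.natLog_le_logb _ _
    rw [Real.logb, Nat.cast_pow, Real.log_pow] at h5
    refine h5.trans ?_
    rw [div_le_iff₀ (Real.log_pos (by norm_num))]
    have h6 : (1 : ℝ) / 2 ≤ Real.log 2 := by linarith [Real.log_two_gt_d9]
    have h7 : 0 ≤ (a : ℝ) * Real.log N := by positivity
    nlinarith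
  rw [div_le_iff₀ hpow]
  have h8 : (m0 : ℝ) * (Nat.log 2 (N ^ a) : ℝ) ≤ (2 * (m0 * a) + 1) * Real.log N := by
    calc (m0 : ℝ) * (Nat.log 2 (N ^ a) : ℝ) ≤ m0 * (2 * a * Real.log N) := by gcongr
      _ ≤ (2 * (m0 * a) + 1) * Real.log N := by nlinarith
  refine h8.trans ?_
  have h9 : (0 : ℝ) < 2 * (m0 * a) + 1 := by positivity
  calc (2 * ((m0 : ℝ) * a) + 1) * Real.log N
      ≤ (2 * (m0 * a) + 1) * (e / (2 * (m0 * a) + 1) * (N : ℝ) ^ α) := by gcongr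
    _ = e * (N : ℝ) ^ α := by field_simp

theorem extract {l : ℕ} (hl : l.Prime) (k r m0 : ℕ) {α κ3 η2 : ℝ} (P0 C1 : ℝ) (hα : 0 < α)
    (hκ : 0 < κ3) (hη : 0 < η2) :
    ∃ c : ℝ, 0 < c ∧ ∃ N0 : ℕ, ∀ N ≥ N0, ∀ H : ℕ, H ≤ N →
      ∀ (hi : ℝ) (S : CharSys l ((N : ℝ) ^ α) hi), S.Bnd (N ^ (3 * l ^ 2 * k)) r m0 P0 C1 →
      ∀ (m : ℝ) (w : ℕ → ℝ), Wt N m w → ∀ T ∈ typs l k H,
      η2 ≤ ∑ i ∈ S.V.filter (fun i => κ3 ≤ ‖ST S i w (Finset.Icc 1 N) T‖), (1 : ℝ) / S.p i →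
      ∃ t : ℕ, c ≤ Wm l N w T t := by
  have hY : 0 < η2 * κ3 ^ 2 := by positivity
  obtain ⟨ρ, hρd⟩ : ∃ ρ, ρ = min 1 (η2 * κ3 ^ 2 / 4) := ⟨_, rfl⟩
  have hρ : 0 < ρ := by
    rw [hρd]
    exact lt_min one_pos (by positivity)
  have hρ1 : ρ ≤ 1 := hρd ▸ min_le_left _ _
  have hρ2 : ρ ≤ η2 * κ3 ^ 2 / 4 := hρd ▸ min_le_right _ _
  have hX0 : 0 ≤ |P0| * (|C1| / ρ ^ (2 * r)) := by positivity
  obtain ⟨N1, hN1⟩ := logN (3 * l ^ 2 * k) m0 hα (show (0 : ℝ) < η2 * κ3 ^ 2 / 4 by positivity)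
  refine ⟨η2 * κ3 ^ 2 / 2 / (|P0| * (|C1| / ρ ^ (2 * r)) + 1), by positivity, max N1 2, ?_⟩
  intro N hN H hH hi S hS m w hw T hT hsum
  have hNa : N1 ≤ N := (le_max_left _ _).trans hN
  have hNb : 2 ≤ N := (le_max_right _ _).trans hN
  have hlo : 1 ≤ (N : ℝ) ^ α := by
    apply Real.one_le_rpow _ hα.le
    exact_mod_cast (by omega : 1 ≤ N)
  by_contra hcon
  push Not at hcon
  have hpos := pos hl hlo S hS ((Finset.Icc 1 N).filter fun n => dom T n) w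
    (fun n _ => hw.nonneg n) ?_ (gT T) ?_
    (η2 * κ3 ^ 2 / 2 / (|P0| * (|C1| / ρ ^ (2 * r)) + 1)) ?_ hρ hρ1
  · have h1 := hN1 N hNa
    have h2 : η2 * κ3 ^ 2 ≤ ∑ i ∈ S.V, 1 / (S.p i : ℝ) *
        ‖∑ n ∈ (Finset.Icc 1 N).filter fun n => dom T n, (w n : ℂ) * S.χ i (gT T n)‖ ^ 2 := by
      calc η2 * κ3 ^ 2
          ≤ (∑ i ∈ S.V.filter (fun i => κ3 ≤ ‖ST S i w (Finset.Icc 1 N) T‖),
              (1 : ℝ) / S.p i) * κ3 ^ 2 := by gcongr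
        _ = ∑ i ∈ S.V.filter (fun i => κ3 ≤ ‖ST S i w (Finset.Icc 1 N) T‖),
              (1 : ℝ) / S.p i * κ3 ^ 2 := by rw [Finset.sum_mul]
        _ ≤ ∑ i ∈ S.V.filter (fun i => κ3 ≤ ‖ST S i w (Finset.Icc 1 N) T‖),
              (1 : ℝ) / S.p i * ‖ST S i w (Finset.Icc 1 N) T‖ ^ 2 := by
            refine Finset.sum_le_sum fun i hi' => ?_
            have h3 := (Finset.mem_filter.1 hi').2
            gcongr
        _ ≤ ∑ i ∈ S.V, (1 : ℝ) / S.p i * ‖ST S i w (Finset.Icc 1 N) T‖ ^ 2 := by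
            apply Finset.sum_le_sum_of_subset_of_nonneg (Finset.filter_subset _ _)
            intro i _ _
            positivity
    have h3 : P0 * (C1 / ρ ^ (2 * r)) * (η2 * κ3 ^ 2 / 2 / (|P0| * (|C1| / ρ ^ (2 * r)) + 1)) <
        η2 * κ3 ^ 2 / 2 := by
      have h4 : P0 * (C1 / ρ ^ (2 * r)) ≤ |P0| * (|C1| / ρ ^ (2 * r)) := by
        calc P0 * (C1 / ρ ^ (2 * r)) ≤ |P0 * (C1 / ρ ^ (2 * r))| := le_abs_self _
          _ = |P0| * (|C1| / ρ ^ (2 * r)) := by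
            rw [abs_mul, abs_div, abs_of_pos (pow_pos hρ _)]
      have h5 : 0 < |P0| * (|C1| / ρ ^ (2 * r)) + 1 := by positivity
      calc P0 * (C1 / ρ ^ (2 * r)) * (η2 * κ3 ^ 2 / 2 / (|P0| * (|C1| / ρ ^ (2 * r)) + 1))
          ≤ |P0| * (|C1| / ρ ^ (2 * r)) *
            (η2 * κ3 ^ 2 / 2 / (|P0| * (|C1| / ρ ^ (2 * r)) + 1)) := by gcongr
        _ < (|P0| * (|C1| / ρ ^ (2 * r)) + 1) *
            (η2 * κ3 ^ 2 / 2 / (|P0| * (|C1| / ρ ^ (2 * r)) + 1)) := by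
            apply mul_lt_mul_of_pos_right (by linarith)
            positivity
        _ = η2 * κ3 ^ 2 / 2 := by field_simp
    linarith
  · rw [← hw.sum]
    apply Finset.sum_le_sum_of_subset_of_nonneg (Finset.filter_subset _ _)
    intro n _ _
    exact hw.nonneg n
  · intro n hn
    rw [Finset.mem_filter] at hn
    exact ⟨gT_pos hn.2, gT_pow_le hNb hH hT hn.1 hn.2⟩
  · intro t
    refine le_trans (le_of_eq ?_) (hcon t).le
    unfold Wm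
    rw [Finset.filter_filter]

end H95.IS
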