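import Pool.Agent.H95.IS.Defs

/-!
# IS-FR: the `l`-free part `fr l m = ∏_q q ^ (v_q(m) mod l)`

* `fr_fact`: `Nat.factorization` of a product of prime powers (`Nat.prod_pow_factorization_eq_self`: the function
  `q ↦ v_q(m) % l` has support in the primes). Note `fr l 0 = 1` and `Nat.factorization 0 = 0`.
* `fr_pow`: `u = ∏ q ^ (v_q(m) / l)`, since `e = e % l + l * (e / l)`; `fr_dvd` follows (for `l = 0`: `e % 0 = e`, `fr = m`).
* `fr_eq_iff`: `fr_pos` and `Nat.eq_of_factorization_eq`.
* `fr_cancel`: modulo `l`: `v(a) + (l-1) v(b) ≡ v(a) + (l-1) v(c)`, so `v(b) ≡ v(c)`.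
* `fr_pow_cancel`: `j v(a) ≡ j v(b) mod l` iff `v(a) ≡ v(b)` as `gcd(j, l) = 1`.
* `dvd_fr_iff`: `q ∣ fr l m` iff `v_q(fr l m) = v_q(m) % l ≠ 0`.
* `fr_dvd_pow`: for every prime `q` with `v_q(fr l m) > 0`: `v_q(fr l m) ≤ l - 1 ≤ (l-1) v_q(D)`
  (`Nat.factorization_le_iff_dvd`).
* `lfree_eq`: `v_q(s) + l v_q(a) = v_q(s') + l v_q(b)` gives `v_q(s) ≡ v_q(s') mod l`, and both are `< l`.
-/

set_option autoImplicit false

namespace H95.IS

theorem fr_pos (l m : ℕ) : 0 < fr l m := by
  unfold fr Finsupp.prod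
  refine Finset.prod_pos fun q hq => ?_
  exact Nat.pow_pos (Nat.prime_of_mem_primeFactors (by simpa using hq)).pos

/-- factorization of a product of prime powers with exponents `f (v_q(m))` -/
theorem fr_aux (f : ℕ → ℕ) (hf : f 0 = 0) (m q : ℕ) :
    (m.factorization.prod fun q e => q ^ (f e)).factorization q = f (m.factorization q) := by
  have h1 : (m.factorization.mapRange f hf).prod (fun q e => q ^ e) =
      m.factorization.prod fun q e => q ^ (f e) :=
    Finsupp.prod_mapRange_index (fun a => pow_zero a)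
  rw [← h1, Nat.prod_pow_factorization_eq_self]
  · rw [Finsupp.mapRange_apply]
  · intro i hi
    have h2 := Finsupp.support_mapRange hi
    exact Nat.prime_of_mem_primeFactors (by simpa using h2)

theorem fr_fact (l m q : ℕ) : (fr l m).factorization q = m.factorization q % l := by
  have h := fr_aux (fun e => e % l) (Nat.zero_mod l) m q
  exact h

theorem fr_pow {l : ℕ} (hl : 0 < l) {m : ℕ} (hm : m ≠ 0) :
    ∃ u : ℕ, 0 < u ∧ m = fr l m * u ^ l := by
  obtain ⟨u, hu⟩ : ∃ u : ℕ, u = m.factorization.prod fun q e => q ^ (e / l) := ⟨_, rfl⟩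
  have hfu : ∀ q, u.factorization q = m.factorization q / l := by
    intro q
    rw [hu]
    exact fr_aux (fun e => e / l) (Nat.zero_div l) m q
  have hupos : 0 < u := by
    rw [hu]
    unfold Finsupp.prod
    refine Finset.prod_pos fun q hq => ?_
    exact Nat.pow_pos (Nat.prime_of_mem_primeFactors (by simpa using hq)).pos
  refine ⟨u, hupos, ?_⟩
  have h1 : fr l m ≠ 0 := (fr_pos l m).ne'
  have h2 : u ^ l ≠ 0 := pow_ne_zero l hupos.ne'
  refine Nat.eq_of_factorization_eq hm (mul_ne_zero h1 h2) fun q => ?_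
  rw [Nat.factorization_mul h1 h2, Nat.factorization_pow, Finsupp.add_apply, Finsupp.smul_apply, fr_fact, hfu,
    smul_eq_mul]
  exact (Nat.mod_add_div _ _).symm

theorem fr_dvd (l : ℕ) {m : ℕ} (hm : m ≠ 0) : fr l m ∣ m := by
  rw [← Nat.factorization_le_iff_dvd (fr_pos l m).ne' hm]
  intro q
  rw [fr_fact]
  exact Nat.mod_le _ _

theorem fr_le (l : ℕ) {m : ℕ} (hm : m ≠ 0) : fr l m ≤ m :=
  Nat.le_of_dvd (Nat.pos_of_ne_zero hm) (fr_dvd l hm)

theorem fr_lfree {l : ℕ} (hl : 0 < l) (m : ℕ) : LFree l (fr l m) := by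
  refine ⟨(fr_pos l m).ne', fun q => ?_⟩
  rw [fr_fact]
  exact Nat.mod_lt _ hl

theorem fr_eq_iff (l m n : ℕ) :
    fr l m = fr l n ↔ ∀ q : ℕ, m.factorization q % l = n.factorization q % l := by
  constructor
  · intro h q
    rw [← fr_fact, ← fr_fact, h]
  · intro h
    refine Nat.eq_of_factorization_eq (fr_pos l m).ne' (fr_pos l n).ne' fun q => ?_
    rw [fr_fact, fr_fact, h q]

theorem fr_cancel {l : ℕ} (hl : 0 < l) {a b c : ℕ} (ha : a ≠ 0) (hb : b ≠ 0) (hc : c ≠ 0)
    (h : fr l (a * b ^ (l - 1)) = fr l (a * c ^ (l - 1))) : fr l b = fr l c := by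
  rw [fr_eq_iff] at h ⊢
  intro q
  have h1 := h q
  rw [Nat.factorization_mul ha (pow_ne_zero _ hb), Nat.factorization_mul ha (pow_ne_zero _ hc),
    Nat.factorization_pow, Nat.factorization_pow, Finsupp.add_apply, Finsupp.add_apply, Finsupp.smul_apply,
    Finsupp.smul_apply, smul_eq_mul, smul_eq_mul] at h1
  have h2 : (l - 1) * b.factorization q ≡ (l - 1) * c.factorization q [MOD l] := Nat.ModEq.add_left_cancel' _ h1
  have h3 : (l - 1) * b.factorization q + (b.factorization q + c.factorization q) ≡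
      (l - 1) * c.factorization q + (b.factorization q + c.factorization q) [MOD l] := h2.add_right _
  have h4 : (l - 1) * b.factorization q + (b.factorization q + c.factorization q) =
      c.factorization q + l * b.factorization q := by
    obtain ⟨k, rfl⟩ : ∃ k, l = k + 1 := ⟨l - 1, by omega⟩
    rw [Nat.add_sub_cancel]
    ring
  have h5 : (l - 1) * c.factorization q + (b.factorization q + c.factorization q) =
      b.factorization q + l * c.factorization q := by
    obtain ⟨k, rfl⟩ : ∃ k, l = k + 1 := ⟨l - 1, by omega⟩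
    rw [Nat.add_sub_cancel]
    ring
  rw [h4, h5] at h3
  have h6 : (c.factorization q + l * b.factorization q) % l = (b.factorization q + l * c.factorization q) % l := h3
  rw [Nat.add_mul_mod_self_left, Nat.add_mul_mod_self_left] at h6
  exact h6.symm

theorem fr_pow_cancel {l j : ℕ} (hl : l.Prime) (hj : 1 ≤ j) (hj2 : j < l) (a b : ℕ) :
    fr l (a ^ j) = fr l (b ^ j) ↔ fr l a = fr l b := by
  have hcop : Nat.gcd l j = 1 := Nat.coprime_of_lt_prime (by omega) hj2 hl
  rw [fr_eq_iff, fr_eq_iff]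
  refine forall_congr' fun q => ?_
  rw [Nat.factorization_pow, Nat.factorization_pow, Finsupp.smul_apply, Finsupp.smul_apply, smul_eq_mul, smul_eq_mul]
  constructor
  · intro h
    exact Nat.ModEq.cancel_left_of_coprime hcop h
  · intro h
    exact Nat.ModEq.mul_left j h

theorem dvd_fr_iff (l m : ℕ) {q : ℕ} (hq : q.Prime) : q ∣ fr l m ↔ ¬ l ∣ m.factorization q := by
  rw [hq.dvd_iff_one_le_factorization (fr_pos l m).ne', fr_fact, Nat.dvd_iff_mod_eq_zero]
  omega

theorem fr_dvd_pow {l : ℕ} (hl : 0 < l) {m D : ℕ} (hD : D ≠ 0)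
    (h : ∀ q : ℕ, q.Prime → q ∣ fr l m → q ∣ D) : fr l m ∣ D ^ (l - 1) := by
  rw [← Nat.factorization_le_iff_dvd (fr_pos l m).ne' (pow_ne_zero _ hD)]
  intro q
  rw [Nat.factorization_pow, Finsupp.smul_apply, smul_eq_mul]
  by_cases hq : q.Prime
  · by_cases hqd : q ∣ fr l m
    · have h1 := (hq.dvd_iff_one_le_factorization hD).1 (h q hq hqd)
      have h2 : (fr l m).factorization q ≤ l - 1 := by
        have := (fr_lfree hl m).2 q
        omega
      exact h2.trans (Nat.le_mul_of_pos_right _ h1)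
    · rw [Nat.factorization_eq_zero_of_not_dvd hqd]
      exact Nat.zero_le _
  · rw [Nat.factorization_eq_zero_of_not_prime _ hq]
    exact Nat.zero_le _

theorem lfree_eq {l : ℕ} {s s' a b : ℕ} (hs : LFree l s) (hs' : LFree l s') (ha : a ≠ 0)
    (hb : b ≠ 0) (h : s * a ^ l = s' * b ^ l) : s = s' := by
  refine Nat.eq_of_factorization_eq hs.1 hs'.1 fun q => ?_
  have h1 : (s * a ^ l).factorization q = (s' * b ^ l).factorization q := by rw [h]
  rw [Nat.factorization_mul hs.1 (pow_ne_zero _ ha), Nat.factorization_mul hs'.1 (pow_ne_zero _ hb),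
    Nat.factorization_pow, Nat.factorization_pow, Finsupp.add_apply, Finsupp.add_apply, Finsupp.smul_apply,
    Finsupp.smul_apply, smul_eq_mul, smul_eq_mul] at h1
  have h2 : (s.factorization q + l * a.factorization q) % l = (s'.factorization q + l * b.factorization q) % l := by
    rw [h1]
  rw [Nat.add_mul_mod_self_left, Nat.add_mul_mod_self_left, Nat.mod_eq_of_lt (hs.2 q), Nat.mod_eq_of_lt (hs'.2 q)] at h2
  exact h2

end H95.IS
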