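import Pool.Agent.H63.MA.SymA

/-!
# IS-QPL: the primes of `ℚ`

`𝓞 ℚ ≅ ℤ` (`Rat.ringOfIntegersEquiv`); the prime ideals of `ℤ` are `(p)`. (Mathlib may have `Rat.HeightOneSpectrum.primesEquiv` or
`Rat.RingOfIntegers` lemmas on `HeightOneSpectrum (𝓞 ℚ)`.) `absNorm (p) = p`.
-/

set_option autoImplicit false

open scoped NumberField
open H63.MA

namespace H95.IS

/-- every element of `𝓞 ℚ` is an integer -/
theorem qpl_int (x : 𝓞 ℚ) : ∃ n : ℤ, x = (n : 𝓞 ℚ) := by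
  refine ⟨Rat.ringOfIntegersEquiv x, ?_⟩
  apply Rat.ringOfIntegersEquiv.injective
  rw [map_intCast]
  simp

theorem qpl_absI (n : ℤ) : Ideal.absNorm (Ideal.span {((n : ℤ) : 𝓞 ℚ)}) = n.natAbs := by
  rw [Ideal.absNorm_span_singleton]
  have h1 : ((n : ℤ) : 𝓞 ℚ) = algebraMap ℤ (𝓞 ℚ) n := by simp
  have h2 : Module.finrank ℤ (𝓞 ℚ) = 1 := by
    rw [NumberField.RingOfIntegers.rank, Module.finrank_self]
  rw [h1, Algebra.norm_algebraMap, h2, pow_one]

theorem qpl_abs (n : ℕ) : Ideal.absNorm (Ideal.span {((n : ℕ) : 𝓞 ℚ)}) = n := by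
  have h := qpl_absI (n : ℤ)
  rw [Int.cast_natCast, Int.natAbs_natCast] at h
  exact h

theorem qpl_gen (v : Pl ℚ) : v.asIdeal = Ideal.span {((nm v : ℕ) : 𝓞 ℚ)} ∧ (nm v).Prime := by
  have h1 := Rat.HeightOneSpectrum.span_natGenerator v
  have h2 : v.asIdeal = Ideal.span {((Rat.HeightOneSpectrum.natGenerator v : ℕ) : 𝓞 ℚ)} := by
    have h3 := congrArg (Ideal.map (Rat.IsIntegralClosure.intEquiv (𝓞 ℚ)).symm) h1
    rw [Ideal.map_span, Set.image_singleton] at h3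
    rw [Ideal.map_symm (f := Rat.IsIntegralClosure.intEquiv (𝓞 ℚ)),
      v.asIdeal.comap_map_of_bijective _
        (Rat.IsIntegralClosure.intEquiv (𝓞 ℚ)).bijective] at h3
    rw [← h3]
    congr 2
    simp
  have h4 : nm v = Rat.HeightOneSpectrum.natGenerator v := by
    unfold nm
    rw [h2, qpl_abs]
  rw [h4]
  exact ⟨h2, Rat.HeightOneSpectrum.prime_natGenerator v⟩

theorem qpl_prime (v : Pl ℚ) : (nm v).Prime := (qpl_gen v).2

theorem qpl_inj {v w : Pl ℚ} (h : nm v = nm w) : v = w := by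
  apply IsDedekindDomain.HeightOneSpectrum.ext
  rw [(qpl_gen v).1, (qpl_gen w).1, h]

theorem qpl_surj {p : ℕ} (hp : p.Prime) : ∃ v : Pl ℚ, nm v = p := by
  have h1 : Prime ((Ideal.span {((p : ℕ) : ℤ)}).map
      (Rat.IsIntegralClosure.intEquiv (𝓞 ℚ)).symm) := by
    refine Ideal.map_prime_of_equiv _ ?_ ?_
    · rw [Ideal.prime_iff_isPrime, Ideal.span_singleton_prime]
      · exact Nat.prime_iff_prime_int.1 hp
      · exact_mod_cast hp.ne_zero
      · rw [Ne, Ideal.span_singleton_eq_bot]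
        exact_mod_cast hp.ne_zero
    · rw [Ne, Ideal.span_singleton_eq_bot]
      exact_mod_cast hp.ne_zero
  refine ⟨IsDedekindDomain.HeightOneSpectrum.ofPrime h1, ?_⟩
  unfold nm
  rw [IsDedekindDomain.HeightOneSpectrum.ofPrime_asIdeal, Ideal.map_span, Set.image_singleton]
  have h2 : (Rat.IsIntegralClosure.intEquiv (𝓞 ℚ)).symm ((p : ℕ) : ℤ) = ((p : ℕ) : 𝓞 ℚ) := by
    simp
  rw [h2, qpl_abs]

end H95.IS
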