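import Pool.Agent.H63.MA.RayC
import Pool.Agent.H95.IS.Fr
import Pool.Agent.H95.IS.QPl

/-!
# IS-JAC: the Jacobi symbol `b ↦ (s/b)` as a ray class character of `ℚ` (`s > 0`), and nontriviality

`𝓞 ℚ ≅ ℤ` (`Rat.ringOfIntegersEquiv`), `Ideal.absNorm (span {x}) = |x|`.
`jac`: `χ I = jacobiSym s (absNorm I)` if `I ≠ ⊥` and `I` is coprime to `(4s)`, and `0` otherwise. `absNorm` is multiplicative,
`jacobiSym.mul_right`; for `I` coprime to `4s` the norm `n` is odd and coprime to `s`, so the symbol is `±1` (`jacobiSym.ne_zero`...). `ray`: `x ≡ 1 mod 4s`: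
`n = |x| ≡ ±1 mod 4s`. `jacobiSym.mod_right`: the symbol depends only on `n % (4s)` for odd `n`. If `n ≡ 1`: `jacobiSym s 1 = 1`. If `n ≡ -1`:
`jacobiSym s (4s-1) = jacobiSym (4s) (4s-1) = jacobiSym 1 (4s-1) = 1` (`jacobiSym` of the square `4` is `1`; `4s ≡ 1 mod (4s-1)`).
For a prime `v` with `nm v = p` odd: `v` is coprime to `4s` iff `p ∤ s`, and otherwise `jacobiSym s p = 0`.
`jacN`: let `s ≠ s'` be squarefree, `q` a prime dividing exactly one of them (exists since `s ≠ s'`), an odd one if possible. If `q` is odd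
choose `b > 0` with `b ≡ 1 mod 8`, `b ≡ 1` modulo every odd prime `≠ q` dividing `s s'`, `b` a nonresidue modulo `q` (CRT). By quadratic reciprocity
(`b ≡ 1 mod 8`: `jacobiSym.quadratic_reciprocity_one_mod_four`, `jacobiSym.at_two`) `(m/b) = (b/m)` for odd `m`, `(2/b) = 1`, so
`(s/b)(s'/b) = (b/q) = -1`. If only `q = 2` is possible then `s' = 2 s` or `s = 2 s'` with odd smaller number: choose `b ≡ 5 mod 8`, `b ≡ 1` modulo the odd
primes dividing `s`: `(2/b) = -1`, `(s/b)(s'/b) = (2/b) (s/b)² = -1` (for the smaller one `s`). Then `I = (b)` is coprime to `𝔣 𝔣' = (4s)(4s')` and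
`ψ I = -1 ≠ 1`.
-/

set_option autoImplicit false

open scoped NumberField Classical ComplexConjugate
open H63.MA

namespace H95.IS

open NumberTheorySymbols

/-! ### ideals of `𝓞 ℚ` -/

theorem jac_gen (I : Ideal (𝓞 ℚ)) : I = Ideal.span {((Ideal.absNorm I : ℕ) : 𝓞 ℚ)} := by
  have h1 : ∃ m : ℤ, I.map Rat.ringOfIntegersEquiv = Ideal.span {m} := by
    obtain ⟨m, hm⟩ := IsPrincipalIdealRing.principal (I.map Rat.ringOfIntegersEquiv)
    exact ⟨m, hm⟩
  obtain ⟨m, hm⟩ := h1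
  have h2 : I = Ideal.span {((m : ℤ) : 𝓞 ℚ)} := by
    have h3 := congrArg (Ideal.map Rat.ringOfIntegersEquiv.symm) hm
    rw [Ideal.map_span, Set.image_singleton] at h3
    rw [Ideal.map_symm (f := Rat.ringOfIntegersEquiv),
      I.comap_map_of_bijective _ Rat.ringOfIntegersEquiv.bijective] at h3
    rw [h3]
    congr 2
    simp
  have h4 : Ideal.absNorm I = m.natAbs := by rw [h2, qpl_absI]
  rw [h4]
  rcases Int.natAbs_eq m with h | h
  · conv_lhs => rw [h2, h]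
    rw [Int.cast_natCast]
  · conv_lhs => rw [h2, h]
    rw [Int.cast_neg, Int.cast_natCast, Ideal.span_singleton_neg]

theorem jac_copE (m n : ℕ) : IsCoprime ((m : ℕ) : 𝓞 ℚ) ((n : ℕ) : 𝓞 ℚ) ↔ Nat.Coprime m n := by
  rw [← Nat.isCoprime_iff_coprime]
  constructor
  · intro h
    have h1 := h.map Rat.ringOfIntegersEquiv.toRingHom
    simpa using h1
  · intro h
    have h1 := h.map (Int.castRingHom (𝓞 ℚ))
    simpa using h1

theorem jac_cop (I : Ideal (𝓞 ℚ)) (n : ℕ) :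
    IsCoprime I (Ideal.span {((n : ℕ) : 𝓞 ℚ)}) ↔ Nat.Coprime (Ideal.absNorm I) n := by
  conv_lhs => rw [jac_gen I]
  rw [Ideal.isCoprime_span_singleton_iff, jac_copE]

/-! ### arithmetic -/

theorem jac_gcd {s n : ℕ} (h : Nat.Coprime n (4 * s)) : ((s : ℕ) : ℤ).gcd (n : ℤ) = 1 := by
  rw [Int.gcd_natCast_natCast]
  exact (Nat.Coprime.coprime_mul_left_right h).symm

theorem jac_odd {s n : ℕ} (h : Nat.Coprime n (4 * s)) : Odd n := by
  have h1 : Nat.Coprime n 2 := by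
    refine Nat.Coprime.coprime_dvd_right ?_ h
    exact ⟨2 * s, by ring⟩
  rwa [Nat.coprime_two_right] at h1

/-- the Jacobi symbol is trivial on `x ≡ 1 mod 4 s` -/
theorem jac_ray {s : ℕ} (hs : 0 < s) {a : ℤ} (ha : ((4 * s : ℕ) : ℤ) ∣ a - 1) :
    J((s : ℤ) | a.natAbs) = 1 := by
  have hodd : Odd a.natAbs := by
    rw [Int.natAbs_odd]
    obtain ⟨c, hc⟩ := ha
    refine ⟨2 * (s : ℤ) * c, ?_⟩
    push_cast at hc
    linarith
  rw [jacobiSym.mod_right _ hodd, Int.natAbs_natCast]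
  rcases le_or_gt 0 a with h | h
  · have h1 : a.natAbs % (4 * s) = 1 := by
      have h2 : ((a.natAbs : ℕ) : ℤ) % ((4 * s : ℕ) : ℤ) = 1 := by
        rw [Int.natAbs_of_nonneg h]
        rw [Int.emod_eq_iff (by push_cast; omega)]
        refine ⟨by norm_num, ?_, ?_⟩
        · rw [Int.natAbs_natCast]
          have : 1 < 4 * s := by omega
          exact_mod_cast this
        · rw [← neg_sub, dvd_neg]
          exact ha
      exact_mod_cast h2
    rw [h1, jacobiSym.one_right]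
  · have h1 : a.natAbs % (4 * s) = 4 * s - 1 := by
      have h2 : ((a.natAbs : ℕ) : ℤ) % ((4 * s : ℕ) : ℤ) = ((4 * s - 1 : ℕ) : ℤ) := by
        rw [Int.ofNat_natAbs_of_nonpos h.le, Int.emod_eq_iff (by push_cast; omega)]
        refine ⟨by positivity, ?_, ?_⟩
        · rw [Int.natAbs_natCast]
          have : 4 * s - 1 < 4 * s := by omega
          exact_mod_cast this
        · rw [Nat.cast_sub (by omega)]
          obtain ⟨c, hc⟩ := ha
          refine ⟨1 + c, ?_⟩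
          push_cast at hc ⊢
          linarith
      exact_mod_cast h2
    rw [h1]
    have hoddm : Odd (4 * s - 1) := ⟨2 * s - 1, by omega⟩
    have h4 : J((4 : ℤ) | (4 * s - 1)) = 1 := by
      have h5 : (4 : ℤ) = 2 * 2 := by norm_num
      rw [h5, jacobiSym.mul_left, ← sq]
      refine jacobiSym.sq_one ?_
      have h6 := (Nat.coprime_two_right.2 hoddm).symm
      have h7 : Int.gcd ((2 : ℕ) : ℤ) (((4 * s - 1 : ℕ)) : ℤ) = 1 := by
        rw [Int.gcd_natCast_natCast]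
        exact h6
      exact_mod_cast h7
    have h5 : J((4 * s : ℤ) | (4 * s - 1)) = 1 := by
      rw [jacobiSym.mod_left' (a₂ := 1), jacobiSym.one_left]
      have h6 : (4 * (s : ℤ)) = 1 + (((4 * s - 1 : ℕ)) : ℤ) * 1 := by
        rw [Nat.cast_sub (by omega)]
        push_cast
        ring
      rw [h6, Int.add_mul_emod_self_left]
    rw [jacobiSym.mul_left, h4, one_mul] at h5
    exact h5

theorem jac_nonres {q : ℕ} (hq : q.Prime) (hq2 : q ≠ 2) : ∃ r : ℕ, J((r : ℤ) | q) = -1 := by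
  have : Fact q.Prime := ⟨hq⟩
  obtain ⟨a, ha⟩ := quadraticChar_exists_neg_one (F := ZMod q)
    (by rw [ZMod.ringChar_zmod_n]; exact hq2)
  refine ⟨a.val, ?_⟩
  rw [← jacobiSym.legendreSym.to_jacobiSym, legendreSym]
  rw [Int.cast_natCast, ZMod.natCast_zmod_val]
  exact ha

theorem jac_ex1 {s s' q : ℕ} (hq : q.Prime) (hs : s ≠ 0) (hs' : s' ≠ 0)
    (h1 : s.factorization q = 1) (h2 : s'.factorization q = 0) :
    ∃ b : ℕ, 0 < b ∧ Nat.Coprime b (4 * s) ∧ Nat.Coprime b (4 * s') ∧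
      J((s : ℤ) | b) * J((s' : ℤ) | b) = -1 := by
  have hqs : q ∣ s := by
    by_contra h
    rw [Nat.factorization_eq_zero_of_not_dvd h] at h1
    exact zero_ne_one h1
  obtain ⟨t, rfl⟩ := hqs
  have ht0 : t ≠ 0 := by
    rintro rfl
    exact hs (mul_zero _)
  have hqt : ¬ q ∣ t := by
    intro h
    rw [Nat.factorization_mul hq.ne_zero ht0, Finsupp.add_apply, hq.factorization_self] at h1
    have h3 := (hq.dvd_iff_one_le_factorization ht0).1 h
    omega
  have hqs' : ¬ q ∣ s' := by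
    intro h
    have h3 := (hq.dvd_iff_one_le_factorization hs').1 h
    omega
  have hts : t * s' ≠ 0 := mul_ne_zero ht0 hs'
  have hqts : ¬ q ∣ t * s' := by
    intro h
    rcases (Nat.Prime.dvd_mul hq).1 h with h | h
    · exact hqt h
    · exact hqs' h
  by_cases hq2 : q = 2
  · subst hq2
    have hto : Odd t := by rwa [← Nat.not_even_iff_odd, even_iff_two_dvd]
    have hso : Odd s' := by rwa [← Nat.not_even_iff_odd, even_iff_two_dvd]
    have hcop : Nat.Coprime 8 (t * s') := by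
      have h3 : Nat.Coprime 2 (t * s') := (Nat.Prime.coprime_iff_not_dvd Nat.prime_two).2 hqts
      have h4 : (8 : ℕ) = 2 ^ 3 := by norm_num
      rw [h4]
      exact h3.pow_left 3
    obtain ⟨b, hb1, hb2⟩ := Nat.chineseRemainder hcop 5 1
    have hb8 : b % 8 = 5 := hb1
    have hb4 : b % 4 = 1 := by omega
    have hbo : Odd b := by rw [Nat.odd_iff]; omega
    have hbc : Nat.Coprime b (t * s') := by
      rw [Nat.Coprime, hb2.gcd_eq]
      exact Nat.gcd_one_left _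
    have hbt : Nat.Coprime b t := hbc.coprime_mul_right_right
    have hbs : Nat.Coprime b s' := hbc.coprime_mul_left_right
    have hb22 : Nat.Coprime b 2 := Nat.coprime_two_right.2 hbo
    have hb44 : Nat.Coprime b 4 := by
      have h4 : (4 : ℕ) = 2 ^ 2 := by norm_num
      rw [h4]
      exact hb22.pow_right 2
    have key : ∀ m : ℕ, Odd m → m ∣ t * s' → J((m : ℤ) | b) = 1 := by
      intro m hm hd
      rw [← jacobiSym.quadratic_reciprocity_one_mod_four hb4 hm, jacobiSym.mod_left' (a₂ := 1),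
        jacobiSym.one_left]
      have h5 : b ≡ 1 [MOD m] := hb2.of_dvd hd
      exact_mod_cast h5
    refine ⟨b, by omega, ?_, ?_, ?_⟩
    · exact hb44.mul_right (hb22.mul_right hbt)
    · exact hb44.mul_right hbs
    · rw [Nat.cast_mul, jacobiSym.mul_left, key t hto (dvd_mul_right _ _),
        key s' hso (dvd_mul_left _ _), mul_one, mul_one]
      have h6 : J(((2 : ℕ) : ℤ) | b) = J((2 : ℤ) | b) := by norm_num
      rw [h6, jacobiSym.at_two hbo, ZMod.χ₈_nat_mod_eight, hb8]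
      decide
  · obtain ⟨r, hr⟩ := jac_nonres hq hq2
    have hcop : Nat.Coprime (4 * (t * s')) q := by
      refine Nat.Coprime.symm ((Nat.Prime.coprime_iff_not_dvd hq).2 fun h => ?_)
      rcases (Nat.Prime.dvd_mul hq).1 h with h | h
      · have h3 : q ∣ 2 ^ 2 := by norm_num; exact h
        exact hq2 ((Nat.prime_dvd_prime_iff_eq hq Nat.prime_two).1 (hq.dvd_of_dvd_pow h3))
      · exact hqts h
    obtain ⟨b, hb1, hb2⟩ := Nat.chineseRemainder hcop 1 r
    have hb4 : b % 4 = 1 := by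
      have h3 : b ≡ 1 [MOD 4] := hb1.of_dvd (dvd_mul_right _ _)
      exact h3
    have hbo : Odd b := by rw [Nat.odd_iff]; omega
    have hqo : Odd q := hq.odd_of_ne_two hq2
    have hbc : Nat.Coprime b (4 * (t * s')) := by
      rw [Nat.Coprime, hb1.gcd_eq]
      exact Nat.gcd_one_left _
    have hJq : J((q : ℤ) | b) = -1 := by
      rw [← jacobiSym.quadratic_reciprocity_one_mod_four hb4 hqo, jacobiSym.mod_left' (a₂ := r)]
      · exact hr
      · exact_mod_cast hb2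
    have hbq : Nat.Coprime b q := by
      have h5 : J((b : ℤ) | q) ≠ 0 := by
        rw [jacobiSym.quadratic_reciprocity_one_mod_four hb4 hqo, hJq]
        norm_num
      have : NeZero q := ⟨hq.ne_zero⟩
      have h6 := mt jacobiSym.eq_zero_iff_not_coprime.2 h5
      rw [not_not, Int.gcd_natCast_natCast] at h6
      exact h6
    have key : ∀ m : ℕ, m ∣ t * s' → J((m : ℤ) | b) = 1 := by
      intro m hd
      rw [jacobiSym.mod_right _ hbo, Int.natAbs_natCast]
      have h5 : b ≡ 1 [MOD (4 * m)] := hb1.of_dvd (Nat.mul_dvd_mul_left 4 hd)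
      have h6 : b % (4 * m) = 1 := by
        have h7 : b % (4 * m) = 1 % (4 * m) := h5
        have h8 : m ≠ 0 := by
          rintro rfl
          exact hts (Nat.eq_zero_of_zero_dvd hd)
        rw [h7, Nat.mod_eq_of_lt (by omega)]
      rw [h6, jacobiSym.one_right]
    have hb44 : Nat.Coprime b 4 := hbc.coprime_mul_right_right
    have hbts : Nat.Coprime b (t * s') := hbc.coprime_mul_left_right
    have hbt : Nat.Coprime b t := hbts.coprime_mul_right_right
    have hbs : Nat.Coprime b s' := hbts.coprime_mul_left_right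
    refine ⟨b, by omega, ?_, ?_, ?_⟩
    · exact hb44.mul_right (hbq.mul_right hbt)
    · exact hb44.mul_right hbs
    · rw [Nat.cast_mul, jacobiSym.mul_left, key t (dvd_mul_right _ _),
        key s' (dvd_mul_left _ _), hJq]
      norm_num

theorem jac_ex {s s' : ℕ} (hs : LFree 2 s) (hs' : LFree 2 s') (hne : s ≠ s') :
    ∃ b : ℕ, 0 < b ∧ Nat.Coprime b (4 * s) ∧ Nat.Coprime b (4 * s') ∧
      J((s : ℤ) | b) * J((s' : ℤ) | b) = -1 := by
  have h1 : ∃ q : ℕ, s.factorization q ≠ s'.factorization q := by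
    by_contra hcon
    push Not at hcon
    exact hne (Nat.eq_of_factorization_eq hs.1 hs'.1 hcon)
  obtain ⟨q, hq⟩ := h1
  have h2 := hs.2 q
  have h3 := hs'.2 q
  rcases Nat.eq_zero_or_pos (s.factorization q) with h4 | h4
  · have h5 : s'.factorization q = 1 := by omega
    have hqp : q.Prime := by
      by_contra h
      rw [Nat.factorization_eq_zero_of_not_prime _ h] at h5
      exact zero_ne_one h5
    obtain ⟨b, hb, hb1, hb2, hb3⟩ := jac_ex1 hqp hs'.1 hs.1 h5 h4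
    exact ⟨b, hb, hb2, hb1, by rw [mul_comm]; exact hb3⟩
  · have h5 : s.factorization q = 1 := by omega
    have hqp : q.Prime := by
      by_contra h
      rw [Nat.factorization_eq_zero_of_not_prime _ h] at h5
      exact zero_ne_one h5
    exact jac_ex1 hqp hs.1 hs'.1 h5 (by omega)

theorem jac (s : ℕ) (hs : 0 < s) : ∃ χ : RC ℚ (Ideal.span {((4 * s : ℕ) : 𝓞 ℚ)}),
    (∀ I : Ideal (𝓞 ℚ), I ≠ ⊥ → IsCoprime I (Ideal.span {((4 * s : ℕ) : 𝓞 ℚ)}) →
      χ.χ I = ((jacobiSym (s : ℤ) (Ideal.absNorm I) : ℤ) : ℂ)) ∧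
    ∀ v : Pl ℚ, (nm v).Prime → nm v ≠ 2 →
      χ.χ v.asIdeal = ((jacobiSym (s : ℤ) (nm v) : ℤ) : ℂ) := by
  have h1 : (1 : Ideal (𝓞 ℚ)) ≠ ⊥ := by rw [Ideal.one_eq_top]; exact top_ne_bot
  let χ : Ideal (𝓞 ℚ) →*₀ ℂ :=
    { toFun := fun I => if I ≠ ⊥ ∧ IsCoprime I (Ideal.span {((4 * s : ℕ) : 𝓞 ℚ)}) then
        ((J((s : ℤ) | Ideal.absNorm I) : ℤ) : ℂ) else 0
      map_zero' := by
        rw [if_neg]
        rintro ⟨h, -⟩
        exact h rfl
      map_one' := by
        rw [if_pos ⟨h1, isCoprime_one_left⟩, map_one, jacobiSym.one_right, Int.cast_one]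
      map_mul' := by
        intro I J
        by_cases hI : I ≠ ⊥ ∧ IsCoprime I (Ideal.span {((4 * s : ℕ) : 𝓞 ℚ)})
        · by_cases hJ : J ≠ ⊥ ∧ IsCoprime J (Ideal.span {((4 * s : ℕ) : 𝓞 ℚ)})
          · have : NeZero (Ideal.absNorm I) := ⟨fun h => hI.1 (Ideal.absNorm_eq_zero_iff.1 h)⟩
            have : NeZero (Ideal.absNorm J) := ⟨fun h => hJ.1 (Ideal.absNorm_eq_zero_iff.1 h)⟩
            rw [if_pos hI, if_pos hJ, if_pos ⟨mul_ne_zero hI.1 hJ.1, hI.2.mul_left hJ.2⟩,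
              map_mul, jacobiSym.mul_right, Int.cast_mul]
          · rw [if_neg hJ, mul_zero, if_neg]
            rintro ⟨ha, hb⟩
            refine hJ ⟨?_, hb.of_mul_left_right⟩
            rintro rfl
            exact ha (Ideal.mul_bot I)
        · rw [if_neg hI, zero_mul, if_neg]
          rintro ⟨ha, hb⟩
          refine hI ⟨?_, hb.of_mul_left_left⟩
          rintro rfl
          exact ha (Ideal.bot_mul J) }
  have hχ : ∀ I, I ≠ ⊥ → IsCoprime I (Ideal.span {((4 * s : ℕ) : 𝓞 ℚ)}) →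
      χ I = ((J((s : ℤ) | Ideal.absNorm I) : ℤ) : ℂ) := fun I ha hb => if_pos ⟨ha, hb⟩
  have hχ0 : ∀ I, ¬ IsCoprime I (Ideal.span {((4 * s : ℕ) : 𝓞 ℚ)}) → χ I = 0 :=
    fun I h => if_neg fun h' => h h'.2
  refine ⟨⟨χ, ?_, hχ0, ?_⟩, hχ, ?_⟩
  · intro I hI hc
    rw [hχ I hI hc]
    rw [jac_cop] at hc
    rcases jacobiSym.eq_one_or_neg_one (jac_gcd hc) with h | h
    · rw [h, Int.cast_one, norm_one]
    · rw [h, Int.cast_neg, Int.cast_one, norm_neg, norm_one]
  · intro x hx hx1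
    obtain ⟨a, rfl⟩ := qpl_int x
    have ha : ((4 * s : ℕ) : ℤ) ∣ a - 1 := by
      rw [Ideal.mem_span_singleton] at hx1
      have h2 := map_dvd Rat.ringOfIntegersEquiv hx1
      rw [map_natCast, map_sub, map_intCast, map_one] at h2
      exact h2
    have hcop : IsCoprime (Ideal.span {((a : ℤ) : 𝓞 ℚ)}) (Ideal.span {((4 * s : ℕ) : 𝓞 ℚ)}) := by
      rw [Ideal.isCoprime_iff_exists]
      refine ⟨(a : 𝓞 ℚ), Ideal.mem_span_singleton_self _, 1 - (a : 𝓞 ℚ), ?_, by ring⟩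
      have := (Ideal.span {((4 * s : ℕ) : 𝓞 ℚ)}).neg_mem hx1
      rwa [neg_sub] at this
    have hne : Ideal.span {((a : ℤ) : 𝓞 ℚ)} ≠ (⊥ : Ideal (𝓞 ℚ)) := by
      rw [Ne, Ideal.span_singleton_eq_bot]
      exact hx
    show χ _ = 1
    rw [hχ _ hne hcop, qpl_absI, jac_ray hs ha, Int.cast_one]
  · intro v hv hv2
    show χ v.asIdeal = _
    by_cases hc : IsCoprime v.asIdeal (Ideal.span {((4 * s : ℕ) : 𝓞 ℚ)})
    · rw [hχ _ v.ne_bot hc]
      rfl
    · rw [hχ0 _ hc]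
      rw [jac_cop] at hc
      have h3 : ¬ Nat.Coprime (nm v) (4 * s) := hc
      have h4 : nm v ∣ 4 * s := by
        by_contra h
        exact h3 ((Nat.Prime.coprime_iff_not_dvd hv).2 h)
      have h5 : nm v ∣ s := by
        rcases (Nat.Prime.dvd_mul hv).1 h4 with h | h
        · exfalso
          have h6 : nm v ∣ 2 ^ 2 := by norm_num; exact h
          exact hv2 ((Nat.prime_dvd_prime_iff_eq hv Nat.prime_two).1 (hv.dvd_of_dvd_pow h6))
        · exact h
      have : NeZero (nm v) := ⟨hv.ne_zero⟩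
      have h7 : J((s : ℤ) | nm v) = 0 := by
        rw [jacobiSym.eq_zero_iff_not_coprime, Int.gcd_natCast_natCast]
        intro h8
        have h9 : Nat.gcd s (nm v) = nm v := Nat.gcd_eq_right h5
        rw [h9] at h8
        exact hv.one_lt.ne' h8
      rw [h7, Int.cast_zero]

theorem jacN {s s' : ℕ} (hs : LFree 2 s) (hs' : LFree 2 s') (hne : s ≠ s')
    (χ : RC ℚ (Ideal.span {((4 * s : ℕ) : 𝓞 ℚ)})) (χ' : RC ℚ (Ideal.span {((4 * s' : ℕ) : 𝓞 ℚ)}))
    (hχ : ∀ I : Ideal (𝓞 ℚ), I ≠ ⊥ → IsCoprime I (Ideal.span {((4 * s : ℕ) : 𝓞 ℚ)}) →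
      χ.χ I = ((jacobiSym (s : ℤ) (Ideal.absNorm I) : ℤ) : ℂ))
    (hχ' : ∀ I : Ideal (𝓞 ℚ), I ≠ ⊥ → IsCoprime I (Ideal.span {((4 * s' : ℕ) : 𝓞 ℚ)}) →
      χ'.χ I = ((jacobiSym (s' : ℤ) (Ideal.absNorm I) : ℤ) : ℂ))
    (ψ : RC ℚ (Ideal.span {((4 * s : ℕ) : 𝓞 ℚ)} * Ideal.span {((4 * s' : ℕ) : 𝓞 ℚ)}))
    (hψ : ∀ I, ψ.χ I = χ.χ I * conj (χ'.χ I)) : ψ.Non := by
  obtain ⟨b, hb, hb1, hb2, hb3⟩ := jac_ex hs hs' hne
  have h1 : IsCoprime (Ideal.span {((b : ℕ) : 𝓞 ℚ)}) (Ideal.span {((4 * s : ℕ) : 𝓞 ℚ)}) := by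
    rw [jac_cop, qpl_abs]
    exact hb1
  have h2 : IsCoprime (Ideal.span {((b : ℕ) : 𝓞 ℚ)}) (Ideal.span {((4 * s' : ℕ) : 𝓞 ℚ)}) := by
    rw [jac_cop, qpl_abs]
    exact hb2
  have h0 : Ideal.span {((b : ℕ) : 𝓞 ℚ)} ≠ (⊥ : Ideal (𝓞 ℚ)) := by
    rw [Ne, Ideal.span_singleton_eq_bot]
    exact_mod_cast hb.ne'
  refine ⟨Ideal.span {((b : ℕ) : 𝓞 ℚ)}, h0, h1.mul_right h2, ?_⟩
  rw [hψ, hχ _ h0 h1, hχ' _ h0 h2, qpl_abs]
  have h3 : conj (((J((s' : ℤ) | b) : ℤ) : ℂ)) = ((J((s' : ℤ) | b) : ℤ) : ℂ) :=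
    map_intCast _ _
  rw [h3, ← Int.cast_mul, hb3]
  norm_num

end H95.IS
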