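import Pool.Agent.H95.IS.DefsK
import Pool.Agent.H38.TD.MertB

/-!
# IS-MERTK: `∑ 1/nm v` over the primes with `z < nm v ≤ z^A1` is bounded

`1/nm v ≤ (log nm v/nm v)/log z` for `nm v > z ≥ 2`, and `∑_{nm v ≤ x} log nm v/nm v ≤ C log x` (`mert_log K ∅` with `w = 0`, in
`Pool/Agent/H38/TD/MertB.lean`, `nv v = nm v`; see how it is used in `Pool/Agent/H36/QA/Mu.lean`), with `x = z^A1`: `P0 = C A1`.
(Or by `Pool.Agent.H75.AP.mertens_one` and at most `[K:ℚ]` primes above every rational prime.)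
-/

set_option autoImplicit false

open scoped NumberField
open H63.MA

namespace H95.IS

theorem mertK (K : Type) [Field K] [NumberField K] (A1 : ℝ) (hA1 : 1 ≤ A1) :
    ∃ P0 : ℝ, 0 < P0 ∧ ∀ z : ℝ, 2 ≤ z → ∀ W : Finset (Pl K),
      (∀ v ∈ W, z < nm v ∧ (nm v : ℝ) ≤ z ^ A1) → ∑ v ∈ W, 1 / (nm v : ℝ) ≤ P0 := by
  obtain ⟨C, hC, hlog⟩ := H38.TD.mert_log K ∅
  refine ⟨C * A1, by positivity, ?_⟩
  intro z hz W hW
  have hz0 : 0 < z := by linarith
  have hlz : 0 < Real.log z := Real.log_pos (by linarith)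
  have hx : 2 ≤ z ^ A1 := by
    calc (2 : ℝ) ≤ z := hz
      _ = z ^ (1 : ℝ) := (Real.rpow_one z).symm
      _ ≤ z ^ A1 := Real.rpow_le_rpow_of_exponent_le (by linarith) hA1
  have h1 := hlog 0 (z ^ A1) hx
  rw [Real.log_rpow hz0] at h1
  have hN : ∀ v : Pl K, H38.TD.nv v = nm v := fun v => rfl
  have h2 : ∑ v ∈ W, Real.log (nm v) / (nm v : ℝ) ≤
      ∑ v ∈ (H38.TD.Zs (K := K) ∅ 0 (z ^ A1)).map (Function.Embedding.subtype _),
        Real.log (nm v) / (nm v : ℝ) := by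
    refine Finset.sum_le_sum_of_subset_of_nonneg ?_ fun v _ _ => ?_
    · intro v hv
      rw [Finset.mem_map]
      have h3 := hW v hv
      refine ⟨⟨v, Set.notMem_empty v⟩, (H38.TD.mem_Zs ∅ 0 (z ^ A1) _).2 ⟨h3.2, ?_⟩, rfl⟩
      show (0 : ℝ) < (H38.TD.nv v : ℝ)
      exact_mod_cast H38.TD.nv_pos v
    · apply div_nonneg (Real.log_nonneg _) (Nat.cast_nonneg _)
      exact_mod_cast H38.TD.nv_pos v
  rw [Finset.sum_map] at h2
  have h4 : ∑ v ∈ W, Real.log (nm v) / (nm v : ℝ) ≤ C * (A1 * Real.log z) := h2.trans h1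
  have h5 : ∑ v ∈ W, 1 / (nm v : ℝ) ≤
      (∑ v ∈ W, Real.log (nm v) / (nm v : ℝ)) / Real.log z := by
    rw [Finset.sum_div]
    apply Finset.sum_le_sum
    intro v hv
    have h6 := (hW v hv).1
    have h7 : Real.log z ≤ Real.log (nm v) := Real.log_le_log hz0 h6.le
    have h8 : (0 : ℝ) < nm v := by linarith
    rw [div_div, div_le_div_iff₀ h8 (by positivity)]
    nlinarith
  refine h5.trans ?_
  rw [div_le_iff₀ hlz]
  linarith

end H95.IS
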