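import Pool.Agent.H63.MA.RayC

/-!
# IS-RCJ: the product of a ray class character with the conjugate of another one

`ψ.χ I = χ I * conj (χ' I)`, modulus `𝔣 𝔣'`. `IsCoprime I (𝔣 𝔣')` iff `IsCoprime I 𝔣 ∧ IsCoprime I 𝔣'` (`IsCoprime.mul_right`, `IsCoprime.of_mul_right_left`,
`..._right`). `norm_one`: both factors have norm `1`. `ray`: `x - 1 ∈ 𝔣 𝔣' ≤ 𝔣, 𝔣'` (`Ideal.mul_le_right`, `Ideal.mul_le_left`).
-/

set_option autoImplicit false

open scoped NumberField ComplexConjugate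
open H63.MA

namespace H95.IS

theorem rcj {K : Type} [Field K] [NumberField K] {𝔣 𝔣' : Ideal (𝓞 K)} (χ : RC K 𝔣)
    (χ' : RC K 𝔣') : ∃ ψ : RC K (𝔣 * 𝔣'), ∀ I, ψ.χ I = χ.χ I * conj (χ'.χ I) := by
  let ψ : Ideal (𝓞 K) →*₀ ℂ :=
    { toFun := fun I => χ.χ I * conj (χ'.χ I)
      map_zero' := by
        rw [map_zero, zero_mul]
      map_one' := by
        rw [map_one, map_one, map_one, mul_one]
      map_mul' := by
        intro I J
        rw [map_mul, map_mul, map_mul]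
        ring }
  have hψ : ∀ I, ψ I = χ.χ I * conj (χ'.χ I) := fun I => rfl
  refine ⟨⟨ψ, ?_, ?_, ?_⟩, hψ⟩
  · intro I hI hc
    rw [hψ, norm_mul, RCLike.norm_conj, χ.norm_one I hI hc.of_mul_right_left,
      χ'.norm_one I hI hc.of_mul_right_right, mul_one]
  · intro I hI
    rw [hψ]
    by_cases h : IsCoprime I 𝔣
    · have h' : ¬ IsCoprime I 𝔣' := fun h' => hI (h.mul_right h')
      rw [χ'.zero_of I h', map_zero, mul_zero]
    · rw [χ.zero_of I h, zero_mul]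
  · intro x hx hx1
    have h1 : 𝔣 * 𝔣' ≤ 𝔣 := Ideal.mul_le_left
    have h2 : 𝔣 * 𝔣' ≤ 𝔣' := Ideal.mul_le_right
    rw [hψ, χ.ray x hx (h1 hx1), χ'.ray x hx (h2 hx1), map_one, mul_one]

end H95.IS
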