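import Pool.Agent.H95.IS.Lsv
import Pool.Agent.H95.IS.Rcj
import Pool.Agent.H95.IS.Jac
import Pool.Agent.H95.IS.QPl
import Pool.Agent.H95.IS.MertK

/-!
# IS-LIN2: the character system for `l = 2`

`K = ℚ`, `z = N^α` (`N ≥ N0` so that `z ≥ 2`), `A1 = β/α`, `P0` from `mertK ℚ`, `B2 = B/α`, `B1 = (2B + 5)/α`, `r, C` from `lsv`, `m0 = 1`.
The system: `ι = ℕ`, `V` = the primes `p` with `N^α < p ≤ N^β`, `p i = i`, `χ p a = jacobiSym a p` (cast to `ℂ`; for a prime `p` it is the Legendre symbol).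
`mul`: `jacobiSym.mul_left`. `zero`, `pow`: `(±1)² = 1`. `ker`: for `p ∤ a, b`: `(a/p) = (b/p)` iff `(ab/p) = 1` iff `a b` is a nonzero square modulo `p` iff
`a = b u²` with `u ≠ 0` (`legendreSym.eq_one_iff`). `surj`: trivial.
`Bnd`: `mult`: at most one. `mass`, `count`: the bijection `v ↦ nm v` between `W = {v : Pl ℚ | N^α < nm v ≤ N^β}` (`plN ℚ (N^β)` filtered) and `V` (`qpl_*`):
`∑_{p∈V} 1/p = ∑_{v∈W} 1/nm v`, `P s = ∑_{v ∈ W} χ_s v/nm v` with `χ_s` from `jac` (`nm v > 2`). `S = {s ∈ [1,N^B] : LFree 2 s}`, `Pair (z^B1) S χ`: `rcj`,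
`jacN`; the modulus `(4s)(4s')` has norm `16 s s' ≤ 16 N^(2B) ≤ N^(2B+5)` (`N ≥ 2`). `lsv` as in LINO.
-/

set_option autoImplicit false

open scoped NumberField Classical
open H63.MA

namespace H95.IS

private theorem lin2_jac {p : ℕ} (hp : p.Prime) (a : ℤ) :
    jacobiSym a p = (haveI := Fact.mk hp; quadraticChar (ZMod p) (a : ZMod p)) := by
  haveI := Fact.mk hp
  rw [← jacobiSym.legendreSym.to_jacobiSym]
  rfl

private theorem lin2_ne {p : ℕ} {a : ℤ} (h : ¬ (p : ℤ) ∣ a) : (a : ZMod p) ≠ 0 := by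
  intro h0
  exact h ((ZMod.intCast_zmod_eq_zero_iff_dvd a p).1 h0)

private theorem lin2_sq {p : ℕ} (hp : p.Prime) {a : ℤ} (h : ¬ (p : ℤ) ∣ a) :
    jacobiSym a p ^ 2 = 1 := by
  haveI := Fact.mk hp
  rw [lin2_jac hp]
  exact quadraticChar_sq_one (lin2_ne h)

private theorem lin2_ker {p : ℕ} (hp : p.Prime) {a b : ℤ} (ha : ¬ (p : ℤ) ∣ a)
    (hb : ¬ (p : ℤ) ∣ b) :
    jacobiSym a p = jacobiSym b p ↔ ∃ u : ZMod p, u ≠ 0 ∧ (a : ZMod p) = b * u ^ 2 := by
  haveI := Fact.mk hp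
  have ha' := lin2_ne ha
  have hb' := lin2_ne hb
  rw [lin2_jac hp, lin2_jac hp]
  constructor
  · intro h
    have h1 : quadraticChar (ZMod p) ((a : ZMod p) * b) = 1 := by
      rw [map_mul, h, ← sq]
      exact quadraticChar_sq_one hb'
    obtain ⟨v, hv⟩ := (quadraticChar_one_iff_isSquare (mul_ne_zero ha' hb')).1 h1
    have hv0 : v ≠ 0 := by
      rintro rfl
      rw [mul_zero] at hv
      exact mul_ne_zero ha' hb' hv
    refine ⟨v / b, div_ne_zero hv0 hb', ?_⟩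
    rw [div_pow, sq v, ← hv]
    field_simp
  · rintro ⟨u, hu, h⟩
    rw [h, map_mul, map_pow, quadraticChar_sq_one hu, mul_one]

/-- the character system -/
private noncomputable def lin2_sys (lo hi : ℝ) : CharSys 2 lo hi where
  ι := ℕ
  V := (Finset.Icc 1 ⌊hi⌋₊).filter (fun p => p.Prime ∧ lo < (p : ℝ))
  p := fun p => p
  χ := fun p a => ((jacobiSym a p : ℤ) : ℂ)
  prime := by
    intro i hi
    exact (Finset.mem_filter.1 hi).2.1
  lo_lt := by
    intro i hi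
    exact (Finset.mem_filter.1 hi).2.2
  le_hi := by
    intro i hi'
    have h1 := (Finset.mem_Icc.1 (Finset.mem_filter.1 hi').1)
    refine (Nat.cast_le.2 h1.2).trans (Nat.floor_le ?_)
    by_contra hneg
    push Not at hneg
    rw [Nat.floor_of_nonpos hneg.le] at h1
    omega
  mul := by
    intro i _ a b
    rw [jacobiSym.mul_left]
    push_cast
    rfl
  zero := by
    intro i hi a ha
    have hp := (Finset.mem_filter.1 hi).2.1
    haveI := Fact.mk hp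
    rw [lin2_jac hp, (ZMod.intCast_zmod_eq_zero_iff_dvd a i).2 ha]
    simp
  pow := by
    intro i hi a ha
    have hp := (Finset.mem_filter.1 hi).2.1
    have h1 := lin2_sq hp ha
    exact_mod_cast h1
  ker := by
    intro i hi a b ha hb
    have hp := (Finset.mem_filter.1 hi).2.1
    rw [← lin2_ker hp ha hb]
    exact_mod_cast Iff.rfl
  surj := by
    intro q hq h1 h2 _
    refine ⟨q, Finset.mem_filter.2 ⟨Finset.mem_Icc.2 ⟨hq.one_lt.le, Nat.le_floor h2⟩, hq, h1⟩, rfl⟩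

private theorem lin2_W {lo hi : ℝ} (hhi : 0 ≤ hi) {f : ℕ → ℂ} :
    ∑ i ∈ (lin2_sys lo hi).V, f i =
      ∑ v ∈ (plN ℚ hi).filter (fun v => lo < (nm v : ℝ)), f (nm v) := by
  have hV : (lin2_sys lo hi).V =
      (Finset.Icc 1 ⌊hi⌋₊).filter (fun p : ℕ => p.Prime ∧ lo < (p : ℝ)) := rfl
  have h1 : ∑ i ∈ (Finset.Icc 1 ⌊hi⌋₊).filter (fun p : ℕ => p.Prime ∧ lo < (p : ℝ)), f i =
      ∑ v ∈ (plN ℚ hi).filter (fun v => lo < (nm v : ℝ)), f (nm v) := by
    symm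
    refine Finset.sum_bij (fun v _ => nm v) ?_ ?_ ?_ ?_
    · intro v hv
      rw [Finset.mem_filter, mem_plN] at hv
      rw [Finset.mem_filter, Finset.mem_Icc]
      exact ⟨⟨(qpl_prime v).one_lt.le, Nat.le_floor hv.1⟩, qpl_prime v, hv.2⟩
    · intro v _ w _ h
      exact qpl_inj h
    · intro p hp
      rw [Finset.mem_filter, Finset.mem_Icc] at hp
      obtain ⟨v, hv⟩ := qpl_surj hp.2.1
      refine ⟨v, ?_, hv⟩
      rw [Finset.mem_filter, mem_plN, hv]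
      exact ⟨(Nat.le_floor_iff hhi).1 hp.1.2, hp.2.2⟩
    · intro v _
      rfl
  exact h1

private theorem lin2_norm (s : ℕ) :
    Ideal.absNorm (Ideal.span {((4 * s : ℕ) : 𝓞 ℚ)}) = 4 * s := by
  rw [Ideal.absNorm_span_natCast]
  have h1 : Module.finrank ℤ (𝓞 ℚ) = 1 := by
    rw [NumberField.RingOfIntegers.rank]
    exact Module.finrank_self ℚ
  rw [h1, pow_one]

theorem lin_two {α β : ℝ} (hα : 0 < α) (hαβ : α < β) (B : ℕ) :
    ∃ (r m0 N0 : ℕ) (P0 C1 : ℝ), ∀ N ≥ N0,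
      ∃ S : CharSys 2 ((N : ℝ) ^ α) ((N : ℝ) ^ β), S.Bnd (N ^ B) r m0 P0 C1 := by
  classical
  have hA1 : 1 ≤ β / α := by
    rw [one_le_div hα]
    exact hαβ.le
  obtain ⟨P0, hP0, hmert⟩ := mertK ℚ (β / α) hA1
  obtain ⟨r, C, hlsv⟩ := lsv ℚ P0 (β / α) ((2 * B + 5) / α) (B / α) hA1
  -- the characters
  have hex : ∀ s : ℕ, ∃ χ : Ideal (𝓞 ℚ) →*₀ ℂ, 0 < s →
      ∃ X : RC ℚ (Ideal.span {((4 * s : ℕ) : 𝓞 ℚ)}), X.χ = χ ∧
      (∀ I : Ideal (𝓞 ℚ), I ≠ ⊥ → IsCoprime I (Ideal.span {((4 * s : ℕ) : 𝓞 ℚ)}) →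
        X.χ I = ((jacobiSym (s : ℤ) (Ideal.absNorm I) : ℤ) : ℂ)) ∧
      ∀ v : Pl ℚ, (nm v).Prime → nm v ≠ 2 →
        X.χ v.asIdeal = ((jacobiSym (s : ℤ) (nm v) : ℤ) : ℂ) := by
    intro s
    by_cases hs : 0 < s
    · obtain ⟨X, h1, h2⟩ := jac s hs
      exact ⟨X.χ, fun _ => ⟨X, rfl, h1, h2⟩⟩
    · obtain ⟨X, -, -⟩ := jac 1 one_pos
      exact ⟨X.χ, fun h => absurd h hs⟩
  choose c hc using hex
  refine ⟨r, 1, max 2 ⌈(2 : ℝ) ^ (1 / α)⌉₊, P0, C, ?_⟩
  intro N hN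
  have hN2 : 2 ≤ N := le_trans (le_max_left _ _) hN
  have hN2r : (2 : ℝ) ≤ N := by exact_mod_cast hN2
  have hN0 : (0 : ℝ) < N := by linarith
  have hz : 2 ≤ (N : ℝ) ^ α := by
    have h1 : (2 : ℝ) ^ (1 / α) ≤ N :=
      (Nat.le_ceil _).trans (by exact_mod_cast le_trans (le_max_right _ _) hN)
    have h2 : ((2 : ℝ) ^ (1 / α)) ^ α ≤ (N : ℝ) ^ α :=
      Real.rpow_le_rpow (by positivity) h1 hα.le
    rwa [← Real.rpow_mul (by norm_num), one_div, inv_mul_cancel₀ hα.ne', Real.rpow_one] at h2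
  have hzA : ((N : ℝ) ^ α) ^ (β / α) = (N : ℝ) ^ β := by
    rw [← Real.rpow_mul hN0.le]
    congr 1
    field_simp
  have hzB2 : ((N : ℝ) ^ α) ^ ((B : ℝ) / α) = (N : ℝ) ^ B := by
    rw [← Real.rpow_mul hN0.le, ← Real.rpow_natCast]
    congr 1
    field_simp
  have hzB1 : ((N : ℝ) ^ α) ^ ((2 * (B : ℝ) + 5) / α) = (N : ℝ) ^ (2 * B + 5) := by
    rw [← Real.rpow_mul hN0.le, ← Real.rpow_natCast]
    congr 1
    push_cast
    field_simp
  have hhi : 0 ≤ (N : ℝ) ^ β := Real.rpow_nonneg hN0.le _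
  set W := (plN ℚ ((N : ℝ) ^ β)).filter (fun v => (N : ℝ) ^ α < (nm v : ℝ)) with hW
  have hWm : ∀ v ∈ W, (N : ℝ) ^ α < nm v ∧ (nm v : ℝ) ≤ ((N : ℝ) ^ α) ^ (β / α) := by
    intro v hv
    rw [hW, Finset.mem_filter, mem_plN] at hv
    rw [hzA]
    exact ⟨hv.2, hv.1⟩
  have hmass := hmert ((N : ℝ) ^ α) hz W hWm
  refine ⟨lin2_sys ((N : ℝ) ^ α) ((N : ℝ) ^ β), ?_, ?_, ?_⟩
  · intro q
    rw [Finset.card_le_one]
    intro a ha b hb
    have h1 := (Finset.mem_filter.1 ha).2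
    have h2 := (Finset.mem_filter.1 hb).2
    exact h1.trans h2.symm
  · have h1 := lin2_W (lo := (N : ℝ) ^ α) hhi (f := fun p => ((1 / (p : ℝ) : ℝ) : ℂ))
    rw [← Complex.ofReal_sum, ← Complex.ofReal_sum] at h1
    have h2 := Complex.ofReal_injective h1
    refine (le_of_eq h2).trans hmass
  · intro ρ hρ hρ1
    set S := (Finset.Icc 1 (N ^ B)).filter (fun s => LFree 2 s) with hS
    have hSm : ∀ s ∈ S, 0 < s ∧ s ≤ N ^ B ∧ LFree 2 s := by
      intro s hs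
      rw [hS, Finset.mem_filter, Finset.mem_Icc] at hs
      exact ⟨by omega, hs.1.2, hs.2⟩
    have hScard : (S.card : ℝ) ≤ ((N : ℝ) ^ α) ^ ((B : ℝ) / α) := by
      rw [hzB2]
      have h1 : S.card ≤ N ^ B := by
        refine (Finset.card_filter_le _ _).trans ?_
        rw [Nat.card_Icc, Nat.add_sub_cancel]
      exact_mod_cast h1
    have hpair : Pair (((N : ℝ) ^ α) ^ ((2 * (B : ℝ) + 5) / α)) S c := by
      constructor
      · intro s hs I
        obtain ⟨X, hX, -, -⟩ := hc s (hSm s hs).1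
        rw [← hX]
        by_cases h0 : I = ⊥
        · have h1 : X.χ I = 0 := by
            rw [h0]
            exact map_zero X.χ
          rw [h1, norm_zero]
          exact zero_le_one
        · by_cases hco : IsCoprime I (Ideal.span {((4 * s : ℕ) : 𝓞 ℚ)})
          · exact (X.norm_one I h0 hco).le
          · rw [X.zero_of I hco, norm_zero]
            exact zero_le_one
      · intro s hs s' hs' hne
        obtain ⟨X, hX, h1, -⟩ := hc s (hSm s hs).1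
        obtain ⟨X', hX', h1', -⟩ := hc s' (hSm s' hs').1
        obtain ⟨ψ, hψ⟩ := rcj X X'
        have hs0 := (hSm s hs).1
        have hs0' := (hSm s' hs').1
        have hnorm : Ideal.absNorm (Ideal.span {((4 * s : ℕ) : 𝓞 ℚ)} *
            Ideal.span {((4 * s' : ℕ) : 𝓞 ℚ)}) = 4 * s * (4 * s') := by
          rw [map_mul, lin2_norm, lin2_norm]
        refine ⟨_, ?_, ?_, ψ, jacN (hSm s hs).2.2 (hSm s' hs').2.2 hne X X' h1 h1' ψ hψ, ?_⟩
        · intro h0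
          rw [h0, Ideal.absNorm_bot] at hnorm
          have : 0 < 4 * s * (4 * s') := by positivity
          omega
        · rw [hzB1, hnorm]
          have h2 : 4 * s * (4 * s') ≤ N ^ (2 * B + 5) := by
            calc 4 * s * (4 * s') = 2 ^ 4 * (s * s') := by ring
              _ ≤ N ^ 4 * (N ^ B * N ^ B) :=
                  Nat.mul_le_mul (Nat.pow_le_pow_left hN2 4)
                    (Nat.mul_le_mul (hSm s hs).2.1 (hSm s' hs').2.1)
              _ = N ^ (2 * B + 4) := by ring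
              _ ≤ N ^ (2 * B + 5) := Nat.pow_le_pow_right (by omega) (by omega)
          exact_mod_cast h2
        · intro I
          rw [hψ, hX, hX']
    have hmain := hlsv ((N : ℝ) ^ α) hz W hWm hmass ℕ S c hScard hpair
    have hP : ∀ s ∈ S, (lin2_sys ((N : ℝ) ^ α) ((N : ℝ) ^ β)).P (s : ℤ) =
        ∑ v ∈ W, c s v.asIdeal / (nm v : ℂ) := by
      intro s hs
      obtain ⟨X, hX, -, h1⟩ := hc s (hSm s hs).1
      unfold CharSys.P
      have h2 := lin2_W (lo := (N : ℝ) ^ α) hhi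
        (f := fun p => ((jacobiSym (s : ℤ) p : ℤ) : ℂ) / (p : ℂ))
      refine Eq.trans h2 ?_
      refine Finset.sum_congr rfl fun v hv => ?_
      have hne2 : nm v ≠ 2 := by
        intro h3
        have h4 := (hWm v hv).1
        rw [h3] at h4
        have : ((2 : ℕ) : ℝ) = 2 := by norm_num
        linarith
      rw [← hX, h1 v (qpl_prime v) hne2]
    -- the count
    set S' := (Finset.Icc 1 (N ^ B)).filter (fun s : ℕ => LFree 2 s ∧
      ρ < ‖(lin2_sys ((N : ℝ) ^ α) ((N : ℝ) ^ β)).P s‖) with hS'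
    have hsub : S' ⊆ S := by
      intro s hs
      rw [hS', Finset.mem_filter] at hs
      rw [hS, Finset.mem_filter]
      exact ⟨hs.1, hs.2.1⟩
    calc (S'.card : ℝ) * ρ ^ (2 * r) = ∑ _s ∈ S', ρ ^ (2 * r) := by
          rw [Finset.sum_const, nsmul_eq_mul]
      _ ≤ ∑ s ∈ S', ‖∑ v ∈ W, c s v.asIdeal / (nm v : ℂ)‖ ^ (2 * r) := by
          refine Finset.sum_le_sum fun s hs => ?_
          rw [← hP s (hsub hs)]
          rw [hS', Finset.mem_filter] at hs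
          exact pow_le_pow_left₀ hρ.le hs.2.2.le _
      _ ≤ ∑ s ∈ S, ‖∑ v ∈ W, c s v.asIdeal / (nm v : ℂ)‖ ^ (2 * r) :=
          Finset.sum_le_sum_of_subset_of_nonneg hsub fun s _ _ => by positivity
      _ ≤ C := hmain

end H95.IS
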