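import Pool.Agent.H63.MA.ALem
import Pool.Agent.H63.MA.RMkC
import Pool.Agent.H95.IS.Fr

/-!
# IS-FAM: the `l`-th power residue symbols `v ↦ (s / v)` as ray class characters (`l` odd)

`D : RD K l ζ` (reciprocity data, `Pool/Agent/H63/MA/RDef.lean`).
`fam`: let `b : Kˣ` be `s`, `E = {w ∉ S0 : ord w b ≠ 0}` (finite, `finite_ord`), `μ w = D.lam w * ord w b`, `κ` from `D.rec1 b`,
`f v = if v ∈ S0 ∨ v ∈ E then 0 else fE D.toRD0 E μ κ v` is `IsRay l (D.M0 * idl E)` (`alem_ray`), and for `D.Gd v`, `v ∉ E`: `D.LL v b = f v`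
(the `finsum` in `rec1` has support in `E`; `dt κ (q v) = ∑ κ i q v i`). `χ` from `ray_rc` (`χ v = ep l (f v)` if `v ∤ modulus`; if `v ∣ modulus`
then `χ v = 0` by `zero_of`: a prime dividing the modulus is not coprime to it). For `D.Gd v`: `v ∣ M0 * idl E` iff `v ∈ E`
(`alem_dvd'`), iff `ord v b > 0`, iff `(s : 𝓞 K) ∈ v` (`ord_pos_iff`, `symb_mem`, `ord v b ≥ 0` as `b` is integral).
Norm: `N(idl E) ∣ N((s)) = s^d`: the primes in `E` divide `(s)`, so `idl E ∣ span {s}` (`Finset.prod_primes_dvd`-type argument), `Ideal.absNorm_dvd_absNorm_of_le`,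
`Ideal.absNorm_span_singleton`, `Algebra.norm_algebraMap`. `C = N(M0)`.

`famN`: `b, b'` with values `s, s'`. `b b'⁻¹` is not an `l`-th power in `K`: if `y^l = b/b'` then with `d = [K:ℚ]`, `n = N_{K/ℚ}(y) ∈ ℚ`:
`n^l = (s/s')^d`; as `gcd(d,l) = 1` (`u d + v l = 1`), `s/s' = (n^u (s/s')^v)^l`, so `s a^l = s' c^l` with positive integers `a, c`, and
`lfree_eq` gives `s = s'`. `D.non` for `b b'⁻¹` and the finite set `F` of the primes dividing `𝔣 𝔣'` or with `ord v b ≠ 0` or `ord v b' ≠ 0` gives a good `v ∉ F`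
with `LL v (b b'⁻¹) = LL v b - LL v b' ≠ 0` (`LL_mul`, `LL_zpow` in `RMkB`). Then `v` is coprime to `𝔣 𝔣'` (`rayc_coprime`) and
`ψ v = ep (LL v b) conj (ep (LL v b')) = ep (LL v b - LL v b') ≠ 1` (`ep_add`, `ep_norm`, `ep_eq_one`).
-/

set_option autoImplicit false

open scoped NumberField Classical ComplexConjugate
open H63.MA

namespace H95.IS

/-- `χ` is the residue symbol of `s` at the good primes -/
def IsSym {K : Type} [Field K] [NumberField K] {l : ℕ} {ζ : K} (D : RD K l ζ)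
    {𝔣 : Ideal (𝓞 K)} (χ : RC K 𝔣) (s : ℕ) : Prop :=
  ∀ b : Kˣ, (b : K) = (s : K) → ∀ v : Pl K, D.Gd v →
    χ.χ v.asIdeal = if ((s : ℕ) : 𝓞 K) ∈ v.asIdeal then 0 else ep l (D.LL v b)

section aux

variable {K : Type} [Field K] [NumberField K]

theorem fam_mem {s : ℕ} {b : Kˣ} (hb : (b : K) = (s : K)) (v : Pl K) :
    ((s : ℕ) : 𝓞 K) ∈ v.asIdeal ↔ ord v b ≠ 0 := by
  have h1 : algebraMap (𝓞 K) K (s : 𝓞 K) = (b : K) := by rw [map_natCast, hb]
  have h2 : 0 ≤ ord v b := by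
    rw [ord_nonneg_iff, ← h1]
    exact v.valuation_le_one _
  have h3 : 0 < ord v b ↔ ((s : ℕ) : 𝓞 K) ∈ v.asIdeal := by
    rw [ord_pos_iff, ← h1]
    exact v.valuation_lt_one_iff_mem _
  rw [← h3]
  omega

theorem fam_idl (E : Finset (Pl K)) (x : 𝓞 K) (hE : ∀ v ∈ E, x ∈ v.asIdeal) :
    idl E ∣ Ideal.span {x} := by
  induction E using Finset.induction_on with
  | empty =>
    unfold idl
    rw [Finset.prod_empty]
    exact one_dvd _
  | insert v E hv ih =>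
    have e : idl (insert v E) = v.asIdeal * idl E := by
      unfold idl
      rw [Finset.prod_insert hv]
    rw [e]
    have h1 : ¬ v.asIdeal ∣ idl E := by
      rw [alem_dvd]
      exact hv
    refine (rayc_coprime v h1).mul_dvd ?_ (ih fun w hw => hE w (Finset.mem_insert_of_mem hw))
    rw [Ideal.dvd_span_singleton]
    exact hE v (Finset.mem_insert_self _ _)

theorem fam_norm (E : Finset (Pl K)) {s : ℕ} (hs : s ≠ 0)
    (hE : ∀ v ∈ E, ((s : ℕ) : 𝓞 K) ∈ v.asIdeal) :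
    Ideal.absNorm (idl E) ≤ s ^ Module.finrank ℚ K := by
  have h1 := Ideal.absNorm_dvd_absNorm_of_le (Ideal.le_of_dvd (fam_idl E _ hE))
  have h2 : Ideal.absNorm (Ideal.span {((s : ℕ) : 𝓞 K)}) = s ^ Module.finrank ℚ K := by
    rw [Ideal.absNorm_span_singleton]
    have h3 : ((s : ℕ) : 𝓞 K) = algebraMap ℤ (𝓞 K) (s : ℤ) := by simp
    rw [h3, Algebra.norm_algebraMap, NumberField.RingOfIntegers.rank, Int.natAbs_pow,
      Int.natAbs_natCast]
  rw [h2] at h1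
  exact Nat.le_of_dvd (by positivity) h1

end aux

theorem fam {K : Type} [Field K] [NumberField K] {l : ℕ} (hl : l.Prime) {ζ : K}
    (hζ : IsPrimitiveRoot ζ l) (D : RD K l ζ) :
    ∃ C : ℝ, 1 ≤ C ∧ ∀ s : ℕ, s ≠ 0 → ∃ 𝔣 : Ideal (𝓞 K), 𝔣 ≠ ⊥ ∧
      (Ideal.absNorm 𝔣 : ℝ) ≤ C * (s : ℝ) ^ Module.finrank ℚ K ∧
      ∃ χ : RC K 𝔣, IsSym D χ s := by
  refine ⟨Ideal.absNorm D.M0, ?_, ?_⟩
  · have h1 : Ideal.absNorm D.M0 ≠ 0 := by
      rw [Ne, Ideal.absNorm_eq_zero_iff]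
      exact D.M0_ne
    exact_mod_cast Nat.one_le_iff_ne_zero.2 h1
  intro s hs
  have hsK : (s : K) ≠ 0 := by exact_mod_cast hs
  let b : Kˣ := Units.mk0 (s : K) hsK
  have hb : (b : K) = (s : K) := rfl
  let E : Finset (Pl K) := (finite_ord b).toFinset.filter fun v => v ∉ D.S0
  have hE : ∀ v, v ∈ E ↔ ord v b ≠ 0 ∧ v ∉ D.S0 := by
    intro v
    simp only [E, Finset.mem_filter, Set.Finite.mem_toFinset, Set.mem_ofPred_eq]
  obtain ⟨κ, hκ⟩ := D.rec1 b
  let μ : Pl K → ZMod l := fun w => D.lam w * (ord w b : ZMod l)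
  have hray := alem_ray D E (fun w hw => ((hE w).1 hw).2) μ κ
  have hne : D.M0 * idl E ≠ ⊥ := mul_ne_zero D.M0_ne (idl_ne E)
  obtain ⟨χ, hχ, -⟩ := ray_rc hl hne hray
  refine ⟨D.M0 * idl E, hne, ?_, χ, ?_⟩
  · rw [map_mul]
    push_cast
    refine mul_le_mul_of_nonneg_left ?_ (Nat.cast_nonneg _)
    have h1 := fam_norm E hs fun v hv => (fam_mem hb v).2 ((hE v).1 hv).1
    exact_mod_cast h1
  intro b' hb' v hv
  have hbb : b' = b := Units.ext (hb'.trans hb.symm)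
  rw [hbb]
  by_cases hvE : v ∈ E
  · rw [if_pos ((fam_mem hb v).2 ((hE v).1 hvE).1)]
    refine χ.zero_of _ fun hc => ?_
    have h1 : v.asIdeal ∣ D.M0 * idl E := (alem_dvd' D.toRD0 v E).2 (Or.inr hvE)
    have h2 := hc.isUnit_of_dvd' dvd_rfl h1
    exact v.isPrime.ne_top (Ideal.isUnit_iff.1 h2)
  · have h0 : ¬ v.asIdeal ∣ D.M0 * idl E := by
      rw [alem_dvd' D.toRD0]
      rintro (h | h)
      · exact hv.1 h
      · exact hvE h
    have h1 : ord v b = 0 := by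
      by_contra h
      exact hvE ((hE v).2 ⟨h, hv.1⟩)
    have h2 : ¬ ((s : ℕ) : 𝓞 K) ∈ v.asIdeal := by
      rw [fam_mem hb v]
      exact fun h => h h1
    rw [if_neg h2, hχ v h0]
    congr 1
    have h3 : ¬ (v ∈ D.S0 ∨ v ∈ E) := by
      rintro (h | h)
      · exact hv.1 h
      · exact hvE h
    rw [if_neg h3, hκ v hv]
    unfold fE
    rw [add_comm]
    congr 1
    rw [finsum_eq_sum_of_support_subset (s := E)]
    · refine Finset.sum_congr rfl fun w hw => ?_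
      rw [if_neg ((hE w).1 hw).2]
    · intro w hw
      rw [Finset.mem_coe, hE]
      by_contra hcon
      apply hw
      show (if w ∈ D.S0 then (0 : ZMod l) else
        D.lam w * (ord w b : ZMod l) * D.LL w (D.pi v)) = 0
      by_cases hw0 : w ∈ D.S0
      · rw [if_pos hw0]
      · rw [if_neg hw0]
        have h4 : ord w b = 0 := by
          by_contra h
          exact hcon ⟨h, hw0⟩
        rw [h4, Int.cast_zero, mul_zero, zero_mul]

/-- a rational number `t` with `t ^ l = s / s'` -/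
theorem fam_rat {l s s' : ℕ} (hs : LFree l s) (hs' : LFree l s') {t : ℚ}
    (h : t ^ l = (s : ℚ) / s') : s = s' := by
  have hs0 : (s : ℚ) ≠ 0 := by exact_mod_cast hs.1
  have hs0' : (s' : ℚ) ≠ 0 := by exact_mod_cast hs'.1
  have hl : l ≠ 0 := by
    rintro rfl
    exact absurd (hs.2 0) (Nat.not_lt_zero _)
  have ht : t ≠ 0 := by
    rintro rfl
    rw [zero_pow hl] at h
    exact (div_ne_zero hs0 hs0') h.symm
  have h1 : (t.num : ℚ) / t.den = t := Rat.num_div_den t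
  have hd : (t.den : ℚ) ≠ 0 := by exact_mod_cast t.den_nz
  have h2 : (s : ℚ) * (t.den : ℚ) ^ l = s' * (t.num : ℚ) ^ l := by
    rw [← h1, div_pow, div_eq_div_iff (pow_ne_zero _ hd) hs0'] at h
    rw [← h]
    ring
  have h3 : (s : ℤ) * (t.den : ℤ) ^ l = s' * t.num ^ l := by exact_mod_cast h2
  have h4 : s * t.den ^ l = s' * t.num.natAbs ^ l := by
    have h5 := congrArg Int.natAbs h3
    rwa [Int.natAbs_mul, Int.natAbs_mul, Int.natAbs_pow, Int.natAbs_pow, Int.natAbs_natCast,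
      Int.natAbs_natCast, Int.natAbs_natCast] at h5
  refine lfree_eq hs hs' t.den_nz ?_ h4
  rw [Ne, Int.natAbs_eq_zero, Rat.num_eq_zero]
  exact ht

theorem fam_npow {K : Type} [Field K] [NumberField K] {l : ℕ}
    (hd : (Module.finrank ℚ K).Coprime l) {s s' : ℕ}
    (hs : LFree l s) (hs' : LFree l s') (hne : s ≠ s') {y : K}
    (h : y ^ l = (s : K) / (s' : K)) : False := by
  have hs0 : (s : ℚ) ≠ 0 := by exact_mod_cast hs.1
  have hs0' : (s' : ℚ) ≠ 0 := by exact_mod_cast hs'.1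
  have hl : l ≠ 0 := by
    rintro rfl
    exact absurd (hs.2 0) (Nat.not_lt_zero _)
  set q : ℚ := (s : ℚ) / s' with hq
  have hq0 : q ≠ 0 := div_ne_zero hs0 hs0'
  have h1 : (Algebra.norm ℚ y) ^ l = q ^ Module.finrank ℚ K := by
    rw [← map_pow, h, ← Algebra.norm_algebraMap, hq]
    congr 1
    rw [map_div₀, map_natCast, map_natCast]
  have hN0 : Algebra.norm ℚ y ≠ 0 := by
    intro h0
    rw [h0, zero_pow hl] at h1
    exact pow_ne_zero _ hq0 h1.symm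
  have hbz : ((Module.finrank ℚ K : ℕ) : ℤ) * Nat.gcdA (Module.finrank ℚ K) l +
      (l : ℤ) * Nat.gcdB (Module.finrank ℚ K) l = 1 := by
    rw [← Nat.gcd_eq_gcd_ab, hd]
    rfl
  refine hne (fam_rat hs hs' (t := (Algebra.norm ℚ y) ^ Nat.gcdA (Module.finrank ℚ K) l *
    q ^ Nat.gcdB (Module.finrank ℚ K) l) ?_)
  rw [← hq, mul_pow, ← zpow_natCast, ← zpow_natCast, ← zpow_mul, ← zpow_mul, mul_comm _ (l : ℤ),
    zpow_mul, zpow_natCast, h1, ← zpow_natCast, ← zpow_mul, ← zpow_add₀ hq0, mul_comm _ (l : ℤ),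
    hbz, zpow_one]

theorem famN {K : Type} [Field K] [NumberField K] {l : ℕ} (hl : l.Prime) {ζ : K}
    (hζ : IsPrimitiveRoot ζ l) (D : RD K l ζ) (hd : (Module.finrank ℚ K).Coprime l) {s s' : ℕ}
    (hs : LFree l s) (hs' : LFree l s') (hne : s ≠ s') {𝔣 𝔣' : Ideal (𝓞 K)} (h𝔣 : 𝔣 ≠ ⊥)
    (h𝔣' : 𝔣' ≠ ⊥) (χ : RC K 𝔣) (χ' : RC K 𝔣') (hχ : IsSym D χ s) (hχ' : IsSym D χ' s')
    (ψ : RC K (𝔣 * 𝔣')) (hψ : ∀ I, ψ.χ I = χ.χ I * conj (χ'.χ I)) : ψ.Non := by
  have hsK : (s : K) ≠ 0 := by exact_mod_cast hs.1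
  have hsK' : (s' : K) ≠ 0 := by exact_mod_cast hs'.1
  let b : Kˣ := Units.mk0 (s : K) hsK
  let b' : Kˣ := Units.mk0 (s' : K) hsK'
  have hb : (b : K) = (s : K) := rfl
  have hb' : (b' : K) = (s' : K) := rfl
  have hpow : ¬ IsPow l (b * b'⁻¹) := by
    rintro ⟨y, hy⟩
    refine fam_npow hd hs hs' hne (y := (y : K)) ?_
    have h1 := congrArg (Units.val) hy
    rw [Units.val_pow_eq_pow_val, Units.val_mul, Units.val_inv_eq_inv_val] at h1
    rw [h1, hb, hb', div_eq_mul_inv]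
  have hff : 𝔣 * 𝔣' ≠ ⊥ := mul_ne_zero h𝔣 h𝔣'
  have hfin : {v : Pl K | v.asIdeal ∣ 𝔣 * 𝔣'}.Finite := Ideal.finite_factors hff
  obtain ⟨v, hv, hvF, -, hL⟩ := D.non (b * b'⁻¹) hpow
    (hfin.toFinset ∪ ((finite_ord b).toFinset ∪ (finite_ord b').toFinset))
  rw [Finset.mem_union, Finset.mem_union, not_or, not_or, Set.Finite.mem_toFinset,
    Set.Finite.mem_toFinset, Set.Finite.mem_toFinset, Set.mem_ofPred_eq, Set.mem_ofPred_eq,
    Set.mem_ofPred_eq, not_not, not_not] at hvF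
  obtain ⟨h1, h2, h3⟩ := hvF
  refine ⟨v.asIdeal, v.ne_bot, rayc_coprime v h1, ?_⟩
  have e1 : χ.χ v.asIdeal = ep l (D.LL v b) := by
    rw [hχ b hb v hv, if_neg]
    rw [fam_mem hb v]
    exact fun h => h h2
  have e2 : χ'.χ v.asIdeal = ep l (D.LL v b') := by
    rw [hχ' b' hb' v hv, if_neg]
    rw [fam_mem hb' v]
    exact fun h => h h3
  rw [hψ, e1, e2]
  intro h4
  apply hL
  have h5 : D.LL v (b * b'⁻¹) + D.LL v b' = D.LL v b := by
    rw [← LL_mul hl hζ D.toRD0 hv.1, inv_mul_cancel_right]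
  have h6 : ep l (D.LL v b') * conj (ep l (D.LL v b')) = 1 := by
    rw [Complex.mul_conj, Complex.normSq_eq_norm_sq, ep_norm]
    norm_num
  have h7 : ep l (D.LL v b) = ep l (D.LL v (b * b'⁻¹)) * ep l (D.LL v b') := by
    rw [← ep_add hl, h5]
  rw [h7, mul_assoc, h6, mul_one] at h4
  exact (ep_eq_one hl _).1 h4

end H95.IS
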