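import Pool.Agent.H63.MA.PZb

/-!
# IS-SPLI: primes above `p ≡ 1 mod l` in the `l`-th cyclotomic field; number of primes of given norm

`spli`: `K = CyclotomicField l ℚ`. There is a prime `P` of `𝓞 K` above `p`; `p ≠ l` (`l ∣ p - 1`), and by
`IsCyclotomicExtension.Rat.inertiaDeg_eq_of_not_dvd` (Mathlib `NumberTheory/NumberField/Cyclotomic/Ideal.lean`) the inertia degree is
the order of `p` in `(ZMod l)ˣ`, i.e. `1`; `absNorm P = p ^ f = p` (`Ideal.absNorm_eq_pow_inertiaDeg'` or similar). (Or: `Φ_l` has a root modulo `p`.)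
`mult`: if there is such a `v` then `q` is prime (nm is a prime by hypothesis) and every `v` is above `q` (`Ideal.absNorm_mem`); `pzb_card_above`.
`deg`: `IsCyclotomicExtension.finrank` with `φ(l) = l - 1`, coprime to `l`.
-/

set_option autoImplicit false

open scoped NumberField
open H63.MA

namespace H95.IS

theorem spli {l : ℕ} [NeZero l] (hl : l.Prime) {p : ℕ} (hp : p.Prime) (h : l ∣ p - 1) :
    ∃ v : Pl (CyclotomicField l ℚ), nm v = p := by
  have hpf : Fact p.Prime := ⟨hp⟩
  have hne : NeZero ((l : ℕ) : ℚ) := ⟨by exact_mod_cast hl.ne_zero⟩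
  have hcyc : IsCyclotomicExtension {l} ℚ (CyclotomicField l ℚ) :=
    CyclotomicField.isCyclotomicExtension l ℚ
  have hmax : (Ideal.span {(p : ℤ)}).IsMaximal := by
    have h1 : (Ideal.span {(p : ℤ)}).IsPrime := by
      rw [Ideal.span_singleton_prime (by exact_mod_cast hp.ne_zero)]
      exact Nat.prime_iff_prime_int.1 hp
    exact h1.isMaximal (by
      rw [Ne, Ideal.span_singleton_eq_bot]
      exact_mod_cast hp.ne_zero)
  obtain ⟨P, hPm, hPo⟩ := Ideal.exists_maximal_ideal_liesOver_of_isIntegral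
    (S := 𝓞 (CyclotomicField l ℚ)) (Ideal.span {(p : ℤ)})
  have hPp : P.IsPrime := hPm.isPrime
  have hdvd : ¬ p ∣ l := by
    intro h1
    have h2 : p = l := (Nat.prime_dvd_prime_iff_eq hp hl).1 h1
    subst h2
    have h3 := hp.two_le
    have h4 := Nat.le_of_dvd (by omega) h
    omega
  have hdeg := IsCyclotomicExtension.Rat.inertiaDeg_eq_of_not_dvd p (CyclotomicField l ℚ) P
    (m := l) hdvd
  have hone : (p : ZMod l) = 1 := by
    have h1 : ((p - 1 : ℕ) : ZMod l) = 0 := (ZMod.natCast_eq_zero_iff _ _).2 h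
    rw [Nat.cast_sub hp.one_le, Nat.cast_one] at h1
    exact sub_eq_zero.1 h1
  rw [hone, orderOf_one] at hdeg
  have hN := Ideal.pow_inertiaDeg p P
  rw [hdeg, pow_one] at hN
  have hbot : P ≠ ⊥ := by
    intro h0
    rw [h0, Ideal.absNorm_bot] at hN
    exact hp.ne_zero hN
  exact ⟨⟨P, hPp, hbot⟩, hN.symm⟩

theorem deg_coprime {l : ℕ} [NeZero l] (hl : l.Prime) :
    (Module.finrank ℚ (CyclotomicField l ℚ)).Coprime l := by
  have hne : NeZero ((l : ℕ) : ℚ) := ⟨by exact_mod_cast hl.ne_zero⟩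
  have hcyc : IsCyclotomicExtension {l} ℚ (CyclotomicField l ℚ) :=
    CyclotomicField.isCyclotomicExtension l ℚ
  rw [IsCyclotomicExtension.Rat.finrank l (CyclotomicField l ℚ), Nat.totient_prime hl]
  rw [Nat.coprime_comm, hl.coprime_iff_not_dvd]
  intro h
  have h3 := hl.two_le
  have h4 := Nat.le_of_dvd (by omega) h
  omega

theorem multK {K : Type} [Field K] [NumberField K] (q : ℕ) (hq : q.Prime)
    (W : Finset (Pl K)) (hW : ∀ v ∈ W, nm v = q) : W.card ≤ Module.finrank ℚ K := by
  rw [← NumberField.RingOfIntegers.rank K]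
  refine pzb_card_above hq W ?_
  intro v hv
  have h1 := Ideal.absNorm_mem v.asIdeal
  have h2 : Ideal.absNorm v.asIdeal = q := hW v hv
  rw [h2] at h1
  exact h1

end H95.IS
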