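import Pool.Agent.H95.IS.Lsv
import Pool.Agent.H95.IS.Rcj
import Pool.Agent.H95.IS.Fam
import Pool.Agent.H95.IS.Chv
import Pool.Agent.H95.IS.Spli
import Pool.Agent.H95.IS.MertK

/-!
# IS-LINO: the character system for odd `l`

`K = CyclotomicField l ℚ`, `ζ` a primitive `l`-th root of unity, `D` from `exists_RD` (`Pool/Agent/H63/MA/RMkC.lean`), `d = [K:ℚ]`.
`z = N^α`, `A1 = β/α`, so `z^A1 = N^β`; `P0` from `mertK`; `C0` from `fam`; `B2 = B/α`, `B1 = (2dB + 1)/α`, `r, C` from `lsv`; `m0 = d`.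
The system: `ι = Pl K`, `V = {v ∈ plN K (N^β) : D.Gd v ∧ N^α < nm v}`, `p v = nm v`, `χ v a = chv D v a` (`chv_*`; `prime` from `D.Gd`).
`surj`: `spli` gives `v` with `nm v = q`; `v ∉ S0` if `N^α` is larger than all `nm w`, `w ∈ S0` (`N ≥ N0`).
`Bnd`: `mult`: `multK` (if `q` is not prime the filter is empty). `mass`: `mertK`. `count`: let `S` be the set of `s ∈ [1, N^B]` with `LFree l s`;
for `s ∈ S` let `χ_s` be the character of `fam` (choice), modulus of norm `≤ C0 (N^B)^d`. For `v ∈ V`: `chv D v s = χ_s v` (`IsSym`; `(s : 𝓞 K)` is the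
cast of the integer `s`). So `P s = ∑_{v∈V} χ_s v / nm v`. `Pair (z^B1) S χ`: `rcj`, `famN` (`deg_coprime`), the modulus has norm
`≤ C0² N^(2dB) ≤ N^(2dB+1) = z^B1` for `N ≥ N0`; `‖χ_s I‖ ≤ 1` by `norm_one`, `zero_of`, `map_zero`. `#S ≤ N^B = z^B2`. `lsv`:
`#{s ∈ S : ρ < ‖P s‖} ρ^(2r) ≤ ∑_s ‖P s‖^(2r) ≤ C`.
-/

set_option autoImplicit false

open scoped NumberField Classical
open H63.MA

namespace H95.IS

open ComplexConjugate in
theorem LinO_pair {K : Type} [Field K] [NumberField K] {l : ℕ} (hl : l.Prime) {ζ : K}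
    (hζ : IsPrimitiveRoot ζ l) (D : RD K l ζ) (hd : (Module.finrank ℚ K).Coprime l) {C0 : ℝ}
    (hC0 : 1 ≤ C0) (g : ℕ → (Ideal (𝓞 K) →*₀ ℂ))
    (hg : ∀ s : ℕ, s ≠ 0 → ∃ 𝔣 : Ideal (𝓞 K), 𝔣 ≠ ⊥ ∧
      (Ideal.absNorm 𝔣 : ℝ) ≤ C0 * (s : ℝ) ^ Module.finrank ℚ K ∧
      ∃ χ : RC K 𝔣, IsSym D χ s ∧ χ.χ = g s) (M : ℕ) (F : ℝ)
    (hF : C0 ^ 2 * (M : ℝ) ^ (2 * Module.finrank ℚ K) ≤ F) (S : Finset ℕ)
    (hS : ∀ s ∈ S, 1 ≤ s ∧ s ≤ M ∧ LFree l s) : Pair F S g := by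
  constructor
  · intro s hs I
    obtain ⟨𝔣, h𝔣, _, χ, _, hχ⟩ := hg s (by have := (hS s hs).1; omega)
    rw [← hχ]
    by_cases hI : I = ⊥
    · rw [hI]
      have : χ.χ (⊥ : Ideal (𝓞 K)) = 0 := map_zero χ.χ
      rw [this, norm_zero]
      exact zero_le_one
    · by_cases hc : IsCoprime I 𝔣
      · exact (χ.norm_one I hI hc).le
      · rw [χ.zero_of I hc, norm_zero]
        exact zero_le_one
  · intro s hs s' hs' hne
    obtain ⟨𝔣, h𝔣, hn, χ, hsym, hχ⟩ := hg s (by have := (hS s hs).1; omega)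
    obtain ⟨𝔣', h𝔣', hn', χ', hsym', hχ'⟩ := hg s' (by have := (hS s' hs').1; omega)
    obtain ⟨ψ, hψ⟩ := rcj χ χ'
    refine ⟨𝔣 * 𝔣', mul_ne_zero h𝔣 h𝔣', ?_, ψ,
      famN hl hζ D hd (hS s hs).2.2 (hS s' hs').2.2 hne h𝔣 h𝔣' χ χ' hsym hsym' ψ hψ, ?_⟩
    · rw [map_mul, Nat.cast_mul]
      refine le_trans ?_ hF
      have h1 : (s : ℝ) ^ Module.finrank ℚ K ≤ (M : ℝ) ^ Module.finrank ℚ K := by
        apply pow_le_pow_left₀ (Nat.cast_nonneg s)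
        exact_mod_cast (hS s hs).2.1
      have h2 : (s' : ℝ) ^ Module.finrank ℚ K ≤ (M : ℝ) ^ Module.finrank ℚ K := by
        apply pow_le_pow_left₀ (Nat.cast_nonneg s')
        exact_mod_cast (hS s' hs').2.1
      have h3 : (Ideal.absNorm 𝔣 : ℝ) ≤ C0 * (M : ℝ) ^ Module.finrank ℚ K :=
        hn.trans (mul_le_mul_of_nonneg_left h1 (by linarith))
      have h4 : (Ideal.absNorm 𝔣' : ℝ) ≤ C0 * (M : ℝ) ^ Module.finrank ℚ K :=
        hn'.trans (mul_le_mul_of_nonneg_left h2 (by linarith))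
      refine (mul_le_mul h3 h4 (Nat.cast_nonneg _) (by positivity)).trans (le_of_eq ?_)
      rw [mul_comm 2, pow_mul]
      ring
    · intro I
      rw [hψ, hχ, hχ']

theorem LinO_chv {K : Type} [Field K] [NumberField K] {l : ℕ} {ζ : K} (D : RD K l ζ) {s : ℕ}
    (hs : s ≠ 0) {𝔣 : Ideal (𝓞 K)} (χ : RC K 𝔣) (hχ : IsSym D χ s) {v : Pl K} (hv : D.Gd v) :
    χ.χ v.asIdeal = chv D v (s : ℤ) := by
  have hsK : (((s : ℕ) : ℤ) : K) ≠ 0 := by
    rw [Int.cast_natCast]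
    exact_mod_cast hs
  have h1 := hχ (Units.mk0 (((s : ℕ) : ℤ) : K) hsK) (by
    rw [Units.val_mk0, Int.cast_natCast]) v hv
  rw [h1]
  unfold chv
  rw [dif_pos hsK]
  have hz : (((s : ℕ) : ℤ) : 𝓞 K) = ((s : ℕ) : 𝓞 K) := Int.cast_natCast s
  by_cases hm : ((s : ℕ) : 𝓞 K) ∈ v.asIdeal
  · rw [if_pos hm, if_pos (by rw [hz]; exact hm)]
  · rw [if_neg hm, if_neg (by rw [hz]; exact hm)]

theorem lin_odd {l : ℕ} (hl : l.Prime) (hl2 : l ≠ 2) {α β : ℝ} (hα : 0 < α) (hαβ : α < β)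
    (B : ℕ) : ∃ (r m0 N0 : ℕ) (P0 C1 : ℝ), ∀ N ≥ N0,
      ∃ S : CharSys l ((N : ℝ) ^ α) ((N : ℝ) ^ β), S.Bnd (N ^ B) r m0 P0 C1 := by
  have hne0 : NeZero l := ⟨hl.ne_zero⟩
  have hneQ : NeZero ((l : ℕ) : ℚ) := ⟨by exact_mod_cast hl.ne_zero⟩
  obtain ⟨ζ, hζ⟩ := (CyclotomicField.isCyclotomicExtension l ℚ).exists_isPrimitiveRoot
    (Set.mem_singleton l) hl.ne_zero
  obtain ⟨D⟩ := exists_RD (CyclotomicField l ℚ) hl (mone_odd hl hl2 _) hζ
  obtain ⟨C0, hC0, hfam⟩ := fam hl hζ D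
  obtain ⟨d, hd⟩ : ∃ d, d = Module.finrank ℚ (CyclotomicField l ℚ) := ⟨_, rfl⟩
  have hex : ∀ s : ℕ, ∃ g : Ideal (𝓞 (CyclotomicField l ℚ)) →*₀ ℂ, s ≠ 0 →
      ∃ 𝔣 : Ideal (𝓞 (CyclotomicField l ℚ)), 𝔣 ≠ ⊥ ∧
      (Ideal.absNorm 𝔣 : ℝ) ≤ C0 * (s : ℝ) ^ Module.finrank ℚ (CyclotomicField l ℚ) ∧
      ∃ χ : RC (CyclotomicField l ℚ) 𝔣, IsSym D χ s ∧ χ.χ = g := by
    intro s
    by_cases hs : s = 0
    · obtain ⟨𝔣, _, _, χ, _⟩ := hfam 1 one_ne_zero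
      exact ⟨χ.χ, fun h => absurd hs h⟩
    · obtain ⟨𝔣, h1, h2, χ, h3⟩ := hfam s hs
      exact ⟨χ.χ, fun _ => ⟨𝔣, h1, h2, χ, h3, rfl⟩⟩
  choose g hg using hex
  have hA1 : 1 ≤ β / α := by
    rw [le_div_iff₀ hα]
    linarith
  obtain ⟨P0, hP0, hmass⟩ := mertK (CyclotomicField l ℚ) (β / α) hA1
  obtain ⟨r, C, hlsv⟩ := lsv (CyclotomicField l ℚ) P0 (β / α)
    (((2 * d * B + 1 : ℕ) : ℝ) / α) ((B : ℝ) / α) hA1
  obtain ⟨Mx, hMx⟩ : ∃ Mx : ℝ, ∀ w ∈ D.S0, (nm w : ℝ) ≤ Mx :=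
    ⟨∑ w ∈ D.S0, (nm w : ℝ), fun w hw =>
      Finset.single_le_sum (f := fun w => (nm w : ℝ)) (fun _ _ => Nat.cast_nonneg _) hw⟩
  have hev : ∀ᶠ N : ℕ in Filter.atTop, (2 ≤ (N : ℝ) ^ α ∧ Mx ≤ (N : ℝ) ^ α) ∧
      C0 ^ 2 ≤ (N : ℝ) ∧ 1 ≤ N := by
    have t1 : Filter.Tendsto (fun N : ℕ => (N : ℝ) ^ α) Filter.atTop Filter.atTop :=
      (tendsto_rpow_atTop hα).comp tendsto_natCast_atTop_atTop
    exact ((t1.eventually_ge_atTop 2).and (t1.eventually_ge_atTop Mx)).and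
      ((tendsto_natCast_atTop_atTop.eventually_ge_atTop (C0 ^ 2)).and
        (Filter.eventually_ge_atTop 1))
  obtain ⟨N0, hN0⟩ := Filter.eventually_atTop.mp hev
  refine ⟨r, d, N0, P0, C, ?_⟩
  intro N hN
  obtain ⟨⟨hz2, hzM⟩, hNC, hN1⟩ := hN0 N hN
  have hNp : (0 : ℝ) < N := by exact_mod_cast hN1
  have hNn : (0 : ℝ) ≤ N := hNp.le
  have hzβ : ((N : ℝ) ^ α) ^ (β / α) = (N : ℝ) ^ β := by
    rw [← Real.rpow_mul hNn]
    congr 1
    field_simp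
  obtain ⟨V, hV⟩ : ∃ V : Finset (Pl (CyclotomicField l ℚ)), ∀ v, v ∈ V ↔
      (nm v : ℝ) ≤ (N : ℝ) ^ β ∧ D.Gd v ∧ (N : ℝ) ^ α < nm v := by
    refine ⟨(plN (CyclotomicField l ℚ) ((N : ℝ) ^ β)).filter
      (fun v => D.Gd v ∧ (N : ℝ) ^ α < nm v), fun v => ?_⟩
    rw [Finset.mem_filter, mem_plN]
  have hGd : ∀ v ∈ V, D.Gd v := fun v hv => ((hV v).mp hv).2.1
  have hVz : ∀ v ∈ V, (N : ℝ) ^ α < nm v ∧ (nm v : ℝ) ≤ ((N : ℝ) ^ α) ^ (β / α) := by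
    intro v hv
    rw [hzβ]
    exact ⟨((hV v).mp hv).2.2, ((hV v).mp hv).1⟩
  have hVmass := hmass ((N : ℝ) ^ α) hz2 V hVz
  refine ⟨{
    ι := Pl (CyclotomicField l ℚ)
    V := V
    p := nm
    χ := fun v a => chv D v a
    prime := fun v hv => (hGd v hv).2
    lo_lt := fun v hv => ((hV v).mp hv).2.2
    le_hi := fun v hv => ((hV v).mp hv).1
    mul := fun v hv a b => chv_mul hl hζ D (hGd v hv) a b
    zero := fun v hv a h => chv_zero D (hGd v hv) h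
    pow := fun v hv a h => chv_pow hl D (hGd v hv) h
    ker := fun v hv a b ha hb => chv_ker hl hζ D (hGd v hv) ha hb
    surj := ?_ }, ?_⟩
  · intro q hq hlo hhi hlq
    obtain ⟨v, hv⟩ := spli hl hq hlq
    refine ⟨v, (hV v).mpr ⟨by rw [hv]; exact hhi, ⟨?_, by rw [hv]; exact hq⟩,
      by rw [hv]; exact hlo⟩, hv⟩
    intro hvS
    have h1 := hMx v hvS
    rw [hv] at h1
    linarith
  · constructor
    · intro q
      by_cases hq : q.Prime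
      · rw [hd]
        apply multK q hq
        intro v hv
        exact (Finset.mem_filter.mp hv).2
      · rw [Finset.card_eq_zero.mpr]
        · exact Nat.zero_le _
        · rw [Finset.filter_eq_empty_iff]
          intro v hv h
          apply hq
          rw [← h]
          exact (hGd v hv).2
    · exact hVmass
    · intro ρ hρ0 hρ1
      obtain ⟨S, hS⟩ : ∃ S : Finset ℕ, ∀ s, s ∈ S ↔ (1 ≤ s ∧ s ≤ N ^ B) ∧ LFree l s := by
        refine ⟨(Finset.Icc 1 (N ^ B)).filter (fun s => LFree l s), fun s => ?_⟩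
        rw [Finset.mem_filter, Finset.mem_Icc]
      have hScard : (S.card : ℝ) ≤ ((N : ℝ) ^ α) ^ ((B : ℝ) / α) := by
        have h1 : ((N : ℝ) ^ α) ^ ((B : ℝ) / α) = (N : ℝ) ^ B := by
          rw [← Real.rpow_mul hNn, ← Real.rpow_natCast]
          congr 1
          field_simp
        rw [h1]
        have h2 : S ⊆ Finset.Icc 1 (N ^ B) := by
          intro s hs
          rw [Finset.mem_Icc]
          exact ((hS s).mp hs).1
        have h3 := Finset.card_le_card h2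
        rw [Nat.card_Icc, Nat.add_sub_cancel] at h3
        exact_mod_cast h3
      have hpair : Pair (((N : ℝ) ^ α) ^ (((2 * d * B + 1 : ℕ) : ℝ) / α)) S g := by
        apply LinO_pair hl hζ D (deg_coprime hl) hC0 g hg (N ^ B)
        · rw [← hd]
          have h1 : ((N : ℝ) ^ α) ^ (((2 * d * B + 1 : ℕ) : ℝ) / α) =
              (N : ℝ) ^ (2 * d * B + 1) := by
            rw [← Real.rpow_mul hNn, ← Real.rpow_natCast]
            congr 1
            field_simp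
          have h2 : B * (2 * d) = 2 * d * B := by ring
          have h3 : (N : ℝ) ^ (2 * d * B + 1) = N * (N : ℝ) ^ (2 * d * B) := pow_succ' _ _
          rw [h1, h3, Nat.cast_pow, ← pow_mul, h2]
          exact mul_le_mul_of_nonneg_right hNC (by positivity)
        · intro s hs
          have := (hS s).mp hs
          exact ⟨this.1.1, this.1.2, this.2⟩
      have hmain := hlsv ((N : ℝ) ^ α) hz2 V hVz hVmass ℕ S g hScard hpair
      have hP : ∀ s ∈ S, ∑ v ∈ V, chv D v (s : ℤ) / (nm v : ℂ) =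
          ∑ v ∈ V, g s v.asIdeal / (nm v : ℂ) := by
        intro s hs
        have hs0 : s ≠ 0 := by
          have := ((hS s).mp hs).1.1
          omega
        obtain ⟨𝔣, _, _, χ, hsym, hχ⟩ := hg s hs0
        refine Finset.sum_congr rfl fun v hv => ?_
        rw [← hχ, LinO_chv D hs0 χ hsym (hGd v hv)]
      refine le_trans ?_ hmain
      rw [← nsmul_eq_mul]
      have hsub : ((Finset.Icc 1 (N ^ B)).filter fun s : ℕ => LFree l s ∧
          ρ < ‖∑ v ∈ V, chv D v (s : ℤ) / (nm v : ℂ)‖) ⊆ S := by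
        intro s hs
        rw [Finset.mem_filter, Finset.mem_Icc] at hs
        exact (hS s).mpr ⟨hs.1, hs.2.1⟩
      refine le_trans ?_ (Finset.sum_le_sum_of_subset_of_nonneg hsub fun _ _ _ => by positivity)
      apply Finset.card_nsmul_le_sum
      intro s hs
      rw [← hP s (hsub hs)]
      rw [Finset.mem_filter] at hs
      exact pow_le_pow_left₀ hρ0.le hs.2.2.le _

end H95.IS
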