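import Mathlib

/-!
# IS-LOGD: positive relative density at all scales gives positive logarithmic density

`cheb`: there are `0 < a < b` and `x0` with `a x/log x ≤ π(x) ≤ b x/log x` for `x ≥ x0` (Mathlib `Mathlib/NumberTheory/Chebyshev.lean`:
`psi_le_primeCounting_mul_log'`, `psi_ge'` for the lower bound; the upper bound: `Pool.Agent.H5.Short` or `theta_le_log4_mul_x`:
`(π(x) - π(√x)) log √x ≤ θ(x)`; look also for `primeCounting` lemmas at the end of that Mathlib file).
`logd`: choose an integer `L ≥ 2` with `π(Q/L) ≤ (ε/2) π(Q)` for all `Q ≥ x1` (from `cheb`: `π(Q/L) ≤ 2b (Q/L)/log Q` for `Q ≥ L²`, so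
`L ≥ 4b/(εa)` is enough). If `G` has at least `ε π(Q)` elements `≤ Q` then at least `(ε/2) π(Q) ≥ (ε a/2) Q/log Q` of them are in
`(Q/L, Q]`, each with `1/p ≥ 1/Q`, so the block `(Q/L, Q]` contributes at least `(ε a/2)/log Q ≥ (ε a/2)/log N`. Use the disjoint blocks with
`Q_m = N/L^m`, `Q_m/L ≥ N^ε`, i.e. `m + 1 ≤ (1-ε) log N/log L`: there are at least `(1-ε) log N/log L - 1 ≥ (1-ε) log N/(2 log L)` of them for
`N ≥ N0`. Total at least `η = (ε a/2)(1-ε)/(2 log L)`.
-/

set_option autoImplicit false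
open scoped Classical

namespace H95.IS

theorem cheb : ∃ a b x0 : ℝ, 0 < a ∧ 0 < b ∧ 2 ≤ x0 ∧ ∀ x : ℝ, x0 ≤ x →
    a * x / Real.log x ≤ (Nat.primeCounting ⌊x⌋₊ : ℝ) ∧
      (Nat.primeCounting ⌊x⌋₊ : ℝ) ≤ b * x / Real.log x := by
  have h2 : 0 < Real.log 2 := Real.log_pos (by norm_num)
  have h4 : 0 < Real.log 4 := Real.log_pos (by norm_num)
  have e1 := Chebyshev.eventually_primeCounting_le (ε := 1) one_pos
  have e2 : ∀ᶠ x : ℝ in Filter.atTop,
      Real.log 2 / 2 * x ≤ (x - 1) * Real.log 2 - Real.log (x + 2) := by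
    have l1 := Real.isLittleO_log_id_atTop.bound (c := 1 / 16) (by norm_num)
    have l2 : Filter.Tendsto (fun x : ℝ => x + 2) Filter.atTop Filter.atTop :=
      Filter.tendsto_atTop_add_const_right _ _ Filter.tendsto_id
    have l3 := l2.eventually l1
    filter_upwards [l3, Filter.eventually_ge_atTop (8 : ℝ)] with x hx hx8
    have h5 : Real.log (x + 2) ≤ (x + 2) / 16 := by
      have h6 : ‖Real.log (x + 2)‖ ≤ 1 / 16 * ‖x + 2‖ := hx
      rw [Real.norm_eq_abs, Real.norm_eq_abs, abs_of_nonneg (by linarith : (0 : ℝ) ≤ x + 2)] at h6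
      have := le_abs_self (Real.log (x + 2))
      linarith
    have h7 : (1 : ℝ) / 2 < Real.log 2 := by
      have := Real.log_two_gt_d9
      linarith
    have h8 : (x / 2 - 1) * (1 / 2) ≤ (x / 2 - 1) * Real.log 2 :=
      mul_le_mul_of_nonneg_left h7.le (by linarith)
    linarith
  obtain ⟨x1, hx1⟩ := Filter.eventually_atTop.1 (e1.and e2)
  refine ⟨Real.log 2 / 2, Real.log 4 + 1, max x1 2, by positivity, by positivity,
    le_max_right _ _, fun x hx => ?_⟩
  obtain ⟨h5, h6⟩ := hx1 x ((le_max_left _ _).trans hx)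
  have hx2 : 2 ≤ x := (le_max_right _ _).trans hx
  refine ⟨?_, h5⟩
  refine le_trans ?_ (Chebyshev.pi_ge' (x := x) (by linarith))
  exact div_le_div_of_nonneg_right h6 (Real.log_nonneg (by linarith))

theorem logd {ε : ℝ} (hε : 0 < ε) (hε1 : ε < 1) : ∃ η : ℝ, 0 < η ∧ ∃ N0 : ℕ, ∀ N ≥ N0,
    ∀ G : Finset ℕ, (∀ p ∈ G, p.Prime) →
      (∀ Q : ℝ, (N : ℝ) ^ ε ≤ Q → Q ≤ N → ε * (Nat.primeCounting ⌊Q⌋₊ : ℝ) ≤
        ((G.filter fun p : ℕ => (p : ℝ) ≤ Q).card : ℝ)) →
      η ≤ ∑ p ∈ G.filter (fun p : ℕ => (N : ℝ) ^ ε < p ∧ p ≤ N), (1 : ℝ) / p := by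
  obtain ⟨a, b, x0, ha, hb, hx0, hch⟩ := cheb
  obtain ⟨L, hL2, hLb⟩ : ∃ L : ℝ, 2 ≤ L ∧ 4 * b / (ε * a) ≤ L :=
    ⟨max 2 (4 * b / (ε * a)), le_max_left _ _, le_max_right _ _⟩
  have hL0 : 0 < L := by linarith
  have hlL : 0 < Real.log L := Real.log_pos (by linarith)
  have hε2 : 0 < 1 - ε := sub_pos.2 hε1
  have hLb' : 4 * b ≤ L * (ε * a) := (div_le_iff₀ (by positivity)).1 hLb
  refine ⟨ε * a / 2 * ((1 - ε) / (2 * Real.log L)), by positivity, ?_⟩
  have t1 : ∀ᶠ N : ℕ in Filter.atTop, max (L ^ 2) x0 ≤ (N : ℝ) ^ ε :=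
    ((tendsto_rpow_atTop hε).comp tendsto_natCast_atTop_atTop).eventually_ge_atTop _
  have t2 : ∀ᶠ N : ℕ in Filter.atTop, 2 * Real.log L / (1 - ε) ≤ Real.log N :=
    (Real.tendsto_log_atTop.comp tendsto_natCast_atTop_atTop).eventually_ge_atTop _
  obtain ⟨N0, hN0⟩ := Filter.eventually_atTop.1 (t1.and (t2.and (Filter.eventually_ge_atTop 2)))
  refine ⟨N0, fun N hN G hG hQ => ?_⟩
  obtain ⟨h1, h2, h3⟩ := hN0 N hN
  have hN2 : (2 : ℝ) ≤ N := by exact_mod_cast h3
  have hN0' : (0 : ℝ) < N := by linarith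
  have hlN : 0 < Real.log N := Real.log_pos (by linarith)
  have blk : ∀ Q : ℝ, (N : ℝ) ^ ε ≤ Q / L → Q ≤ N →
      ε * a / 2 / Real.log N ≤
        ∑ p ∈ G.filter (fun p : ℕ => Q / L < p ∧ (p : ℝ) ≤ Q), (1 : ℝ) / p := by
    intro Q hQ1 hQ2
    have q1 : x0 ≤ Q / L := (le_max_right _ _).trans (h1.trans hQ1)
    have q2 : L ^ 2 ≤ Q / L := (le_max_left _ _).trans (h1.trans hQ1)
    have q3 : 0 < Q / L := by linarith
    have q4 : 0 < Q := by
      have := mul_pos q3 hL0
      rwa [div_mul_cancel₀ _ hL0.ne'] at this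
    have q5 : Q / L ≤ Q := div_le_self q4.le (by linarith)
    have c1 := hQ Q (hQ1.trans q5) hQ2
    have c2 : ((G.filter fun p : ℕ => (p : ℝ) ≤ Q / L).card : ℝ) ≤
        (Nat.primeCounting ⌊Q / L⌋₊ : ℝ) := by
      rw [← Nat.primesLE_card_eq_primeCounting]
      exact_mod_cast Finset.card_le_card (fun p hp => by
        rw [Finset.mem_filter] at hp
        rw [Nat.mem_primesLE]
        exact ⟨Nat.le_floor hp.2, hG p hp.1⟩)
    have c3 : (G.filter fun p : ℕ => (p : ℝ) ≤ Q).card =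
        (G.filter fun p : ℕ => (p : ℝ) ≤ Q / L).card +
        (G.filter fun p : ℕ => Q / L < p ∧ (p : ℝ) ≤ Q).card := by
      rw [← Finset.card_union_of_disjoint]
      · congr 1
        ext p
        simp only [Finset.mem_filter, Finset.mem_union]
        constructor
        · rintro ⟨g1, g2⟩
          rcases le_or_gt (p : ℝ) (Q / L) with g | g
          · exact Or.inl ⟨g1, g⟩
          · exact Or.inr ⟨g1, g, g2⟩
        · rintro (⟨g1, g2⟩ | ⟨g1, _, g2⟩)
          · exact ⟨g1, g2.trans q5⟩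
          · exact ⟨g1, g2⟩
      · rw [Finset.disjoint_left]
        intro p g1 g2
        rw [Finset.mem_filter] at g1 g2
        exact absurd g1.2 (not_le.2 g2.2.1)
    have hlQ : 0 < Real.log Q := Real.log_pos (by linarith)
    have hlQL : 0 < Real.log (Q / L) := Real.log_pos (by linarith)
    have c5 := (hch Q (q1.trans q5)).1
    have c4 : (Nat.primeCounting ⌊Q / L⌋₊ : ℝ) ≤ ε / 2 * (a * Q / Real.log Q) := by
      refine ((hch (Q / L) q1).2).trans ?_
      have g1 : Q ≤ (Q / L) ^ 2 := by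
        have g2 : Q = Q / L * L := by rw [div_mul_cancel₀ _ hL0.ne']
        have g3 : L ≤ Q / L := by nlinarith
        calc Q = Q / L * L := g2
          _ ≤ Q / L * (Q / L) := mul_le_mul_of_nonneg_left g3 q3.le
          _ = (Q / L) ^ 2 := by ring
      have g4 : Real.log Q ≤ 2 * Real.log (Q / L) := by
        have := Real.log_le_log q4 g1
        rwa [Real.log_pow, Nat.cast_ofNat] at this
      have g5 : ε / 2 * (a * Q / Real.log Q) = (ε * a * Q / 2) / Real.log Q := by ring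
      rw [g5, div_le_div_iff₀ hlQL hlQ]
      have g6 : b * (Q / L) * 2 ≤ ε * a * Q / 2 := by
        have g7 : b * (Q / L) * 2 * L = 2 * b * Q := by field_simp
        have g8 : 2 * b * Q ≤ ε * a * Q / 2 * L := by nlinarith
        have g9 : b * (Q / L) * 2 * L ≤ ε * a * Q / 2 * L := by rw [g7]; exact g8
        exact le_of_mul_le_mul_right g9 hL0
      calc b * (Q / L) * Real.log Q ≤ b * (Q / L) * (2 * Real.log (Q / L)) :=
            mul_le_mul_of_nonneg_left g4 (by positivity)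
        _ = (b * (Q / L) * 2) * Real.log (Q / L) := by ring
        _ ≤ ε * a * Q / 2 * Real.log (Q / L) := mul_le_mul_of_nonneg_right g6 hlQL.le
    have c6 : ε / 2 * (a * Q / Real.log Q) ≤
        ((G.filter fun p : ℕ => Q / L < p ∧ (p : ℝ) ≤ Q).card : ℝ) := by
      have c3' : ((G.filter fun p : ℕ => (p : ℝ) ≤ Q).card : ℝ) =
        ((G.filter fun p : ℕ => (p : ℝ) ≤ Q / L).card : ℝ) +
        ((G.filter fun p : ℕ => Q / L < p ∧ (p : ℝ) ≤ Q).card : ℝ) := by exact_mod_cast c3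
      have c7 : ε * (a * Q / Real.log Q) ≤ ε * (Nat.primeCounting ⌊Q⌋₊ : ℝ) :=
        mul_le_mul_of_nonneg_left c5 hε.le
      linarith
    have c8 : ((G.filter fun p : ℕ => Q / L < p ∧ (p : ℝ) ≤ Q).card : ℝ) * (1 / Q) ≤
        ∑ p ∈ G.filter (fun p : ℕ => Q / L < p ∧ (p : ℝ) ≤ Q), (1 : ℝ) / p := by
      rw [← nsmul_eq_mul]
      refine Finset.card_nsmul_le_sum _ _ _ fun p hp => ?_
      rw [Finset.mem_filter] at hp
      exact one_div_le_one_div_of_le (q3.trans hp.2.1) hp.2.2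
    refine le_trans ?_ c8
    have c9 : ε / 2 * (a * Q / Real.log Q) * (1 / Q) = ε * a / 2 / Real.log Q := by
      field_simp
    have c10 : ε * a / 2 / Real.log N ≤ ε * a / 2 / Real.log Q :=
      div_le_div_of_nonneg_left (by positivity) hlQ (Real.log_le_log q4 hQ2)
    refine c10.trans ?_
    rw [← c9]
    exact mul_le_mul_of_nonneg_right c6 (by positivity)
  have ind : ∀ m : ℕ, (N : ℝ) ^ ε ≤ N / L ^ m → m * (ε * a / 2 / Real.log N) ≤
      ∑ p ∈ G.filter (fun p : ℕ => (N : ℝ) / L ^ m < p ∧ (p : ℝ) ≤ N), (1 : ℝ) / p := by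
    intro m
    induction m with
    | zero =>
      intro _
      rw [Nat.cast_zero, zero_mul]
      exact Finset.sum_nonneg (fun _ _ => by positivity)
    | succ m ih =>
      intro h
      have hLm : 0 < L ^ m := pow_pos hL0 m
      have e : (N : ℝ) / L ^ (m + 1) = (N / L ^ m) / L := by rw [pow_succ, div_div]
      have hle : (N : ℝ) / L ^ (m + 1) ≤ N / L ^ m := by
        rw [e]
        exact div_le_self (by positivity) (by linarith)
      have hleN : (N : ℝ) / L ^ m ≤ N :=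
        div_le_self hN0'.le (one_le_pow₀ (by linarith))
      have i1 := ih (h.trans hle)
      have i2 := blk (N / L ^ m) (by rw [← e]; exact h) hleN
      have split : ∑ p ∈ G.filter (fun p : ℕ => (N : ℝ) / L ^ (m + 1) < p ∧ (p : ℝ) ≤ N),
            (1 : ℝ) / p =
          ∑ p ∈ G.filter (fun p : ℕ => (N : ℝ) / L ^ m < p ∧ (p : ℝ) ≤ N), (1 : ℝ) / p +
          ∑ p ∈ G.filter (fun p : ℕ => (N : ℝ) / L ^ m / L < p ∧ (p : ℝ) ≤ N / L ^ m),
            (1 : ℝ) / p := by
        rw [Finset.sum_filter, Finset.sum_filter, Finset.sum_filter, ← Finset.sum_add_distrib]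
        refine Finset.sum_congr rfl fun p _ => ?_
        rw [← e]
        rcases lt_or_ge ((N : ℝ) / L ^ m) p with g | g
        · have g2 : (N : ℝ) / L ^ (m + 1) < p := hle.trans_lt g
          simp [g, g2, not_le.2 g]
        · have g2 : (p : ℝ) ≤ N := g.trans hleN
          simp [g, g2, not_lt.2 g]
      rw [split]
      push_cast
      linarith
  -- the number of blocks
  have hM := Nat.floor_le (by positivity : 0 ≤ (1 - ε) * Real.log N / Real.log L)
  have hM' := Nat.lt_floor_add_one ((1 - ε) * Real.log N / Real.log L)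
  set M := ⌊(1 - ε) * Real.log N / Real.log L⌋₊ with hMdef
  have hMN : (N : ℝ) ^ ε ≤ N / L ^ M := by
    rw [le_div_iff₀ (pow_pos hL0 M)]
    have k1 : L ^ M ≤ (N : ℝ) ^ (1 - ε) := by
      rw [← Real.rpow_natCast, Real.rpow_def_of_pos hL0, Real.rpow_def_of_pos hN0']
      apply Real.exp_le_exp.2
      rw [le_div_iff₀ hlL] at hM
      linarith
    calc (N : ℝ) ^ ε * L ^ M ≤ (N : ℝ) ^ ε * (N : ℝ) ^ (1 - ε) :=
          mul_le_mul_of_nonneg_left k1 (by positivity)
      _ = N := by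
          rw [← Real.rpow_add hN0']
          simp
  have hfin := ind M hMN
  have hsub : ∑ p ∈ G.filter (fun p : ℕ => (N : ℝ) / L ^ M < p ∧ (p : ℝ) ≤ N), (1 : ℝ) / p ≤
      ∑ p ∈ G.filter (fun p : ℕ => (N : ℝ) ^ ε < p ∧ p ≤ N), (1 : ℝ) / p := by
    refine Finset.sum_le_sum_of_subset_of_nonneg ?_ (fun _ _ _ => by positivity)
    intro p hp
    rw [Finset.mem_filter] at hp ⊢
    exact ⟨hp.1, hMN.trans_lt hp.2.1, by exact_mod_cast hp.2.2⟩
  refine le_trans ?_ (hfin.trans hsub)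
  have k2 : (1 - ε) * Real.log N / (2 * Real.log L) ≤ M := by
    have k3 : 2 * Real.log L ≤ Real.log N * (1 - ε) := (div_le_iff₀ hε2).1 h2
    have k4 : 1 ≤ (1 - ε) * Real.log N / (2 * Real.log L) := by
      rw [one_le_div (by positivity)]
      linarith
    have k5 : (1 - ε) * Real.log N / Real.log L =
        2 * ((1 - ε) * Real.log N / (2 * Real.log L)) := by field_simp
    linarith
  have k6 : ε * a / 2 * ((1 - ε) / (2 * Real.log L)) =
      (1 - ε) * Real.log N / (2 * Real.log L) * (ε * a / 2 / Real.log N) := by field_simp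
  rw [k6]
  exact mul_le_mul_of_nonneg_right k2 (by positivity)

end H95.IS
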