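import Pool.Agent.H95.IS.Cov
import Pool.Agent.H95.IS.LogD
import Pool.Agent.H95.IS.LinO
import Pool.Agent.H95.IS.Lin2

/-!
# IS-FDEFS: the definitions of the final statement (copies of those in the results file)
-/

set_option autoImplicit false

open scoped Classical

noncomputable section

namespace H95.IS

/-- Admissible data of a cell modulo the prime `p` -/
def Adm (δ : ℝ) (k D N p l : ℕ) (S : Finset ℚ) : Prop :=
  l.Prime ∧ l ≤ D ∧ l ∣ p - 1 ∧ S.Nonempty ∧ S.card ≤ k ∧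
    ∀ c ∈ S, |(c.num : ℝ)| ≤ (N : ℝ) ^ δ ∧ (c.den : ℝ) ≤ (N : ℝ) ^ δ

/-- `X` under-fills some admissible cell at `p` -/
def Under (δ κ : ℝ) (k D N : ℕ) (X : Finset ℕ) (p : ℕ) : Prop :=
  ∃ (l : ℕ) (S : Finset ℚ) (θ : ℚ → ZMod p), Adm δ k D N p l S ∧ (∀ c ∈ S, θ c ≠ 0) ∧
    (l : ℝ) ^ S.card * ((X.filter fun n => inCell l p S θ n).card : ℝ) ≤ (1 - κ) * X.card

/-- `X` misses some admissible cell at `p` completely -/
def Missed (δ : ℝ) (k D N : ℕ) (X : Finset ℕ) (p : ℕ) : Prop :=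
  ∃ (l : ℕ) (S : Finset ℚ) (θ : ℚ → ZMod p), Adm δ k D N p l S ∧ (∀ c ∈ S, θ c ≠ 0) ∧
    ∀ n ∈ X, ¬ inCell l p S θ n

/-- `X mod p` is covered by pure power polynomials -/
def Covered (δ : ℝ) (k D N : ℕ) (X : Finset ℕ) (p : ℕ) : Prop :=
  ∃ (l : ℕ) (S : Finset ℚ) (a : ℚ → ZMod p), Adm δ k D N p l S ∧
    ∀ n ∈ X, ∃ c ∈ S, ∃ u : ZMod p,
      (c.den : ZMod p) * (n : ZMod p) - (c.num : ZMod p) = a c * u ^ l

/-- positive density of a set of primes at all scales in `[N^ε, N]`, or positive log density -/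
def Dense (ε : ℝ) (N : ℕ) (G : ℕ → Prop) : Prop :=
  (∀ Q : ℝ, (N : ℝ) ^ ε ≤ Q → Q ≤ N → ε * (Nat.primeCounting ⌊Q⌋₊ : ℝ) ≤
    (((Finset.Icc 1 ⌊Q⌋₊).filter fun p : ℕ => p.Prime ∧ G p).card : ℝ)) ∨
  ε ≤ ∑ p ∈ (Finset.Icc 1 N).filter (fun p : ℕ => p.Prime ∧ (N : ℝ) ^ ε < p ∧ G p), (1 : ℝ) / p

end H95.IS
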