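import Pool.Agent.H95.IS.Fr
import Pool.Agent.H95.IS.Cen

/-!
# IS-PC: a class of a linear form is contained in the values of one polynomial of degree `l`

`HtPoly N C f`: the height condition of the problem. Let `g = C (σ t) X^l + C (num c)`, `A = den c`, `f = A⁻¹ g`. For `n` in the class,
`fr_pow`: `σ (den n - num) = t y^l`, `y ≥ 1`, so (`σ² = 1`) `n = (σ t y^l + num)/den = f(y)`. `y² ≤ y^l ≤ Lf c σ n ≤ 2HN ≤ N²` (`Lf_le`,
`2H ≤ N`), so `y ≤ N`. The class is not empty, so `0 < t ≤ 2HN ≤ N²` (`fr_pos`, `fr_le`). `natDegree f = l` as `σ t / A ≠ 0`, `l ≥ 2`.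
Heights: `A = den ≤ H ≤ N ≤ N²`, the coefficients of `g` are `0`, `σ t`, `num c` (`l ≠ 0`), all `≤ N²` in absolute value.
`poly_card`: the `n ∈ Y` are different elements `f(y)`, `y ∈ [N]`, of the intersection in the statement.
-/

set_option autoImplicit false
open scoped Classical

namespace H95.IS

/-- `f` is of height at most `B` (in the sense of the problem) -/
def HtPoly (B : ℝ) (f : Polynomial ℚ) : Prop :=
  ∃ A : ℕ, 0 < A ∧ (A : ℝ) ≤ B ∧ ∃ g : Polynomial ℤ,
    (∀ i : ℕ, ((|g.coeff i| : ℤ) : ℝ) ≤ B) ∧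
    f = Polynomial.C ((A : ℚ)⁻¹) * g.map (Int.castRingHom ℚ)

theorem poly_class {l : ℕ} (hl : 2 ≤ l) {N H : ℕ} (hN : 1 ≤ N) (hH : 2 * H ≤ N) {c : ℚ}
    (hc : c ∈ cen H) {σ : ℤ} (hσ : σ = 1 ∨ σ = -1) (t : ℕ)
    (hne : ∃ n ∈ Finset.Icc 1 N, 0 < Lf c σ n ∧ fr l (Lf c σ n).toNat = t) :
    ∃ f : Polynomial ℚ, f.natDegree = l ∧ HtPoly ((N : ℝ) ^ (2 : ℕ)) f ∧
      ∀ n ∈ Finset.Icc 1 N, 0 < Lf c σ n → fr l (Lf c σ n).toNat = t →
        ∃ y ∈ Finset.Icc 1 N, f.eval (y : ℚ) = n := by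
  obtain ⟨hnum, hden⟩ := (mem_cen_iff H c).mp hc
  have hσσ : σ * σ = 1 := by rcases hσ with h | h <;> simp [h]
  have hmle : ∀ n ∈ Finset.Icc 1 N, (Lf c σ n).toNat ≤ N ^ 2 := by
    intro n hn
    have h1 := Lf_le hc hσ hn
    have h2 : Lf c σ n ≤ 2 * H * N := (le_abs_self _).trans h1
    have h3 : (2 * H * N : ℤ) ≤ ((N ^ 2 : ℕ) : ℤ) := by
      have : 2 * H * N ≤ N ^ 2 := by
        rw [pow_two]
        exact Nat.mul_le_mul_right N hH
      exact_mod_cast this
    rw [Int.toNat_le]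
    exact h2.trans h3
  obtain ⟨n0, hn0, hpos0, hfr0⟩ := hne
  have htpos : 0 < t := by
    rw [← hfr0]
    exact fr_pos _ _
  have ht2 : t ≤ N ^ 2 := by
    rw [← hfr0]
    refine (fr_le l ?_).trans (hmle n0 hn0)
    have := Int.toNat_of_nonneg hpos0.le
    omega
  have hHN : H ≤ N := by omega
  have hNN : N ≤ N ^ 2 := Nat.le_self_pow (by norm_num) N
  set g : Polynomial ℤ := Polynomial.C (σ * t) * Polynomial.X ^ l + Polynomial.C c.num with hg
  have hσt : σ * (t : ℤ) ≠ 0 := by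
    have : (t : ℤ) ≠ 0 := by exact_mod_cast htpos.ne'
    rcases hσ with h | h <;> simp [h, htpos.ne']
  have hdpos : 0 < c.den := c.den_pos
  have hAne : ((c.den : ℚ)⁻¹) ≠ 0 := by
    have : (c.den : ℚ) ≠ 0 := by exact_mod_cast hdpos.ne'
    exact inv_ne_zero this
  refine ⟨Polynomial.C ((c.den : ℚ)⁻¹) * g.map (Int.castRingHom ℚ), ?_, ?_, ?_⟩
  · rw [Polynomial.natDegree_C_mul hAne,
      Polynomial.natDegree_map_eq_of_injective (RingHom.injective_int _), hg,
      Polynomial.natDegree_add_C, Polynomial.natDegree_C_mul_X_pow _ _ hσt]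
  · refine ⟨c.den, hdpos, ?_, g, ?_, rfl⟩
    · have : c.den ≤ N ^ 2 := by omega
      exact_mod_cast this
    · intro i
      have hb : |g.coeff i| ≤ ((N ^ 2 : ℕ) : ℤ) := by
        rw [hg, Polynomial.coeff_add, Polynomial.coeff_C_mul, Polynomial.coeff_X_pow,
          Polynomial.coeff_C]
        by_cases h1 : i = l
        · have h2 : i ≠ 0 := by omega
          rw [if_pos h1, if_neg h2, mul_one, add_zero, abs_mul]
          have h3 : |σ| = 1 := by rcases hσ with h | h <;> simp [h]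
          rw [h3, one_mul, Nat.abs_cast]
          exact_mod_cast ht2
        · rw [if_neg h1, mul_zero, zero_add]
          by_cases h2 : i = 0
          · rw [if_pos h2]
            refine hnum.trans ?_
            exact_mod_cast hHN.trans hNN
          · rw [if_neg h2, abs_zero]
            positivity
      have hb' : ((|g.coeff i| : ℤ) : ℝ) ≤ (((N ^ 2 : ℕ) : ℤ) : ℝ) := by exact_mod_cast hb
      push_cast at hb'
      push_cast
      exact hb'
  · intro n hn hpos hfr
    have hm0 : (Lf c σ n).toNat ≠ 0 := by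
      have := Int.toNat_of_nonneg hpos.le
      omega
    obtain ⟨u, hu, hmu⟩ := fr_pow (by omega : 0 < l) hm0
    rw [hfr] at hmu
    have hmuZ : Lf c σ n = t * (u : ℤ) ^ l := by
      have h1 := Int.toNat_of_nonneg hpos.le
      rw [← h1, hmu]
      push_cast
      ring
    refine ⟨u, ?_, ?_⟩
    · rw [Finset.mem_Icc]
      refine ⟨hu, ?_⟩
      have h1 : u ^ 2 ≤ N ^ 2 := by
        calc u ^ 2 ≤ u ^ l := Nat.pow_le_pow_right hu hl
          _ ≤ t * u ^ l := Nat.le_mul_of_pos_left _ htpos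
          _ = (Lf c σ n).toNat := hmu.symm
          _ ≤ N ^ 2 := hmle n hn
      exact (Nat.pow_le_pow_iff_left (by norm_num)).mp h1
    · have h2 : (c.den : ℤ) * n - c.num = σ * t * (u : ℤ) ^ l := by
        have h3 : σ * Lf c σ n = (c.den : ℤ) * n - c.num := by
          unfold Lf
          rw [← mul_assoc, hσσ, one_mul]
        rw [← h3, hmuZ]
        ring
      have h4 : (c.den : ℚ) * n = σ * t * (u : ℚ) ^ l + c.num := by
        have : ((c.den : ℤ) * n : ℤ) = σ * t * (u : ℤ) ^ l + c.num := by linarith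
        exact_mod_cast this
      have hgm : g.map (Int.castRingHom ℚ) =
          Polynomial.C (((σ * t : ℤ)) : ℚ) * Polynomial.X ^ l + Polynomial.C ((c.num : ℤ) : ℚ) := by
        rw [hg, Polynomial.map_add, Polynomial.map_mul, Polynomial.map_C, Polynomial.map_pow,
          Polynomial.map_X, Polynomial.map_C]
        rfl
      rw [Polynomial.eval_mul, Polynomial.eval_C, hgm, Polynomial.eval_add, Polynomial.eval_mul,
        Polynomial.eval_C, Polynomial.eval_pow, Polynomial.eval_X, Polynomial.eval_C]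
      push_cast
      rw [← h4]
      have : (c.den : ℚ) ≠ 0 := by exact_mod_cast hdpos.ne'
      field_simp

theorem poly_card {N : ℕ} (f : Polynomial ℚ) (X Y : Finset ℕ) (hYX : Y ⊆ X)
    (hY : ∀ n ∈ Y, ∃ y ∈ Finset.Icc 1 N, f.eval (y : ℚ) = n) :
    Y.card ≤ (((Finset.Icc 1 N).image (fun n : ℕ => f.eval (n : ℚ))) ∩
      X.image (fun x : ℕ => (x : ℚ))).card := by
  rw [← Finset.card_image_of_injective Y (f := fun x : ℕ => (x : ℚ)) Nat.cast_injective]
  refine Finset.card_le_card fun q hq => ?_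
  rw [Finset.mem_image] at hq
  obtain ⟨n, hn, rfl⟩ := hq
  obtain ⟨y, hy, hyn⟩ := hY n hn
  rw [Finset.mem_inter, Finset.mem_image, Finset.mem_image]
  exact ⟨⟨y, hy, hyn⟩, n, hYX hn, rfl⟩

end H95.IS
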