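import Pool.Agent.H95.IS.WMain
import Pool.Agent.H95.IS.Pc

/-!
# IS-FINA: the theorem for sets, one exponent `l` (robust form)

Apply `weights` with `w n = 1/|X|` for `n ∈ X` and `0` otherwise: `Wt N (N^(-ε)) w` as `|X| > N^ε`; the sum over a filtered `[N]` is
`#(X ∩ ...)/|X|`. It gives a class `Y = {n ∈ X : 0 < Lf c0 σ n, fr l (Lf c0 σ n).toNat = t}` with `|Y| ≥ c |X| > 0`; `poly_class`
(`2 H ≤ N` if `δ ≤ 1/2` and `N ≥ N0`) and `poly_card`.
-/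

set_option autoImplicit false
open scoped Classical

namespace H95.IS

/-- robust cell hypothesis for a set -/
def CellX (l k H : ℕ) (κ : ℝ) (X : Finset ℕ) (p : ℕ) : Prop :=
  ∃ (S : Finset ℚ) (θ : ℚ → ZMod p), S.card ≤ k ∧ S ⊆ cen H ∧ (∀ c ∈ S, θ c ≠ 0) ∧
    (l : ℝ) ^ S.card * ((X.filter fun n => inCell l p S θ n).card : ℝ) ≤ (1 - κ) * X.card

theorem setA {l : ℕ} (hl : l.Prime) (k : ℕ) {ε κ η α β : ℝ} (hε : 0 < ε) (hκ : 0 < κ)
    (hη : 0 < η) (hα : 0 < α)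
    (hlin : ∀ B : ℕ, ∃ (r m0 N0 : ℕ) (P0 C1 : ℝ), ∀ N ≥ N0,
      ∃ S : CharSys l ((N : ℝ) ^ α) ((N : ℝ) ^ β), S.Bnd (N ^ B) r m0 P0 C1) :
    ∃ δ c : ℝ, 0 < δ ∧ 0 < c ∧ ∃ N0 : ℕ, ∀ N ≥ N0, ∀ H : ℕ, (H : ℝ) ≤ (N : ℝ) ^ δ →
      ∀ X : Finset ℕ, X ⊆ Finset.Icc 1 N → (N : ℝ) ^ ε < X.card →
      ∀ G : Finset ℕ, (∀ p ∈ G, p.Prime ∧ (N : ℝ) ^ α < p ∧ (p : ℝ) ≤ (N : ℝ) ^ β ∧ l ∣ p - 1 ∧
        CellX l k H κ X p) → η ≤ ∑ p ∈ G, (1 : ℝ) / p →
      ∃ f : Polynomial ℚ, f.natDegree = l ∧ HtPoly ((N : ℝ) ^ (2 : ℕ)) f ∧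
        c * X.card ≤ ((((Finset.Icc 1 N).image (fun n : ℕ => f.eval (n : ℚ))) ∩
          X.image (fun x : ℕ => (x : ℚ))).card : ℝ) := by
  obtain ⟨δ, c, hδ, hc, N0, hmain⟩ := weights hl k hε hκ hη hα hlin
  refine ⟨min δ (1 / 2), c, lt_min hδ (by norm_num), hc, max N0 4, ?_⟩
  intro N hN H hH X hX hXc G hG hGη
  have hN0 : N0 ≤ N := (le_max_left _ _).trans hN
  have hN4 : 4 ≤ N := (le_max_right _ _).trans hN
  have hN1 : (1 : ℝ) ≤ N := by exact_mod_cast (by omega : 1 ≤ N)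
  have hHδ : (H : ℝ) ≤ (N : ℝ) ^ δ :=
    hH.trans (Real.rpow_le_rpow_of_exponent_le hN1 (min_le_left _ _))
  have hH2 : (H : ℝ) ≤ Real.sqrt N := by
    rw [Real.sqrt_eq_rpow]
    exact hH.trans (Real.rpow_le_rpow_of_exponent_le hN1 (min_le_right _ _))
  have h2H : 2 * H ≤ N := by
    have h1 : (2 : ℝ) ≤ Real.sqrt N := by
      rw [Real.le_sqrt (by norm_num) (by linarith)]
      have : (4 : ℝ) ≤ N := by exact_mod_cast hN4
      linarith
    have h2 : Real.sqrt N * Real.sqrt N = N := Real.mul_self_sqrt (by linarith)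
    have h3 : (2 : ℝ) * H ≤ N := by
      have h4 : (0 : ℝ) ≤ H := Nat.cast_nonneg _
      nlinarith
    exact_mod_cast h3
  have hpow0 : 0 < (N : ℝ) ^ ε := Real.rpow_pos_of_pos (by linarith) _
  have hXpos : (0 : ℝ) < X.card := hpow0.trans hXc
  set w : ℕ → ℝ := fun n => if n ∈ X then 1 / (X.card : ℝ) else 0 with hw
  have hsum : ∀ (P : ℕ → Prop) [DecidablePred P], ∑ n ∈ (Finset.Icc 1 N).filter (fun n => P n), w n =
      ((X.filter fun n => P n).card : ℝ) / X.card := by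
    intro P _
    have h1 : ∑ n ∈ (Finset.Icc 1 N).filter (fun n => P n), w n =
        ∑ n ∈ X.filter (fun n => P n), w n := by
      symm
      apply Finset.sum_subset
      · intro n hn
        rw [Finset.mem_filter] at hn ⊢
        exact ⟨hX hn.1, hn.2⟩
      · intro n hn hn'
        have h2 : n ∉ X := fun h => hn' (Finset.mem_filter.2 ⟨h, (Finset.mem_filter.1 hn).2⟩)
        rw [hw]
        simp only [h2, if_false]
    rw [h1]
    have h3 : ∀ n ∈ X.filter (fun n => P n), w n = 1 / (X.card : ℝ) := by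
      intro n hn
      rw [hw]
      simp only [(Finset.mem_filter.1 hn).1, if_true]
    rw [Finset.sum_congr rfl h3, Finset.sum_const, nsmul_eq_mul]
    ring
  have hWt : Wt N ((N : ℝ) ^ (-ε)) w := by
    refine ⟨fun n => ?_, ?_, fun n _ => ?_⟩
    · rw [hw]
      dsimp only
      split_ifs <;> positivity
    · have h1 := hsum (fun _ => True)
      simp only [Finset.filter_true] at h1
      rw [h1, div_self hXpos.ne']
    · rw [Real.rpow_neg (by linarith), hw]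
      dsimp only
      split_ifs
      · rw [one_div]
        exact inv_anti₀ hpow0 hXc.le
      · positivity
  have hG' : ∀ p ∈ G, p.Prime ∧ (N : ℝ) ^ α < p ∧ (p : ℝ) ≤ (N : ℝ) ^ β ∧ l ∣ p - 1 ∧
      CellW l k H N κ w p := by
    intro p hp
    obtain ⟨h1, h2, h3, h4, S, θ, hS, hScen, hθ, hcell⟩ := hG p hp
    refine ⟨h1, h2, h3, h4, S, θ, hS, hScen, hθ, ?_⟩
    rw [hsum, ← mul_div_assoc, div_le_iff₀ hXpos]
    exact hcell
  obtain ⟨c0, hc0, σ, hσ, t, ht⟩ := hmain N hN0 H hHδ w hWt G hG' hGη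
  rw [hsum, le_div_iff₀ hXpos] at ht
  set Y := X.filter (fun n : ℕ => 0 < Lf c0 σ n ∧ fr l (Lf c0 σ n).toNat = t) with hY
  have hYpos : (0 : ℝ) < Y.card := lt_of_lt_of_le (by positivity) ht
  have hYne : Y.Nonempty := by
    rw [← Finset.card_pos]
    exact_mod_cast hYpos
  obtain ⟨n0, hn0⟩ := hYne
  have hn0' := Finset.mem_filter.1 hn0
  obtain ⟨f, hf1, hf2, hf3⟩ := poly_class hl.two_le (by omega) h2H hc0 hσ t
    ⟨n0, hX hn0'.1, hn0'.2.1, hn0'.2.2⟩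
  refine ⟨f, hf1, hf2, ht.trans ?_⟩
  have h5 := poly_card (N := N) f X Y (Finset.filter_subset _ _) (by
    intro n hn
    obtain ⟨h6, h7, h8⟩ := Finset.mem_filter.1 hn
    exact hf3 n (hX h6) h7 h8)
  exact_mod_cast h5

end H95.IS
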