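import Pool.Agent.H95.IS.FDefs

/-!
# IS-FINAL: the final assembly
-/

set_option autoImplicit false

open scoped Classical

noncomputable section

namespace H95.IS

theorem lin_all {l : ℕ} (hl : l.Prime) {α β : ℝ} (hα : 0 < α) (hαβ : α < β) :
    ∀ B : ℕ, ∃ (r m0 N0 : ℕ) (P0 C1 : ℝ), ∀ N ≥ N0,
      ∃ S : CharSys l ((N : ℝ) ^ α) ((N : ℝ) ^ β), S.Bnd (N ^ B) r m0 P0 C1 := by
  intro B
  by_cases h : l = 2
  · subst h
    exact lin_two hα hαβ B
  · exact lin_odd hl h hα hαβ B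

/-- a residue which is not an `l`-th power -/
theorem exists_nonpow {l p : ℕ} (hl : l.Prime) (hp : p.Prime) (h : l ∣ p - 1) :
    ∃ g : ZMod p, g ≠ 0 ∧ ∀ u : ZMod p, u ^ l ≠ g := by
  haveI : Fact p.Prime := ⟨hp⟩
  by_contra hcon
  push Not at hcon
  have hsurj : Function.Surjective (fun u : (ZMod p)ˣ => u ^ l) := by
    intro g
    obtain ⟨u, hu⟩ := hcon (g : ZMod p) g.ne_zero
    have hu0 : u ≠ 0 := by
      rintro rfl
      rw [zero_pow hl.ne_zero] at hu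
      exact g.ne_zero hu.symm
    refine ⟨Units.mk0 u hu0, ?_⟩
    ext
    simpa using hu
  have hinj : Function.Injective (fun u : (ZMod p)ˣ => u ^ l) :=
    Finite.injective_iff_surjective.2 hsurj
  obtain ⟨x, hx⟩ := exists_prime_orderOf_dvd_card' (G := (ZMod p)ˣ) l (by
    rw [Nat.card_eq_fintype_card, ZMod.card_units]
    exact h) (hp := ⟨hl⟩)
  have h1 : (fun u : (ZMod p)ˣ => u ^ l) x = (fun u : (ZMod p)ˣ => u ^ l) 1 := by
    show x ^ l = 1 ^ l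
    rw [one_pow, ← hx, pow_orderOf_eq_one]
  have h2 := hinj h1
  rw [h2, orderOf_one] at hx
  exact hl.one_lt.ne hx

theorem covered_missed {δ : ℝ} {k D N : ℕ} {X : Finset ℕ} {p : ℕ} (hp : p.Prime)
    (h : Covered δ k D N X p) : Missed δ k D N X p := by
  haveI : Fact p.Prime := ⟨hp⟩
  obtain ⟨l, S, a, hA, hX⟩ := h
  obtain ⟨g, hg0, hg⟩ := exists_nonpow hA.1 hp hA.2.2.1
  refine ⟨l, S, fun c => if a c = 0 then 1 else a c * g, hA, ?_, ?_⟩
  · intro c _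
    by_cases h : a c = 0
    · simp [h]
    · simp [h, hg0]
  · intro n hn hcell
    obtain ⟨c, hc, u, hu⟩ := hX n hn
    obtain ⟨w, hw0, hw⟩ := hcell c hc
    rw [hu] at hw
    by_cases h : a c = 0
    · simp only [h, if_true, zero_mul, one_mul] at hw
      exact pow_ne_zero _ hw0 hw.symm
    · simp only [h, if_false] at hw
      have h1 : u ^ l = g * w ^ l := by
        have : a c * u ^ l = a c * (g * w ^ l) := by rw [hw]; ring
        exact mul_left_cancel₀ h this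
      apply hg (u / w)
      rw [div_pow, h1, mul_div_assoc, div_self (pow_ne_zero _ hw0), mul_one]

/-- the statement of `setA` with constants -/
def StA (ε κ η : ℝ) (k : ℕ) (δ c : ℝ) (N0 l : ℕ) : Prop :=
  ∀ N ≥ N0, ∀ H : ℕ, (H : ℝ) ≤ (N : ℝ) ^ δ →
    ∀ X : Finset ℕ, X ⊆ Finset.Icc 1 N → (N : ℝ) ^ ε < X.card →
    ∀ G : Finset ℕ, (∀ p ∈ G, p.Prime ∧ (N : ℝ) ^ ε < p ∧ (p : ℝ) ≤ (N : ℝ) ^ (1 : ℝ) ∧
      l ∣ p - 1 ∧ CellX l k H κ X p) → η ≤ ∑ p ∈ G, (1 : ℝ) / p →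
    ∃ f : Polynomial ℚ, f.natDegree = l ∧ HtPoly ((N : ℝ) ^ (2 : ℕ)) f ∧
      c * X.card ≤ ((((Finset.Icc 1 N).image (fun n : ℕ => f.eval (n : ℚ))) ∩
        X.image (fun x : ℕ => (x : ℚ))).card : ℝ)

/-- the statement of `setB` with constants -/
def StB (ε η : ℝ) (k : ℕ) (δ c : ℝ) (N0 l : ℕ) : Prop :=
  ∀ N ≥ N0, ∀ H : ℕ, (H : ℝ) ≤ (N : ℝ) ^ δ →
    ∀ X : Finset ℕ, X ⊆ Finset.Icc 1 N →
    ∀ G : Finset ℕ, (∀ p ∈ G, p.Prime ∧ (N : ℝ) ^ ε < p ∧ (p : ℝ) ≤ (N : ℝ) ^ (1 : ℝ) ∧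
      l ∣ p - 1 ∧
      ∃ (S : Finset ℚ) (θ : ℚ → ZMod p), S.card ≤ k ∧ S ⊆ cen H ∧ (∀ c ∈ S, θ c ≠ 0) ∧
        ∀ n ∈ X, ¬ inCell l p S θ n) → η ≤ ∑ p ∈ G, (1 : ℝ) / p →
    ∃ F : Finset (Polynomial ℚ), (F.card : ℝ) ≤ 1 / c ∧
      (∀ f ∈ F, f.natDegree = l ∧ HtPoly ((N : ℝ) ^ (2 : ℕ)) f) ∧
      ((X.filter fun n : ℕ => ∀ f ∈ F, ∀ y ∈ Finset.Icc 1 N, f.eval ((y : ℕ) : ℚ) ≠ n).card : ℝ) ≤
        (N : ℝ) ^ ε

theorem pow_mono {N : ℕ} (hN : 1 ≤ N) {δ δ' : ℝ} (h : δ' ≤ δ) :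
    (N : ℝ) ^ δ' ≤ (N : ℝ) ^ δ :=
  Real.rpow_le_rpow_of_exponent_le (by exact_mod_cast hN) h

theorem StA.mono {ε κ η : ℝ} {k : ℕ} {δ c δ' c' : ℝ} {N0 N0' l : ℕ} (h : StA ε κ η k δ c N0 l)
    (hδ : δ' ≤ δ) (hc : c' ≤ c) (hN : N0 ≤ N0') (hN1 : 1 ≤ N0') :
    StA ε κ η k δ' c' N0' l := by
  intro N hN' H hH X hX hXc G hG hη
  obtain ⟨f, h1, h2, h3⟩ := h N (hN.trans hN') H (hH.trans (pow_mono (hN1.trans hN') hδ)) X hX hXc
    G hG hη
  refine ⟨f, h1, h2, le_trans ?_ h3⟩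
  exact mul_le_mul_of_nonneg_right hc (Nat.cast_nonneg _)

theorem StB.mono {ε η : ℝ} {k : ℕ} {δ c δ' c' : ℝ} {N0 N0' l : ℕ} (h : StB ε η k δ c N0 l)
    (hδ : δ' ≤ δ) (hc0 : 0 < c') (hc : c' ≤ c) (hN : N0 ≤ N0') (hN1 : 1 ≤ N0') :
    StB ε η k δ' c' N0' l := by
  intro N hN' H hH X hX G hG hη
  obtain ⟨F, h1, h2, h3⟩ := h N (hN.trans hN') H (hH.trans (pow_mono (hN1.trans hN') hδ)) X hX
    G hG hη
  exact ⟨F, h1.trans (one_div_le_one_div_of_le hc0 hc), h2, h3⟩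

theorem common {ε κ η : ℝ} (hε : 0 < ε) (hε1 : ε < 1) (hκ : 0 < κ) (hη : 0 < η) (k : ℕ) (D : ℕ) :
    ∃ (δ c : ℝ) (N0 : ℕ), 0 < δ ∧ 0 < c ∧ 1 ≤ N0 ∧ ∀ l < D, l.Prime →
      StA ε κ η k δ c N0 l ∧ StB ε η k δ c N0 l := by
  induction D with
  | zero => exact ⟨1, 1, 1, one_pos, one_pos, le_rfl, fun l hl => absurd hl (Nat.not_lt_zero _)⟩
  | succ D ih =>
    obtain ⟨δ, c, N0, hδ, hc, hN0, hD⟩ := ih
    by_cases hp : D.Prime
    · obtain ⟨δ1, c1, hδ1, hc1, N1, h1⟩ := setA hp k hε hκ hη hε (lin_all hp hε hε1)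
      obtain ⟨δ2, C2, hδ2, hC2, N2, h2⟩ := setB hp k hε hη hε (lin_all hp hε hε1)
      have h1' : StA ε κ η k δ1 c1 N1 D := h1
      have h2' : StB ε η k δ2 (1 / C2) N2 D := by
        intro N hN H hH X hX G hG hη
        obtain ⟨F, h3, h4, h5⟩ := h2 N hN H hH X hX G hG hη
        exact ⟨F, by rw [one_div_one_div]; exact h3, h4, h5⟩
      have hC2' : 0 < 1 / C2 := by positivity
      refine ⟨min δ (min δ1 δ2), min c (min c1 (1 / C2)), max N0 (max N1 N2), ?_, ?_, ?_, ?_⟩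
      · exact lt_min hδ (lt_min hδ1 hδ2)
      · exact lt_min hc (lt_min hc1 hC2')
      · exact hN0.trans (le_max_left _ _)
      · intro l hl hlp
        have hc0 : 0 < min c (min c1 (1 / C2)) := lt_min hc (lt_min hc1 hC2')
        have hN01 : 1 ≤ max N0 (max N1 N2) := hN0.trans (le_max_left _ _)
        rcases Nat.lt_succ_iff_lt_or_eq.1 hl with h | h
        · obtain ⟨h3, h4⟩ := hD l h hlp
          exact ⟨h3.mono (min_le_left _ _) (min_le_left _ _) (le_max_left _ _) hN01,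
            h4.mono (min_le_left _ _) hc0 (min_le_left _ _) (le_max_left _ _) hN01⟩
        · subst h
          exact ⟨h1'.mono ((min_le_right _ _).trans (min_le_left _ _))
              ((min_le_right _ _).trans (min_le_left _ _))
              ((le_max_left _ _).trans (le_max_right _ _)) hN01,
            h2'.mono ((min_le_right _ _).trans (min_le_right _ _)) hc0
              ((min_le_right _ _).trans (min_le_right _ _))
              ((le_max_right _ _).trans (le_max_right _ _)) hN01⟩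
    · refine ⟨δ, c, N0, hδ, hc, hN0, fun l hl hlp => ?_⟩
      rcases Nat.lt_succ_iff_lt_or_eq.1 hl with h | h
      · exact hD l h hlp
      · subst h
        exact absurd hlp hp

/-- the admissible centres are in `cen H` -/
theorem adm_cen {δ : ℝ} {k D N p l : ℕ} {S : Finset ℚ} (h : Adm δ k D N p l S) :
    S ⊆ cen ⌊(N : ℝ) ^ δ⌋₊ := by
  intro c hc
  obtain ⟨h1, h2⟩ := h.2.2.2.2.2 c hc
  rw [mem_cen_iff]
  refine ⟨?_, Nat.le_floor h2⟩
  have h3 : ((c.num.natAbs : ℕ) : ℝ) ≤ (N : ℝ) ^ δ := by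
    rw [Nat.cast_natAbs]
    push_cast
    exact h1
  have h4 := Nat.le_floor h3
  have h5 : |c.num| = ((c.num.natAbs : ℕ) : ℤ) := by simp
  rw [h5]
  exact_mod_cast h4

/-- log density from `Dense` -/
theorem dense_log {ε : ℝ} (hε : 0 < ε) (hε1 : ε < 1) : ∃ η : ℝ, 0 < η ∧ ∃ N0 : ℕ, ∀ N ≥ N0,
    ∀ G : ℕ → Prop, Dense ε N G →
      η ≤ ∑ p ∈ (Finset.Icc 1 N).filter (fun p : ℕ => p.Prime ∧ (N : ℝ) ^ ε < p ∧ G p),
        (1 : ℝ) / p := by
  obtain ⟨η, hη, N0, h⟩ := logd hε hε1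
  refine ⟨min η ε, lt_min hη hε, N0, fun N hN G hG => ?_⟩
  rcases hG with hG | hG
  · refine (min_le_left _ _).trans ?_
    have h1 := h N hN ((Finset.Icc 1 N).filter fun p : ℕ => p.Prime ∧ G p)
      (fun p hp => (Finset.mem_filter.1 hp).2.1) (by
        intro Q hQ1 hQ2
        refine (hG Q hQ1 hQ2).trans ?_
        have hQ0 : 0 ≤ Q := le_trans (Real.rpow_nonneg (Nat.cast_nonneg _) _) hQ1
        have h2 : ((Finset.Icc 1 ⌊Q⌋₊).filter fun p : ℕ => p.Prime ∧ G p) ⊆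
            (((Finset.Icc 1 N).filter fun p : ℕ => p.Prime ∧ G p).filter
              fun p : ℕ => (p : ℝ) ≤ Q) := by
          intro p hp
          simp only [Finset.mem_filter, Finset.mem_Icc] at hp ⊢
          obtain ⟨⟨h3, h4⟩, h5⟩ := hp
          have h6 : (p : ℝ) ≤ Q := (Nat.le_floor_iff hQ0).1 h4
          exact ⟨⟨⟨h3, by exact_mod_cast h6.trans hQ2⟩, h5⟩, h6⟩
        exact_mod_cast Finset.card_le_card h2)
    refine h1.trans (le_of_eq ?_)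
    refine Finset.sum_congr ?_ (fun _ _ => rfl)
    ext p
    simp only [Finset.mem_filter, Finset.mem_Icc]
    constructor
    · rintro ⟨⟨⟨h2, h3⟩, h4, h5⟩, h6, h7⟩
      exact ⟨⟨h2, h3⟩, h4, h6, h5⟩
    · rintro ⟨⟨h2, h3⟩, h4, h6, h5⟩
      exact ⟨⟨⟨h2, h3⟩, h4, h5⟩, h6, h3⟩
  · exact (min_le_right _ _).trans hG

/-- pigeonhole on the exponent -/
theorem pigeon {η : ℝ} (hη : 0 < η) (D : ℕ) (G : Finset ℕ) (R : ℕ → ℕ → Prop)
    (hR : ∀ p ∈ G, ∃ l, l < D + 1 ∧ R p l) (hG : η ≤ ∑ p ∈ G, (1 : ℝ) / p) :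
    ∃ l, l < D + 1 ∧ ∃ G' : Finset ℕ, G' ⊆ G ∧ (∀ p ∈ G', R p l) ∧
      η / (D + 1) ≤ ∑ p ∈ G', (1 : ℝ) / p := by
  suffices hs : ∃ l, l < D + 1 ∧ (η / (D + 1) ≤ ∑ p ∈ G.filter (fun p => R p l), (1 : ℝ) / p) by
    obtain ⟨l, hl, h⟩ := hs
    exact ⟨l, hl, _, Finset.filter_subset _ _, fun p hp => (Finset.mem_filter.1 hp).2, h⟩
  by_contra hcon
  push Not at hcon
  have h1 : ∑ p ∈ G, (1 : ℝ) / p ≤
      ∑ l ∈ Finset.range (D + 1), ∑ p ∈ G.filter (fun p => R p l), (1 : ℝ) / p := by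
    have h2 : ∀ p ∈ G, (1 : ℝ) / p ≤
        ∑ l ∈ Finset.range (D + 1), (if R p l then (1 : ℝ) / p else 0) := by
      intro p hp
      obtain ⟨l, hl, hRl⟩ := hR p hp
      have h3 := Finset.single_le_sum (f := fun l => if R p l then (1 : ℝ) / p else 0)
        (fun i _ => by split_ifs <;> positivity) (Finset.mem_range.2 hl)
      simp only [hRl, if_true] at h3
      exact h3
    refine (Finset.sum_le_sum h2).trans (le_of_eq ?_)
    rw [Finset.sum_comm]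
    refine Finset.sum_congr rfl fun l _ => ?_
    rw [Finset.sum_filter]
  have h4 : ∑ l ∈ Finset.range (D + 1), ∑ p ∈ G.filter (fun p => R p l), (1 : ℝ) / p <
      ∑ _l ∈ Finset.range (D + 1), η / (D + 1) := by
    apply Finset.sum_lt_sum_of_nonempty
    · exact ⟨0, Finset.mem_range.2 (Nat.succ_pos _)⟩
    · intro l hl
      exact hcon l (Finset.mem_range.1 hl)
  rw [Finset.sum_const, Finset.card_range, nsmul_eq_mul] at h4
  have h5 : ((D + 1 : ℕ) : ℝ) * (η / (D + 1)) = η := by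
    push_cast
    field_simp
  linarith

theorem HtPoly.mono {B B' : ℝ} (h : B ≤ B') {f : Polynomial ℚ} (hf : HtPoly B f) :
    HtPoly B' f := by
  obtain ⟨A, h1, h2, g, h3, h4⟩ := hf
  exact ⟨A, h1, h2.trans h, g, fun i => (h3 i).trans h, h4⟩

theorem card_le_N {N : ℕ} {X : Finset ℕ} (hX : X ⊆ Finset.Icc 1 N) : X.card ≤ N := by
  have := Finset.card_le_card hX
  rwa [Nat.card_Icc, Nat.add_sub_cancel] at this

/-- small `N` or `ε ≥ 1` -/
theorem triv_bound {ε C : ℝ} (hε : 0 < ε) {N : ℕ} {X : Finset ℕ} (hX : X ⊆ Finset.Icc 1 N)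
    (hC : 1 ≤ C) (h : 1 ≤ ε ∨ (N : ℝ) ≤ C) : (X.card : ℝ) ≤ C * (N : ℝ) ^ ε := by
  have h1 : (X.card : ℝ) ≤ N := by exact_mod_cast card_le_N hX
  rcases Nat.eq_zero_or_pos N with h0 | h0
  · subst h0
    have h2 : (X.card : ℝ) = 0 := le_antisymm (by simpa using h1) (Nat.cast_nonneg _)
    rw [h2]
    positivity
  · have hN : (1 : ℝ) ≤ N := by exact_mod_cast h0
    have h2 : (1 : ℝ) ≤ (N : ℝ) ^ ε := Real.one_le_rpow hN hε.le
    rcases h with h | h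
    · have h3 : (N : ℝ) ≤ (N : ℝ) ^ ε := by
        calc (N : ℝ) = (N : ℝ) ^ (1 : ℝ) := (Real.rpow_one _).symm
          _ ≤ _ := Real.rpow_le_rpow_of_exponent_le hN h
      nlinarith
    · nlinarith

theorem Dense.mono {ε : ℝ} {N : ℕ} {G G' : ℕ → Prop} (h : ∀ p : ℕ, p.Prime → G p → G' p)
    (hG : Dense ε N G) : Dense ε N G' := by
  rcases hG with hG | hG
  · refine Or.inl fun Q hQ1 hQ2 => (hG Q hQ1 hQ2).trans ?_
    have h1 : ((Finset.Icc 1 ⌊Q⌋₊).filter fun p : ℕ => p.Prime ∧ G p) ⊆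
        ((Finset.Icc 1 ⌊Q⌋₊).filter fun p : ℕ => p.Prime ∧ G' p) := by
      intro p hp
      rw [Finset.mem_filter] at hp ⊢
      exact ⟨hp.1, hp.2.1, h p hp.2.1 hp.2.2⟩
    exact_mod_cast Finset.card_le_card h1
  · refine Or.inr (hG.trans ?_)
    apply Finset.sum_le_sum_of_subset_of_nonneg
    · intro p hp
      rw [Finset.mem_filter] at hp ⊢
      exact ⟨hp.1, hp.2.1, hp.2.2.1, h p hp.2.1 hp.2.2.2⟩
    · intro p _ _
      positivity

theorem missed_under {δ κ : ℝ} (hκ : κ ≤ 1) {k D N : ℕ} {X : Finset ℕ} {p : ℕ}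
    (h : Missed δ k D N X p) : Under δ κ k D N X p := by
  obtain ⟨l, S, θ, hA, hθ, hX⟩ := h
  refine ⟨l, S, θ, hA, hθ, ?_⟩
  rw [Finset.filter_false_of_mem hX, Finset.card_empty, Nat.cast_zero, mul_zero]
  have h1 : (0 : ℝ) ≤ X.card := Nat.cast_nonneg _
  nlinarith

theorem finalA (ε κ : ℝ) (hε : 0 < ε) (hκ : 0 < κ) (hκ1 : κ ≤ 1) (k D : ℕ) :
    ∃ δ C : ℝ, 0 < δ ∧ 0 < C ∧
      ∀ (N : ℕ) (X : Finset ℕ), X ⊆ Finset.Icc 1 N →
        Dense ε N (fun p => Under δ κ k D N X p ∨ Covered δ k D N X p) →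
        (X.card : ℝ) ≤ C * (N : ℝ) ^ ε ∨
          ∃ f : Polynomial ℚ, f.natDegree.Prime ∧ f.natDegree ≤ D ∧ HtPoly ((N : ℝ) ^ C) f ∧
            (X.card : ℝ) / C ≤
              (((Finset.Icc 1 N).image (fun n : ℕ => f.eval (n : ℚ))) ∩
                X.image (fun x : ℕ => (x : ℚ))).card := by
  by_cases hε1 : ε < 1
  swap
  · push Not at hε1
    refine ⟨1, 1, one_pos, one_pos, ?_⟩
    intro N X hX _
    exact Or.inl (triv_bound hε hX le_rfl (Or.inl hε1))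
  · obtain ⟨η, hη, N1, hlog⟩ := dense_log hε hε1
    have hη' : 0 < η / ((D : ℝ) + 1) := by positivity
    obtain ⟨δ, c, N0, hδ, hc, hN0, hcom⟩ := common hε hε1 hκ hη' k (D + 1)
    set C : ℝ := max 2 (max (1 / c) (max N0 N1 : ℕ)) with hC
    have hC2 : 2 ≤ C := le_max_left _ _
    have hCc : 1 / c ≤ C := (le_max_left _ _).trans (le_max_right _ _)
    have hCN : ((max N0 N1 : ℕ) : ℝ) ≤ C := (le_max_right _ _).trans (le_max_right _ _)
    have hC0 : 0 < C := by linarith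
    have hpow : ∀ N : ℕ, 1 ≤ N → (N : ℝ) ^ (2 : ℕ) ≤ (N : ℝ) ^ C := by
      intro N hN
      rw [← Real.rpow_natCast]
      exact pow_mono hN (by exact_mod_cast hC2)
    refine ⟨δ, C, hδ, hC0, ?_⟩
    intro N X hX hD0
    have hD : Dense ε N (Under δ κ k D N X) := hD0.mono (by
      rintro p hp (h | h)
      · exact h
      · exact missed_under hκ1 (covered_missed hp h))
    by_cases hN : max N0 N1 ≤ N
    swap
    · refine Or.inl (triv_bound hε hX (by linarith) (Or.inr (le_trans ?_ hCN)))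
      exact_mod_cast (not_le.1 hN).le
    have hN0' : N0 ≤ N := (le_max_left _ _).trans hN
    have hN1' : N1 ≤ N := (le_max_right _ _).trans hN
    have hNpos : 1 ≤ N := hN0.trans hN0'
    by_cases hXc : (N : ℝ) ^ ε < X.card
    swap
    · left
      push Not at hXc
      have h0 : 0 ≤ (N : ℝ) ^ ε := Real.rpow_nonneg (Nat.cast_nonneg _) _
      nlinarith
    right
    have hS := hlog N hN1' _ hD
    obtain ⟨l, hl, G', hG'1, hG'2, hsum⟩ := pigeon hη D _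
      (fun p l => l.Prime ∧ l ∣ p - 1 ∧ CellX l k ⌊(N : ℝ) ^ δ⌋₊ κ X p) (by
        intro p hp
        obtain ⟨_, hp1, hp2, l, S, θ, hA, hθ, hcell⟩ := Finset.mem_filter.1 hp
        exact ⟨l, Nat.lt_succ_of_le hA.2.1, hA.1, hA.2.2.1, S, θ, hA.2.2.2.2.1, adm_cen hA, hθ,
          hcell⟩) hS
    have hlp : l.Prime := by
      by_contra hnp
      have h0 : ∑ p ∈ G', (1 : ℝ) / p = 0 :=
        Finset.sum_eq_zero fun p hp => absurd (hG'2 p hp).1 hnp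
      linarith
    obtain ⟨hA, -⟩ := hcom l hl hlp
    obtain ⟨f, hf1, hf2, hf3⟩ := hA N hN0' ⌊(N : ℝ) ^ δ⌋₊
      (Nat.floor_le (Real.rpow_nonneg (Nat.cast_nonneg _) _)) X hX hXc _ (by
        intro p hp
        obtain ⟨hp2, hp3, hp4⟩ := hG'2 p hp
        obtain ⟨hp5, hp6, hp7, -⟩ := Finset.mem_filter.1 (hG'1 hp)
        refine ⟨hp6, hp7, ?_, hp3, hp4⟩
        rw [Real.rpow_one]
        exact_mod_cast (Finset.mem_Icc.1 hp5).2) hsum
    refine ⟨f, by rw [hf1]; exact hlp, by rw [hf1]; omega, hf2.mono (hpow N hNpos), ?_⟩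
    refine le_trans ?_ hf3
    rw [div_le_iff₀ hC0]
    have h1 : 1 ≤ c * C := by
      rw [div_le_iff₀ hc] at hCc
      linarith
    have h2 : (0 : ℝ) ≤ X.card := Nat.cast_nonneg _
    nlinarith

theorem finalB (ε : ℝ) (hε : 0 < ε) (k D : ℕ) :
    ∃ δ C : ℝ, 0 < δ ∧ 0 < C ∧
      ∀ (N : ℕ) (X : Finset ℕ), X ⊆ Finset.Icc 1 N →
        Dense ε N (fun p => Missed δ k D N X p ∨ Covered δ k D N X p) →
        ∃ F : Finset (Polynomial ℚ), (F.card : ℝ) ≤ C ∧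
          (∀ f ∈ F, f.natDegree.Prime ∧ f.natDegree ≤ D ∧ HtPoly ((N : ℝ) ^ C) f) ∧
          (∀ f ∈ F, ∀ g ∈ F, f.natDegree = g.natDegree) ∧
          ((X.filter fun n : ℕ => ∀ f ∈ F, ∀ y ∈ Finset.Icc 1 N,
            f.eval ((y : ℕ) : ℚ) ≠ (n : ℚ)).card : ℝ) ≤ C * (N : ℝ) ^ ε := by
  by_cases hε1 : ε < 1
  swap
  · push Not at hε1
    refine ⟨1, 1, one_pos, one_pos, ?_⟩
    intro N X hX _
    refine ⟨∅, by simp, by simp, by simp, ?_⟩
    refine le_trans ?_ (triv_bound hε hX le_rfl (Or.inl hε1))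
    exact_mod_cast Finset.card_filter_le _ _
  · obtain ⟨η, hη, N1, hlog⟩ := dense_log hε hε1
    have hη' : 0 < η / ((D : ℝ) + 1) := by positivity
    obtain ⟨δ, c, N0, hδ, hc, hN0, hcom⟩ := common hε hε1 (κ := 1) one_pos hη' k (D + 1)
    set C : ℝ := max 2 (max (1 / c) (max N0 N1 : ℕ)) with hC
    have hC2 : 2 ≤ C := le_max_left _ _
    have hCc : 1 / c ≤ C := (le_max_left _ _).trans (le_max_right _ _)
    have hCN : ((max N0 N1 : ℕ) : ℝ) ≤ C := (le_max_right _ _).trans (le_max_right _ _)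
    have hC0 : 0 < C := by linarith
    have hpow : ∀ N : ℕ, 1 ≤ N → (N : ℝ) ^ (2 : ℕ) ≤ (N : ℝ) ^ C := by
      intro N hN
      rw [← Real.rpow_natCast]
      exact pow_mono hN (by exact_mod_cast hC2)
    refine ⟨δ, C, hδ, hC0, ?_⟩
    intro N X hX hD0
    have hD : Dense ε N (Missed δ k D N X) := hD0.mono (by
      rintro p hp (h | h)
      · exact h
      · exact covered_missed hp h)
    by_cases hN : max N0 N1 ≤ N
    swap
    · refine ⟨∅, by simp; linarith, by simp, by simp, ?_⟩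
      refine le_trans ?_ (triv_bound hε hX (by linarith) (Or.inr (le_trans ?_ hCN)))
      · exact_mod_cast Finset.card_filter_le _ _
      · exact_mod_cast (not_le.1 hN).le
    have hN0' : N0 ≤ N := (le_max_left _ _).trans hN
    have hN1' : N1 ≤ N := (le_max_right _ _).trans hN
    have hNpos : 1 ≤ N := hN0.trans hN0'
    have hS := hlog N hN1' _ hD
    obtain ⟨l, hl, G', hG'1, hG'2, hsum⟩ := pigeon hη D _
      (fun p l => l.Prime ∧ l ∣ p - 1 ∧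
        ∃ (S : Finset ℚ) (θ : ℚ → ZMod p), S.card ≤ k ∧ S ⊆ cen ⌊(N : ℝ) ^ δ⌋₊ ∧
          (∀ c ∈ S, θ c ≠ 0) ∧ ∀ n ∈ X, ¬ inCell l p S θ n) (by
        intro p hp
        obtain ⟨_, hp1, hp2, l, S, θ, hA, hθ, hcell⟩ := Finset.mem_filter.1 hp
        exact ⟨l, Nat.lt_succ_of_le hA.2.1, hA.1, hA.2.2.1, S, θ, hA.2.2.2.2.1, adm_cen hA, hθ,
          hcell⟩) hS
    have hlp : l.Prime := by
      by_contra hnp
      have h0 : ∑ p ∈ G', (1 : ℝ) / p = 0 :=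
        Finset.sum_eq_zero fun p hp => absurd (hG'2 p hp).1 hnp
      linarith
    obtain ⟨-, hB⟩ := hcom l hl hlp
    obtain ⟨F, hF1, hF2, hF3⟩ := hB N hN0' ⌊(N : ℝ) ^ δ⌋₊
      (Nat.floor_le (Real.rpow_nonneg (Nat.cast_nonneg _) _)) X hX _ (by
        intro p hp
        obtain ⟨hp2, hp3, hp4⟩ := hG'2 p hp
        obtain ⟨hp5, hp6, hp7, -⟩ := Finset.mem_filter.1 (hG'1 hp)
        refine ⟨hp6, hp7, ?_, hp3, hp4⟩
        rw [Real.rpow_one]
        exact_mod_cast (Finset.mem_Icc.1 hp5).2) hsum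
    refine ⟨F, hF1.trans hCc, fun f hf => ?_, fun f hf g hg => ?_, ?_⟩
    · obtain ⟨h1, h2⟩ := hF2 f hf
      exact ⟨by rw [h1]; exact hlp, by rw [h1]; omega, h2.mono (hpow N hNpos)⟩
    · rw [(hF2 f hf).1, (hF2 g hg).1]
    · refine hF3.trans ?_
      have h0 : 0 ≤ (N : ℝ) ^ ε := Real.rpow_nonneg (Nat.cast_nonneg _) _
      nlinarith

end H95.IS
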