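import Pool.Agent.H95.IS.Pell2

/-!
# IS-GAP: solutions of `A x^l - B y^l = D`, `l ≥ 3`, in a box (gap principle)

Let `(x, y) ≠ (x', y')` be solutions. `A (x'^l - x^l) = B (y'^l - y^l)`, so `x < x' ↔ y < y'` and `x = x' ↔ y = y'`.
Let `x < x'`, `y < y'`, `a = x y'`, `b = x' y`. Then `A (a^l - b^l) = D (y'^l - y^l)` (as `A x^l = B y^l + D`), so `a ≠ b`, and
`B (b^l - a^l) = - D (x'^l - x^l)`. For positive integers `a ≠ b`: `|a^l - b^l| ≥ max(a,b)^(l-1)`
(`a^l - (a-1)^l ≥ a^l - (a-1) a^(l-1) = a^(l-1)`). Hence `A (x y')^(l-1) ≤ |D| y'^l`, so `x^(l-1) ≤ |D| y'`, and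
`B (x' y)^(l-1) ≤ |D| x'^l`, so `y^(l-1) ≤ |D| x'`. With `m = max(x,y)`, `m' = max(x',y')`: `m² ≤ m^(l-1) ≤ |D| m'`; if `m > 2|D|` then
`m' > 2 m`. So the numbers `m` of the solutions with `m > 2|D|` are different for different solutions and satisfy the
hypothesis of `dbl`: at most `log 2 M + 1` solutions. The solutions with `m ≤ 2|D|` have `x ≤ 2|D|` and `x` determines `y`:
at most `2|D|`.
-/

set_option autoImplicit false

namespace H95.IS

private theorem gap_pow (a b : ℤ) (hb : 0 ≤ b) (hab : b < a) (n : ℕ) :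
    a ^ n ≤ a ^ (n + 1) - b ^ (n + 1) := by
  have h1 : b ^ n ≤ a ^ n := pow_le_pow_left₀ hb hab.le n
  have h2 : b ^ (n + 1) ≤ a ^ n * (a - 1) := by
    rw [pow_succ]
    exact mul_le_mul h1 (by omega) hb (pow_nonneg (by omega) n)
  have h3 : a ^ (n + 1) = a ^ n * (a - 1) + a ^ n := by
    rw [pow_succ]
    ring
  linarith

private theorem gap_pow2 (a b : ℤ) (ha : 0 ≤ a) (hb : 0 ≤ b) (hab : a ≠ b) (n : ℕ) :
    a ^ n ≤ |a ^ (n + 1) - b ^ (n + 1)| ∧ b ^ n ≤ |a ^ (n + 1) - b ^ (n + 1)| := by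
  rcases lt_or_gt_of_ne hab with h | h
  · have h1 := gap_pow b a ha h n
    have h2 : a ^ n ≤ b ^ n := pow_le_pow_left₀ ha h.le n
    have h3 := neg_le_abs (a ^ (n + 1) - b ^ (n + 1))
    constructor <;> linarith
  · have h1 := gap_pow a b hb h n
    have h2 : b ^ n ≤ a ^ n := pow_le_pow_left₀ hb h.le n
    have h3 := le_abs_self (a ^ (n + 1) - b ^ (n + 1))
    constructor <;> linarith

private theorem gap_key {n : ℕ} (hn : 2 ≤ n) {A B D : ℤ} (hA : 0 < A) (hB : 0 < B) (hD : D ≠ 0)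
    {x y x' y' : ℤ} (hx : 1 ≤ x) (hy : 1 ≤ y) (hy' : 1 ≤ y')
    (h : A * x ^ (n + 1) - B * y ^ (n + 1) = D) (h' : A * x' ^ (n + 1) - B * y' ^ (n + 1) = D)
    (hlt : x < x') : y < y' ∧ max x y ^ 2 ≤ |D| * max x' y' := by
  have hx' : 1 ≤ x' := by omega
  have hpx : x ^ (n + 1) < x' ^ (n + 1) := pow_lt_pow_left₀ hlt (by omega) (by omega)
  have hyy : y < y' := by
    by_contra hcon
    push Not at hcon
    have h1 : y' ^ (n + 1) ≤ y ^ (n + 1) := pow_le_pow_left₀ (by omega) hcon _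
    have h2 : A * x ^ (n + 1) < A * x' ^ (n + 1) := mul_lt_mul_of_pos_left hpx hA
    have h3 : B * y' ^ (n + 1) ≤ B * y ^ (n + 1) := mul_le_mul_of_nonneg_left h1 hB.le
    linarith
  refine ⟨hyy, ?_⟩
  have hpy : y ^ (n + 1) < y' ^ (n + 1) := pow_lt_pow_left₀ hyy (by omega) (by omega)
  have e1 : A * ((x * y') ^ (n + 1) - (x' * y) ^ (n + 1)) = D * (y' ^ (n + 1) - y ^ (n + 1)) := by
    rw [mul_pow, mul_pow]
    linear_combination y' ^ (n + 1) * h - y ^ (n + 1) * h'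
  have e2 : B * ((x * y') ^ (n + 1) - (x' * y) ^ (n + 1)) = D * (x' ^ (n + 1) - x ^ (n + 1)) := by
    rw [mul_pow, mul_pow]
    linear_combination x' ^ (n + 1) * h - x ^ (n + 1) * h'
  have hab : x * y' ≠ x' * y := by
    intro hcon
    rw [hcon, sub_self, mul_zero] at e1
    rcases mul_eq_zero.mp e1.symm with h1 | h1
    · exact hD h1
    · linarith
  have hn1 : (0 : ℤ) ≤ x * y' := mul_nonneg (by omega) (by omega)
  have hn2 : (0 : ℤ) ≤ x' * y := mul_nonneg (by omega) (by omega)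
  obtain ⟨k1, k2⟩ := gap_pow2 (x * y') (x' * y) hn1 hn2 hab n
  have hD0 : 0 ≤ |D| := abs_nonneg D
  have f1 : (x * y') ^ n ≤ |D| * y' ^ (n + 1) := by
    have g1 : |A * ((x * y') ^ (n + 1) - (x' * y) ^ (n + 1))| = |D| * (y' ^ (n + 1) - y ^ (n + 1)) := by
      rw [e1, abs_mul, abs_of_pos (a := y' ^ (n + 1) - y ^ (n + 1)) (by linarith)]
    rw [abs_mul, abs_of_pos hA] at g1
    have g2 : |(x * y') ^ (n + 1) - (x' * y) ^ (n + 1)| ≤
        A * |(x * y') ^ (n + 1) - (x' * y) ^ (n + 1)| :=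
      le_mul_of_one_le_left (abs_nonneg _) (by omega)
    have g3 : |D| * (y' ^ (n + 1) - y ^ (n + 1)) ≤ |D| * y' ^ (n + 1) := by
      apply mul_le_mul_of_nonneg_left _ hD0
      have : 0 ≤ y ^ (n + 1) := pow_nonneg (by omega) _
      linarith
    linarith
  have f2 : (x' * y) ^ n ≤ |D| * x' ^ (n + 1) := by
    have g1 : |B * ((x * y') ^ (n + 1) - (x' * y) ^ (n + 1))| = |D| * (x' ^ (n + 1) - x ^ (n + 1)) := by
      rw [e2, abs_mul, abs_of_pos (a := x' ^ (n + 1) - x ^ (n + 1)) (by linarith)]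
    rw [abs_mul, abs_of_pos hB] at g1
    have g2 : |(x * y') ^ (n + 1) - (x' * y) ^ (n + 1)| ≤
        B * |(x * y') ^ (n + 1) - (x' * y) ^ (n + 1)| :=
      le_mul_of_one_le_left (abs_nonneg _) (by omega)
    have g3 : |D| * (x' ^ (n + 1) - x ^ (n + 1)) ≤ |D| * x' ^ (n + 1) := by
      apply mul_le_mul_of_nonneg_left _ hD0
      have : 0 ≤ x ^ (n + 1) := pow_nonneg (by omega) _
      linarith
    linarith
  have f3 : x ^ n ≤ |D| * y' := by
    rw [mul_pow, pow_succ] at f1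
    have hp : 0 < y' ^ n := pow_pos (by omega) n
    have : x ^ n * y' ^ n ≤ (|D| * y') * y' ^ n := by
      calc x ^ n * y' ^ n ≤ |D| * (y' ^ n * y') := f1
        _ = (|D| * y') * y' ^ n := by ring
    exact le_of_mul_le_mul_right this hp
  have f4 : y ^ n ≤ |D| * x' := by
    rw [mul_pow, pow_succ] at f2
    have hp : 0 < x' ^ n := pow_pos (by omega) n
    have : y ^ n * x' ^ n ≤ (|D| * x') * x' ^ n := by
      calc y ^ n * x' ^ n = x' ^ n * y ^ n := by ring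
        _ ≤ |D| * (x' ^ n * x') := f2
        _ = (|D| * x') * x' ^ n := by ring
    exact le_of_mul_le_mul_right this hp
  rcases le_total x y with hxy | hxy
  · rw [max_eq_right hxy]
    calc y ^ 2 ≤ y ^ n := pow_le_pow_right₀ hy hn
      _ ≤ |D| * x' := f4
      _ ≤ |D| * max x' y' := mul_le_mul_of_nonneg_left (le_max_left _ _) hD0
  · rw [max_eq_left hxy]
    calc x ^ 2 ≤ x ^ n := pow_le_pow_right₀ hx hn
      _ ≤ |D| * y' := f3
      _ ≤ |D| * max x' y' := mul_le_mul_of_nonneg_left (le_max_right _ _) hD0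

theorem gap {l : ℕ} (hl : 3 ≤ l) {A B D : ℤ} (hA : 0 < A) (hB : 0 < B) (hD : D ≠ 0) (M : ℕ) :
    ((Finset.Icc 1 M ×ˢ Finset.Icc 1 M).filter
      (fun x : ℕ × ℕ => A * (x.1 : ℤ) ^ l - B * (x.2 : ℤ) ^ l = D)).card ≤
      2 * D.natAbs + (Nat.log 2 M + 1) := by
  obtain ⟨n, rfl⟩ : ∃ n, l = n + 1 := ⟨l - 1, by omega⟩
  have hn : 2 ≤ n := by omega
  set S := (Finset.Icc 1 M ×ˢ Finset.Icc 1 M).filter
      (fun x : ℕ × ℕ => A * (x.1 : ℤ) ^ (n + 1) - B * (x.2 : ℤ) ^ (n + 1) = D) with hS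
  have hmem : ∀ z ∈ S, 1 ≤ z.1 ∧ z.1 ≤ M ∧ 1 ≤ z.2 ∧ z.2 ≤ M ∧
      A * (z.1 : ℤ) ^ (n + 1) - B * (z.2 : ℤ) ^ (n + 1) = D := by
    intro z hz
    rw [hS, Finset.mem_filter, Finset.mem_product, Finset.mem_Icc, Finset.mem_Icc] at hz
    exact ⟨hz.1.1.1, hz.1.1.2, hz.1.2.1, hz.1.2.2, hz.2⟩
  have key : ∀ z ∈ S, ∀ z' ∈ S, z.1 < z'.1 → z.2 < z'.2 ∧
      max z.1 z.2 ^ 2 ≤ D.natAbs * max z'.1 z'.2 := by
    intro z hz z' hz' hlt
    obtain ⟨a1, a2, a3, a4, a5⟩ := hmem z hz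
    obtain ⟨b1, b2, b3, b4, b5⟩ := hmem z' hz'
    obtain ⟨c1, c2⟩ := gap_key hn hA hB hD (x := (z.1 : ℤ)) (y := (z.2 : ℤ)) (x' := (z'.1 : ℤ))
      (y' := (z'.2 : ℤ)) (by exact_mod_cast a1) (by exact_mod_cast a3) (by exact_mod_cast b3)
      a5 b5 (by exact_mod_cast hlt)
    refine ⟨by exact_mod_cast c1, ?_⟩
    have h1 : |D| = (D.natAbs : ℤ) := (Int.natCast_natAbs D).symm
    rw [h1] at c2
    exact_mod_cast c2
  have hinj1 : ∀ z ∈ S, ∀ z' ∈ S, z.1 = z'.1 → z = z' := by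
    intro z hz z' hz' h
    obtain ⟨a1, a2, a3, a4, a5⟩ := hmem z hz
    obtain ⟨b1, b2, b3, b4, b5⟩ := hmem z' hz'
    have h1 : B * (z.2 : ℤ) ^ (n + 1) = B * (z'.2 : ℤ) ^ (n + 1) := by
      rw [h] at a5
      linarith
    have h2 : (z.2 : ℤ) ^ (n + 1) = (z'.2 : ℤ) ^ (n + 1) := mul_left_cancel₀ hB.ne' h1
    have h3 : z.2 ^ (n + 1) = z'.2 ^ (n + 1) := by exact_mod_cast h2
    have h4 : z.2 = z'.2 := Nat.pow_left_injective (by omega : n + 1 ≠ 0) h3
    exact Prod.ext h h4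
  have hinj2 : ∀ z ∈ S, ∀ z' ∈ S, max z.1 z.2 = max z'.1 z'.2 → z = z' := by
    intro z hz z' hz' h
    rcases lt_trichotomy z.1 z'.1 with h1 | h1 | h1
    · have h2 := (key z hz z' hz' h1).1
      have h3 : max z.1 z.2 < max z'.1 z'.2 := max_lt_max h1 h2
      omega
    · exact hinj1 z hz z' hz' h1
    · have h2 := (key z' hz' z hz h1).1
      have h3 : max z'.1 z'.2 < max z.1 z.2 := max_lt_max h1 h2
      omega
  have hDpos : 0 < D.natAbs := Int.natAbs_pos.mpr hD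
  rw [← Finset.card_filter_add_card_filter_not (s := S) (fun z => max z.1 z.2 ≤ 2 * D.natAbs)]
  apply add_le_add
  · have h1 : ((S.filter (fun z => max z.1 z.2 ≤ 2 * D.natAbs)).image Prod.fst).card =
        (S.filter (fun z => max z.1 z.2 ≤ 2 * D.natAbs)).card := by
      apply Finset.card_image_of_injOn
      intro z hz z' hz' h
      rw [Finset.mem_coe, Finset.mem_filter] at hz hz'
      exact hinj1 z hz.1 z' hz'.1 h
    rw [← h1]
    calc ((S.filter (fun z => max z.1 z.2 ≤ 2 * D.natAbs)).image Prod.fst).card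
        ≤ (Finset.Icc 1 (2 * D.natAbs)).card := by
          apply Finset.card_le_card
          intro x hx
          rw [Finset.mem_image] at hx
          obtain ⟨z, hz, rfl⟩ := hx
          rw [Finset.mem_filter] at hz
          rw [Finset.mem_Icc]
          exact ⟨(hmem z hz.1).1, (le_max_left _ _).trans hz.2⟩
      _ = 2 * D.natAbs := by simp
  · have h1 : ((S.filter (fun z => ¬ max z.1 z.2 ≤ 2 * D.natAbs)).image
        (fun z => max z.1 z.2)).card =
        (S.filter (fun z => ¬ max z.1 z.2 ≤ 2 * D.natAbs)).card := by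
      apply Finset.card_image_of_injOn
      intro z hz z' hz' h
      rw [Finset.mem_coe, Finset.mem_filter] at hz hz'
      exact hinj2 z hz.1 z' hz'.1 h
    rw [← h1]
    apply dbl M
    · intro x hx
      rw [Finset.mem_image] at hx
      obtain ⟨z, hz, rfl⟩ := hx
      rw [Finset.mem_filter] at hz
      obtain ⟨a1, a2, a3, a4, a5⟩ := hmem z hz.1
      exact ⟨a1.trans (le_max_left _ _), max_le a2 a4⟩
    · intro x hx y hy hxy
      rw [Finset.mem_image] at hx hy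
      obtain ⟨z, hz, rfl⟩ := hx
      obtain ⟨z', hz', rfl⟩ := hy
      rw [Finset.mem_filter] at hz hz'
      have hlt : z.1 < z'.1 := by
        rcases lt_trichotomy z.1 z'.1 with h1 | h1 | h1
        · exact h1
        · rw [hinj1 z hz.1 z' hz'.1 h1] at hxy
          exact absurd hxy (lt_irrefl _)
        · have h2 := (key z' hz'.1 z hz.1 h1).1
          have h3 : max z'.1 z'.2 < max z.1 z.2 := max_lt_max h1 h2
          omega
      have h2 := (key z hz.1 z' hz'.1 hlt).2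
      have h3 : 2 * D.natAbs < max z.1 z.2 := not_le.mp hz.2
      have h4 : D.natAbs * (2 * max z.1 z.2) ≤ D.natAbs * max z'.1 z'.2 := by
        calc D.natAbs * (2 * max z.1 z.2) = (2 * D.natAbs) * max z.1 z.2 := by ring
          _ ≤ max z.1 z.2 * max z.1 z.2 := Nat.mul_le_mul_right _ h3.le
          _ = max z.1 z.2 ^ 2 := by ring
          _ ≤ _ := h2
      exact Nat.le_of_mul_le_mul_left h4 hDpos

end H95.IS
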