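import Pool.Agent.H95.IS.Big2b

/-!
# IS-HEAVYN: only boundedly many one-centre types have heavy mass `≥ κ2`

Let `τ = N^(-η1)` and `m` types `T = {(c, σ, j)}` with `w(heavy T) ≥ κ2`.
* For a given `c` there are at most `2 (l-1) ≤ 2l` such types.
* Let `T = {(c,σ,j)}`, `T' = {(c',σ',j')}`, `c ≠ c'`. The classes of a type are disjoint, so at most `1/τ = N^(η1)` of them are heavy. A class
  `{dom T n, fr l (gT T n).toNat = t}` (`gT T n = (Lf c σ n)^j`) is contained in one set `{0 < Lf c σ n, fr l (Lf c σ n).toNat = t₀}` (`fr_pow_cancel`). So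
  `w(heavy T ∩ heavy T') ≤ N^(2 η1) · jb H N · N^(-ε) =: β` (`joint`, `w n ≤ N^(-ε)`), and `β ≤ κ2²/2` for `N ≥ N0` as `2 η1 < ε` (`jb_small` with
  `ξ = (ε - 2 η1)/2`).
* Cauchy-Schwarz with the weights `w` (total mass `1`): `(m κ2)² ≤ (∑_n w n #{T : n ∈ heavy T})² ≤ ∑_n w n #² = ∑_{T,T'} w(heavy T ∩ heavy T')
  ≤ m · 2l + m² β ≤ 2lm + m² κ2²/2`, so `m ≤ 4l/κ2²`.
-/

set_option autoImplicit false
open scoped Classical

namespace H95.IS

private theorem classes_few {l N : ℕ} {w : ℕ → ℝ} {m : ℝ} (hw : Wt N m w)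
    (T : Finset (ℚ × ℤ × ℕ)) (τ : ℝ) :
    (((heavy l N w T τ).image (fun n => fr l (gT T n).toNat)).card : ℝ) * τ ≤ 1 := by
  set A := (heavy l N w T τ).image (fun n => fr l (gT T n).toNat) with hA
  have h1 : ∀ t ∈ A, τ ≤ Wm l N w T t := by
    intro t ht
    rw [hA, Finset.mem_image] at ht
    obtain ⟨n, hn, rfl⟩ := ht
    exact (Finset.mem_filter.1 hn).2.2
  calc (A.card : ℝ) * τ = ∑ t ∈ A, τ := by rw [Finset.sum_const, nsmul_eq_mul]
    _ ≤ ∑ t ∈ A, Wm l N w T t := Finset.sum_le_sum h1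
    _ = ∑ t ∈ A, ∑ n ∈ ((Finset.Icc 1 N).filter (fun n => dom T n)).filter
          (fun n => fr l (gT T n).toNat = t), w n := by
        refine Finset.sum_congr rfl fun t _ => ?_
        unfold Wm
        rw [Finset.filter_filter]
    _ = ∑ n ∈ ((Finset.Icc 1 N).filter (fun n => dom T n)).filter
          (fun n => fr l (gT T n).toNat ∈ A), w n :=
        Finset.sum_fiberwise_eq_sum_filter _ _ _ _
    _ ≤ ∑ n ∈ Finset.Icc 1 N, w n := by
        apply Finset.sum_le_sum_of_subset_of_nonneg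
        · exact (Finset.filter_subset _ _).trans (Finset.filter_subset _ _)
        · intro n _ _
          exact hw.nonneg n
    _ = 1 := hw.sum

private theorem gT_sing (c : ℚ) (σ : ℤ) (j n : ℕ) (h : 0 < Lf c σ n) :
    (gT {(c, σ, j)} n).toNat = (Lf c σ n).toNat ^ j := by
  unfold gT
  rw [Finset.prod_singleton]
  exact Int.toNat_pow_of_nonneg h.le j

private theorem dom_sing (c : ℚ) (σ : ℤ) (j n : ℕ) : dom {(c, σ, j)} n ↔ 0 < Lf c σ n := by
  unfold dom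
  simp

private theorem pair_card {l : ℕ} (hl : l.Prime) {N H : ℕ} {c c' : ℚ} (hc : c ∈ cen H)
    (hc' : c' ∈ cen H) (hne : c ≠ c') {σ σ' : ℤ} (hσ : σ = 1 ∨ σ = -1) (hσ' : σ' = 1 ∨ σ' = -1)
    {j j' : ℕ} (hj : 1 ≤ j) (hj2 : j < l) (hj' : 1 ≤ j') (hj2' : j' < l) (t t' : ℕ) :
    ((Finset.Icc 1 N).filter (fun n => (dom {(c, σ, j)} n ∧
      fr l (gT {(c, σ, j)} n).toNat = t) ∧ (dom {(c', σ', j')} n ∧
      fr l (gT {(c', σ', j')} n).toNat = t'))).card ≤ jb H N := by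
  by_cases h0 : (Finset.Icc 1 N).filter (fun n => (dom {(c, σ, j)} n ∧
      fr l (gT {(c, σ, j)} n).toNat = t) ∧ (dom {(c', σ', j')} n ∧
      fr l (gT {(c', σ', j')} n).toNat = t')) = ∅
  · rw [h0, Finset.card_empty]
    exact Nat.zero_le _
  obtain ⟨n0, hn0⟩ := Finset.nonempty_iff_ne_empty.2 h0
  rw [Finset.mem_filter] at hn0
  obtain ⟨-, ⟨d1, e1⟩, d2, e2⟩ := hn0
  rw [dom_sing] at d1 d2
  rw [gT_sing _ _ _ _ d1] at e1
  rw [gT_sing _ _ _ _ d2] at e2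
  refine (Finset.card_le_card ?_).trans (joint hl.two_le N H hc hc' hne hσ hσ'
    (fr l (Lf c σ n0).toNat) (fr l (Lf c' σ' n0).toNat))
  intro n hn
  rw [Finset.mem_filter] at hn ⊢
  obtain ⟨hn1, ⟨f1, g1⟩, f2, g2⟩ := hn
  rw [dom_sing] at f1 f2
  rw [gT_sing _ _ _ _ f1] at g1
  rw [gT_sing _ _ _ _ f2] at g2
  refine ⟨hn1, ⟨f1, ?_⟩, f2, ?_⟩
  · exact (fr_pow_cancel hl hj hj2 _ _).1 (g1.trans e1.symm)
  · exact (fr_pow_cancel hl hj' hj2' _ _).1 (g2.trans e2.symm)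

private theorem pair_mass {l : ℕ} (hl : l.Prime) {N H : ℕ} {c c' : ℚ} (hc : c ∈ cen H)
    (hc' : c' ∈ cen H) (hne : c ≠ c') {σ σ' : ℤ} (hσ : σ = 1 ∨ σ = -1) (hσ' : σ' = 1 ∨ σ' = -1)
    {j j' : ℕ} (hj : 1 ≤ j) (hj2 : j < l) (hj' : 1 ≤ j') (hj2' : j' < l) {w : ℕ → ℝ} {m τ : ℝ}
    (hm : 0 ≤ m) (hτ : 0 < τ) (hw : Wt N m w) :
    ∑ n ∈ heavy l N w {(c, σ, j)} τ ∩ heavy l N w {(c', σ', j')} τ, w n ≤
      1 / τ ^ 2 * (jb H N * m) := by
  set T : Finset (ℚ × ℤ × ℕ) := {(c, σ, j)} with hT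
  set T' : Finset (ℚ × ℤ × ℕ) := {(c', σ', j')} with hT'
  set A := (heavy l N w T τ).image (fun n => fr l (gT T n).toNat) with hA
  set A' := (heavy l N w T' τ).image (fun n => fr l (gT T' n).toNat) with hA'
  have a1 : (A.card : ℝ) ≤ 1 / τ := by
    rw [le_div_iff₀ hτ]
    exact classes_few hw T τ
  have a2 : (A'.card : ℝ) ≤ 1 / τ := by
    rw [le_div_iff₀ hτ]
    exact classes_few hw T' τ
  have h1 : (heavy l N w T τ ∩ heavy l N w T' τ).card ≤ jb H N * (A ×ˢ A').card := by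
    refine Finset.card_le_mul_card_image_of_maps_to
      (f := fun n => (fr l (gT T n).toNat, fr l (gT T' n).toNat)) ?_ _ ?_
    · intro n hn
      rw [Finset.mem_inter] at hn
      rw [Finset.mem_product]
      exact ⟨Finset.mem_image_of_mem _ hn.1, Finset.mem_image_of_mem _ hn.2⟩
    · rintro ⟨t, t'⟩ -
      refine (Finset.card_le_card ?_).trans
        (pair_card hl hc hc' hne hσ hσ' hj hj2 hj' hj2' t t')
      intro n hn
      rw [Finset.mem_filter, Finset.mem_inter, heavy, heavy, Finset.mem_filter,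
        Finset.mem_filter, Prod.mk.injEq] at hn
      rw [Finset.mem_filter]
      exact ⟨hn.1.1.1, ⟨hn.1.1.2.1, hn.2.1⟩, hn.1.2.2.1, hn.2.2⟩
  rw [Finset.card_product] at h1
  have h2 : ((heavy l N w T τ ∩ heavy l N w T' τ).card : ℝ) ≤ jb H N * (A.card * A'.card) := by
    exact_mod_cast h1
  calc ∑ n ∈ heavy l N w T τ ∩ heavy l N w T' τ, w n
      ≤ ∑ n ∈ heavy l N w T τ ∩ heavy l N w T' τ, m := by
        refine Finset.sum_le_sum fun n hn => hw.le n ?_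
        rw [Finset.mem_inter] at hn
        exact (Finset.mem_filter.1 hn.1).1
    _ = ((heavy l N w T τ ∩ heavy l N w T' τ).card : ℝ) * m := by
        rw [Finset.sum_const, nsmul_eq_mul]
    _ ≤ jb H N * (A.card * A'.card) * m := by gcongr
    _ ≤ jb H N * (1 / τ * (1 / τ)) * m := by gcongr
    _ = 1 / τ ^ 2 * (jb H N * m) := by
        field_simp

private theorem sing_form {l k H : ℕ} {T : Finset (ℚ × ℤ × ℕ)} (hT : T ∈ typs l k H)
    (h1 : T.card = 1) : ∃ c σ j, T = {(c, σ, j)} ∧ c ∈ cen H ∧ (σ = 1 ∨ σ = -1) ∧ 1 ≤ j ∧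
      j < l := by
  obtain ⟨⟨c, σ, j⟩, h⟩ := Finset.card_eq_one.1 h1
  obtain ⟨-, -, -, h4⟩ := mem_typs hT
  obtain ⟨h5, h6, h7, h8⟩ := h4 (c, σ, j) (by rw [h]; exact Finset.mem_singleton_self _)
  exact ⟨c, σ, j, h, h5, h6, h7, h8⟩

/-- the abstract form of the second moment argument -/
private theorem second_moment {ι : Type} (F : Finset ι) (I : Finset ℕ) (w : ℕ → ℝ)
    (hw : ∀ n, 0 ≤ w n) (hs : ∑ n ∈ I, w n = 1) (A : ι → Finset ℕ) (hA : ∀ T ∈ F, A T ⊆ I)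
    (κ : ℝ) (hκ : 0 < κ) (B : ℕ) (hk : ∀ T ∈ F, κ ≤ ∑ n ∈ A T, w n)
    (D : ι → Finset ι) (hD : ∀ T ∈ F, (D T).card ≤ B)
    (hb : ∀ T ∈ F, ∀ T' ∈ F, T' ∉ D T → ∑ n ∈ A T ∩ A T', w n ≤ κ ^ 2 / 2) :
    (F.card : ℝ) ≤ 2 * B / κ ^ 2 := by
  set m : ℝ := (F.card : ℝ) with hm
  have hm0 : 0 ≤ m := Nat.cast_nonneg _
  have e1 : m * κ ≤ ∑ n ∈ I, w n * ((F.filter fun T => n ∈ A T).card : ℝ) := by
    calc m * κ = ∑ T ∈ F, κ := by rw [Finset.sum_const, nsmul_eq_mul]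
      _ ≤ ∑ T ∈ F, ∑ n ∈ A T, w n := Finset.sum_le_sum hk
      _ = ∑ T ∈ F, ∑ n ∈ I, if n ∈ A T then w n else 0 := by
          refine Finset.sum_congr rfl fun T hT => ?_
          rw [← Finset.sum_filter, Finset.filter_mem_eq_inter,
            Finset.inter_eq_right.2 (hA T hT)]
      _ = ∑ n ∈ I, ∑ T ∈ F, if n ∈ A T then w n else 0 := Finset.sum_comm
      _ = _ := by
          refine Finset.sum_congr rfl fun n _ => ?_
          rw [← Finset.sum_filter, Finset.sum_const, nsmul_eq_mul, mul_comm]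
  have e2 : (∑ n ∈ I, w n * ((F.filter fun T => n ∈ A T).card : ℝ)) ^ 2 ≤
      ∑ n ∈ I, w n * ((F.filter fun T => n ∈ A T).card : ℝ) ^ 2 := by
    have h := Finset.sum_mul_sq_le_sq_mul_sq I (fun n => Real.sqrt (w n))
      (fun n => Real.sqrt (w n) * ((F.filter fun T => n ∈ A T).card : ℝ))
    have h1 : ∀ n, Real.sqrt (w n) * (Real.sqrt (w n) *
        ((F.filter fun T => n ∈ A T).card : ℝ)) =
        w n * ((F.filter fun T => n ∈ A T).card : ℝ) := by
      intro n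
      rw [← mul_assoc, Real.mul_self_sqrt (hw n)]
    have h2 : ∀ n, Real.sqrt (w n) ^ 2 = w n := fun n => Real.sq_sqrt (hw n)
    have h3 : ∀ n, (Real.sqrt (w n) * ((F.filter fun T => n ∈ A T).card : ℝ)) ^ 2 =
        w n * ((F.filter fun T => n ∈ A T).card : ℝ) ^ 2 := by
      intro n
      rw [mul_pow, h2]
    simp only [h1, h2, h3, hs, one_mul] at h
    exact h
  have e3 : ∑ n ∈ I, w n * ((F.filter fun T => n ∈ A T).card : ℝ) ^ 2 =
      ∑ T ∈ F, ∑ T' ∈ F, ∑ n ∈ A T ∩ A T', w n := by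
    have h1 : ∀ n ∈ I, w n * ((F.filter fun T => n ∈ A T).card : ℝ) ^ 2 =
        ∑ T ∈ F, ∑ T' ∈ F, if n ∈ A T ∩ A T' then w n else 0 := by
      intro n _
      have h2 : ((F.filter fun T => n ∈ A T).card : ℝ) = ∑ T ∈ F, if n ∈ A T then (1 : ℝ) else 0 := by
        rw [← Finset.sum_filter, Finset.sum_const, nsmul_eq_mul, mul_one]
      rw [pow_two, h2, Finset.sum_mul_sum, Finset.mul_sum]
      refine Finset.sum_congr rfl fun T _ => ?_
      rw [Finset.mul_sum]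
      refine Finset.sum_congr rfl fun T' _ => ?_
      by_cases a : n ∈ A T <;> by_cases b : n ∈ A T' <;> simp [a, b]
    rw [Finset.sum_congr rfl h1, Finset.sum_comm]
    refine Finset.sum_congr rfl fun T hT => ?_
    rw [Finset.sum_comm]
    refine Finset.sum_congr rfl fun T' _ => ?_
    rw [← Finset.sum_filter, Finset.filter_mem_eq_inter,
      Finset.inter_eq_right.2 (Finset.inter_subset_left.trans (hA T hT))]
  have e4 : ∑ T ∈ F, ∑ T' ∈ F, ∑ n ∈ A T ∩ A T', w n ≤ m * (B + m * (κ ^ 2 / 2)) := by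
    have h1 : ∀ T ∈ F, ∑ T' ∈ F, ∑ n ∈ A T ∩ A T', w n ≤ B + m * (κ ^ 2 / 2) := by
      intro T hT
      have h2 : ∀ T' ∈ F, ∑ n ∈ A T ∩ A T', w n ≤
          (if T' ∈ D T then (1 : ℝ) else 0) + κ ^ 2 / 2 := by
        intro T' hT'
        by_cases h3 : T' ∈ D T
        · rw [if_pos h3]
          have h4 : ∑ n ∈ A T ∩ A T', w n ≤ 1 := by
            rw [← hs]
            apply Finset.sum_le_sum_of_subset_of_nonneg
              (Finset.inter_subset_left.trans (hA T hT))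
            intro n _ _
            exact hw n
          have : 0 ≤ κ ^ 2 / 2 := by positivity
          linarith
        · rw [if_neg h3, zero_add]
          exact hb T hT T' hT' h3
      refine (Finset.sum_le_sum h2).trans ?_
      rw [Finset.sum_add_distrib, Finset.sum_const, nsmul_eq_mul, ← Finset.sum_filter,
        Finset.sum_const, nsmul_eq_mul, mul_one]
      have h5 : (F.filter fun T' => T' ∈ D T).card ≤ B := by
        refine (Finset.card_le_card ?_).trans (hD T hT)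
        intro T' hT'
        exact (Finset.mem_filter.1 hT').2
      have h6 : ((F.filter fun T' => T' ∈ D T).card : ℝ) ≤ B := by exact_mod_cast h5
      linarith
    calc _ ≤ ∑ T ∈ F, ((B : ℝ) + m * (κ ^ 2 / 2)) := Finset.sum_le_sum h1
      _ = _ := by rw [Finset.sum_const, nsmul_eq_mul]
  have e5 : (m * κ) ^ 2 ≤ m * (B + m * (κ ^ 2 / 2)) :=
    (pow_le_pow_left₀ (by positivity) e1 2).trans (e2.trans (e3.le.trans e4))
  rw [le_div_iff₀ (by positivity)]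
  rcases hm0.lt_or_eq with h | h
  · have e6 : m * (m * κ ^ 2) ≤ m * (2 * B) := by nlinarith
    exact le_of_mul_le_mul_left e6 h
  · rw [← h, zero_mul]
    positivity

theorem heavy_few {l : ℕ} (hl : l.Prime) (k : ℕ) {ε η1 κ2 : ℝ} (hη1 : 0 < η1)
    (hε : 2 * η1 < ε) (hκ : 0 < κ2) :
    ∃ δ : ℝ, 0 < δ ∧ ∃ N0 : ℕ, ∀ N ≥ N0, ∀ H : ℕ, (H : ℝ) ≤ (N : ℝ) ^ δ →
      ∀ w : ℕ → ℝ, Wt N ((N : ℝ) ^ (-ε)) w →
      (((typs l k H).filter fun T => T.card = 1 ∧
        κ2 ≤ ∑ n ∈ heavy l N w T ((N : ℝ) ^ (-η1)), w n).card : ℝ) ≤ 4 * l / κ2 ^ 2 := by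
  have hξ : 0 < (ε - 2 * η1) / 2 := by linarith
  obtain ⟨δ, hδ, N1, hN1⟩ := jb_small hξ
  have hlim : Filter.Tendsto (fun N : ℕ => (N : ℝ) ^ (-((ε - 2 * η1) / 2))) Filter.atTop
      (nhds 0) := (tendsto_rpow_neg_atTop hξ).comp tendsto_natCast_atTop_atTop
  have hev := hlim.eventually (gt_mem_nhds (show (0 : ℝ) < κ2 ^ 2 / 2 by positivity))
  obtain ⟨N2, hN2⟩ := Filter.eventually_atTop.1 hev
  refine ⟨δ, hδ, max (max N1 N2) 1, fun N hN H hH w hw => ?_⟩
  have hNa : N1 ≤ N := ((le_max_left _ _).trans (le_max_left _ _)).trans hN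
  have hNb : N2 ≤ N := ((le_max_right _ _).trans (le_max_left _ _)).trans hN
  have hNc : 1 ≤ N := (le_max_right _ _).trans hN
  have hN0 : (0 : ℝ) < N := by exact_mod_cast hNc
  have hτ : 0 < (N : ℝ) ^ (-η1) := Real.rpow_pos_of_pos hN0 _
  have hm : 0 < (N : ℝ) ^ (-ε) := Real.rpow_pos_of_pos hN0 _
  have hβ : 1 / ((N : ℝ) ^ (-η1)) ^ 2 * (jb H N * (N : ℝ) ^ (-ε)) ≤ κ2 ^ 2 / 2 := by
    have h1 := hN1 N hNa H hH
    have h2 := (hN2 N hNb).le
    have h3 : 1 / ((N : ℝ) ^ (-η1)) ^ 2 = (N : ℝ) ^ (2 * η1) := by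
      rw [← Real.rpow_natCast, ← Real.rpow_mul hN0.le, one_div, ← Real.rpow_neg hN0.le]
      congr 1
      push_cast
      ring
    rw [h3]
    calc (N : ℝ) ^ (2 * η1) * (jb H N * (N : ℝ) ^ (-ε))
        ≤ (N : ℝ) ^ (2 * η1) * ((N : ℝ) ^ ((ε - 2 * η1) / 2) * (N : ℝ) ^ (-ε)) := by gcongr
      _ = (N : ℝ) ^ (-((ε - 2 * η1) / 2)) := by
          rw [← Real.rpow_add hN0, ← Real.rpow_add hN0]
          congr 1
          ring
      _ ≤ κ2 ^ 2 / 2 := h2
  have hmain := second_moment ((typs l k H).filter fun T => T.card = 1 ∧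
        κ2 ≤ ∑ n ∈ heavy l N w T ((N : ℝ) ^ (-η1)), w n) (Finset.Icc 1 N) w hw.nonneg hw.sum
    (fun T => heavy l N w T ((N : ℝ) ^ (-η1))) (fun T _ => Finset.filter_subset _ _) κ2 hκ
    (2 * l) (fun T hT => (Finset.mem_filter.1 hT).2.2)
    (fun T => (({1, -1} : Finset ℤ) ×ˢ Finset.range l).image
      (fun x => T.image (fun t : ℚ × ℤ × ℕ => (t.1, x.1, x.2)))) ?_ ?_
  · refine hmain.trans (le_of_eq ?_)
    push_cast
    ring
  · intro T _
    refine Finset.card_image_le.trans ?_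
    rw [Finset.card_product, Finset.card_range]
    apply Nat.mul_le_mul_right
    exact Finset.card_le_two
  · intro T hT T' hT' hnot
    rw [Finset.mem_filter] at hT hT'
    obtain ⟨c, σ, j, rfl, hc, hσ, hj, hj2⟩ := sing_form hT.1 hT.2.1
    obtain ⟨c', σ', j', rfl, hc', hσ', hj', hj2'⟩ := sing_form hT'.1 hT'.2.1
    have hne : c ≠ c' := by
      rintro rfl
      apply hnot
      rw [Finset.mem_image]
      refine ⟨(σ', j'), ?_, ?_⟩
      · rw [Finset.mem_product, Finset.mem_range]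
        refine ⟨?_, hj2'⟩
        rcases hσ' with h | h <;> simp [h]
      · simp
    exact (pair_mass hl hc hc' hne hσ hσ' hj hj2 hj' hj2' hm.le hτ hw).trans hβ

end H95.IS
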