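import Pool.Agent.H95.IS.Gap

/-!
# IS-TWOF: solutions of `A x^l - B y^l = D` for all signs and all `l ≥ 2`

* `A, B > 0`: `pell2` (`l = 2`), `gap` (`l ≥ 3`, `2|D| + (L+1) ≤ 4 D² (L+1)` as `|D| ≥ 1`, `L = log 2 M`).
* `A, B < 0`: the equation `(-A) x^l - (-B) y^l = -D`.
* `A > 0 > B`: `A x^l + |B| y^l = D`, so `x ≤ x^l ≤ D` and `x` determines `y` (`|B| y^l = D - A x^l`): at most `|D|` solutions
  (none if `D < 0`). `A < 0 < B`: the same for `-D`.
-/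

set_option autoImplicit false

namespace H95.IS

private theorem twof_pos {l : ℕ} (hl : 2 ≤ l) {A B D : ℤ} (hA : 0 < A) (hB : 0 < B) (hD : D ≠ 0)
    (M : ℕ) :
    ((Finset.Icc 1 M ×ˢ Finset.Icc 1 M).filter
      (fun x : ℕ × ℕ => A * (x.1 : ℤ) ^ l - B * (x.2 : ℤ) ^ l = D)).card ≤
      4 * D.natAbs ^ 2 * (Nat.log 2 M + 1) := by
  have hD1 : 1 ≤ D.natAbs := Int.natAbs_pos.mpr hD
  rcases Nat.lt_or_ge l 3 with h3 | h3
  · have h2 : l = 2 := by omega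
    subst h2
    refine (pell2 hA hB hD M).trans ?_
    apply Nat.mul_le_mul_right
    omega
  · refine (gap h3 hA hB hD M).trans ?_
    set d := D.natAbs
    set L := Nat.log 2 M
    have h4 : d ≤ d ^ 2 := by nlinarith
    have h5 : d ^ 2 ≤ d ^ 2 * (L + 1) := Nat.le_mul_of_pos_right _ (by omega)
    have h6 : L + 1 ≤ d ^ 2 * (L + 1) := Nat.le_mul_of_pos_left _ (by positivity)
    nlinarith

private theorem twof_mix {l : ℕ} (hl : 2 ≤ l) {A B D : ℤ} (hA : 0 < A) (hB : B < 0) (hD : D ≠ 0)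
    (M : ℕ) :
    ((Finset.Icc 1 M ×ˢ Finset.Icc 1 M).filter
      (fun x : ℕ × ℕ => A * (x.1 : ℤ) ^ l - B * (x.2 : ℤ) ^ l = D)).card ≤
      4 * D.natAbs ^ 2 * (Nat.log 2 M + 1) := by
  have hD1 : 1 ≤ D.natAbs := Int.natAbs_pos.mpr hD
  have h1 : ((Finset.Icc 1 M ×ˢ Finset.Icc 1 M).filter
      (fun x : ℕ × ℕ => A * (x.1 : ℤ) ^ l - B * (x.2 : ℤ) ^ l = D)).card ≤
      (Finset.Icc 1 D.natAbs).card := by
    apply Finset.card_le_card_of_injOn Prod.fst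
    · intro x hx
      rw [Finset.mem_coe, Finset.mem_filter, Finset.mem_product, Finset.mem_Icc,
        Finset.mem_Icc] at hx
      obtain ⟨⟨⟨hx1, -⟩, hx2, -⟩, hx3⟩ := hx
      rw [Finset.mem_coe, Finset.mem_Icc]
      refine ⟨hx1, ?_⟩
      have h2 : (1 : ℤ) ≤ (x.1 : ℤ) := by exact_mod_cast hx1
      have h3 : (x.1 : ℤ) ≤ (x.1 : ℤ) ^ l := le_self_pow₀ h2 (by omega)
      have h4 : 0 < (x.2 : ℤ) ^ l := by positivity
      have h5 : 0 < (x.1 : ℤ) ^ l := by positivity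
      have h6 : (x.1 : ℤ) ≤ D := by nlinarith
      omega
    · intro x hx y hy hxy
      rw [Finset.mem_coe, Finset.mem_filter] at hx hy
      have h2 := hx.2
      have h3 := hy.2
      rw [hxy] at h2
      have h4 : B * (x.2 : ℤ) ^ l = B * (y.2 : ℤ) ^ l := by linarith
      have h5 : (x.2 : ℤ) ^ l = (y.2 : ℤ) ^ l := mul_left_cancel₀ hB.ne h4
      have h6 : x.2 ^ l = y.2 ^ l := by exact_mod_cast h5
      exact Prod.ext hxy (Nat.pow_left_injective (n := l) (by omega) h6)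
  rw [Nat.card_Icc, Nat.add_sub_cancel] at h1
  refine h1.trans ?_
  set d := D.natAbs
  have h4 : d ≤ d ^ 2 := by nlinarith
  have h5 : d ^ 2 ≤ d ^ 2 * (Nat.log 2 M + 1) := Nat.le_mul_of_pos_right _ (by omega)
  nlinarith

theorem twof {l : ℕ} (hl : 2 ≤ l) {A B D : ℤ} (hA : A ≠ 0) (hB : B ≠ 0) (hD : D ≠ 0) (M : ℕ) :
    ((Finset.Icc 1 M ×ˢ Finset.Icc 1 M).filter
      (fun x : ℕ × ℕ => A * (x.1 : ℤ) ^ l - B * (x.2 : ℤ) ^ l = D)).card ≤
      4 * D.natAbs ^ 2 * (Nat.log 2 M + 1) := by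
  have hneg : ((Finset.Icc 1 M ×ˢ Finset.Icc 1 M).filter
      (fun x : ℕ × ℕ => A * (x.1 : ℤ) ^ l - B * (x.2 : ℤ) ^ l = D)) =
      ((Finset.Icc 1 M ×ˢ Finset.Icc 1 M).filter
      (fun x : ℕ × ℕ => (-A) * (x.1 : ℤ) ^ l - (-B) * (x.2 : ℤ) ^ l = -D)) := by
    apply Finset.filter_congr
    intro x _
    constructor
    · intro h
      linarith
    · intro h
      linarith
  rcases lt_or_gt_of_ne hA with hA' | hA'
  · rw [hneg, ← Int.natAbs_neg D]
    rcases lt_or_gt_of_ne hB with hB' | hB'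
    · exact twof_pos hl (by omega) (by omega) (by omega) M
    · exact twof_mix hl (by omega) (by omega) (by omega) M
  · rcases lt_or_gt_of_ne hB with hB' | hB'
    · exact twof_mix hl hA' hB' hD M
    · exact twof_pos hl hA' hB' hD M

end H95.IS
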