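import Pool.Agent.H95.IS.Fr
import Pool.Agent.H95.IS.TwoF
import Pool.Agent.H95.IS.Cen

/-!
# IS-JOINT: two classes with different centres have few common elements

Write `a, b` for `num c, den c` and `a', b'` for `num c', den c'`. For `n` in both classes `fr_pow` gives positive `x, y` with
`Lf c σ n = t x^l`, `Lf c' σ' n = t' y^l`, `x, y ≤ 2HN` (`Lf_le`). As `σ² = 1`: `b n - a = σ t x^l`, `b' n - a' = σ' t' y^l`, hence
`b' σ t x^l - b σ' t' y^l = b' (b n - a) - b (b' n - a') = b a' - b' a =: D`, `D ≠ 0` (`det_ne`), `|D| ≤ 2H²` (`det_le`). The map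
`n ↦ (x, y)` is injective (`x` determines `Lf c σ n`, so `n`), and `twof` with `A = b' σ t ≠ 0`, `B = b σ' t' ≠ 0` (`t, t' > 0` by `fr_pos`)
bounds the number of pairs by `4 D² (log 2 (2HN) + 1) ≤ 16 H⁴ (...)`.
-/

set_option autoImplicit false
open scoped Classical

namespace H95.IS

private theorem joint_rep {l : ℕ} (hl : 2 ≤ l) {N H : ℕ} {c : ℚ} (hc : c ∈ cen H) {σ : ℤ}
    (hσ : σ = 1 ∨ σ = -1) {t n : ℕ} (hn : n ∈ Finset.Icc 1 N) (h : 0 < Lf c σ n)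
    (ht : fr l (Lf c σ n).toNat = t) :
    ∃ x : ℕ, 1 ≤ x ∧ x ≤ 2 * H * N ∧ Lf c σ n = (t : ℤ) * (x : ℤ) ^ l := by
  have h1 : (Lf c σ n).toNat ≠ 0 := by
    rw [Ne, Int.toNat_eq_zero]
    omega
  obtain ⟨u, hu, h2⟩ := fr_pow (l := l) (by omega) h1
  rw [ht] at h2
  have h3 : ((Lf c σ n).toNat : ℤ) = Lf c σ n := Int.toNat_of_nonneg h.le
  have h4 := Lf_le hc hσ hn
  rw [abs_of_pos h] at h4
  have ht0 : 0 < t := by
    rw [← ht]
    exact fr_pos _ _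
  refine ⟨u, hu, ?_, ?_⟩
  · have h5 : u ≤ (Lf c σ n).toNat := by
      rw [h2]
      calc u = u ^ 1 := (pow_one u).symm
        _ ≤ u ^ l := Nat.pow_le_pow_right hu (by omega)
        _ ≤ t * u ^ l := Nat.le_mul_of_pos_left _ ht0
    have h6 : ((Lf c σ n).toNat : ℤ) ≤ ((2 * H * N : ℕ) : ℤ) := by
      rw [h3]
      push_cast
      exact h4
    have h7 : (Lf c σ n).toNat ≤ 2 * H * N := by exact_mod_cast h6
    exact h5.trans h7
  · rw [← h3, h2]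
    push_cast
    rfl

theorem joint {l : ℕ} (hl : 2 ≤ l) (N H : ℕ) {c c' : ℚ} (hc : c ∈ cen H) (hc' : c' ∈ cen H)
    (hne : c ≠ c') {σ σ' : ℤ} (hσ : σ = 1 ∨ σ = -1) (hσ' : σ' = 1 ∨ σ' = -1) (t t' : ℕ) :
    ((Finset.Icc 1 N).filter (fun n : ℕ => (0 < Lf c σ n ∧ fr l (Lf c σ n).toNat = t) ∧
      (0 < Lf c' σ' n ∧ fr l (Lf c' σ' n).toNat = t'))).card ≤
      16 * H ^ 4 * (Nat.log 2 (2 * H * N) + 1) := by
  set S := (Finset.Icc 1 N).filter (fun n : ℕ => (0 < Lf c σ n ∧ fr l (Lf c σ n).toNat = t) ∧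
      (0 < Lf c' σ' n ∧ fr l (Lf c' σ' n).toNat = t')) with hS
  rcases S.eq_empty_or_nonempty with hem | ⟨n0, hn0⟩
  · rw [hem, Finset.card_empty]
    exact Nat.zero_le _
  have hmem : ∀ n ∈ S, n ∈ Finset.Icc 1 N ∧ (0 < Lf c σ n ∧ fr l (Lf c σ n).toNat = t) ∧
      (0 < Lf c' σ' n ∧ fr l (Lf c' σ' n).toNat = t') := by
    intro n hn
    rw [hS, Finset.mem_filter] at hn
    exact hn
  have ht0 : 0 < t := by
    rw [← (hmem n0 hn0).2.1.2]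
    exact fr_pos _ _
  have ht0' : 0 < t' := by
    rw [← (hmem n0 hn0).2.2.2]
    exact fr_pos _ _
  have hrep : ∀ n ∈ S, ∃ z : ℕ × ℕ, (1 ≤ z.1 ∧ z.1 ≤ 2 * H * N ∧ Lf c σ n = (t : ℤ) * (z.1 : ℤ) ^ l) ∧
      (1 ≤ z.2 ∧ z.2 ≤ 2 * H * N ∧ Lf c' σ' n = (t' : ℤ) * (z.2 : ℤ) ^ l) := by
    intro n hn
    obtain ⟨h1, h2, h3⟩ := hmem n hn
    obtain ⟨x, hx⟩ := joint_rep hl hc hσ h1 h2.1 h2.2
    obtain ⟨y, hy⟩ := joint_rep hl hc' hσ' h1 h3.1 h3.2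
    exact ⟨(x, y), hx, hy⟩
  choose! f hf using hrep
  have hss : σ * σ = 1 := by rcases hσ with h | h <;> rw [h] <;> norm_num
  have hss' : σ' * σ' = 1 := by rcases hσ' with h | h <;> rw [h] <;> norm_num
  have hσ0 : σ ≠ 0 := by rcases hσ with h | h <;> rw [h] <;> norm_num
  have hσ0' : σ' ≠ 0 := by rcases hσ' with h | h <;> rw [h] <;> norm_num
  have hb : (c.den : ℤ) ≠ 0 := by exact_mod_cast c.den_nz
  have hb' : (c'.den : ℤ) ≠ 0 := by exact_mod_cast c'.den_nz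
  have htz : (t : ℤ) ≠ 0 := by exact_mod_cast ht0.ne'
  have htz' : (t' : ℤ) ≠ 0 := by exact_mod_cast ht0'.ne'
  have hA : (c'.den : ℤ) * σ * t ≠ 0 := mul_ne_zero (mul_ne_zero hb' hσ0) htz
  have hB : (c.den : ℤ) * σ' * t' ≠ 0 := mul_ne_zero (mul_ne_zero hb hσ0') htz'
  have hD := det_ne hne
  have hDle := det_le hc hc'
  have htw := twof hl hA hB hD (2 * H * N)
  have hcard : S.card ≤ ((Finset.Icc 1 (2 * H * N) ×ˢ Finset.Icc 1 (2 * H * N)).filter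
      (fun x : ℕ × ℕ => (c'.den : ℤ) * σ * t * (x.1 : ℤ) ^ l - (c.den : ℤ) * σ' * t' * (x.2 : ℤ) ^ l =
        (c.den : ℤ) * c'.num - (c'.den : ℤ) * c.num)).card := by
    apply Finset.card_le_card_of_injOn f
    · intro n hn
      obtain ⟨⟨h1, h2, h3⟩, h4, h5, h6⟩ := hf n hn
      rw [Finset.mem_coe, Finset.mem_filter, Finset.mem_product, Finset.mem_Icc, Finset.mem_Icc]
      refine ⟨⟨⟨h1, h2⟩, h4, h5⟩, ?_⟩
      unfold Lf at h3 h6
      linear_combination (-(c'.den : ℤ) * σ) * h3 + ((c.den : ℤ) * σ') * h6 +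
        ((c'.den : ℤ) * ((c.den : ℤ) * n - c.num)) * hss -
        ((c.den : ℤ) * ((c'.den : ℤ) * n - c'.num)) * hss'
    · intro n hn n' hn' heq
      obtain ⟨⟨h1, h2, h3⟩, h4, h5, h6⟩ := hf n hn
      obtain ⟨⟨g1, g2, g3⟩, g4, g5, g6⟩ := hf n' hn'
      rw [← heq, ← h3] at g3
      unfold Lf at g3
      have h7 := mul_left_cancel₀ hσ0 g3
      have h8 : (c.den : ℤ) * (n' : ℤ) = (c.den : ℤ) * (n : ℤ) := by linarith
      have h9 := mul_left_cancel₀ hb h8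
      exact_mod_cast h9.symm
  refine hcard.trans (htw.trans ?_)
  apply Nat.mul_le_mul_right
  have h1 : ((c.den : ℤ) * c'.num - (c'.den : ℤ) * c.num).natAbs ≤ 2 * H ^ 2 := by
    rw [← Int.natCast_natAbs] at hDle
    exact_mod_cast hDle
  calc 4 * ((c.den : ℤ) * c'.num - (c'.den : ℤ) * c.num).natAbs ^ 2 ≤ 4 * (2 * H ^ 2) ^ 2 :=
        Nat.mul_le_mul_left _ (Nat.pow_le_pow_left h1 2)
    _ = 16 * H ^ 4 := by ring

end H95.IS
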