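import Pool.Agent.H95.IS.Pos
import Pool.Agent.H95.IS.Cen

/-!
# IS-LIGHT: the light classes contribute little for most primes, for all types at once

Let `lo = N^α`, `M = N^(3 l² k)`, `W = N^(-η1)`, `ρ = N^(-η1/(4(r+1)))` (`≤ 1`). For `T ∈ typs l k H` apply `pos` with `A = light l N w T W`, `G = gT T`
(`gT_pos`, `gT_pow_le`; `H ≤ N^δ ≤ N`): the mass of a class inside `light` is either `0` (heavy class) or `Wm < W`
(`ST S i w A T` is the sum in `pos`, as all `n ∈ A` have `dom T n`). So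
`∑_i (1/p i) ‖ST S i w A T‖² ≤ ρ + P0 C1 ρ^(-2r) W + m0 log₂ M / N^α ≤ N^(-η1/(4(r+1))) + P0 C1 N^(-η1/2) + C N^(-α) log N ≤ N^(-2ξ)`
for some `ξ > 0` and `N ≥ N0` (`P0, C1 ≥ 0` may be assumed: if `Bnd` holds then `P0 ≥ 0` and `C1 ≥ 0`). Sum over `T` (`typs_small` with `ξ`):
`≤ N^(-ξ)`. If `‖ST S i w (light ..) T‖ > θ` for some `T` then `i` contributes at least `θ²/p i` to this sum: the sum in the statement
is `≤ θ^(-2) N^(-ξ) ≤ η` for `N ≥ N0`.
-/

set_option autoImplicit false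
open scoped Classical

namespace H95.IS

/-- the sum in the positivity lemma for one type -/
theorem light_one {l : ℕ} (hl : l.Prime) {k r m0 : ℕ} {α η1 P0 C1 : ℝ} (hα : 0 < α)
    (hη1 : 0 < η1) {N H : ℕ} (hN : 2 ≤ N) (hH : H ≤ N) {hi : ℝ}
    (S : CharSys l ((N : ℝ) ^ α) hi) (hS : S.Bnd (N ^ (3 * l ^ 2 * k)) r m0 P0 C1)
    {m : ℝ} {w : ℕ → ℝ} (hw : Wt N m w) {T : Finset (ℚ × ℤ × ℕ)} (hT : T ∈ typs l k H) :
    ∑ i ∈ S.V, 1 / (S.p i : ℝ) * ‖ST S i w (light l N w T ((N : ℝ) ^ (-η1))) T‖ ^ 2 ≤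
      (N : ℝ) ^ (-(η1 / (4 * (r + 1)))) + P0 * C1 * (N : ℝ) ^ (-(η1 / 2)) +
        m0 * (Nat.log 2 (N ^ (3 * l ^ 2 * k)) : ℝ) / (N : ℝ) ^ α := by
  have hN1 : (1 : ℝ) ≤ N := by exact_mod_cast (by omega : 1 ≤ N)
  have hN0 : (0 : ℝ) < N := by linarith
  set W : ℝ := (N : ℝ) ^ (-η1) with hWdef
  have hW0 : 0 < W := Real.rpow_pos_of_pos hN0 _
  set A := light l N w T W with hA
  have hAsub : A ⊆ Finset.Icc 1 N := Finset.filter_subset _ _
  have hAdom : ∀ n ∈ A, dom T n := fun n hn => (Finset.mem_filter.1 hn).2.1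
  set ρ : ℝ := (N : ℝ) ^ (-(η1 / (4 * (r + 1)))) with hρ
  have hr : (0 : ℝ) < 4 * (r + 1) := by positivity
  have hρ0 : 0 < ρ := Real.rpow_pos_of_pos hN0 _
  have hρ1 : ρ ≤ 1 := Real.rpow_le_one_of_one_le_of_nonpos hN1 (by
    have : 0 < η1 / (4 * (r + 1)) := by positivity
    linarith)
  have hP0 : 0 ≤ P0 := le_trans (Finset.sum_nonneg fun i _ => by positivity) hS.mass
  have hC1 : 0 ≤ C1 := by
    have := hS.count 1 one_pos le_rfl
    rw [one_pow, mul_one] at this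
    exact le_trans (Nat.cast_nonneg _) this
  have h1 := pos hl (Real.one_le_rpow hN1 hα.le) S hS A w (fun n _ => hw.nonneg n) (by
      rw [← hw.sum]
      exact Finset.sum_le_sum_of_subset_of_nonneg hAsub fun n _ _ => hw.nonneg n)
    (gT T) (fun n hn => ⟨gT_pos (hAdom n hn), gT_pow_le hN hH hT (hAsub hn) (hAdom n hn)⟩) W (by
      intro t
      rcases Finset.eq_empty_or_nonempty (A.filter fun n => fr l (gT T n).toNat = t) with h | ⟨n0, h⟩
      · rw [h, Finset.sum_empty]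
        exact hW0.le
      · rw [Finset.mem_filter] at h
        have h2 := (Finset.mem_filter.1 h.1).2.2
        rw [h.2] at h2
        refine le_trans ?_ h2.le
        refine Finset.sum_le_sum_of_subset_of_nonneg ?_ fun n _ _ => hw.nonneg n
        intro n hn
        rw [Finset.mem_filter] at hn
        rw [Finset.mem_filter]
        exact ⟨hAsub hn.1, hAdom n hn.1, hn.2⟩) hρ0 hρ1
  have h2 : ∀ i, ST S i w A T = ∑ n ∈ A, (w n : ℂ) * S.χ i (gT T n) := by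
    intro i
    unfold ST
    rw [Finset.filter_true_of_mem hAdom]
  simp only [h2]
  refine h1.trans ?_
  have h3 : P0 * (C1 / ρ ^ (2 * r)) * W ≤ P0 * C1 * (N : ℝ) ^ (-(η1 / 2)) := by
    have h4 : (N : ℝ) ^ (-(η1 / 2)) ≤ ρ ^ (2 * r) := by
      rw [hρ, ← Real.rpow_natCast, ← Real.rpow_mul hN0.le]
      refine Real.rpow_le_rpow_of_exponent_le hN1 ?_
      push_cast
      have h5 : η1 / (4 * ((r : ℝ) + 1)) * (2 * r) ≤ η1 / 2 := by
        rw [div_mul_eq_mul_div, div_le_div_iff₀ hr (by norm_num)]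
        nlinarith
      linarith
    have h6 : W ≤ (N : ℝ) ^ (-(η1 / 2)) * ρ ^ (2 * r) := by
      refine le_trans ?_ (mul_le_mul_of_nonneg_left h4 (Real.rpow_nonneg hN0.le _))
      rw [← Real.rpow_add hN0]
      refine le_of_eq ?_
      rw [hWdef]
      congr 1
      ring
    have h7 : 0 < ρ ^ (2 * r) := pow_pos hρ0 _
    have h8 : C1 / ρ ^ (2 * r) * W ≤ C1 * (N : ℝ) ^ (-(η1 / 2)) := by
      rw [div_mul_eq_mul_div, div_le_iff₀ h7, mul_assoc]
      exact mul_le_mul_of_nonneg_left h6 hC1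
    calc _ = P0 * (C1 / ρ ^ (2 * r) * W) := by ring
      _ ≤ P0 * (C1 * (N : ℝ) ^ (-(η1 / 2))) := mul_le_mul_of_nonneg_left h8 hP0
      _ = _ := by ring
  linarith

/-- the third term -/
theorem light_log {K m0 : ℕ} {α : ℝ} (hα : 0 < α) {N : ℕ} (hN : 1 ≤ N) :
    m0 * (Nat.log 2 (N ^ K) : ℝ) / (N : ℝ) ^ α ≤
      (m0 * (K * (4 / α) / Real.log 2)) * (N : ℝ) ^ (-(3 / 4 * α)) := by
  have hN1 : (1 : ℝ) ≤ N := by exact_mod_cast hN
  have hN0 : (0 : ℝ) < N := by linarith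
  have h1 : (Nat.log 2 (N ^ K) : ℝ) ≤ Real.logb 2 ((N ^ K : ℕ) : ℝ) := by
    have := Real.natLog_le_logb (N ^ K) 2
    exact_mod_cast this
  have h2 : Real.logb 2 ((N ^ K : ℕ) : ℝ) = K * Real.log N / Real.log 2 := by
    rw [Real.logb, Nat.cast_pow, Real.log_pow]
  have h3 : Real.log N ≤ (N : ℝ) ^ (α / 4) / (α / 4) :=
    Real.log_le_rpow_div hN0.le (by positivity)
  have hl2 : 0 < Real.log 2 := Real.log_pos (by norm_num)
  have h4 : (Nat.log 2 (N ^ K) : ℝ) ≤ K * (4 / α) / Real.log 2 * (N : ℝ) ^ (α / 4) := by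
    rw [h2] at h1
    refine h1.trans ?_
    have h5 : (K : ℝ) * Real.log N ≤ K * ((N : ℝ) ^ (α / 4) / (α / 4)) :=
      mul_le_mul_of_nonneg_left h3 (Nat.cast_nonneg K)
    calc _ ≤ K * ((N : ℝ) ^ (α / 4) / (α / 4)) / Real.log 2 :=
          div_le_div_of_nonneg_right h5 hl2.le
      _ = _ := by field_simp
  have h5 : (N : ℝ) ^ (α / 4) / (N : ℝ) ^ α = (N : ℝ) ^ (-(3 / 4 * α)) := by
    rw [← Real.rpow_sub hN0]
    congr 1
    ring
  calc _ ≤ m0 * (K * (4 / α) / Real.log 2 * (N : ℝ) ^ (α / 4)) / (N : ℝ) ^ α := by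
        refine div_le_div_of_nonneg_right ?_ (Real.rpow_nonneg hN0.le _)
        exact mul_le_mul_of_nonneg_left h4 (Nat.cast_nonneg _)
    _ = (m0 * (K * (4 / α) / Real.log 2)) * ((N : ℝ) ^ (α / 4) / (N : ℝ) ^ α) := by ring
    _ = _ := by rw [h5]

theorem light_small {l : ℕ} (hl : l.Prime) (k r m0 : ℕ) {α η1 θ η : ℝ} (P0 C1 : ℝ) (hα : 0 < α)
    (hη1 : 0 < η1) (hθ : 0 < θ) (hη : 0 < η) :
    ∃ δ : ℝ, 0 < δ ∧ ∃ N0 : ℕ, ∀ N ≥ N0, ∀ H : ℕ, (H : ℝ) ≤ (N : ℝ) ^ δ →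
      ∀ (hi : ℝ) (S : CharSys l ((N : ℝ) ^ α) hi), S.Bnd (N ^ (3 * l ^ 2 * k)) r m0 P0 C1 →
      ∀ (m : ℝ) (w : ℕ → ℝ), Wt N m w →
      ∑ i ∈ S.V.filter (fun i => ∃ T ∈ typs l k H,
        θ < ‖ST S i w (light l N w T ((N : ℝ) ^ (-η1))) T‖), (1 : ℝ) / S.p i ≤ η := by
  set a : ℝ := η1 / (4 * (r + 1)) with ha
  have ha0 : 0 < a := by positivity
  have hale : a ≤ η1 / 4 := by
    rw [ha]
    refine div_le_div_of_nonneg_left hη1.le (by norm_num) ?_
    have : (0 : ℝ) ≤ r := Nat.cast_nonneg r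
    linarith
  set ξ : ℝ := min (a / 2) (α / 4) with hξ
  have hξ0 : 0 < ξ := lt_min (by positivity) (by positivity)
  have hξa : ξ ≤ a / 2 := min_le_left _ _
  have hξα : ξ ≤ α / 4 := min_le_right _ _
  obtain ⟨δ1, hδ1, N1, hN1⟩ := typs_small l k hξ0
  set C3 : ℝ := m0 * (((3 * l ^ 2 * k : ℕ) : ℝ) * (4 / α) / Real.log 2) with hC3
  -- the bound tends to 0
  have ht : Filter.Tendsto (fun x : ℝ => x ^ (-(a - ξ)) + P0 * C1 * x ^ (-(η1 / 2 - ξ)) +
      C3 * x ^ (-(3 / 4 * α - ξ))) Filter.atTop (nhds (0 + P0 * C1 * 0 + C3 * 0)) := by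
    refine ((tendsto_rpow_neg_atTop (by linarith)).add
      ((tendsto_rpow_neg_atTop (by linarith)).const_mul _)).add
      ((tendsto_rpow_neg_atTop (by linarith)).const_mul _)
  rw [mul_zero, mul_zero, add_zero, add_zero] at ht
  have hpos : 0 < η * θ ^ 2 := by positivity
  have hev := (ht.comp tendsto_natCast_atTop_atTop).eventually (gt_mem_nhds hpos)
  obtain ⟨N2, hN2⟩ := Filter.eventually_atTop.1 hev
  refine ⟨min δ1 1, lt_min hδ1 one_pos, max (max N1 N2) 2, ?_⟩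
  intro N hN H hH hi S hS m w hw
  have hNN1 : N1 ≤ N := le_trans (le_trans (le_max_left _ _) (le_max_left _ _)) hN
  have hNN2 : N2 ≤ N := le_trans (le_trans (le_max_right _ _) (le_max_left _ _)) hN
  have hN2' : 2 ≤ N := le_trans (le_max_right _ _) hN
  have hNr : (1 : ℝ) ≤ N := by exact_mod_cast (by omega : 1 ≤ N)
  have hN0 : (0 : ℝ) < N := by linarith
  have hH1 : (H : ℝ) ≤ (N : ℝ) ^ δ1 :=
    hH.trans (Real.rpow_le_rpow_of_exponent_le hNr (min_le_left _ _))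
  have hH2 : H ≤ N := by
    have := hH.trans (Real.rpow_le_rpow_of_exponent_le hNr (min_le_right δ1 1))
    rw [Real.rpow_one] at this
    exact_mod_cast this
  have hcard := hN1 N hNN1 H hH1
  set A := fun T => light l N w T ((N : ℝ) ^ (-η1)) with hA
  set E : ℝ := (N : ℝ) ^ (-a) + P0 * C1 * (N : ℝ) ^ (-(η1 / 2)) +
    C3 * (N : ℝ) ^ (-(3 / 4 * α)) with hE
  have hone : ∀ T ∈ typs l k H, ∑ i ∈ S.V, 1 / (S.p i : ℝ) * ‖ST S i w (A T) T‖ ^ 2 ≤ E := by
    intro T hT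
    have h1 := light_one hl hα hη1 hN2' hH2 S hS hw hT
    have h2 := light_log (K := 3 * l ^ 2 * k) (m0 := m0) hα (N := N) (by omega)
    refine h1.trans ?_
    rw [hE]
    exact add_le_add le_rfl h2
  have hE0 : 0 ≤ E := by
    have hP0 : 0 ≤ P0 := le_trans (Finset.sum_nonneg fun i _ => by positivity) hS.mass
    have hC1 : 0 ≤ C1 := by
      have := hS.count 1 one_pos le_rfl
      rw [one_pow, mul_one] at this
      exact le_trans (Nat.cast_nonneg _) this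
    have hl2 : 0 < Real.log 2 := Real.log_pos (by norm_num)
    positivity
  have hfin : (N : ℝ) ^ ξ * E < η * θ ^ 2 := by
    have h1 := hN2 N hNN2
    simp only [Function.comp_apply] at h1
    refine lt_of_le_of_lt (le_of_eq ?_) h1
    rw [hE, mul_add, mul_add]
    congr 1
    · congr 1
      · rw [← Real.rpow_add hN0]
        congr 1
        ring
      · rw [← mul_assoc, mul_comm ((N : ℝ) ^ ξ), mul_assoc, ← Real.rpow_add hN0]
        congr 2
        ring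
    · rw [← mul_assoc, mul_comm ((N : ℝ) ^ ξ), mul_assoc, ← Real.rpow_add hN0]
      congr 2
      ring
  -- the sum
  have hterm : ∀ i ∈ S.V.filter (fun i => ∃ T ∈ typs l k H, θ < ‖ST S i w (A T) T‖),
      (1 : ℝ) / S.p i * θ ^ 2 ≤ ∑ T ∈ typs l k H, 1 / (S.p i : ℝ) * ‖ST S i w (A T) T‖ ^ 2 := by
    intro i hi
    obtain ⟨-, T, hT, hθT⟩ := Finset.mem_filter.1 hi
    refine le_trans ?_ (Finset.single_le_sum (f := fun T =>
      1 / (S.p i : ℝ) * ‖ST S i w (A T) T‖ ^ 2) (fun T _ => by positivity) hT)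
    refine mul_le_mul_of_nonneg_left ?_ (by positivity)
    exact pow_le_pow_left₀ hθ.le hθT.le 2
  have h1 : (∑ i ∈ S.V.filter (fun i => ∃ T ∈ typs l k H, θ < ‖ST S i w (A T) T‖),
      (1 : ℝ) / S.p i) * θ ^ 2 ≤ (N : ℝ) ^ ξ * E := by
    rw [Finset.sum_mul]
    refine (Finset.sum_le_sum hterm).trans ?_
    refine (Finset.sum_le_sum_of_subset_of_nonneg (Finset.filter_subset _ _) fun i _ _ =>
      Finset.sum_nonneg fun T _ => by positivity).trans ?_
    rw [Finset.sum_comm]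
    refine (Finset.sum_le_sum hone).trans ?_
    rw [Finset.sum_const, nsmul_eq_mul]
    exact mul_le_mul_of_nonneg_right hcard hE0
  have h2 : 0 < θ ^ 2 := by positivity
  have h3 := h1.trans hfin.le
  exact le_of_mul_le_mul_right h3 h2

end H95.IS
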