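import Pool.Agent.H95.IS.Cen

/-!
# IS-LOC: a sparse cell gives a large character sum

Notation `p = S.p i`, `χ = S.χ i`. For `c ∈ Sc` choose an integer `m c` with `(m c : ZMod p) = θ c`, `p ∤ m c`, and `ϑ c = χ (m c)`, a
root of unity of order dividing `l`. If `p ∤ Lf c 1 n` then the condition of `inCell` at `c` is `χ (Lf c 1 n) = ϑ c`
(`CharSys.ker`; `(Lf c 1 n : ZMod p) = den · n - num`). If `p ∣ Lf c 1 n` then the condition of `inCell` at `c` fails.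
For `z ∈ ℂ` with `z^l = 1` or `z = 0` put `e_c(z) = (1/l) ∑_{j<l} (conj (ϑ c) z)^j` (`0^0 = 1`): it is `1` if `z = ϑ c`, `0` if
`z^l = 1`, `z ≠ ϑ c` (geometric sum), `1/l` if `z = 0`; always `|e_c| ≤ 1`. Let `Bad` be the set of `n ∈ [N]` with `p ∣ Lf c 1 n` for some
`c ∈ Sc`. Then `∏_c e_c(χ(Lf c 1 n))` is the indicator of `inCell` for `n ∉ Bad`, so
`|∑_n w n ∏_c e_c| ≤ w(cell) + w(Bad)`. Multiply by `l^{|Sc|}` and expand the product
(`Finset.prod_sum` or `Finset.prod_univ_sum`): `l^{|Sc|} ∑_n w n ∏ e_c = ∑_j (∏_c conj(ϑ c)^{j c}) S_j`, `S_j = ∑_n w n ∏_c χ(Lf c 1 n)^{j c}`, over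
all `j : Sc → {0..l-1}`; `S_0 = 1`. So `1 - ∑_{j ≠ 0} |S_j| ≤ (1 - κ) + κ/2`, i.e. `∑_{j≠0} |S_j| ≥ κ/2`, and there are at most
`l^k` of them.
(`Sc = ∅` is impossible: then the cell is everything and `1 ≤ 1 - κ`.)
-/

set_option autoImplicit false
open scoped Classical

namespace H95.IS

private theorem loc_geom {l : ℕ} (z : ℂ) (hz : z ^ l = 1) (hne : z ≠ 1) :
    ∑ j ∈ Finset.range l, z ^ j = 0 := by
  have h1 := geom_sum_mul z l
  rw [hz, sub_self] at h1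
  exact (mul_eq_zero.1 h1).resolve_right (sub_ne_zero.2 hne)

private theorem loc_norm {l : ℕ} (z : ℂ) (hz : ‖z‖ ≤ 1) :
    ‖∑ j ∈ Finset.range l, z ^ j‖ ≤ l := by
  refine (norm_sum_le _ _).trans ?_
  calc ∑ j ∈ Finset.range l, ‖z ^ j‖ ≤ ∑ j ∈ Finset.range l, (1 : ℝ) := by
        apply Finset.sum_le_sum
        intro j _
        rw [norm_pow]
        exact pow_le_one₀ (norm_nonneg _) hz
    _ = l := by simp

theorem loc {l k : ℕ} (hl : l.Prime) {lo hi : ℝ} (S : CharSys l lo hi) {i : S.ι}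
    (hiV : i ∈ S.V) {N : ℕ} {κ m : ℝ} (hκ : 0 < κ) (w : ℕ → ℝ) (hw : Wt N m w)
    (Sc : Finset ℚ) (θ : ℚ → ZMod (S.p i)) (hk : Sc.card ≤ k) (hθ : ∀ c ∈ Sc, θ c ≠ 0)
    (hcell : (l : ℝ) ^ Sc.card *
      ∑ n ∈ (Finset.Icc 1 N).filter (fun n => inCell l (S.p i) Sc θ n), w n ≤ 1 - κ)
    (hbad : (l : ℝ) ^ k * ∑ n ∈ (Finset.Icc 1 N).filter
      (fun n : ℕ => ∃ c ∈ Sc, ((S.p i : ℕ) : ℤ) ∣ Lf c 1 n), w n ≤ κ / 2) :
    ∃ j : ℚ → ℕ, (∀ c ∈ Sc, j c < l) ∧ (∃ c ∈ Sc, j c ≠ 0) ∧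
      κ / (2 * (l : ℝ) ^ k) ≤
        ‖∑ n ∈ Finset.Icc 1 N, (w n : ℂ) * ∏ c ∈ Sc, S.χ i (Lf c 1 n) ^ j c‖ := by
  classical
  have hp : (S.p i).Prime := S.prime i hiV
  have : Fact (S.p i).Prime := ⟨hp⟩
  have hl0 : 0 < l := hl.pos
  have hl0' : l ≠ 0 := hl0.ne'
  obtain ⟨mc, hmcd⟩ : ∃ mc : ℚ → ℤ, ∀ c, mc c = ((θ c).val : ℤ) := ⟨_, fun _ => rfl⟩
  have hmc : ∀ c, ((mc c : ℤ) : ZMod (S.p i)) = θ c := by
    intro c
    rw [hmcd, Int.cast_natCast]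
    exact ZMod.natCast_zmod_val _
  have hmd : ∀ c ∈ Sc, ¬ ((S.p i : ℕ) : ℤ) ∣ mc c := by
    intro c hc h
    apply hθ c hc
    rw [← hmc c]
    exact (ZMod.intCast_zmod_eq_zero_iff_dvd (mc c) (S.p i)).2 h
  obtain ⟨a, had⟩ : ∃ a : ℚ → ℂ, ∀ c, a c = (S.χ i (mc c))⁻¹ := ⟨_, fun _ => rfl⟩
  have hϑ : ∀ c ∈ Sc, S.χ i (mc c) ^ l = 1 := fun c hc => S.pow i hiV _ (hmd c hc)
  have hϑ0 : ∀ c ∈ Sc, S.χ i (mc c) ≠ 0 := by
    intro c hc h0
    have h1 := hϑ c hc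
    rw [h0, zero_pow hl0'] at h1
    exact zero_ne_one h1
  have hal : ∀ c ∈ Sc, a c ^ l = 1 := by
    intro c hc
    rw [had, inv_pow, hϑ c hc, inv_one]
  have han : ∀ c ∈ Sc, ‖a c‖ = 1 := fun c hc => Complex.norm_eq_one_of_pow_eq_one (hal c hc) hl0'
  have hχn : ∀ x : ℤ, ‖S.χ i x‖ ≤ 1 := by
    intro x
    by_cases hx : ((S.p i : ℕ) : ℤ) ∣ x
    · rw [S.zero i hiV x hx, norm_zero]
      exact zero_le_one
    · exact (Complex.norm_eq_one_of_pow_eq_one (S.pow i hiV x hx) hl0').le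
  obtain ⟨J, hJ⟩ : ∃ J : ℕ → ℂ, ∀ n, J n =
      ∏ c ∈ Sc, ∑ j ∈ Finset.range l, (a c * S.χ i (Lf c 1 n)) ^ j := ⟨_, fun _ => rfl⟩
  have hJn : ∀ n, ‖J n‖ ≤ (l : ℝ) ^ Sc.card := by
    intro n
    rw [hJ, norm_prod]
    calc ∏ c ∈ Sc, ‖∑ j ∈ Finset.range l, (a c * S.χ i (Lf c 1 n)) ^ j‖
        ≤ ∏ c ∈ Sc, (l : ℝ) := by
          apply Finset.prod_le_prod
          · intro c _
            exact norm_nonneg _
          · intro c hc
            apply loc_norm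
            rw [norm_mul, han c hc, one_mul]
            exact hχn _
      _ = (l : ℝ) ^ Sc.card := by rw [Finset.prod_const]
  have hJ0 : ∀ n, ¬ (∃ c ∈ Sc, ((S.p i : ℕ) : ℤ) ∣ Lf c 1 n) → ¬ inCell l (S.p i) Sc θ n →
      J n = 0 := by
    intro n hb hc
    unfold inCell at hc
    simp only [not_forall] at hc
    obtain ⟨c, hcS, hcn⟩ := hc
    rw [hJ]
    apply Finset.prod_eq_zero hcS
    have hpd : ¬ ((S.p i : ℕ) : ℤ) ∣ Lf c 1 n := fun h => hb ⟨c, hcS, h⟩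
    apply loc_geom
    · rw [mul_pow, hal c hcS, S.pow i hiV _ hpd, one_mul]
    · intro h1
      apply hcn
      have h2 : S.χ i (Lf c 1 n) = S.χ i (mc c) := by
        rw [had] at h1
        have h3 := hϑ0 c hcS
        field_simp at h1
        exact h1
      obtain ⟨u, hu0, hu⟩ := (S.ker i hiV _ _ hpd (hmd c hcS)).1 h2
      refine ⟨u, hu0, ?_⟩
      rw [hmc] at hu
      rw [← hu]
      unfold Lf
      push_cast
      ring
  have hwn := hw.nonneg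
  -- the upper bound
  have hup : ‖∑ n ∈ Finset.Icc 1 N, (w n : ℂ) * J n‖ ≤ 1 - κ / 2 := by
    have h1 : ‖∑ n ∈ Finset.Icc 1 N, (w n : ℂ) * J n‖ ≤ ∑ n ∈ Finset.Icc 1 N,
        ((if inCell l (S.p i) Sc θ n then w n else 0) +
        (if (∃ c ∈ Sc, ((S.p i : ℕ) : ℤ) ∣ Lf c 1 n) then w n else 0)) * (l : ℝ) ^ Sc.card := by
      refine (norm_sum_le _ _).trans ?_
      apply Finset.sum_le_sum
      intro n _
      rw [norm_mul, Complex.norm_real, Real.norm_of_nonneg (hwn n)]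
      have hln : (0 : ℝ) ≤ (l : ℝ) ^ Sc.card := by positivity
      by_cases hb : ∃ c ∈ Sc, ((S.p i : ℕ) : ℤ) ∣ Lf c 1 n
      · rw [if_pos hb]
        have h2 : w n * ‖J n‖ ≤ w n * (l : ℝ) ^ Sc.card :=
          mul_le_mul_of_nonneg_left (hJn n) (hwn n)
        have h3 : 0 ≤ (if inCell l (S.p i) Sc θ n then w n else 0) := by
          split_ifs
          · exact hwn n
          · exact le_refl _
        nlinarith [mul_nonneg h3 hln]
      · rw [if_neg hb, add_zero]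
        by_cases hc : inCell l (S.p i) Sc θ n
        · rw [if_pos hc]
          exact mul_le_mul_of_nonneg_left (hJn n) (hwn n)
        · rw [if_neg hc, hJ0 n hb hc, norm_zero, mul_zero, zero_mul]
    refine h1.trans ?_
    rw [← Finset.sum_mul, Finset.sum_add_distrib, ← Finset.sum_filter, ← Finset.sum_filter]
    have hlk : (l : ℝ) ^ Sc.card ≤ (l : ℝ) ^ k :=
      pow_le_pow_right₀ (by exact_mod_cast hl.one_le) hk
    have hbn : 0 ≤ ∑ n ∈ (Finset.Icc 1 N).filter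
        (fun n : ℕ => ∃ c ∈ Sc, ((S.p i : ℕ) : ℤ) ∣ Lf c 1 n), w n :=
      Finset.sum_nonneg fun n _ => hwn n
    have h4 := mul_le_mul_of_nonneg_right hlk hbn
    linarith
  -- the expansion
  obtain ⟨X, hX⟩ : ∃ X : Finset (Sc → ℕ), X = Fintype.piFinset (fun _ : Sc => Finset.range l) :=
    ⟨_, rfl⟩
  obtain ⟨T, hT⟩ : ∃ T : (Sc → ℕ) → ℂ, ∀ x, T x = ∑ n ∈ Finset.Icc 1 N,
      (w n : ℂ) * ∏ c : Sc, S.χ i (Lf c 1 n) ^ x c := ⟨_, fun _ => rfl⟩
  have hexp : ∑ n ∈ Finset.Icc 1 N, (w n : ℂ) * J n =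
      ∑ x ∈ X, (∏ c : Sc, a c ^ x c) * T x := by
    have h1 : ∀ n, J n = ∑ x ∈ X, (∏ c : Sc, a c ^ x c) *
        ∏ c : Sc, S.χ i (Lf c 1 n) ^ x c := by
      intro n
      rw [hJ, hX, ← Finset.prod_coe_sort Sc
        (fun c => ∑ j ∈ Finset.range l, (a c * S.χ i (Lf c 1 n)) ^ j), Finset.prod_univ_sum]
      refine Finset.sum_congr rfl fun x _ => ?_
      rw [← Finset.prod_mul_distrib]
      exact Finset.prod_congr rfl fun c _ => mul_pow _ _ _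
    calc ∑ n ∈ Finset.Icc 1 N, (w n : ℂ) * J n
        = ∑ n ∈ Finset.Icc 1 N, ∑ x ∈ X, (∏ c : Sc, a c ^ x c) *
            ((w n : ℂ) * ∏ c : Sc, S.χ i (Lf c 1 n) ^ x c) := by
          refine Finset.sum_congr rfl fun n _ => ?_
          rw [h1, Finset.mul_sum]
          refine Finset.sum_congr rfl fun x _ => ?_
          ring
      _ = ∑ x ∈ X, (∏ c : Sc, a c ^ x c) * T x := by
          rw [Finset.sum_comm]
          refine Finset.sum_congr rfl fun x _ => ?_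
          rw [← Finset.mul_sum, hT]
  have hXc : X.card = l ^ Sc.card := by
    rw [hX, Fintype.card_piFinset]
    simp
  have h0X : (fun _ => 0 : Sc → ℕ) ∈ X := by
    rw [hX, Fintype.mem_piFinset]
    intro c
    exact Finset.mem_range.2 hl0
  have hT0 : T (fun _ => 0) = 1 := by
    rw [hT]
    have h1 : ∀ n ∈ Finset.Icc 1 N, (w n : ℂ) * ∏ c : Sc, S.χ i (Lf c 1 n) ^ 0 = (w n : ℂ) := by
      intro n _
      simp
    rw [Finset.sum_congr rfl h1, ← Complex.ofReal_sum, hw.sum, Complex.ofReal_one]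
  have hane : ∀ x : Sc → ℕ, ‖∏ c : Sc, a c ^ x c‖ = 1 := by
    intro x
    rw [norm_prod]
    apply Finset.prod_eq_one
    intro c _
    rw [norm_pow, han c.1 c.2, one_pow]
  have hlk0 : (0 : ℝ) < (l : ℝ) ^ k := by
    have : (0 : ℝ) < l := by exact_mod_cast hl0
    positivity
  -- existence of a large sum
  have hex : ∃ x ∈ X, x ≠ (fun _ => 0) ∧ κ / (2 * (l : ℝ) ^ k) ≤ ‖T x‖ := by
    by_contra hcon
    have hlt : ∀ x ∈ X.erase (fun _ => 0), ‖T x‖ ≤ κ / (2 * (l : ℝ) ^ k) := by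
      intro x hx
      rw [Finset.mem_erase] at hx
      by_contra h
      exact hcon ⟨x, hx.2, hx.1, (not_le.1 h).le⟩
    have h1 : ∑ x ∈ X, (∏ c : Sc, a c ^ x c) * T x =
        1 + ∑ x ∈ X.erase (fun _ => 0), (∏ c : Sc, a c ^ x c) * T x := by
      rw [← Finset.add_sum_erase X _ h0X, hT0]
      simp
    have h2 : ‖∑ x ∈ X.erase (fun _ => 0), (∏ c : Sc, a c ^ x c) * T x‖ ≤
        ((l : ℝ) ^ Sc.card - 1) * (κ / (2 * (l : ℝ) ^ k)) := by
      refine (norm_sum_le _ _).trans ?_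
      calc ∑ x ∈ X.erase (fun _ => 0), ‖(∏ c : Sc, a c ^ x c) * T x‖
          ≤ ∑ x ∈ X.erase (fun _ => 0), κ / (2 * (l : ℝ) ^ k) := by
            apply Finset.sum_le_sum
            intro x hx
            rw [norm_mul, hane, one_mul]
            exact hlt x hx
        _ = ((l : ℝ) ^ Sc.card - 1) * (κ / (2 * (l : ℝ) ^ k)) := by
            rw [Finset.sum_const, nsmul_eq_mul, Finset.card_erase_of_mem h0X, hXc,
              Nat.cast_sub (Nat.one_le_pow _ _ hl0)]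
            push_cast
            ring
    have h3 : ((l : ℝ) ^ Sc.card - 1) * (κ / (2 * (l : ℝ) ^ k)) < κ / 2 := by
      have h4 : (l : ℝ) ^ Sc.card ≤ (l : ℝ) ^ k :=
        pow_le_pow_right₀ (by exact_mod_cast hl.one_le) hk
      have h5 : κ / 2 = (l : ℝ) ^ k * (κ / (2 * (l : ℝ) ^ k)) := by
        field_simp
      rw [h5]
      apply mul_lt_mul_of_pos_right _ (by positivity)
      linarith
    have h6 : (1 : ℝ) ≤ ‖∑ n ∈ Finset.Icc 1 N, (w n : ℂ) * J n‖ +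
        ‖∑ x ∈ X.erase (fun _ => 0), (∏ c : Sc, a c ^ x c) * T x‖ := by
      rw [hexp, h1]
      have h7 : (1 : ℂ) = (1 + ∑ x ∈ X.erase (fun _ => 0), (∏ c : Sc, a c ^ x c) * T x) -
          ∑ x ∈ X.erase (fun _ => 0), (∏ c : Sc, a c ^ x c) * T x := by ring
      have h8 := norm_sub_le (1 + ∑ x ∈ X.erase (fun _ => 0), (∏ c : Sc, a c ^ x c) * T x)
        (∑ x ∈ X.erase (fun _ => 0), (∏ c : Sc, a c ^ x c) * T x)
      rw [← h7, norm_one] at h8
      exact h8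
    linarith
  obtain ⟨x, hxX, hx0, hxT⟩ := hex
  rw [hX, Fintype.mem_piFinset] at hxX
  obtain ⟨c0, hc0⟩ : ∃ c : Sc, x c ≠ 0 := by
    by_contra hcon
    apply hx0
    funext c
    by_contra h
    exact hcon ⟨c, h⟩
  refine ⟨fun c => if h : c ∈ Sc then x ⟨c, h⟩ else 0, ?_, ⟨c0.1, c0.2, ?_⟩, ?_⟩
  · intro c hc
    have h1 := Finset.mem_range.1 (hxX ⟨c, hc⟩)
    simp only [hc, dif_pos]
    exact h1
  · simp only [c0.2, dif_pos]
    exact hc0
  · refine hxT.trans (le_of_eq ?_)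
    rw [hT]
    congr 1
    refine Finset.sum_congr rfl fun n _ => ?_
    congr 1
    rw [← Finset.prod_coe_sort Sc]
    refine Finset.prod_congr rfl fun c _ => ?_
    simp only [c.2, dif_pos]

end H95.IS
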