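import Pool.Agent.H95.IS.Maj

/-!
# IS-LS: the large sieve inequality on rough ideals, weights `1/N I`

`Pair F S χ`: the hypothesis on pairs. Let `i₀ = ⌊log₂ Y0⌋`, `i₁ = ⌊log₂ Y1⌋` (`Nat.log 2 ⌊Y⌋₊` or `Nat.floor (Real.logb 2 Y)`), `lam` from `maj`. For `I ∈ J` let
`2^i ≤ N I < 2^(i+1)`, `i₀ ≤ i ≤ i₁`: then `1/N I ≤ 2^(-i)`, `I ∈ IN K (2^(i+1))` and `sw(I)² = 1`. So
`∑_{I∈J} (1/N I) ‖∑_s b s χ s I‖² ≤ ∑_{i=i₀}^{i₁} 2^(-i) ∑_{I ∈ IN (2^(i+1))} sw(I)² ‖∑_s b s χ s I‖²`. Expand the square: the diagonal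
terms contribute at most `∑_s |b s|² ∑_i 2^(-i) ∑_{IN(2^(i+1))} sw²`, the terms `s ≠ s'` at most
`(∑_s |b s|)² ∑_i 2^(-i) C z² F^A 2^((i+1)(1-δ))` (`maj` for the `ψ` of the pair: `b s conj(b s') χ s I conj(χ s' I)`; `A ≥ 0`), and
`(∑_s |b s|)² ≤ #S ∑_s |b s|²`. `∑_{i ≥ i₀} 2^(-i) 2^((i+1)(1-δ)) ≤ C' 2^(-i₀ δ) ≤ C'' Y0^(-δ)` (`2^(i₀+1) > Y0`),
`∑_{i=i₀}^{i₁} 2^(-i) 2^(i+1)/log z = 2 (i₁-i₀+1)/log z ≤ C''' (1 + log(Y1/Y0))/log z`. As `F^A ≥ 1` the diagonal error `z² Y0^(-δ)` is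
included in the second term.
-/

set_option autoImplicit false

open scoped NumberField Classical ComplexConjugate
open H63.MA

namespace H95.IS

/-- every pair of different elements of `S` gives a nontrivial ray class character of modulus of norm at most `F` -/
def Pair {K : Type} [Field K] [NumberField K] (F : ℝ) {ι : Type} (S : Finset ι)
    (χ : ι → (Ideal (𝓞 K) →*₀ ℂ)) : Prop :=
  (∀ s ∈ S, ∀ I, ‖χ s I‖ ≤ 1) ∧ ∀ s ∈ S, ∀ s' ∈ S, s ≠ s' →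
    ∃ 𝔣 : Ideal (𝓞 K), 𝔣 ≠ ⊥ ∧ (Ideal.absNorm 𝔣 : ℝ) ≤ F ∧ ∃ ψ : RC K 𝔣, ψ.Non ∧
      ∀ I, ψ.χ I = χ s I * conj (χ s' I)

private theorem ls_step {K : Type} [Field K] [NumberField K] {C0 A0 δ0 z F y : ℝ}
    {lam : Finset (Pl K) → ℝ} (hC : 0 < C0) (hA : 0 ≤ A0) (hF : 1 ≤ F) (hy : 1 ≤ y)
    (h1 : ∑ I ∈ IN K y, sw lam (plN K z) I ^ 2 ≤ C0 * (y / Real.log z + z ^ 2 * y ^ (1 - δ0)))
    (h2 : ∀ 𝔣 : Ideal (𝓞 K), 𝔣 ≠ ⊥ → ∀ ψ : RC K 𝔣, ψ.Non →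
        ‖∑ I ∈ IN K y, ((sw lam (plN K z) I ^ 2 : ℝ) : ℂ) * ψ.χ I‖ ≤
          C0 * (z ^ 2 * (Ideal.absNorm 𝔣 : ℝ) ^ A0 * y ^ (1 - δ0)))
    {ι : Type} (S : Finset ι) (χ : ι → (Ideal (𝓞 K) →*₀ ℂ)) (hP : Pair F S χ) (b : ι → ℂ) :
    ∑ I ∈ IN K y, sw lam (plN K z) I ^ 2 * ‖∑ s ∈ S, b s * χ s I‖ ^ 2 ≤
      C0 * (y / Real.log z + (1 + S.card) * z ^ 2 * F ^ A0 * y ^ (1 - δ0)) *
        ∑ s ∈ S, ‖b s‖ ^ 2 := by
  obtain ⟨W, hW⟩ : ∃ W : Ideal (𝓞 K) → ℝ, ∀ I, W I = sw lam (plN K z) I ^ 2 := ⟨_, fun _ => rfl⟩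
  have hW0 : ∀ I, 0 ≤ W I := fun I => by
    rw [hW]
    positivity
  simp only [← hW] at h1 h2 ⊢
  obtain ⟨M, hM⟩ : ∃ M : ι → ι → ℂ, ∀ s s', M s s' = ∑ I ∈ IN K y,
    (W I : ℂ) * (χ s I * conj (χ s' I)) := ⟨_, fun _ _ => rfl⟩
  have hYd : 0 ≤ y ^ (1 - δ0) := Real.rpow_nonneg (by linarith) _
  have hFA : 1 ≤ F ^ A0 := Real.one_le_rpow hF hA
  obtain ⟨D, hD⟩ : ∃ D : ℝ, D = C0 * (y / Real.log z + z ^ 2 * y ^ (1 - δ0)) := ⟨_, rfl⟩
  obtain ⟨E, hE⟩ : ∃ E : ℝ, E = C0 * (z ^ 2 * F ^ A0 * y ^ (1 - δ0)) := ⟨_, rfl⟩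
  have hE0 : 0 ≤ E := by
    rw [hE]
    have : 0 ≤ F ^ A0 := by linarith
    positivity
  have hMb : ∀ s ∈ S, ∀ s' ∈ S, ‖M s s'‖ ≤ (if s = s' then D else 0) + E := by
    intro s hs s' hs'
    by_cases hss : s = s'
    · rw [if_pos hss]
      have h3 : ‖M s s'‖ ≤ D := by
        rw [hM, hD]
        refine (norm_sum_le _ _).trans (le_trans ?_ h1)
        apply Finset.sum_le_sum
        intro I _
        rw [norm_mul, Complex.norm_real, Real.norm_of_nonneg (hW0 I), norm_mul, RCLike.norm_conj]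
        have h4 := hP.1 s hs I
        have h5 := hP.1 s' hs' I
        have h6 : ‖χ s I‖ * ‖χ s' I‖ ≤ 1 := mul_le_one₀ h4 (norm_nonneg _) h5
        have h7 := mul_le_mul_of_nonneg_left h6 (hW0 I)
        rw [mul_one] at h7
        exact h7
      linarith
    · rw [if_neg hss, zero_add]
      obtain ⟨𝔣, h𝔣, h𝔣F, ψ, hψ, hψχ⟩ := hP.2 s hs s' hs' hss
      have h3 := h2 𝔣 h𝔣 ψ hψ
      have h4 : M s s' = ∑ I ∈ IN K y, (W I : ℂ) * ψ.χ I := by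
        rw [hM]
        exact Finset.sum_congr rfl fun I _ => by rw [hψχ]
      rw [h4]
      refine h3.trans ?_
      rw [hE]
      apply mul_le_mul_of_nonneg_left _ hC.le
      apply mul_le_mul_of_nonneg_right _ hYd
      apply mul_le_mul_of_nonneg_left _ (by positivity)
      exact Real.rpow_le_rpow (Nat.cast_nonneg _) h𝔣F hA
  have hexp : ((∑ I ∈ IN K y, W I * ‖∑ s ∈ S, b s * χ s I‖ ^ 2 : ℝ) : ℂ) =
      ∑ s ∈ S, ∑ s' ∈ S, (b s * conj (b s')) * M s s' := by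
    have h3 : ∀ I ∈ IN K y, ((W I * ‖∑ s ∈ S, b s * χ s I‖ ^ 2 : ℝ) : ℂ) =
        ∑ s ∈ S, ∑ s' ∈ S, (b s * conj (b s')) * ((W I : ℂ) * (χ s I * conj (χ s' I))) := by
      intro I _
      have h4 : ((‖∑ s ∈ S, b s * χ s I‖ ^ 2 : ℝ) : ℂ) =
          (∑ s ∈ S, b s * χ s I) * ∑ s' ∈ S, conj (b s') * conj (χ s' I) := by
        have h5 : ∑ s' ∈ S, conj (b s') * conj (χ s' I) = conj (∑ s ∈ S, b s * χ s I) := by
          rw [map_sum]
          refine Finset.sum_congr rfl fun s _ => ?_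
          rw [map_mul]
        rw [h5, Complex.mul_conj, Complex.normSq_eq_norm_sq]
      rw [Complex.ofReal_mul, h4, Finset.sum_mul_sum, Finset.mul_sum]
      refine Finset.sum_congr rfl fun s _ => ?_
      rw [Finset.mul_sum]
      refine Finset.sum_congr rfl fun s' _ => ?_
      ring
    rw [Complex.ofReal_sum, Finset.sum_congr rfl h3, Finset.sum_comm]
    refine Finset.sum_congr rfl fun s _ => ?_
    rw [Finset.sum_comm]
    refine Finset.sum_congr rfl fun s' _ => ?_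
    rw [← Finset.mul_sum, hM]
  have hup : ∑ I ∈ IN K y, W I * ‖∑ s ∈ S, b s * χ s I‖ ^ 2 ≤
      ∑ s ∈ S, ∑ s' ∈ S, (‖b s‖ * ‖b s'‖) * ((if s = s' then D else 0) + E) := by
    refine (le_abs_self _).trans ?_
    rw [← Real.norm_eq_abs, ← Complex.norm_real, hexp]
    refine (norm_sum_le _ _).trans ?_
    apply Finset.sum_le_sum
    intro s hs
    refine (norm_sum_le _ _).trans ?_
    apply Finset.sum_le_sum
    intro s' hs'
    rw [norm_mul, norm_mul, RCLike.norm_conj]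
    exact mul_le_mul_of_nonneg_left (hMb s hs s' hs') (by positivity)
  refine hup.trans ?_
  have hB : ∑ s ∈ S, ∑ s' ∈ S, (‖b s‖ * ‖b s'‖) * ((if s = s' then D else 0) + E) =
      D * ∑ s ∈ S, ‖b s‖ ^ 2 + E * (∑ s ∈ S, ‖b s‖) ^ 2 := by
    have h3 : ∀ s ∈ S, ∑ s' ∈ S, (‖b s‖ * ‖b s'‖) * ((if s = s' then D else 0) + E) =
        D * ‖b s‖ ^ 2 + E * (‖b s‖ * ∑ s' ∈ S, ‖b s'‖) := by
      intro s hs
      have h4 : ∀ s' ∈ S, (‖b s‖ * ‖b s'‖) * ((if s = s' then D else 0) + E) =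
          (if s = s' then D * (‖b s‖ * ‖b s'‖) else 0) + E * (‖b s‖ * ‖b s'‖) := by
        intro s' _
        by_cases hss : s = s'
        · rw [if_pos hss, if_pos hss]
          ring
        · rw [if_neg hss, if_neg hss]
          ring
      rw [Finset.sum_congr rfl h4, Finset.sum_add_distrib, Finset.sum_ite_eq, if_pos hs,
        ← Finset.mul_sum, ← Finset.mul_sum]
      ring
    rw [Finset.sum_congr rfl h3, Finset.sum_add_distrib, ← Finset.mul_sum, ← Finset.mul_sum,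
      ← Finset.sum_mul, sq (∑ s ∈ S, ‖b s‖)]
  rw [hB]
  have hCS : (∑ s ∈ S, ‖b s‖) ^ 2 ≤ S.card * ∑ s ∈ S, ‖b s‖ ^ 2 := sq_sum_le_card_mul_sum_sq
  have hb2 : 0 ≤ ∑ s ∈ S, ‖b s‖ ^ 2 := Finset.sum_nonneg fun s _ => by positivity
  calc D * ∑ s ∈ S, ‖b s‖ ^ 2 + E * (∑ s ∈ S, ‖b s‖) ^ 2
      ≤ D * ∑ s ∈ S, ‖b s‖ ^ 2 + E * (S.card * ∑ s ∈ S, ‖b s‖ ^ 2) := by
        have := mul_le_mul_of_nonneg_left hCS hE0
        linarith
    _ = (D + S.card * E) * ∑ s ∈ S, ‖b s‖ ^ 2 := by ring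
    _ ≤ C0 * (y / Real.log z + (1 + S.card) * z ^ 2 * F ^ A0 * y ^ (1 - δ0)) *
        ∑ s ∈ S, ‖b s‖ ^ 2 := by
        apply mul_le_mul_of_nonneg_right _ hb2
        rw [hD, hE]
        have h5 : z ^ 2 * y ^ (1 - δ0) * 1 ≤ z ^ 2 * y ^ (1 - δ0) * F ^ A0 :=
          mul_le_mul_of_nonneg_left hFA (by positivity)
        have h6 := mul_le_mul_of_nonneg_left h5 hC.le
        calc C0 * (y / Real.log z + z ^ 2 * y ^ (1 - δ0)) +
              S.card * (C0 * (z ^ 2 * F ^ A0 * y ^ (1 - δ0)))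
            = C0 * (y / Real.log z) + C0 * (z ^ 2 * y ^ (1 - δ0) * 1) +
              S.card * (C0 * (z ^ 2 * F ^ A0 * y ^ (1 - δ0))) := by ring
          _ ≤ C0 * (y / Real.log z) + C0 * (z ^ 2 * y ^ (1 - δ0) * F ^ A0) +
              S.card * (C0 * (z ^ 2 * F ^ A0 * y ^ (1 - δ0))) := by linarith
          _ = C0 * (y / Real.log z + (1 + S.card) * z ^ 2 * F ^ A0 * y ^ (1 - δ0)) := by ring

theorem ls (K : Type) [Field K] [NumberField K] : ∃ C A δ : ℝ, 0 < C ∧ 0 ≤ A ∧ 0 < δ ∧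
    ∀ z Y0 Y1 F : ℝ, 2 ≤ z → 1 ≤ Y0 → Y0 ≤ Y1 → 1 ≤ F →
    ∀ J : Finset (Ideal (𝓞 K)), (∀ I ∈ J, I ≠ ⊥ ∧ Rough z I ∧ Y0 ≤ (Ideal.absNorm I : ℝ) ∧
      (Ideal.absNorm I : ℝ) ≤ Y1) →
    ∀ (ι : Type) (S : Finset ι) (χ : ι → (Ideal (𝓞 K) →*₀ ℂ)), Pair F S χ → ∀ b : ι → ℂ,
      ∑ I ∈ J, 1 / (Ideal.absNorm I : ℝ) * ‖∑ s ∈ S, b s * χ s I‖ ^ 2 ≤
        C * ((1 + Real.log (Y1 / Y0)) / Real.log z +
          (1 + S.card) * z ^ 2 * F ^ A * Y0 ^ (-δ)) * ∑ s ∈ S, ‖b s‖ ^ 2 := by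
  obtain ⟨C0, A0, δ0, hC, hA, hδ, hδ1, hmaj⟩ := maj K
  obtain ⟨t, ht⟩ : ∃ t : ℝ, t = (2 : ℝ) ^ (-δ0) := ⟨_, rfl⟩
  have ht0 : 0 < t := by
    rw [ht]
    positivity
  have ht1 : t < 1 := by
    rw [ht]
    exact Real.rpow_lt_one_of_one_lt_of_neg (by norm_num) (by linarith)
  have ht1' : 0 < 1 - t := by linarith
  refine ⟨C0 * (4 + 2 / (1 - t)), A0, δ0, by positivity, hA, hδ, ?_⟩
  intro z Y0 Y1 F hz hY0 hY hF J hJ ι S χ hP b
  obtain ⟨lam, hl1, hl2, hl3⟩ := hmaj z hz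
  obtain ⟨T, hT⟩ : ∃ T : Ideal (𝓞 K) → ℝ, ∀ I, T I = ‖∑ s ∈ S, b s * χ s I‖ ^ 2 :=
    ⟨_, fun _ => rfl⟩
  have hT0 : ∀ I, 0 ≤ T I := fun I => by
    rw [hT]
    positivity
  obtain ⟨B2, hB2⟩ : ∃ B2 : ℝ, B2 = ∑ s ∈ S, ‖b s‖ ^ 2 := ⟨_, rfl⟩
  have hB20 : 0 ≤ B2 := by
    rw [hB2]
    exact Finset.sum_nonneg fun s _ => by positivity
  obtain ⟨i0, hi0⟩ : ∃ i0 : ℕ, i0 = Nat.log 2 ⌊Y0⌋₊ := ⟨_, rfl⟩
  obtain ⟨i1, hi1⟩ : ∃ i1 : ℕ, i1 = Nat.log 2 ⌊Y1⌋₊ := ⟨_, rfl⟩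
  have hi01 : i0 ≤ i1 := by
    rw [hi0, hi1]
    exact Nat.log_mono_right (Nat.floor_le_floor hY)
  have hlogz : 0 < Real.log z := Real.log_pos (by linarith)
  have hFA : 1 ≤ F ^ A0 := Real.one_le_rpow hF hA
  -- one dyadic block
  have hblock : ∀ i ∈ Finset.Ico i0 (i1 + 1),
      ∑ I ∈ J.filter (fun I => Nat.log 2 (Ideal.absNorm I) = i), 1 / (Ideal.absNorm I : ℝ) * T I ≤
      C0 * B2 * (2 / Real.log z + (1 + S.card) * z ^ 2 * F ^ A0 * (2 * t * t ^ i)) := by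
    intro i _
    have h2i : (0 : ℝ) < 2 ^ i := by positivity
    have hy : (1 : ℝ) ≤ 2 ^ (i + 1) := one_le_pow₀ (by norm_num)
    have h3 := ls_step hC hA hF hy (hl2 _ hy) (fun 𝔣 h𝔣 ψ hψ => hl3 𝔣 h𝔣 ψ hψ _ hy) S χ hP b
    rw [← hB2] at h3
    have h4 : ∑ I ∈ J.filter (fun I => Nat.log 2 (Ideal.absNorm I) = i),
        1 / (Ideal.absNorm I : ℝ) * T I ≤ (1 / (2 : ℝ) ^ i) *
        ∑ I ∈ IN K ((2 : ℝ) ^ (i + 1)), sw lam (plN K z) I ^ 2 * ‖∑ s ∈ S, b s * χ s I‖ ^ 2 := by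
      calc ∑ I ∈ J.filter (fun I => Nat.log 2 (Ideal.absNorm I) = i),
            1 / (Ideal.absNorm I : ℝ) * T I
          ≤ ∑ I ∈ J.filter (fun I => Nat.log 2 (Ideal.absNorm I) = i),
            (1 / (2 : ℝ) ^ i) * (sw lam (plN K z) I ^ 2 * ‖∑ s ∈ S, b s * χ s I‖ ^ 2) := by
            apply Finset.sum_le_sum
            intro I hI
            rw [Finset.mem_filter] at hI
            obtain ⟨hI0, hIr, hI1, hI2⟩ := hJ I hI.1
            rw [hl1 I hIr, one_pow, one_mul, ← hT]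
            apply mul_le_mul_of_nonneg_right _ (hT0 I)
            apply one_div_le_one_div_of_le h2i
            have h5 : Ideal.absNorm I ≠ 0 := by
              rw [Ne, Ideal.absNorm_eq_zero_iff]
              exact hI0
            have h6 := Nat.pow_log_le_self 2 h5
            rw [hI.2] at h6
            exact_mod_cast h6
        _ = (1 / (2 : ℝ) ^ i) * ∑ I ∈ J.filter (fun I => Nat.log 2 (Ideal.absNorm I) = i),
            (sw lam (plN K z) I ^ 2 * ‖∑ s ∈ S, b s * χ s I‖ ^ 2) := by rw [Finset.mul_sum]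
        _ ≤ _ := by
            apply mul_le_mul_of_nonneg_left _ (by positivity)
            apply Finset.sum_le_sum_of_subset_of_nonneg
            · intro I hI
              rw [Finset.mem_filter] at hI
              obtain ⟨hI0, hIr, hI1, hI2⟩ := hJ I hI.1
              rw [mem_IN (by linarith)]
              refine ⟨?_, hI0⟩
              have h6 := Nat.lt_pow_succ_log_self (b := 2) (by norm_num) (Ideal.absNorm I)
              rw [hI.2] at h6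
              exact_mod_cast h6.le
            · intro I _ _
              positivity
    refine h4.trans ((mul_le_mul_of_nonneg_left h3 (by positivity)).trans (le_of_eq ?_))
    have h7 : ((2 : ℝ) ^ (i + 1)) ^ (1 - δ0) = 2 ^ (i + 1) * (t * t ^ i) := by
      have h8 : (0 : ℝ) < 2 ^ (i + 1) := by positivity
      rw [sub_eq_add_neg, Real.rpow_add h8, Real.rpow_one]
      congr 1
      rw [← pow_succ', ht, ← Real.rpow_natCast 2 (i + 1), ← Real.rpow_natCast _ (i + 1),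
        ← Real.rpow_mul (by norm_num), ← Real.rpow_mul (by norm_num), mul_comm]
    rw [h7, pow_succ]
    field_simp
  -- the sum over the blocks
  have hsplit : ∑ I ∈ J, 1 / (Ideal.absNorm I : ℝ) * T I = ∑ i ∈ Finset.Ico i0 (i1 + 1),
      ∑ I ∈ J.filter (fun I => Nat.log 2 (Ideal.absNorm I) = i),
        1 / (Ideal.absNorm I : ℝ) * T I := by
    rw [Finset.sum_fiberwise_of_maps_to]
    intro I hI
    obtain ⟨hI0, hIr, hI1, hI2⟩ := hJ I hI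
    rw [Finset.mem_Ico, Nat.lt_succ_iff, hi0, hi1]
    constructor
    · apply Nat.log_mono_right
      exact Nat.floor_le_of_le hI1
    · apply Nat.log_mono_right
      exact Nat.le_floor hI2
  have hgoal : ∑ I ∈ J, 1 / (Ideal.absNorm I : ℝ) * ‖∑ s ∈ S, b s * χ s I‖ ^ 2 =
      ∑ I ∈ J, 1 / (Ideal.absNorm I : ℝ) * T I :=
    Finset.sum_congr rfl fun I _ => by rw [hT]
  rw [hgoal, hsplit, ← hB2]
  refine (Finset.sum_le_sum hblock).trans ?_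
  rw [← Finset.mul_sum, Finset.sum_add_distrib, Finset.sum_const, nsmul_eq_mul, Nat.card_Ico,
    ← Finset.mul_sum, ← Finset.mul_sum]
  have hΛ0 : 0 ≤ Real.log (Y1 / Y0) := Real.log_nonneg (by
    rw [le_div_iff₀ (by linarith)]
    linarith)
  have hY0p : Y0 < (2 : ℝ) ^ (i0 + 1) := by
    have h6 := Nat.lt_pow_succ_log_self (b := 2) (by norm_num) ⌊Y0⌋₊
    rw [← hi0] at h6
    have h7 : ((⌊Y0⌋₊ + 1 : ℕ) : ℝ) ≤ ((2 ^ (i0 + 1) : ℕ) : ℝ) := by exact_mod_cast h6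
    have h8 := Nat.lt_floor_add_one Y0
    push_cast at h7
    linarith
  have hY1p : (2 : ℝ) ^ i1 ≤ Y1 := by
    have h5 : ⌊Y1⌋₊ ≠ 0 := by
      have : 1 ≤ ⌊Y1⌋₊ := Nat.le_floor (by push_cast; linarith)
      omega
    have h6 := Nat.pow_log_le_self 2 h5
    rw [← hi1] at h6
    have h7 : ((2 ^ i1 : ℕ) : ℝ) ≤ (⌊Y1⌋₊ : ℝ) := by exact_mod_cast h6
    push_cast at h7
    exact h7.trans (Nat.floor_le (by linarith))
  have hcount : ((i1 + 1 - i0 : ℕ) : ℝ) ≤ 2 * (1 + Real.log (Y1 / Y0)) := by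
    rw [Nat.cast_sub (by omega)]
    push_cast
    have h8 : (i1 : ℝ) * Real.log 2 ≤ Real.log Y1 := by
      rw [← Real.log_pow]
      exact Real.log_le_log (by positivity) hY1p
    have h9 : Real.log Y0 ≤ (i0 + 1 : ℝ) * Real.log 2 := by
      have h10 : Real.log Y0 ≤ Real.log ((2 : ℝ) ^ (i0 + 1)) :=
        Real.log_le_log (by linarith) hY0p.le
      rw [Real.log_pow] at h10
      push_cast at h10
      exact h10
    have h11 : Real.log (Y1 / Y0) = Real.log Y1 - Real.log Y0 :=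
      Real.log_div (by linarith) (by linarith)
    have h12 : 1 / 2 < Real.log 2 := by
      have := Real.log_two_gt_d9
      linarith
    have h13 : ((i1 : ℝ) - i0 - 1) * Real.log 2 ≤ Real.log (Y1 / Y0) := by
      rw [h11]
      linarith
    by_cases h14 : (i1 : ℝ) - i0 - 1 ≤ 0
    · linarith
    · have h15 : ((i1 : ℝ) - i0 - 1) * (1 / 2) ≤ ((i1 : ℝ) - i0 - 1) * Real.log 2 :=
        mul_le_mul_of_nonneg_left h12.le (not_le.1 h14).le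
      linarith
  have hgeo : t * ∑ i ∈ Finset.Ico i0 (i1 + 1), t ^ i ≤ Y0 ^ (-δ0) / (1 - t) := by
    have h8 := geom_sum_Ico_le_of_lt_one (m := i0) (n := i1 + 1) ht0.le ht1
    have h9 : t * t ^ i0 ≤ Y0 ^ (-δ0) := by
      have h10 : t * t ^ i0 = ((2 : ℝ) ^ (i0 + 1)) ^ (-δ0) := by
        rw [← pow_succ', ht, ← Real.rpow_natCast 2 (i0 + 1), ← Real.rpow_natCast _ (i0 + 1),
          ← Real.rpow_mul (by norm_num), ← Real.rpow_mul (by norm_num), mul_comm]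
      rw [h10]
      exact Real.rpow_le_rpow_of_nonpos (by linarith) hY0p.le (by linarith)
    calc t * ∑ i ∈ Finset.Ico i0 (i1 + 1), t ^ i ≤ t * (t ^ i0 / (1 - t)) :=
          mul_le_mul_of_nonneg_left h8 ht0.le
      _ = (t * t ^ i0) / (1 - t) := by ring
      _ ≤ Y0 ^ (-δ0) / (1 - t) := div_le_div_of_nonneg_right h9 ht1'.le
  obtain ⟨Q, hQ⟩ : ∃ Q : ℝ, Q = (1 + (S.card : ℝ)) * z ^ 2 * F ^ A0 := ⟨_, rfl⟩
  have hQ0 : 0 ≤ Q := by
    rw [hQ]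
    have : 0 ≤ F ^ A0 := by linarith
    positivity
  obtain ⟨L, hL⟩ : ∃ L : ℝ, L = 1 + Real.log (Y1 / Y0) := ⟨_, rfl⟩
  rw [← hL] at hcount ⊢
  rw [← hQ]
  have hL1 : 1 ≤ L := by
    rw [hL]
    linarith
  have hYn : 0 ≤ Y0 ^ (-δ0) := Real.rpow_nonneg (by linarith) _
  have hCB : 0 ≤ C0 * B2 := mul_nonneg hC.le hB20
  calc C0 * B2 * (((i1 + 1 - i0 : ℕ) : ℝ) * (2 / Real.log z) +
        Q * (2 * t * ∑ i ∈ Finset.Ico i0 (i1 + 1), t ^ i))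
      ≤ C0 * B2 * (2 * L * (2 / Real.log z) + Q * (2 * (Y0 ^ (-δ0) / (1 - t)))) := by
        apply mul_le_mul_of_nonneg_left _ hCB
        apply add_le_add
        · exact mul_le_mul_of_nonneg_right hcount (by positivity)
        · apply mul_le_mul_of_nonneg_left _ hQ0
          rw [mul_assoc]
          exact mul_le_mul_of_nonneg_left hgeo (by norm_num)
    _ = C0 * B2 * (4 * (L / Real.log z) + 2 / (1 - t) * (Q * Y0 ^ (-δ0))) := by ring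
    _ ≤ C0 * B2 * ((4 + 2 / (1 - t)) * (L / Real.log z + Q * Y0 ^ (-δ0))) := by
        apply mul_le_mul_of_nonneg_left _ hCB
        have e1 : 0 ≤ 2 / (1 - t) * (L / Real.log z) := by positivity
        have e2 : 0 ≤ 4 * (Q * Y0 ^ (-δ0)) := by positivity
        calc 4 * (L / Real.log z) + 2 / (1 - t) * (Q * Y0 ^ (-δ0))
            ≤ 4 * (L / Real.log z) + 2 / (1 - t) * (Q * Y0 ^ (-δ0)) +
              (2 / (1 - t) * (L / Real.log z) + 4 * (Q * Y0 ^ (-δ0))) := by linarith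
          _ = _ := by ring
    _ = C0 * (4 + 2 / (1 - t)) * (L / Real.log z + Q * Y0 ^ (-δ0)) * B2 := by ring

end H95.IS
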