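import Pool.Agent.H95.IS.DefsK
import Pool.Agent.H63.MA.RayC

/-!
# IS-TUP: powers of sums over primes and duality

Let `P s = ∑_{v∈W} χ s v / nm v`. `P s ^ r = ∑_f w f χ s (I f)` over `f ∈ Fintype.piFinset (fun _ : Fin r => W)` with
`w f = ∏_i 1/nm (f i) = 1/N(I f)`, `I f = ∏_i f i` (`Finset.prod_univ_sum`, `χ s` multiplicative). Put `b s = conj (P s ^ r)`. Then
`Z := ∑_s ‖P s‖^(2r) = ∑_s b s P s^r = ∑_f w f Φ(I f)`, `Φ(I) = ∑_s b s χ s I`. Cauchy-Schwarz: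
`Z² ≤ (∑_f w f) (∑_f w f ‖Φ(I f)‖²)`, `∑_f w f = (∑_v 1/nm v)^r ≤ P0^r`, and
`∑_f w f ‖Φ(I f)‖² = ∑_{I ∈ J} #{f : I f = I} (1/N I) ‖Φ(I)‖² ≤ r^r ∑_{I∈J} (1/N I) ‖Φ(I)‖² ≤ r^r Γ Z` where `J` is the image of `f ↦ I f`: if `I f₀ = I f = I`
then every `f i` divides `∏ f₀ i`, so `f i = f₀ j` for some `j`: at most `r^r` functions (for `r = 0` one function, `0^0 = 1`).
So `Z² ≤ (P0 r)^r Γ Z`, and `Z ≤ (P0 r)^r Γ` (trivial if `Z = 0`; `P0 ≥ 0`).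
-/

set_option autoImplicit false

open scoped NumberField Classical
open H63.MA

namespace H95.IS

private theorem tup_eq {K : Type} [Field K] [NumberField K] {r : ℕ} (f f0 : Fin r → Pl K)
    (h : ∏ i, (f i).asIdeal = ∏ i, (f0 i).asIdeal) (i : Fin r) : ∃ j, f i = f0 j := by
  have h1 : (f i).asIdeal ∣ ∏ j, (f0 j).asIdeal := by
    rw [← h]
    exact Finset.dvd_prod_of_mem (fun i => (f i).asIdeal) (Finset.mem_univ i)
  obtain ⟨j, _, hj⟩ := (f i).prime.exists_mem_finset_dvd h1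
  refine ⟨j, ?_⟩
  apply IsDedekindDomain.HeightOneSpectrum.ext
  have h2 : (f0 j).asIdeal ≤ (f i).asIdeal := Ideal.dvd_iff_le.1 hj
  exact (((f0 j).isMaximal).eq_of_le (f i).isPrime.ne_top h2).symm

private theorem tup_card {K : Type} [Field K] [NumberField K] {r : ℕ} (F : Finset (Fin r → Pl K))
    (I : Ideal (𝓞 K)) (hI : ∃ f ∈ F, ∏ i, (f i).asIdeal = I) :
    (F.filter (fun f => ∏ i, (f i).asIdeal = I)).card ≤ r ^ r := by
  obtain ⟨f0, _, hf0⟩ := hI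
  have h1 : F.filter (fun f => ∏ i, (f i).asIdeal = I) ⊆
      (Finset.univ : Finset (Fin r → Fin r)).image (fun σ => fun i => f0 (σ i)) := by
    intro f hf
    rw [Finset.mem_filter] at hf
    rw [Finset.mem_image]
    have h2 := tup_eq f f0 (hf.2.trans hf0.symm)
    choose σ hσ using h2
    exact ⟨σ, Finset.mem_univ _, funext fun i => (hσ i).symm⟩
  refine (Finset.card_le_card h1).trans (Finset.card_image_le.trans ?_)
  rw [Finset.card_univ, Fintype.card_fun, Fintype.card_fin]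

theorem tup {K : Type} [Field K] [NumberField K] (W : Finset (Pl K)) (r : ℕ) {P0 Γ : ℝ}
    (hP : ∑ v ∈ W, 1 / (nm v : ℝ) ≤ P0) (hΓ : 0 ≤ Γ) {ι : Type} (S : Finset ι)
    (χ : ι → (Ideal (𝓞 K) →*₀ ℂ))
    (h : ∀ J : Finset (Ideal (𝓞 K)),
      (∀ I ∈ J, ∃ f : Fin r → Pl K, (∀ i, f i ∈ W) ∧ I = ∏ i, (f i).asIdeal) →
      ∀ b : ι → ℂ, ∑ I ∈ J, 1 / (Ideal.absNorm I : ℝ) * ‖∑ s ∈ S, b s * χ s I‖ ^ 2 ≤
        Γ * ∑ s ∈ S, ‖b s‖ ^ 2) :
    ∑ s ∈ S, ‖∑ v ∈ W, χ s v.asIdeal / (nm v : ℂ)‖ ^ (2 * r) ≤ (P0 * r) ^ r * Γ := by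
  have hP0 : 0 ≤ P0 := le_trans (Finset.sum_nonneg fun v _ => by positivity) hP
  obtain ⟨Pz, hPz⟩ : ∃ Pz : ι → ℂ, ∀ s, Pz s = ∑ v ∈ W, χ s v.asIdeal / (nm v : ℂ) :=
    ⟨_, fun _ => rfl⟩
  obtain ⟨If, hIf⟩ : ∃ If : (Fin r → Pl K) → Ideal (𝓞 K), ∀ f, If f = ∏ i, (f i).asIdeal :=
    ⟨_, fun _ => rfl⟩
  obtain ⟨F, hF⟩ : ∃ F : Finset (Fin r → Pl K), F = Fintype.piFinset (fun _ : Fin r => W) :=
    ⟨_, rfl⟩
  obtain ⟨w, hw⟩ : ∃ w : (Fin r → Pl K) → ℝ, ∀ f, w f = 1 / (Ideal.absNorm (If f) : ℝ) :=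
    ⟨_, fun _ => rfl⟩
  have hw0 : ∀ f, 0 ≤ w f := by
    intro f
    rw [hw]
    positivity
  have hwp : ∀ f, w f = ∏ i, 1 / (nm (f i) : ℝ) := by
    intro f
    rw [hw, hIf, map_prod, Finset.prod_div_distrib, Finset.prod_const_one]
    push_cast
    rfl
  have hpow : ∀ s, Pz s ^ r = ∑ f ∈ F, (w f : ℂ) * χ s (If f) := by
    intro s
    have h1 : Pz s ^ r = ∏ _i : Fin r, ∑ v ∈ W, χ s v.asIdeal / (nm v : ℂ) := by
      rw [Finset.prod_const, Finset.card_univ, Fintype.card_fin, hPz]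
    rw [h1, Finset.prod_univ_sum, ← hF]
    refine Finset.sum_congr rfl fun f _ => ?_
    rw [hwp, hIf, map_prod, Complex.ofReal_prod, ← Finset.prod_mul_distrib]
    refine Finset.prod_congr rfl fun i _ => ?_
    push_cast
    ring
  obtain ⟨b, hb⟩ : ∃ b : ι → ℂ, ∀ s, b s = (starRingEnd ℂ) (Pz s ^ r) := ⟨_, fun _ => rfl⟩
  have hbn : ∀ s, ‖b s‖ ^ 2 = ‖Pz s‖ ^ (2 * r) := by
    intro s
    rw [hb, RCLike.norm_conj, norm_pow, ← pow_mul, mul_comm]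
  obtain ⟨Z, hZ⟩ : ∃ Z : ℝ, Z = ∑ s ∈ S, ‖Pz s‖ ^ (2 * r) := ⟨_, rfl⟩
  have hZ0 : 0 ≤ Z := by
    rw [hZ]
    exact Finset.sum_nonneg fun s _ => by positivity
  obtain ⟨Φ, hΦ⟩ : ∃ Φ : Ideal (𝓞 K) → ℂ, ∀ I, Φ I = ∑ s ∈ S, b s * χ s I := ⟨_, fun _ => rfl⟩
  have hZc : (Z : ℂ) = ∑ f ∈ F, (w f : ℂ) * Φ (If f) := by
    have h1 : ∀ s ∈ S, ((‖Pz s‖ ^ (2 * r) : ℝ) : ℂ) = ∑ f ∈ F, (w f : ℂ) * (b s * χ s (If f)) := by
      intro s _
      rw [← hbn]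
      have h2 : ((‖b s‖ ^ 2 : ℝ) : ℂ) = b s * Pz s ^ r := by
        have h3 : Pz s ^ r = (starRingEnd ℂ) (b s) := by rw [hb, Complex.conj_conj]
        rw [h3, Complex.mul_conj, Complex.normSq_eq_norm_sq]
      rw [h2, hpow, Finset.mul_sum]
      refine Finset.sum_congr rfl fun f _ => ?_
      ring
    rw [hZ, Complex.ofReal_sum, Finset.sum_congr rfl h1, Finset.sum_comm]
    refine Finset.sum_congr rfl fun f _ => ?_
    rw [hΦ, Finset.mul_sum]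
  have hZle : Z ≤ ∑ f ∈ F, w f * ‖Φ (If f)‖ := by
    have h1 : Z = ‖(Z : ℂ)‖ := by rw [Complex.norm_real, Real.norm_of_nonneg hZ0]
    rw [h1, hZc]
    refine (norm_sum_le _ _).trans (le_of_eq ?_)
    refine Finset.sum_congr rfl fun f _ => ?_
    rw [norm_mul, Complex.norm_real, Real.norm_of_nonneg (hw0 f)]
  have hCS : Z ^ 2 ≤ (∑ f ∈ F, w f) * ∑ f ∈ F, w f * ‖Φ (If f)‖ ^ 2 := by
    refine (pow_le_pow_left₀ hZ0 hZle 2).trans ?_
    apply Finset.sum_sq_le_sum_mul_sum_of_sq_le_mul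
    · intro f _
      exact hw0 f
    · intro f _
      exact mul_nonneg (hw0 f) (by positivity)
    · intro f _
      exact le_of_eq (by ring)
  have hws : ∑ f ∈ F, w f ≤ P0 ^ r := by
    have h1 : ∑ f ∈ F, w f = (∑ v ∈ W, 1 / (nm v : ℝ)) ^ r := by
      have h2 : (∑ v ∈ W, 1 / (nm v : ℝ)) ^ r = ∏ _i : Fin r, ∑ v ∈ W, 1 / (nm v : ℝ) := by
        rw [Finset.prod_const, Finset.card_univ, Fintype.card_fin]
      rw [h2, Finset.prod_univ_sum, ← hF]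
      exact Finset.sum_congr rfl fun f _ => hwp f
    rw [h1]
    exact pow_le_pow_left₀ (Finset.sum_nonneg fun v _ => by positivity) hP r
  have hJ : ∑ f ∈ F, w f * ‖Φ (If f)‖ ^ 2 ≤ (r : ℝ) ^ r * (Γ * Z) := by
    have h1 := h (F.image If) (by
      intro I hI
      rw [Finset.mem_image] at hI
      obtain ⟨f, hf, rfl⟩ := hI
      refine ⟨f, ?_, hIf f⟩
      rw [hF, Fintype.mem_piFinset] at hf
      exact hf) b
    have h2 : ∑ s ∈ S, ‖b s‖ ^ 2 = Z := by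
      rw [hZ]
      exact Finset.sum_congr rfl fun s _ => hbn s
    rw [h2] at h1
    have h3 : ∑ f ∈ F, w f * ‖Φ (If f)‖ ^ 2 = ∑ I ∈ F.image If,
        ((F.filter (fun f => If f = I)).card : ℝ) * (1 / (Ideal.absNorm I : ℝ) * ‖Φ I‖ ^ 2) := by
      rw [← Finset.sum_fiberwise_of_maps_to (s := F) (t := F.image If) (g := If)
        (fun f hf => Finset.mem_image_of_mem If hf)]
      refine Finset.sum_congr rfl fun I _ => ?_
      rw [← nsmul_eq_mul, ← Finset.sum_const]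
      refine Finset.sum_congr rfl fun f hf => ?_
      rw [Finset.mem_filter] at hf
      rw [hw, hf.2]
    rw [h3]
    have h4 : ∀ I ∈ F.image If,
        ((F.filter (fun f => If f = I)).card : ℝ) * (1 / (Ideal.absNorm I : ℝ) * ‖Φ I‖ ^ 2) ≤
        (r : ℝ) ^ r * (1 / (Ideal.absNorm I : ℝ) * ‖∑ s ∈ S, b s * χ s I‖ ^ 2) := by
      intro I hI
      rw [← hΦ]
      apply mul_le_mul_of_nonneg_right _ (by positivity)
      rw [Finset.mem_image] at hI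
      obtain ⟨f, hf, hfI⟩ := hI
      have h5 := tup_card F I ⟨f, hf, by rw [← hIf, hfI]⟩
      have h6 : F.filter (fun f => If f = I) = F.filter (fun f => ∏ i, (f i).asIdeal = I) := by
        refine Finset.filter_congr fun f _ => ?_
        rw [hIf]
      rw [h6]
      exact_mod_cast h5
    refine (Finset.sum_le_sum h4).trans ?_
    rw [← Finset.mul_sum]
    exact mul_le_mul_of_nonneg_left h1 (by positivity)
  have hgoal : ∑ s ∈ S, ‖∑ v ∈ W, χ s v.asIdeal / (nm v : ℂ)‖ ^ (2 * r) = Z := by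
    rw [hZ]
    refine Finset.sum_congr rfl fun s _ => ?_
    rw [hPz]
  rw [hgoal]
  have hJ0 : 0 ≤ ∑ f ∈ F, w f * ‖Φ (If f)‖ ^ 2 :=
    Finset.sum_nonneg fun f _ => mul_nonneg (hw0 f) (by positivity)
  have hfin : Z ^ 2 ≤ ((P0 * r) ^ r * Γ) * Z := by
    refine hCS.trans ?_
    calc (∑ f ∈ F, w f) * ∑ f ∈ F, w f * ‖Φ (If f)‖ ^ 2 ≤ P0 ^ r * ((r : ℝ) ^ r * (Γ * Z)) :=
          mul_le_mul hws hJ hJ0 (by positivity)
      _ = ((P0 * r) ^ r * Γ) * Z := by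
          rw [mul_pow]
          ring
  rcases hZ0.eq_or_lt with h0 | h0
  · rw [← h0]
    positivity
  · rw [sq] at hfin
    exact le_of_mul_le_mul_right hfin h0

end H95.IS
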