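import Pool.Agent.H95.IS.Ls
import Pool.Agent.H95.IS.Tup

/-!
# IS-LSV: the Linnik type moment bound for families of characters of a number field

`C, A, δ` from `ls`. Choose `r ≥ (|B2| + 2 + |B1| A)/δ`, `r ≥ 1`. For a product `I = ∏_{i<r} f i` with `f i ∈ W`: `I ≠ ⊥`, `Rough z I` (a prime dividing `I`
is one of the `f i`), `z^r ≤ N I ≤ z^(A1 r)`. `ls` with `Y0 = z^r`, `Y1 = z^(A1 r)`, `F = z^|B1|`: 
`(1 + log(Y1/Y0))/log z ≤ 1/log 2 + (A1-1) r`, `(1 + #S) z² F^A Y0^(-δ) ≤ 2 z^(|B2| + 2 + |B1| A - rδ) ≤ 2` (`#S ≤ z^B2 ≤ z^|B2|`). So the hypothesis of `tup`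
holds with `Γ = C (1/log 2 + (A1-1) r + 2)`.
-/

set_option autoImplicit false

open scoped NumberField Classical
open H63.MA

namespace H95.IS

theorem lsv_pair {K : Type} [Field K] [NumberField K] {F F' : ℝ} (hF : F ≤ F') {ι : Type}
    {S : Finset ι} {χ : ι → (Ideal (𝓞 K) →*₀ ℂ)} (h : Pair F S χ) : Pair F' S χ := by
  refine ⟨h.1, ?_⟩
  intro s hs s' hs' hne
  obtain ⟨𝔣, h1, h2, h3⟩ := h.2 s hs s' hs' hne
  exact ⟨𝔣, h1, h2.trans hF, h3⟩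

theorem lsv_prod {K : Type} [Field K] [NumberField K] {z A1 : ℝ} (hz : 2 ≤ z) {W : Finset (Pl K)}
    (hW : ∀ v ∈ W, z < nm v ∧ (nm v : ℝ) ≤ z ^ A1) {r : ℕ} (f : Fin r → Pl K)
    (hf : ∀ i, f i ∈ W) :
    (∏ i, (f i).asIdeal) ≠ ⊥ ∧ Rough z (∏ i, (f i).asIdeal) ∧
      z ^ (r : ℝ) ≤ (Ideal.absNorm (∏ i, (f i).asIdeal) : ℝ) ∧
      (Ideal.absNorm (∏ i, (f i).asIdeal) : ℝ) ≤ z ^ (A1 * r) := by
  have hz0 : 0 < z := by linarith
  have hN : ((Ideal.absNorm (∏ i, (f i).asIdeal) : ℕ) : ℝ) = ∏ i, (nm (f i) : ℝ) := by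
    rw [map_prod]
    push_cast
    rfl
  refine ⟨?_, ?_, ?_, ?_⟩
  · have : (∏ i, (f i).asIdeal) ≠ 0 := Finset.prod_ne_zero_iff.2 (fun i _ => (f i).ne_bot)
    exact this
  · intro v hv
    obtain ⟨i, _, h2⟩ := v.prime.exists_mem_finset_dvd hv
    have h1 := (v.irreducible.dvd_irreducible_iff_associated (f i).irreducible).1 h2
    have h3 : v = f i := IsDedekindDomain.HeightOneSpectrum.ext (associated_iff_eq.1 h1)
    rw [h3]
    exact (hW _ (hf i)).1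
  · rw [hN, Real.rpow_natCast]
    calc z ^ r = ∏ _i : Fin r, z := by rw [Finset.prod_const, Finset.card_univ, Fintype.card_fin]
      _ ≤ ∏ i, (nm (f i) : ℝ) :=
          Finset.prod_le_prod (fun _ _ => hz0.le) (fun i _ => (hW _ (hf i)).1.le)
  · rw [hN, Real.rpow_mul hz0.le, Real.rpow_natCast]
    calc ∏ i, (nm (f i) : ℝ) ≤ ∏ _i : Fin r, z ^ A1 :=
          Finset.prod_le_prod (fun _ _ => Nat.cast_nonneg _) (fun i _ => (hW _ (hf i)).2)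
      _ = (z ^ A1) ^ r := by rw [Finset.prod_const, Finset.card_univ, Fintype.card_fin]

theorem lsv (K : Type) [Field K] [NumberField K] (P0 A1 B1 B2 : ℝ) (hA1 : 1 ≤ A1) :
    ∃ (r : ℕ) (C : ℝ), ∀ z : ℝ, 2 ≤ z → ∀ W : Finset (Pl K),
      (∀ v ∈ W, z < nm v ∧ (nm v : ℝ) ≤ z ^ A1) → ∑ v ∈ W, 1 / (nm v : ℝ) ≤ P0 →
      ∀ (ι : Type) (S : Finset ι) (χ : ι → (Ideal (𝓞 K) →*₀ ℂ)), (S.card : ℝ) ≤ z ^ B2 →
        Pair (z ^ B1) S χ →
        ∑ s ∈ S, ‖∑ v ∈ W, χ s v.asIdeal / (nm v : ℂ)‖ ^ (2 * r) ≤ C := by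
  obtain ⟨C, A, δ, hC, hA, hδ, h⟩ := ls K
  obtain ⟨r, hr⟩ := exists_nat_ge ((|B2| + 2 + |B1| * A) / δ)
  rw [div_le_iff₀ hδ] at hr
  have hlog2 : 0 < Real.log 2 := Real.log_pos (by norm_num)
  set Γ : ℝ := C * ((1 / Real.log 2 + (A1 - 1) * r) + 2) with hΓdef
  have hΓ : 0 ≤ Γ := by
    have h1 : 0 ≤ (A1 - 1) * r := mul_nonneg (by linarith) (Nat.cast_nonneg _)
    have h2 : 0 ≤ 1 / Real.log 2 := by positivity
    rw [hΓdef]
    exact mul_nonneg hC.le (by linarith)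
  refine ⟨r, (P0 * r) ^ r * Γ, ?_⟩
  intro z hz W hW hP ι S χ hS hpair
  have hz0 : 0 < z := by linarith
  have hz1 : 1 ≤ z := by linarith
  refine tup W r hP hΓ S χ ?_
  intro J hJ b
  have hlogz : 0 < Real.log z := Real.log_pos (by linarith)
  have hlog : Real.log 2 ≤ Real.log z := Real.log_le_log (by norm_num) hz
  have hF : z ^ B1 ≤ z ^ |B1| := Real.rpow_le_rpow_of_exponent_le hz1 (le_abs_self _)
  have hrA : (r : ℝ) ≤ A1 * r := by
    have : (0 : ℝ) ≤ r := Nat.cast_nonneg _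
    nlinarith
  have h1 := h z (z ^ (r : ℝ)) (z ^ (A1 * r)) (z ^ |B1|) hz
    (Real.one_le_rpow hz1 (Nat.cast_nonneg _))
    (Real.rpow_le_rpow_of_exponent_le hz1 hrA) (Real.one_le_rpow hz1 (abs_nonneg _)) J
    (by
      intro I hI
      obtain ⟨f, hf, rfl⟩ := hJ I hI
      exact lsv_prod hz hW f hf) ι S χ (lsv_pair hF hpair) b
  refine h1.trans ?_
  refine mul_le_mul_of_nonneg_right ?_ (Finset.sum_nonneg fun s _ => sq_nonneg _)
  rw [hΓdef]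
  refine mul_le_mul_of_nonneg_left ?_ hC.le
  refine add_le_add ?_ ?_
  · have e1 : Real.log (z ^ (A1 * r) / z ^ (r : ℝ)) = (A1 - 1) * r * Real.log z := by
      rw [← Real.rpow_sub hz0, Real.log_rpow hz0]
      ring
    rw [e1, add_div, mul_div_assoc, div_self hlogz.ne', mul_one]
    have e2 : 1 / Real.log z ≤ 1 / Real.log 2 := one_div_le_one_div_of_le hlog2 hlog
    linarith
  · have e1 : (1 : ℝ) + S.card ≤ 2 * z ^ |B2| := by
      have e2 : z ^ B2 ≤ z ^ |B2| := Real.rpow_le_rpow_of_exponent_le hz1 (le_abs_self _)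
      have e3 : 1 ≤ z ^ |B2| := Real.one_le_rpow hz1 (abs_nonneg _)
      linarith
    have e4 : 0 < z ^ 2 * (z ^ |B1|) ^ A * (z ^ (r : ℝ)) ^ (-δ) := by positivity
    calc (1 + (S.card : ℝ)) * z ^ 2 * (z ^ |B1|) ^ A * (z ^ (r : ℝ)) ^ (-δ)
        = (1 + (S.card : ℝ)) * (z ^ 2 * (z ^ |B1|) ^ A * (z ^ (r : ℝ)) ^ (-δ)) := by ring
      _ ≤ 2 * z ^ |B2| * (z ^ 2 * (z ^ |B1|) ^ A * (z ^ (r : ℝ)) ^ (-δ)) :=
          mul_le_mul_of_nonneg_right e1 e4.le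
      _ = 2 * z ^ (|B2| + 2 + |B1| * A - r * δ) := by
          rw [← Real.rpow_mul hz0.le, ← Real.rpow_mul hz0.le, ← Real.rpow_natCast z 2,
            ← Real.rpow_add hz0, ← Real.rpow_add hz0, mul_assoc, ← Real.rpow_add hz0]
          congr 2
          push_cast
          ring
      _ ≤ 2 * 1 := by
          refine mul_le_mul_of_nonneg_left ?_ (by norm_num)
          exact Real.rpow_le_one_of_one_le_of_nonpos hz1 (by linarith)
      _ = 2 := by norm_num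

end H95.IS
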