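import Pool.Agent.H95.IS.DefsK
import Pool.Agent.H63.MA.RayC

/-!
# IS-SUMF: sums over the ideals divisible by a set of primes

`I` is divisible by all `v ∈ U` iff by `∏_{v∈U} v` (different primes are coprime: `Finset.prod_dvd_of_coprime` / `Finset.prod_primes_dvd`), so
`I = (∏_{v∈U} v) I'` with a unique `I'`; `N I = (∏ nm v) N I'` (`Ideal.absNorm` is multiplicative), `I ≠ ⊥ ↔ I' ≠ ⊥`
(`mem_IN`). Bijection `I' ↦ (∏ v) I'` (`Finset.sum_bij`/`sum_nbij`).
`card_small`: the number of `T ⊆ plN K z` with `∏_{v ∈ T} nm v ≤ z` is at most the number of ideals in `IN K z`: `T ↦ ∏_{v∈T} v` is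
injective (a prime `v` divides the product iff `v ∈ T`).
-/

set_option autoImplicit false

open scoped NumberField Classical
open H63.MA

namespace H95.IS

variable {K : Type} [Field K] [NumberField K]

theorem sumF_eq {v w : Pl K} (h : v.asIdeal ∣ w.asIdeal) : v = w := by
  have h1 := (v.irreducible.dvd_irreducible_iff_associated w.irreducible).1 h
  exact IsDedekindDomain.HeightOneSpectrum.ext (associated_iff_eq.1 h1)

theorem sumF_mem {U : Finset (Pl K)} {v : Pl K} (h : v.asIdeal ∣ ∏ w ∈ U, w.asIdeal) : v ∈ U := by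
  obtain ⟨w, hw, h2⟩ := v.prime.exists_mem_finset_dvd h
  rw [sumF_eq h2]
  exact hw

theorem sumF_dvd (U : Finset (Pl K)) (I : Ideal (𝓞 K)) :
    (∀ v ∈ U, v.asIdeal ∣ I) ↔ (∏ v ∈ U, v.asIdeal) ∣ I := by
  constructor
  · induction U using Finset.induction_on generalizing I with
    | empty => intro _; simp
    | insert v U' hv ih =>
      intro h
      rw [Finset.prod_insert hv]
      obtain ⟨J, rfl⟩ := ih I (fun w hw => h w (Finset.mem_insert_of_mem hw))
      rcases v.prime.dvd_or_dvd (h v (Finset.mem_insert_self _ _)) with h1 | h1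
      · exact absurd (sumF_mem h1) hv
      · obtain ⟨J', rfl⟩ := h1
        exact ⟨J', by ring⟩
  · intro h v hv
    exact (Finset.dvd_prod_of_mem _ hv).trans h

theorem sumF_nm (U : Finset (Pl K)) :
    ((Ideal.absNorm (∏ v ∈ U, v.asIdeal) : ℕ) : ℝ) = ∏ v ∈ U, (nm v : ℝ) := by
  rw [map_prod]
  push_cast
  rfl

theorem sumF_ne (U : Finset (Pl K)) : (∏ v ∈ U, v.asIdeal) ≠ ⊥ := by
  have : (∏ v ∈ U, v.asIdeal) ≠ 0 := Finset.prod_ne_zero_iff.2 (fun v _ => v.ne_bot)
  exact this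

theorem sumF_pos (U : Finset (Pl K)) : 0 < ∏ v ∈ U, (nm v : ℝ) := by
  rw [← sumF_nm]
  have h1 : Ideal.absNorm (∏ v ∈ U, v.asIdeal) ≠ 0 := by
    rw [Ne, Ideal.absNorm_eq_zero_iff]
    exact sumF_ne U
  exact_mod_cast Nat.pos_of_ne_zero h1

theorem sumF {E : Type*} [AddCommMonoid E] (f : Ideal (𝓞 K) → E) (U : Finset (Pl K)) {y : ℝ}
    (hy : 0 ≤ y) :
    ∑ I ∈ (IN K y).filter (fun I => ∀ v ∈ U, v.asIdeal ∣ I), f I =
      ∑ I ∈ IN K (y / ∏ v ∈ U, (nm v : ℝ)), f ((∏ v ∈ U, v.asIdeal) * I) := by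
  have hpos := sumF_pos U
  have hy' : 0 ≤ y / ∏ v ∈ U, (nm v : ℝ) := div_nonneg hy hpos.le
  symm
  refine Finset.sum_bij (fun I _ => (∏ v ∈ U, v.asIdeal) * I) ?_ ?_ ?_ ?_
  · intro I hI
    rw [mem_IN hy', le_div_iff₀ hpos] at hI
    rw [Finset.mem_filter, mem_IN hy, map_mul]
    refine ⟨⟨?_, ?_⟩, ?_⟩
    · push_cast
      rw [sumF_nm, mul_comm]
      exact hI.1
    · exact mul_ne_zero (sumF_ne U) hI.2
    · rw [sumF_dvd]
      exact dvd_mul_right _ _
  · intro I _ J _ h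
    exact mul_left_cancel₀ (sumF_ne U) h
  · intro I hI
    rw [Finset.mem_filter, mem_IN hy, sumF_dvd] at hI
    obtain ⟨⟨h1, h2⟩, J, rfl⟩ := hI
    refine ⟨J, ?_, rfl⟩
    rw [mem_IN hy', le_div_iff₀ hpos]
    refine ⟨?_, right_ne_zero_of_mul h2⟩
    rw [map_mul] at h1
    push_cast at h1
    rw [sumF_nm, mul_comm] at h1
    exact h1
  · intro I _
    rfl

theorem card_small {z : ℝ} (hz : 0 ≤ z) :
    ((plN K z).powerset.filter (fun T : Finset (Pl K) => ∏ v ∈ T, (nm v : ℝ) ≤ z)).card ≤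
      (IN K z).card := by
  refine Finset.card_le_card_of_injOn (fun T => ∏ v ∈ T, v.asIdeal) ?_ ?_
  · intro T hT
    rw [Finset.mem_coe, Finset.mem_filter] at hT
    rw [Finset.mem_coe, mem_IN hz, sumF_nm]
    exact ⟨hT.2, sumF_ne T⟩
  · intro T _ T' _ h
    have h : ∏ v ∈ T, v.asIdeal = ∏ v ∈ T', v.asIdeal := h
    ext v
    constructor
    · intro hv
      apply sumF_mem
      rw [← h]
      exact Finset.dvd_prod_of_mem (fun w : Pl K => w.asIdeal) hv
    · intro hv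
      apply sumF_mem
      rw [h]
      exact Finset.dvd_prod_of_mem (fun w : Pl K => w.asIdeal) hv

end H95.IS
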