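import Pool.Agent.H95.IS.DefsK
import Pool.Agent.H38.TD.MertA

/-!
# IS-VLOW: lower bound for the Selberg denominator over a number field

`merta_dec`: every `I ≠ 0` is `J² ∏_{v ∈ T} v` (`J ≠ 0`). If `N I ≤ R` then `T ⊆ plN K R` and `∏_{v∈T} nm v ≤ R`. So
`∑_{0 < N I ≤ R} 1/N I ≤ (∑_J 1/(N J)²) ∑_{T, N(T) ≤ R} 1/N(T) ≤ C ∑_{T, N(T) ≤ R} ∏_{v ∈ T} 1/(nm v - 1)` (`merta_sq`, see the proof of `merta_ideals` in
`Pool/Agent/H38/TD/MertA.lean`, which is the same argument with an exponential at the end), and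
`harm_lower (cb_ideals K)`: `∑_{0 < N I ≤ R} 1/N I ≥ c₀ log R` for `R ≥ R₁`. For `2 ≤ R < R₁` the sum `V` is `≥ 1` (`T = ∅`) and
`log R ≤ log R₁`: take the smaller constant. (`nv v = nm v` by definition, `H38.TD.Pl = H63.MA.Pl` are both `HeightOneSpectrum (𝓞 K)`.)
-/

set_option autoImplicit false

open scoped NumberField Classical
open H63.MA

namespace H95.IS

theorem vlow_up (K : Type) [Field K] [NumberField K] : ∃ C : ℝ, 0 < C ∧ ∀ R : ℝ,
    ∑ I ∈ ((H38.ML.cb_ideals K).fin R).toFinset, (1 : ℝ) / ((Ideal.absNorm I : ℕ) : ℝ) ≤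
      C * ∑ T ∈ (plN K R).powerset.filter
        (fun T : Finset (Pl K) => ∏ v ∈ T, (nm v : ℝ) ≤ R), ∏ v ∈ T, 1 / ((nm v : ℝ) - 1) := by
  obtain ⟨C, hC, hsq⟩ := H38.TD.merta_sq K
  refine ⟨C, hC, fun R => ?_⟩
  choose! φ hφ1 hφ2 using fun (I : Ideal (𝓞 K)) (hI : I ≠ ⊥) => H38.TD.merta_dec I hI
  have hT : ∀ I ∈ ((H38.ML.cb_ideals K).fin R).toFinset,
      I ≠ ⊥ ∧ ((Ideal.absNorm I : ℕ) : ℝ) ≤ R := by
    intro I hI
    rw [Set.Finite.mem_toFinset] at hI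
    exact hI
  have hnorm : ∀ I : Ideal (𝓞 K), I ≠ ⊥ → Ideal.absNorm I =
      Ideal.absNorm (φ I).1 ^ 2 * ∏ v ∈ (φ I).2, nm v := by
    intro I hI
    conv_lhs => rw [hφ2 I hI]
    rw [map_mul, map_pow, H38.TD.merta_norm_prod]
    rfl
  have hpos : ∀ I : Ideal (𝓞 K), I ≠ ⊥ → 0 < Ideal.absNorm I := fun I hI =>
    Nat.pos_of_ne_zero fun h => hI (Ideal.absNorm_eq_zero_iff.1 h)
  have hnm : ∀ v : Pl K, (1 : ℝ) < (nm v : ℝ) := fun v => by exact_mod_cast one_lt_nm v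
  have hinj : Set.InjOn φ (((H38.ML.cb_ideals K).fin R).toFinset : Set (Ideal (𝓞 K))) := by
    intro I hI J hJ h
    rw [hφ2 I (hT I hI).1, hφ2 J (hT J hJ).1, h]
  have hsub : (((H38.ML.cb_ideals K).fin R).toFinset).image φ ⊆
      ((H38.ML.cb_ideals K).fin R).toFinset ×ˢ
        ((plN K R).powerset.filter (fun T : Finset (Pl K) => ∏ v ∈ T, (nm v : ℝ) ≤ R)) := by
    intro y hy
    rw [Finset.mem_image] at hy
    obtain ⟨I, hI, rfl⟩ := hy
    obtain ⟨hI0, hIz⟩ := hT I hI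
    have hn := hnorm I hI0
    have hA := hpos _ (hφ1 I hI0)
    have hD : 0 < ∏ v ∈ (φ I).2, nm v := Finset.prod_pos fun v _ => (one_lt_nm v).le.trans' (by norm_num)
    have h2 : ∏ v ∈ (φ I).2, nm v ≤ Ideal.absNorm I := by
      rw [hn]
      exact Nat.le_mul_of_pos_left _ (by positivity)
    have h3 : ∏ v ∈ (φ I).2, (nm v : ℝ) ≤ R := by
      refine le_trans ?_ hIz
      exact_mod_cast h2
    rw [Finset.mem_product, Set.Finite.mem_toFinset, Finset.mem_filter, Finset.mem_powerset]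
    refine ⟨⟨hφ1 I hI0, le_trans ?_ hIz⟩, fun v hv => ?_, h3⟩
    · have : Ideal.absNorm (φ I).1 ≤ Ideal.absNorm I := by
        rw [hn]
        nlinarith [Nat.mul_le_mul hA hD]
      exact_mod_cast this
    · rw [mem_plN]
      refine le_trans ?_ h3
      have h4 : nm v ∣ ∏ v ∈ (φ I).2, nm v := Finset.dvd_prod_of_mem _ hv
      exact_mod_cast Nat.le_of_dvd hD h4
  have hf : ∀ T : Finset (Pl K), 0 ≤ ∏ v ∈ T, 1 / ((nm v : ℝ) - 1) := fun T =>
    Finset.prod_nonneg fun v _ => div_nonneg zero_le_one (by linarith [hnm v])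
  have h1 : ∀ I ∈ ((H38.ML.cb_ideals K).fin R).toFinset,
      (1 : ℝ) / ((Ideal.absNorm I : ℕ) : ℝ) ≤
      (fun y : Ideal (𝓞 K) × Finset (Pl K) =>
        1 / ((Ideal.absNorm y.1 : ℕ) : ℝ) ^ 2 * ∏ v ∈ y.2, 1 / ((nm v : ℝ) - 1)) (φ I) := by
    intro I hI
    rw [hnorm I (hT I hI).1]
    push_cast
    rw [← one_div_mul_one_div]
    refine mul_le_mul_of_nonneg_left ?_ (by positivity)
    rw [one_div, ← Finset.prod_inv_distrib]
    refine Finset.prod_le_prod (fun v _ => by positivity) fun v _ => ?_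
    rw [← one_div]
    exact one_div_le_one_div_of_le (by linarith [hnm v]) (by linarith)
  refine (Finset.sum_le_sum h1).trans ?_
  rw [← Finset.sum_image (f := fun y : Ideal (𝓞 K) × Finset (Pl K) =>
        1 / ((Ideal.absNorm y.1 : ℕ) : ℝ) ^ 2 * ∏ v ∈ y.2, 1 / ((nm v : ℝ) - 1)) hinj]
  refine (Finset.sum_le_sum_of_subset_of_nonneg hsub fun y _ _ =>
    mul_nonneg (by positivity) (hf _)).trans ?_
  rw [Finset.sum_product]
  dsimp only
  rw [← Finset.sum_mul_sum]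
  exact mul_le_mul_of_nonneg_right (hsq _ fun I hI => (hT I hI).1)
    (Finset.sum_nonneg fun D _ => hf D)

theorem vlow (K : Type) [Field K] [NumberField K] : ∃ c : ℝ, 0 < c ∧ ∀ R : ℝ, 2 ≤ R →
    c * Real.log R ≤ ∑ T ∈ (plN K R).powerset.filter
      (fun T : Finset (Pl K) => ∏ v ∈ T, (nm v : ℝ) ≤ R), ∏ v ∈ T, 1 / ((nm v : ℝ) - 1) := by
  obtain ⟨c₀, hc₀, X₀, hlow⟩ := H38.ML.harm_lower (H38.ML.cb_ideals K)
  obtain ⟨C, hC, hup⟩ := vlow_up K
  have hnm : ∀ v : Pl K, (1 : ℝ) < (nm v : ℝ) := fun v => by exact_mod_cast one_lt_nm v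
  have hf : ∀ T : Finset (Pl K), 0 ≤ ∏ v ∈ T, 1 / ((nm v : ℝ) - 1) := fun T =>
    Finset.prod_nonneg fun v _ => div_nonneg zero_le_one (by linarith [hnm v])
  have hL : 0 < 1 + |Real.log X₀| := by positivity
  refine ⟨min (c₀ / C) (1 / (1 + |Real.log X₀|)), lt_min (by positivity) (by positivity),
    fun R hR => ?_⟩
  have hlR : 0 ≤ Real.log R := Real.log_nonneg (by linarith)
  rcases le_or_gt X₀ R with h | h
  · refine (mul_le_mul_of_nonneg_right (min_le_left _ _) hlR).trans ?_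
    have h1 := (hlow R h).trans (hup R)
    rw [div_mul_eq_mul_div, div_le_iff₀ hC]
    linarith
  · refine (mul_le_mul_of_nonneg_right (min_le_right _ _) hlR).trans ?_
    have h1 : Real.log R ≤ Real.log X₀ := Real.log_le_log (by linarith) h.le
    have h2 : 1 / (1 + |Real.log X₀|) * Real.log R ≤ 1 := by
      rw [one_div, inv_mul_le_iff₀ hL]
      linarith [le_abs_self (Real.log X₀)]
    refine h2.trans ?_
    have h3 : (∅ : Finset (Pl K)) ∈ (plN K R).powerset.filter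
        (fun T : Finset (Pl K) => ∏ v ∈ T, (nm v : ℝ) ≤ R) := by
      rw [Finset.mem_filter, Finset.mem_powerset, Finset.prod_empty]
      exact ⟨Finset.empty_subset _, by linarith⟩
    have h4 := Finset.single_le_sum (f := fun T : Finset (Pl K) =>
      ∏ v ∈ T, 1 / ((nm v : ℝ) - 1)) (fun T _ => hf T) h3
    rw [Finset.prod_empty] at h4
    exact h4

end H95.IS
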