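import Pool.Agent.H95.IS.Sel
import Pool.Agent.H95.IS.VLow
import Pool.Agent.H95.IS.SumF
import Pool.Agent.H63.MA.Pv

/-!
# IS-MAJ: the Selberg majorant of the rough ideals

`lam` from `sel` with `P = plN K z`, `q v = nm v > 1` (`one_lt_nm`), `R = z`. `V ≥ c log z` (`vlow`).
1. `Rough z I`: no `v ∈ plN K z` divides `I`, so only `T = ∅` contributes to `sw`, `lam ∅ = 1`.
2. `sw(I)² = ∑_{T,T'} lam T lam T' [all v ∈ T ∪ T' divide I]`, so (`sumF`) for every multiplicative `χ` (or `χ = 1`):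
   `∑_{I ∈ IN y} sw(I)² χ(I) = ∑_{T,T'} lam T lam T' χ(∏_{v ∈ T ∪ T'} v) ∑_{I ∈ IN (y/N(T ∪ T'))} χ(I)`. At most `#IN(z) ≤ C z` sets `T` have `lam T ≠ 0`
   (`card_small`, `cnt`), `|lam| ≤ 1`. `|#IN(x) - κ x| ≤ C' y^(1-δ)` for `0 ≤ x ≤ y`, `1 ≤ y` (`cnt` if `x ≥ 1`, `IN K x = ∅` if `x < 1`), so
   `∑ sw² ≤ κ y/V + C' (C z)² y^(1-δ)`.
3. `pv`: for `ψ.Non` the inner sum is `≤ C (N𝔣)^A x^(1-δ) ≤ C (N𝔣)^A y^(1-δ)` (`0` if `x < 1`), `‖ψ.χ‖ ≤ 1`.
(Take the minimum of the `δ`'s of `cnt` and `pv`: `y^(1-δ)` increases when `δ` decreases, as `y ≥ 1`.)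
-/

set_option autoImplicit false

open scoped NumberField Classical
open H63.MA

namespace H95.IS

section aux

variable {K : Type} [Field K] [NumberField K]

theorem maj_exp {E : Type*} [AddCommGroup E] [Module ℝ E] (lam : Finset (Pl K) → ℝ)
    (P : Finset (Pl K)) (f : Ideal (𝓞 K) → E) {y : ℝ} (hy : 0 ≤ y) :
    ∑ I ∈ IN K y, (sw lam P I) ^ 2 • f I =
      ∑ T ∈ P.powerset, ∑ T' ∈ P.powerset, (lam T * lam T') •
        ∑ I ∈ IN K (y / ∏ v ∈ T ∪ T', (nm v : ℝ)), f ((∏ v ∈ T ∪ T', v.asIdeal) * I) := by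
  have h1 : ∀ I : Ideal (𝓞 K), (sw lam P I) ^ 2 = ∑ T ∈ P.powerset, ∑ T' ∈ P.powerset,
      if (∀ v ∈ T ∪ T', v.asIdeal ∣ I) then lam T * lam T' else 0 := by
    intro I
    unfold sw
    rw [sq, Finset.sum_filter, Finset.sum_mul_sum]
    refine Finset.sum_congr rfl fun T _ => Finset.sum_congr rfl fun T' _ => ?_
    by_cases hT : ∀ v ∈ T, v.asIdeal ∣ I
    · by_cases hT' : ∀ v ∈ T', v.asIdeal ∣ I
      · rw [if_pos hT, if_pos hT', if_pos]
        intro v hv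
        rcases Finset.mem_union.1 hv with h | h
        · exact hT v h
        · exact hT' v h
      · rw [if_neg hT', mul_zero, if_neg]
        exact fun h => hT' fun v hv => h v (Finset.mem_union_right _ hv)
    · rw [if_neg hT, zero_mul, if_neg]
      exact fun h => hT fun v hv => h v (Finset.mem_union_left _ hv)
  have h2 : ∀ I ∈ IN K y, (sw lam P I) ^ 2 • f I = ∑ T ∈ P.powerset, ∑ T' ∈ P.powerset,
      (if (∀ v ∈ T ∪ T', v.asIdeal ∣ I) then (lam T * lam T') • f I else 0) := by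
    intro I _
    rw [h1, Finset.sum_smul]
    refine Finset.sum_congr rfl fun T _ => ?_
    rw [Finset.sum_smul]
    refine Finset.sum_congr rfl fun T' _ => ?_
    split_ifs
    · rfl
    · exact zero_smul _ _
  rw [Finset.sum_congr rfl h2, Finset.sum_comm]
  refine Finset.sum_congr rfl fun T _ => ?_
  rw [Finset.sum_comm]
  refine Finset.sum_congr rfl fun T' _ => ?_
  rw [← sumF f (T ∪ T') hy, Finset.smul_sum, ← Finset.sum_filter]

theorem maj_rough {lam : Finset (Pl K) → ℝ} (h0 : lam ∅ = 1) {z : ℝ} {I : Ideal (𝓞 K)}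
    (hI : Rough z I) : sw lam (plN K z) I = 1 := by
  unfold sw
  rw [Finset.sum_eq_single ∅, h0]
  · intro T hT hne
    exfalso
    rw [Finset.mem_filter, Finset.mem_powerset] at hT
    obtain ⟨v, hv⟩ := Finset.nonempty_iff_ne_empty.2 hne
    have h1 := hI v (hT.2 v hv)
    have h2 := (mem_plN K).1 (hT.1 hv)
    linarith
  · intro h
    exfalso
    apply h
    rw [Finset.mem_filter, Finset.mem_powerset]
    exact ⟨Finset.empty_subset _, fun v hv => absurd hv (Finset.notMem_empty v)⟩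

theorem maj_IN {x : ℝ} (hx : x < 1) : IN K x = ∅ := by
  rcases le_or_gt 0 x with h0 | h0
  · rw [Finset.eq_empty_iff_forall_notMem]
    intro I hI
    rw [mem_IN h0] at hI
    have h1 : Ideal.absNorm I ≠ 0 := by
      rw [Ne, Ideal.absNorm_eq_zero_iff]
      exact hI.2
    have h2 : (1 : ℝ) ≤ (Ideal.absNorm I : ℝ) := by exact_mod_cast Nat.one_le_iff_ne_zero.2 h1
    linarith [hI.1]
  · rw [Finset.eq_empty_iff_forall_notMem]
    intro I hI
    unfold IN at hI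
    rw [Finset.mem_filter, Set.Finite.mem_toFinset] at hI
    have h1 : Ideal.absNorm I ≤ ⌊x⌋₊ := hI.1
    rw [Nat.floor_of_nonpos h0.le] at h1
    have h2 : Ideal.absNorm I = 0 := by omega
    exact hI.2 (Ideal.absNorm_eq_zero_iff.1 h2)

theorem maj_rc {𝔣 : Ideal (𝓞 K)} (ψ : RC K 𝔣) (J : Ideal (𝓞 K)) : ‖ψ.χ J‖ ≤ 1 := by
  by_cases h : IsCoprime J 𝔣
  · by_cases hJ : J = ⊥
    · rw [hJ, ← Ideal.zero_eq_bot, map_zero, norm_zero]
      exact zero_le_one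
    · rw [ψ.norm_one J hJ h]
  · rw [ψ.zero_of J h, norm_zero]
    exact zero_le_one

/-- the sum of the absolute values of the weights -/
theorem maj_sum {lam : Finset (Pl K) → ℝ} {z κ C δ : ℝ} (hz : 1 ≤ z) (hC : 0 < C) (hδ : 0 < δ)
    (hcnt : ∀ y : ℝ, 1 ≤ y → |((IN K y).card : ℝ) - κ * y| ≤ C * y ^ (1 - δ))
    (hs : ∀ T, ¬ (T ⊆ plN K z ∧ ∏ v ∈ T, (nm v : ℝ) ≤ z) → lam T = 0) (hl : ∀ T, |lam T| ≤ 1) :
    ∑ T ∈ (plN K z).powerset, |lam T| ≤ (κ + C) * z := by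
  have h1 : ∑ T ∈ (plN K z).powerset, |lam T| ≤
      ∑ T ∈ (plN K z).powerset.filter (fun T : Finset (Pl K) => ∏ v ∈ T, (nm v : ℝ) ≤ z),
        (1 : ℝ) := by
    rw [Finset.sum_filter]
    refine Finset.sum_le_sum fun T _ => ?_
    split_ifs with h
    · exact hl T
    · rw [hs T fun h' => h h'.2, abs_zero]
  refine h1.trans ?_
  rw [Finset.sum_const, nsmul_eq_mul, mul_one]
  have h2 : (((plN K z).powerset.filter
      (fun T : Finset (Pl K) => ∏ v ∈ T, (nm v : ℝ) ≤ z)).card : ℝ) ≤ ((IN K z).card : ℝ) := by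
    exact_mod_cast card_small (by linarith)
  refine h2.trans ?_
  have h3 := (abs_le.1 (hcnt z hz)).2
  have h4 : z ^ (1 - δ) ≤ z := by
    conv_rhs => rw [← Real.rpow_one z]
    exact Real.rpow_le_rpow_of_exponent_le hz (by linarith)
  nlinarith

end aux

theorem maj (K : Type) [Field K] [NumberField K] : ∃ C A δ : ℝ, 0 < C ∧ 0 ≤ A ∧ 0 < δ ∧ δ < 1 ∧
    ∀ z : ℝ, 2 ≤ z → ∃ lam : Finset (Pl K) → ℝ,
      (∀ I : Ideal (𝓞 K), Rough z I → sw lam (plN K z) I = 1) ∧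
      (∀ y : ℝ, 1 ≤ y → ∑ I ∈ IN K y, sw lam (plN K z) I ^ 2 ≤
        C * (y / Real.log z + z ^ 2 * y ^ (1 - δ))) ∧
      (∀ 𝔣 : Ideal (𝓞 K), 𝔣 ≠ ⊥ → ∀ ψ : RC K 𝔣, ψ.Non → ∀ y : ℝ, 1 ≤ y →
        ‖∑ I ∈ IN K y, ((sw lam (plN K z) I ^ 2 : ℝ) : ℂ) * ψ.χ I‖ ≤
          C * (z ^ 2 * (Ideal.absNorm 𝔣 : ℝ) ^ A * y ^ (1 - δ))) := by
  obtain ⟨κ, C₁, δ₁, hκ, hC₁, hδ₁, hδ₁', hcnt⟩ := cnt K
  obtain ⟨C₂, A, δ₂, hC₂, hA, hδ₂, hδ₂', hpv⟩ := pv K
  obtain ⟨c, hc, hV⟩ := vlow K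
  obtain ⟨δ, hδ⟩ : ∃ δ : ℝ, δ = min δ₁ δ₂ := ⟨_, rfl⟩
  have hδ0 : 0 < δ := by rw [hδ]; exact lt_min hδ₁ hδ₂
  have hδ1 : δ < 1 := by rw [hδ]; exact (min_le_left _ _).trans_lt hδ₁'
  have hδa : δ ≤ δ₁ := by rw [hδ]; exact min_le_left _ _
  have hδb : δ ≤ δ₂ := by rw [hδ]; exact min_le_right _ _
  obtain ⟨M, hM⟩ : ∃ M : ℝ, M = κ + C₁ := ⟨_, rfl⟩
  have hM0 : 0 < M := by rw [hM]; positivity
  obtain ⟨C, hC⟩ : ∃ C : ℝ, C = κ / c + (C₁ + κ) * M ^ 2 + C₂ * M ^ 2 := ⟨_, rfl⟩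
  have ha1 : 0 < κ / c := by positivity
  have ha2 : 0 < (C₁ + κ) * M ^ 2 := by positivity
  have ha3 : 0 < C₂ * M ^ 2 := by positivity
  have hC0 : 0 < C := by rw [hC]; positivity
  refine ⟨C, A, δ, hC0, hA, hδ0, hδ1, fun z hz => ?_⟩
  have hnm : ∀ v : Pl K, (1 : ℝ) < (nm v : ℝ) := fun v => by exact_mod_cast one_lt_nm v
  obtain ⟨lam, h0, hs, hl, hq⟩ := sel (plN K z) (fun v => (nm v : ℝ)) (fun v _ => hnm v)
    (R := z) (by linarith)
  have hsum := maj_sum (by linarith : (1 : ℝ) ≤ z) hC₁ hδ₁ hcnt hs hl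
  rw [← hM] at hsum
  have hsum2 : ∑ T ∈ (plN K z).powerset, ∑ T' ∈ (plN K z).powerset, |lam T| * |lam T'| ≤
      M ^ 2 * z ^ 2 := by
    rw [← Finset.sum_mul_sum]
    have h1 : 0 ≤ ∑ T ∈ (plN K z).powerset, |lam T| :=
      Finset.sum_nonneg fun T _ => abs_nonneg _
    calc (∑ T ∈ (plN K z).powerset, |lam T|) * ∑ T ∈ (plN K z).powerset, |lam T|
        ≤ (M * z) * (M * z) := mul_le_mul hsum hsum h1 (by positivity)
      _ = M ^ 2 * z ^ 2 := by ring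
  have hN1 : ∀ U : Finset (Pl K), 1 ≤ ∏ v ∈ U, (nm v : ℝ) := by
    intro U
    induction U using Finset.induction_on with
    | empty => simp
    | insert v U hv ih =>
      rw [Finset.prod_insert hv]
      exact one_le_mul_of_one_le_of_one_le (hnm v).le ih
  refine ⟨lam, fun I hI => maj_rough h0 hI, ?_, ?_⟩
  · intro y hy
    have hy0 : 0 ≤ y := by linarith
    have e1 := maj_exp lam (plN K z) (fun _ => (1 : ℝ)) hy0
    simp only [smul_eq_mul, mul_one, Finset.sum_const, nsmul_eq_mul] at e1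
    rw [e1]
    have hcard : ∀ x : ℝ, 0 ≤ x → x ≤ y →
        |((IN K x).card : ℝ) - κ * x| ≤ (C₁ + κ) * y ^ (1 - δ) := by
      intro x hx hxy
      have hy1 : 1 ≤ y ^ (1 - δ) := Real.one_le_rpow hy (by linarith)
      rcases le_or_gt 1 x with h | h
      · refine (hcnt x h).trans ?_
        have h2 : x ^ (1 - δ₁) ≤ y ^ (1 - δ) :=
          (Real.rpow_le_rpow hx hxy (by linarith)).trans
            (Real.rpow_le_rpow_of_exponent_le hy (by linarith))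
        calc C₁ * x ^ (1 - δ₁) ≤ C₁ * y ^ (1 - δ) := mul_le_mul_of_nonneg_left h2 hC₁.le
          _ ≤ (C₁ + κ) * y ^ (1 - δ) := by nlinarith
      · rw [maj_IN h, Finset.card_empty, Nat.cast_zero, zero_sub, abs_neg,
          abs_of_nonneg (by positivity)]
        nlinarith
    have hterm : ∀ T T' : Finset (Pl K),
        lam T * lam T' * ((IN K (y / ∏ v ∈ T ∪ T', (nm v : ℝ))).card : ℝ) ≤
          κ * y * (lam T * lam T' / ∏ v ∈ T ∪ T', (nm v : ℝ)) +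
            (|lam T| * |lam T'|) * ((C₁ + κ) * y ^ (1 - δ)) := by
      intro T T'
      have hN := hN1 (T ∪ T')
      have h2 := hcard (y / ∏ v ∈ T ∪ T', (nm v : ℝ)) (by positivity)
        (div_le_self hy0 hN)
      have h3 : lam T * lam T' * (((IN K (y / ∏ v ∈ T ∪ T', (nm v : ℝ))).card : ℝ) -
          κ * (y / ∏ v ∈ T ∪ T', (nm v : ℝ))) ≤
          (|lam T| * |lam T'|) * ((C₁ + κ) * y ^ (1 - δ)) := by
        refine (le_abs_self _).trans ?_
        rw [abs_mul, abs_mul]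
        exact mul_le_mul_of_nonneg_left h2 (by positivity)
      have h4 : lam T * lam T' * (κ * (y / ∏ v ∈ T ∪ T', (nm v : ℝ))) =
          κ * y * (lam T * lam T' / ∏ v ∈ T ∪ T', (nm v : ℝ)) := by ring
      linarith
    refine (Finset.sum_le_sum fun T _ => Finset.sum_le_sum fun T' _ => hterm T T').trans ?_
    simp only [Finset.sum_add_distrib]
    simp only [← Finset.mul_sum, ← Finset.sum_mul]
    rw [hq]
    have hlz : 0 < Real.log z := Real.log_pos (by linarith)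
    have h5 := hV z hz
    have h6 : κ * y * (1 / ∑ T ∈ (plN K z).powerset.filter
        (fun T : Finset (Pl K) => ∏ v ∈ T, (nm v : ℝ) ≤ z), ∏ v ∈ T, 1 / ((nm v : ℝ) - 1)) ≤
        κ / c * (y / Real.log z) := by
      have h7 : 1 / ∑ T ∈ (plN K z).powerset.filter
          (fun T : Finset (Pl K) => ∏ v ∈ T, (nm v : ℝ) ≤ z), ∏ v ∈ T, 1 / ((nm v : ℝ) - 1) ≤
          1 / (c * Real.log z) := one_div_le_one_div_of_le (by positivity) h5
      refine (mul_le_mul_of_nonneg_left h7 (by positivity)).trans (le_of_eq ?_)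
      field_simp
    have h8 : (∑ T ∈ (plN K z).powerset, |lam T| * ∑ T' ∈ (plN K z).powerset, |lam T'|) *
        ((C₁ + κ) * y ^ (1 - δ)) ≤ (C₁ + κ) * M ^ 2 * (z ^ 2 * y ^ (1 - δ)) := by
      have h9 : ∑ T ∈ (plN K z).powerset, |lam T| * ∑ T' ∈ (plN K z).powerset, |lam T'| ≤
          M ^ 2 * z ^ 2 := by
        refine le_of_eq_of_le ?_ hsum2
        simp only [Finset.mul_sum]
      refine (mul_le_mul_of_nonneg_right h9 (by positivity)).trans (le_of_eq ?_)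
      ring
    have h10 : 0 ≤ y / Real.log z := by positivity
    have h11 : 0 ≤ z ^ 2 * y ^ (1 - δ) := by positivity
    rw [hC]
    simp only [Finset.sum_mul] at h8 ⊢
    nlinarith
  · intro 𝔣 h𝔣 ψ hψ y hy
    have hy0 : 0 ≤ y := by linarith
    have e1 := maj_exp lam (plN K z) (fun I => ψ.χ I) hy0
    simp only [Complex.real_smul] at e1
    rw [e1]
    obtain ⟨Q, hQ⟩ : ∃ Q : ℝ, Q = (Ideal.absNorm 𝔣 : ℝ) ^ A := ⟨_, rfl⟩
    have hQ0 : 0 ≤ Q := by rw [hQ]; positivity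
    have hin : ∀ x : ℝ, 0 ≤ x → x ≤ y → ‖∑ I ∈ IN K x, ψ.χ I‖ ≤ C₂ * Q * y ^ (1 - δ) := by
      intro x hx hxy
      rcases le_or_gt 1 x with h | h
      · refine (hpv 𝔣 h𝔣 ψ hψ x h).trans ?_
        rw [← hQ]
        have h2 : x ^ (1 - δ₂) ≤ y ^ (1 - δ) :=
          (Real.rpow_le_rpow hx hxy (by linarith)).trans
            (Real.rpow_le_rpow_of_exponent_le hy (by linarith))
        exact mul_le_mul_of_nonneg_left h2 (by positivity)
      · rw [maj_IN h, Finset.sum_empty, norm_zero]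
        positivity
    have hterm : ∀ T T' : Finset (Pl K),
        ‖((lam T * lam T' : ℝ) : ℂ) * ∑ I ∈ IN K (y / ∏ v ∈ T ∪ T', (nm v : ℝ)),
          ψ.χ ((∏ v ∈ T ∪ T', v.asIdeal) * I)‖ ≤
          (|lam T| * |lam T'|) * (C₂ * Q * y ^ (1 - δ)) := by
      intro T T'
      have hN := hN1 (T ∪ T')
      rw [norm_mul, Complex.norm_real, Real.norm_eq_abs, abs_mul]
      refine mul_le_mul_of_nonneg_left ?_ (by positivity)
      have h2 : ∑ I ∈ IN K (y / ∏ v ∈ T ∪ T', (nm v : ℝ)),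
          ψ.χ ((∏ v ∈ T ∪ T', v.asIdeal) * I) = ψ.χ (∏ v ∈ T ∪ T', v.asIdeal) *
            ∑ I ∈ IN K (y / ∏ v ∈ T ∪ T', (nm v : ℝ)), ψ.χ I := by
        rw [Finset.mul_sum]
        exact Finset.sum_congr rfl fun I _ => map_mul _ _ _
      rw [h2, norm_mul]
      have h3 := hin (y / ∏ v ∈ T ∪ T', (nm v : ℝ)) (by positivity) (div_le_self hy0 hN)
      calc ‖ψ.χ (∏ v ∈ T ∪ T', v.asIdeal)‖ *
          ‖∑ I ∈ IN K (y / ∏ v ∈ T ∪ T', (nm v : ℝ)), ψ.χ I‖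
          ≤ 1 * (C₂ * Q * y ^ (1 - δ)) :=
            mul_le_mul (maj_rc ψ _) h3 (norm_nonneg _) zero_le_one
        _ = C₂ * Q * y ^ (1 - δ) := one_mul _
    refine (norm_sum_le _ _).trans ?_
    refine (Finset.sum_le_sum fun T _ => (norm_sum_le _ _).trans
      (Finset.sum_le_sum fun T' _ => hterm T T')).trans ?_
    simp only [← Finset.sum_mul]
    have h9 : ∑ T ∈ (plN K z).powerset, ∑ T' ∈ (plN K z).powerset, |lam T| * |lam T'| ≤
        M ^ 2 * z ^ 2 := hsum2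
    refine (mul_le_mul_of_nonneg_right h9 (by positivity)).trans ?_
    rw [← hQ]
    have h11 : 0 ≤ z ^ 2 * Q * y ^ (1 - δ) := by positivity
    rw [hC]
    nlinarith

end H95.IS
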