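import Pool.Agent.H95.IS.Defs

/-!
# IS-PELL2: solutions of `A x² - B y² = D` in a box

`dbl`: if every element of `s ⊂ [1, M]` is at least twice every smaller one, then `x ↦ Nat.log 2 x` is injective on `s`
(`log 2 y ≥ log 2 (2x) = log 2 x + 1`), with values in `[0, log 2 M]`.

`pell2`: partition the solutions by the residue classes of `(x, y)` modulo `|D|` (`|D|²` classes). Inside a class the first
coordinates satisfy the hypothesis of `dbl` and `x` determines `y` (`B y² = A x² - D`, `y > 0`).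
Let `(x, y)`, `(x', y')` be two solutions in the same class with `x' < x`. Then `B (y² - y'²) = A (x² - x'²) > 0`, so `y' < y`.
`D` divides `A x x' - B y y'` (`≡ A x² - B y² = D`) and `y x' - x y'`; put `p = (A x x' - B y y') / D`,
`q = (y x' - x y') / D`. Identities: `p² - A B q² = 1` (as `(A x x' - B y y')² - AB (y x' - x y')² = (A x² - B y²)(A x'² - B y'²)`),
`x = p x' + q B y'`, `y = p y' + q A x'`, `x' = p x - q B y`, `y' = p y - q A x`.
* `p ≥ 1`: if `p ≤ 0` then `q > 0` (from `x > 0`), and `|p|² > A B q²`; from `q B y' > |p| x'` and `q A x' > |p| y'` by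
  multiplication `q² A B x' y' > p² x' y'`, contradiction (`p = 0` is impossible since `p² = 1 + AB q²`).
* `q ≥ 1`: if `q ≤ 0` then `x' = p x - q B y ≥ p x ≥ x`, contradiction.
* so `p² = 1 + AB q² ≥ 2`, `p ≥ 2`, `x = p x' + q B y' ≥ 2 x'`.
-/

set_option autoImplicit false

namespace H95.IS

theorem dbl (M : ℕ) (s : Finset ℕ) (h1 : ∀ x ∈ s, 1 ≤ x ∧ x ≤ M)
    (h2 : ∀ x ∈ s, ∀ y ∈ s, x < y → 2 * x ≤ y) : s.card ≤ Nat.log 2 M + 1 := by
  have hkey : ∀ x ∈ s, ∀ y ∈ s, x < y → Nat.log 2 x < Nat.log 2 y := by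
    intro x hx y hy hxy
    have h3 : 1 ≤ x := (h1 x hx).1
    have h4 : Nat.log 2 (2 * x) ≤ Nat.log 2 y := Nat.log_mono_right (h2 x hx y hy hxy)
    rw [mul_comm, Nat.log_mul_base (by norm_num) (by omega)] at h4
    omega
  rw [← Finset.card_range (Nat.log 2 M + 1)]
  apply Finset.card_le_card_of_injOn (fun x => Nat.log 2 x)
  · intro x hx
    have h3 := h1 x (Finset.mem_coe.mp hx)
    have h4 : Nat.log 2 x ≤ Nat.log 2 M := Nat.log_mono_right h3.2
    simp only [Finset.coe_range, Set.mem_Iio]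
    omega
  · intro x hx y hy hxy
    have hx' := Finset.mem_coe.mp hx
    have hy' := Finset.mem_coe.mp hy
    simp only at hxy
    rcases lt_trichotomy x y with h | h | h
    · have := hkey x hx' y hy' h
      omega
    · exact h
    · have := hkey y hy' x hx' h
      omega

private theorem pell2_step {A B D : ℤ} (hA : 0 < A) (hB : 0 < B) (hD : D ≠ 0) {x y x' y' : ℤ}
    (hx : 0 < x) (hy : 0 < y) (hx' : 0 < x') (hy' : 0 < y')
    (h : A * x ^ 2 - B * y ^ 2 = D) (h' : A * x' ^ 2 - B * y' ^ 2 = D)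
    (h1 : D ∣ x - x') (h2 : D ∣ y - y') (hlt : x' < x) : 2 * x' ≤ x := by
  obtain ⟨s, hs⟩ := h1
  obtain ⟨t, ht⟩ := h2
  set p : ℤ := 1 + A * s * x' - B * t * y' with hp
  set q : ℤ := t * x' - s * y' with hq
  have hxs : x = x' + D * s := by linarith
  have hyt : y = y' + D * t := by linarith
  have hDp : D * p = A * x * x' - B * y * y' := by
    rw [hp, hxs, hyt]
    linear_combination (-1 : ℤ) * h'
  have hDq : D * q = y * x' - x * y' := by
    rw [hq, hxs, hyt]
    ring
  have e1 : p ^ 2 = 1 + A * B * q ^ 2 := by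
    have h3 : D ^ 2 * p ^ 2 = D ^ 2 * (1 + A * B * q ^ 2) := by
      have h4 : D ^ 2 * p ^ 2 = (A * x * x' - B * y * y') ^ 2 := by rw [← hDp]; ring
      have h5 : D ^ 2 * q ^ 2 = (y * x' - x * y') ^ 2 := by rw [← hDq]; ring
      have h6 : D ^ 2 = (A * x ^ 2 - B * y ^ 2) * (A * x' ^ 2 - B * y' ^ 2) := by
        rw [h, h']; ring
      calc D ^ 2 * p ^ 2 = (A * x * x' - B * y * y') ^ 2 := h4
        _ = (A * x ^ 2 - B * y ^ 2) * (A * x' ^ 2 - B * y' ^ 2)
            + A * B * (y * x' - x * y') ^ 2 := by ring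
        _ = D ^ 2 + A * B * (D ^ 2 * q ^ 2) := by rw [← h6, h5]
        _ = _ := by ring
    exact mul_left_cancel₀ (pow_ne_zero 2 hD) h3
  have e2 : x = p * x' + q * B * y' := by
    apply mul_left_cancel₀ hD
    calc D * x = x * (A * x' ^ 2 - B * y' ^ 2) := by rw [h']; ring
      _ = (A * x * x' - B * y * y') * x' + (y * x' - x * y') * B * y' := by ring
      _ = (D * p) * x' + (D * q) * B * y' := by rw [hDp, hDq]
      _ = _ := by ring
  have e3 : y = p * y' + q * A * x' := by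
    apply mul_left_cancel₀ hD
    calc D * y = y * (A * x' ^ 2 - B * y' ^ 2) := by rw [h']; ring
      _ = (A * x * x' - B * y * y') * y' + (y * x' - x * y') * A * x' := by ring
      _ = (D * p) * y' + (D * q) * A * x' := by rw [hDp, hDq]
      _ = _ := by ring
  have e4 : x' = p * x - q * B * y := by
    apply mul_left_cancel₀ hD
    calc D * x' = x' * (A * x ^ 2 - B * y ^ 2) := by rw [h]; ring
      _ = (A * x * x' - B * y * y') * x - (y * x' - x * y') * B * y := by ring
      _ = (D * p) * x - (D * q) * B * y := by rw [hDp, hDq]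
      _ = _ := by ring
  have hAB : 0 < A * B := mul_pos hA hB
  have hxy' : 0 < x' * y' := mul_pos hx' hy'
  clear_value p q
  have hp1 : 1 ≤ p := by
    by_contra hcon
    have hp0 : p ≤ 0 := by omega
    have h3 : -p * x' < q * B * y' := by nlinarith
    have h4 : -p * y' < q * A * x' := by nlinarith
    have h5 : 0 ≤ -p * x' := mul_nonneg (by omega) hx'.le
    have h6 : 0 ≤ -p * y' := mul_nonneg (by omega) hy'.le
    have h7 : (-p * x') * (-p * y') ≤ (q * B * y') * (q * A * x') :=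
      mul_le_mul h3.le h4.le h6 (by linarith)
    have h8 : p ^ 2 * (x' * y') ≤ A * B * q ^ 2 * (x' * y') := by
      calc p ^ 2 * (x' * y') = (-p * x') * (-p * y') := by ring
        _ ≤ _ := h7
        _ = _ := by ring
    have h9 := le_of_mul_le_mul_right h8 hxy'
    omega
  have hq1 : 1 ≤ q := by
    by_contra hcon
    have hq0 : q ≤ 0 := by omega
    have h3 : 0 ≤ -q * (B * y) := mul_nonneg (by omega) (mul_pos hB hy).le
    have h4 : x ≤ p * x := by nlinarith
    have h5 : x' = p * x + -q * (B * y) := by rw [e4]; ring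
    linarith
  have hp2 : 2 ≤ p := by
    by_contra hcon
    have : p = 1 := by omega
    rw [this] at e1
    have h3 : 0 < A * B * q ^ 2 := by positivity
    omega
  have h3 : 0 < q * B * y' := by positivity
  nlinarith

theorem pell2 {A B D : ℤ} (hA : 0 < A) (hB : 0 < B) (hD : D ≠ 0) (M : ℕ) :
    ((Finset.Icc 1 M ×ˢ Finset.Icc 1 M).filter
      (fun x : ℕ × ℕ => A * (x.1 : ℤ) ^ 2 - B * (x.2 : ℤ) ^ 2 = D)).card ≤
      D.natAbs ^ 2 * (Nat.log 2 M + 1) := by
  classical
  set n := D.natAbs with hn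
  have hn0 : 0 < n := Int.natAbs_pos.mpr hD
  set S := (Finset.Icc 1 M ×ˢ Finset.Icc 1 M).filter
      (fun x : ℕ × ℕ => A * (x.1 : ℤ) ^ 2 - B * (x.2 : ℤ) ^ 2 = D) with hS
  have hmain := Finset.card_le_mul_card_image_of_maps_to (s := S)
    (t := Finset.range n ×ˢ Finset.range n) (f := fun x : ℕ × ℕ => (x.1 % n, x.2 % n))
    (fun a _ => by
      simp only [Finset.mem_product, Finset.mem_range]
      exact ⟨Nat.mod_lt _ hn0, Nat.mod_lt _ hn0⟩) (Nat.log 2 M + 1) ?_
  · rw [Finset.card_product, Finset.card_range] at hmain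
    calc S.card ≤ (Nat.log 2 M + 1) * (n * n) := hmain
      _ = _ := by ring
  · intro b _
    have hmem : ∀ a ∈ S.filter (fun x : ℕ × ℕ => (x.1 % n, x.2 % n) = b),
        (1 ≤ a.1 ∧ a.1 ≤ M) ∧ (1 ≤ a.2 ∧ a.2 ≤ M) ∧
          A * (a.1 : ℤ) ^ 2 - B * (a.2 : ℤ) ^ 2 = D ∧ a.1 % n = b.1 ∧ a.2 % n = b.2 := by
      intro a ha
      rw [Finset.mem_filter, hS, Finset.mem_filter, Finset.mem_product, Finset.mem_Icc,
        Finset.mem_Icc] at ha
      exact ⟨ha.1.1.1, ha.1.1.2, ha.1.2, congrArg Prod.fst ha.2, congrArg Prod.snd ha.2⟩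
    have hdvd : ∀ u v : ℕ, u % n = v % n → D ∣ (u : ℤ) - (v : ℤ) := by
      intro u v huv
      rw [← Int.natAbs_dvd]
      exact (Int.ModEq.dvd ((Int.natCast_modEq_iff).mpr huv.symm))
    have hinj : Set.InjOn Prod.fst
        (↑(S.filter (fun x : ℕ × ℕ => (x.1 % n, x.2 % n) = b)) : Set (ℕ × ℕ)) := by
      intro a ha c hc hac
      obtain ⟨-, ha2, ha3, -, -⟩ := hmem a (Finset.mem_coe.mp ha)
      obtain ⟨-, hc2, hc3, -, -⟩ := hmem c (Finset.mem_coe.mp hc)
      have h3 : B * (a.2 : ℤ) ^ 2 = B * (c.2 : ℤ) ^ 2 := by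
        rw [hac] at ha3
        linarith
      have h4 : (a.2 : ℤ) ^ 2 = (c.2 : ℤ) ^ 2 := mul_left_cancel₀ hB.ne' h3
      have h5 : a.2 ^ 2 = c.2 ^ 2 := by exact_mod_cast h4
      have h6 : a.2 = c.2 := Nat.pow_left_injective (n := 2) (by norm_num) h5
      exact Prod.ext hac h6
    rw [← Finset.card_image_of_injOn hinj]
    apply dbl
    · intro x hx
      rw [Finset.mem_image] at hx
      obtain ⟨a, ha, rfl⟩ := hx
      exact (hmem a ha).1
    · intro x hx y hy hxy
      rw [Finset.mem_image] at hx hy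
      obtain ⟨a, ha, rfl⟩ := hx
      obtain ⟨c, hc, rfl⟩ := hy
      obtain ⟨ha1, ha2, ha3, ha4, ha5⟩ := hmem a ha
      obtain ⟨hc1, hc2, hc3, hc4, hc5⟩ := hmem c hc
      have := pell2_step hA hB hD (x := c.1) (y := c.2) (x' := a.1) (y' := a.2)
        (by omega) (by omega) (by omega) (by omega) hc3 ha3
        (hdvd _ _ (by rw [hc4, ha4])) (hdvd _ _ (by rw [hc5, ha5])) (by omega)
      omega

end H95.IS
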