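import Pool.Agent.H95.IS.Fr

/-!
# IS-POS: the positivity lemma

For `n, n' ∈ A` let `s = s(n,n') = fr l (G n · (G n')^(l-1))`. `s ≤ G n (G n')^(l-1) ≤ M` (both `(G n)^l, (G n')^l ≤ M`, so
`max^l ≤ M`), `LFree l s` (`fr_lfree`). If `p i ∤ G n G n'` then `χ i (G n) conj (χ i (G n')) = χ i (G n) χ i (G n')^(l-1) =
χ i (G n (G n')^(l-1)) = χ i s χ i (u)^l = χ i s` (`fr_pow`: `G n (G n')^(l-1) = s u^l`, `p i ∤ u`; `χ^l = 1` gives `|χ| = 1` and
`conj χ = χ^(l-1)`; `χ i` is multiplicative, `χ i 1 = 1` follows from `mul` and `pow`, powers by induction). If `p i ∣ G n G n'` the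
left side is `0`. So `∑_i (1/p i) χ i (G n) conj (χ i (G n')) = P(s) - ∑_{i : p i ∣ G n G n'} χ i (s) / p i`, and the last sum is at most
`#{i : p i ∣ G n G n'} / lo ≤ m0 log₂ M / lo` (`mult`; the number of primes dividing `g = G n G n' ≤ M` is `≤ log₂ g`;
`G n G n' ≤ max² ≤ max^l ≤ M`).
Expanding the square: `∑_i (1/p i) |∑_n w χ|² = Re ∑_{n,n'} w w' (...) ≤ ∑_{n,n'} w w' ‖P(s(n,n'))‖ + m0 log₂ M / lo`. Let
`E = {s ∈ [1,M] : LFree l s, ρ < ‖P s‖}`, `#E ≤ C1 / ρ^(2r)`. The pairs with `s ∉ E` contribute `≤ ρ`. The pairs with `s ∈ E`: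
`‖P s‖ ≤ ∑ 1/p i ≤ P0` (`|χ| ≤ 1`), and for fixed `n` and `s` the `n'` with `s(n,n') = s` are in one class of `fr l (G n')`
(`fr_cancel`), so `∑_{n'} w n' ≤ W`; in total `≤ P0 #E W`.
-/

set_option autoImplicit false
open scoped Classical

namespace H95.IS

private theorem pos_one {l : ℕ} {lo hi : ℝ} (S : CharSys l lo hi) (hl : 0 < l) {i : S.ι}
    (hi : i ∈ S.V) : S.χ i 1 = 1 := by
  have hp := S.prime i hi
  have h1 := S.mul i hi 1 1
  have h2 := S.pow i hi 1 (fun h => hp.not_dvd_one (by exact_mod_cast h))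
  have h3 : S.χ i 1 ≠ 0 := by
    intro h0
    rw [h0, zero_pow hl.ne'] at h2
    exact zero_ne_one h2
  rw [mul_one] at h1
  have h4 : S.χ i 1 * (S.χ i 1 - 1) = 0 := by
    rw [mul_sub, mul_one, ← h1, sub_self]
  exact sub_eq_zero.1 ((mul_eq_zero.1 h4).resolve_left h3)

private theorem pos_pow {l : ℕ} {lo hi : ℝ} (S : CharSys l lo hi) (hl : 0 < l) {i : S.ι}
    (hi : i ∈ S.V) (a : ℤ) (k : ℕ) : S.χ i (a ^ k) = S.χ i a ^ k := by
  induction k with
  | zero => rw [pow_zero, pow_zero, pos_one S hl hi]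
  | succ k ih => rw [pow_succ, pow_succ, S.mul i hi, ih]

private theorem pos_norm {l : ℕ} {lo hi : ℝ} (S : CharSys l lo hi) (hl : 0 < l) {i : S.ι}
    (hi : i ∈ S.V) (a : ℤ) : ‖S.χ i a‖ ≤ 1 := by
  by_cases hx : ((S.p i : ℕ) : ℤ) ∣ a
  · rw [S.zero i hi a hx, norm_zero]
    exact zero_le_one
  · exact (Complex.norm_eq_one_of_pow_eq_one (S.pow i hi a hx) hl.ne').le

private theorem pos_conj {l : ℕ} {lo hi : ℝ} (S : CharSys l lo hi) (hl : 0 < l) {i : S.ι}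
    (hi : i ∈ S.V) (a : ℤ) (ha : ¬ ((S.p i : ℕ) : ℤ) ∣ a) :
    (starRingEnd ℂ) (S.χ i a) = S.χ i a ^ (l - 1) := by
  have h1 := S.pow i hi a ha
  have h2 : ‖S.χ i a‖ = 1 := Complex.norm_eq_one_of_pow_eq_one h1 hl.ne'
  have h3 : S.χ i a ≠ 0 := by
    intro h0
    rw [h0, norm_zero] at h2
    exact zero_ne_one h2
  rw [← Complex.inv_eq_conj h2]
  apply inv_eq_of_mul_eq_one_left
  rw [← pow_succ, Nat.sub_add_cancel hl, h1]

private theorem pos_match {l : ℕ} {lo hi : ℝ} (S : CharSys l lo hi) (hl : 0 < l) {i : S.ι}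
    (hi : i ∈ S.V) {g g' : ℕ} (hg : g ≠ 0) (hg' : g' ≠ 0) (hp : ¬ S.p i ∣ g * g') :
    S.χ i (g : ℤ) * (starRingEnd ℂ) (S.χ i (g' : ℤ)) =
      S.χ i ((fr l (g * g' ^ (l - 1)) : ℕ) : ℤ) := by
  have hpp := S.prime i hi
  have hm : g * g' ^ (l - 1) ≠ 0 := mul_ne_zero hg (pow_ne_zero _ hg')
  obtain ⟨u, hu0, hu⟩ := fr_pow hl hm
  have h1 : ¬ ((S.p i : ℕ) : ℤ) ∣ (g' : ℤ) := fun h => hp (by
    have : S.p i ∣ g' := by exact_mod_cast h
    exact this.mul_left g)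
  have h2 : ¬ S.p i ∣ u := by
    intro h
    have h3 : S.p i ∣ g * g' ^ (l - 1) := by
      rw [hu]
      exact (h.trans (dvd_pow_self u hl.ne')).mul_left _
    rcases (Nat.Prime.dvd_mul hpp).1 h3 with h4 | h4
    · exact hp (h4.mul_right g')
    · exact hp ((hpp.dvd_of_dvd_pow h4).mul_left g)
  have h2' : ¬ ((S.p i : ℕ) : ℤ) ∣ (u : ℤ) := fun h => h2 (by exact_mod_cast h)
  rw [pos_conj S hl hi _ h1, ← pos_pow S hl hi, ← S.mul i hi]
  have h5 : ((g : ℤ) * (g' : ℤ) ^ (l - 1)) = ((fr l (g * g' ^ (l - 1)) : ℕ) : ℤ) * (u : ℤ) ^ l := by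
    exact_mod_cast hu
  rw [h5, S.mul i hi, pos_pow S hl hi, S.pow i hi _ h2', mul_one]

private theorem pos_card {N : ℕ} (hN : N ≠ 0) : N.primeFactors.card ≤ Nat.log 2 N := by
  apply Nat.le_log_of_pow_le (by norm_num)
  calc 2 ^ N.primeFactors.card ≤ ∏ q ∈ N.primeFactors, q := by
        apply Finset.pow_card_le_prod
        intro q hq
        exact (Nat.prime_of_mem_primeFactors hq).two_le
    _ ≤ N := Nat.le_of_dvd (Nat.pos_of_ne_zero hN) (Nat.prod_primeFactors_dvd N)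

private theorem pos_bad {l : ℕ} {lo hi : ℝ} (hlo : 1 ≤ lo) (S : CharSys l lo hi) {M r m0 : ℕ}
    {P0 C1 : ℝ} (hS : S.Bnd M r m0 P0 C1) {N : ℕ} (hN : N ≠ 0) (hNM : N ≤ M) :
    ∑ i ∈ S.V.filter (fun i => S.p i ∣ N), 1 / (S.p i : ℝ) ≤ m0 * (Nat.log 2 M : ℝ) / lo := by
  have hlo0 : 0 < lo := by linarith
  have h1 : (S.V.filter (fun i => S.p i ∣ N)).card ≤ m0 * Nat.log 2 M := by
    have h2 := Finset.card_le_mul_card_image (f := S.p) (S.V.filter (fun i => S.p i ∣ N)) m0 (by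
      intro q _
      refine le_trans (Finset.card_le_card ?_) (hS.mult q)
      intro i hi
      rw [Finset.mem_filter, Finset.mem_filter] at hi
      rw [Finset.mem_filter]
      exact ⟨hi.1.1, hi.2⟩)
    refine h2.trans (Nat.mul_le_mul_left _ ?_)
    refine le_trans (Finset.card_le_card ?_) ((pos_card hN).trans (Nat.log_mono_right hNM))
    intro q hq
    rw [Finset.mem_image] at hq
    obtain ⟨i, hi, rfl⟩ := hq
    rw [Finset.mem_filter] at hi
    rw [Nat.mem_primeFactors]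
    exact ⟨S.prime i hi.1, hi.2, hN⟩
  calc ∑ i ∈ S.V.filter (fun i => S.p i ∣ N), 1 / (S.p i : ℝ)
      ≤ ∑ i ∈ S.V.filter (fun i => S.p i ∣ N), 1 / lo := by
        apply Finset.sum_le_sum
        intro i hi
        rw [Finset.mem_filter] at hi
        exact one_div_le_one_div_of_le hlo0 (S.lo_lt i hi.1).le
    _ = ((S.V.filter (fun i => S.p i ∣ N)).card : ℝ) * (1 / lo) := by
        rw [Finset.sum_const, nsmul_eq_mul]
    _ ≤ (m0 * Nat.log 2 M : ℕ) * (1 / lo) := by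
        apply mul_le_mul_of_nonneg_right _ (by positivity)
        exact_mod_cast h1
    _ = m0 * (Nat.log 2 M : ℝ) / lo := by
        push_cast
        ring

private theorem pos_K {l : ℕ} (hl : 2 ≤ l) {lo hi : ℝ} (hlo : 1 ≤ lo) (S : CharSys l lo hi)
    {M r m0 : ℕ} {P0 C1 : ℝ} (hS : S.Bnd M r m0 P0 C1) {g g' : ℕ} (hg : g ≠ 0) (hg' : g' ≠ 0)
    (hM : g * g' ≤ M) :
    ‖∑ i ∈ S.V, (1 / (S.p i : ℂ)) * (S.χ i (g : ℤ) * (starRingEnd ℂ) (S.χ i (g' : ℤ)))‖ ≤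
      ‖S.P ((fr l (g * g' ^ (l - 1)) : ℕ) : ℤ)‖ + m0 * (Nat.log 2 M : ℝ) / lo := by
  have hl0 : 0 < l := by omega
  obtain ⟨s, hs⟩ : ∃ s : ℤ, s = ((fr l (g * g' ^ (l - 1)) : ℕ) : ℤ) := ⟨_, rfl⟩
  have h1 : ∑ i ∈ S.V, (1 / (S.p i : ℂ)) *
      (S.χ i (g : ℤ) * (starRingEnd ℂ) (S.χ i (g' : ℤ))) =
      S.P s - ∑ i ∈ S.V.filter (fun i => S.p i ∣ g * g'), S.χ i s / (S.p i : ℂ) := by
    rw [eq_sub_iff_add_eq, Finset.sum_filter, ← Finset.sum_add_distrib]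
    unfold CharSys.P
    refine Finset.sum_congr rfl fun i hi => ?_
    by_cases hp : S.p i ∣ g * g'
    · rw [if_pos hp]
      have hpp := S.prime i hi
      have h2 : S.χ i (g : ℤ) * (starRingEnd ℂ) (S.χ i (g' : ℤ)) = 0 := by
        rcases (Nat.Prime.dvd_mul hpp).1 hp with h4 | h4
        · rw [S.zero i hi (g : ℤ) (by exact_mod_cast h4), zero_mul]
        · rw [S.zero i hi (g' : ℤ) (by exact_mod_cast h4), map_zero, mul_zero]
      rw [h2, mul_zero, zero_add]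
    · rw [if_neg hp, add_zero, pos_match S hl0 hi hg hg' hp, ← hs]
      ring
  rw [h1, ← hs]
  refine (norm_sub_le _ _).trans ?_
  apply add_le_add_right
  refine (norm_sum_le _ _).trans (le_trans ?_
    (pos_bad hlo S hS (N := g * g') (mul_ne_zero hg hg') hM))
  apply Finset.sum_le_sum
  intro i hi
  rw [Finset.mem_filter] at hi
  rw [norm_div, Complex.norm_natCast]
  exact div_le_div_of_nonneg_right (pos_norm S hl0 hi.1 s) (Nat.cast_nonneg _)

theorem pos {l : ℕ} (hl : l.Prime) {lo hi : ℝ} (hlo : 1 ≤ lo) (S : CharSys l lo hi)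
    {M r m0 : ℕ} {P0 C1 : ℝ} (hS : S.Bnd M r m0 P0 C1) (A : Finset ℕ) (w : ℕ → ℝ)
    (hw : ∀ n ∈ A, 0 ≤ w n) (hw1 : ∑ n ∈ A, w n ≤ 1) (G : ℕ → ℤ)
    (hG : ∀ n ∈ A, 0 < G n ∧ G n ^ l ≤ (M : ℤ)) (W : ℝ)
    (hW : ∀ t : ℕ, ∑ n ∈ A.filter (fun n => fr l (G n).toNat = t), w n ≤ W)
    {ρ : ℝ} (hρ : 0 < ρ) (hρ1 : ρ ≤ 1) :
    ∑ i ∈ S.V, 1 / (S.p i : ℝ) * ‖∑ n ∈ A, (w n : ℂ) * S.χ i (G n)‖ ^ 2 ≤
      ρ + P0 * (C1 / ρ ^ (2 * r)) * W + m0 * (Nat.log 2 M : ℝ) / lo := by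
  classical
  have hl2 : 2 ≤ l := hl.two_le
  have hl0 : 0 < l := hl.pos
  have hlo0 : 0 < lo := by linarith
  obtain ⟨g, hg⟩ : ∃ g : ℕ → ℕ, ∀ n, g n = (G n).toNat := ⟨_, fun _ => rfl⟩
  have hgG : ∀ n ∈ A, ((g n : ℕ) : ℤ) = G n := by
    intro n hn
    rw [hg]
    exact Int.toNat_of_nonneg (hG n hn).1.le
  have hg0 : ∀ n ∈ A, g n ≠ 0 := by
    intro n hn h0
    have h1 := hgG n hn
    rw [h0] at h1
    have h2 := (hG n hn).1
    rw [← h1] at h2
    simp at h2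
  have hgl : ∀ n ∈ A, g n ^ l ≤ M := by
    intro n hn
    have h1 := (hG n hn).2
    rw [← hgG n hn] at h1
    exact_mod_cast h1
  have hW0 : 0 ≤ W := by
    refine le_trans ?_ (hW 0)
    exact Finset.sum_nonneg fun n hn => hw n (Finset.mem_of_mem_filter n hn)
  have hP0 : 0 ≤ P0 := le_trans (Finset.sum_nonneg fun i _ => by positivity) hS.mass
  have hPs : ∀ s : ℤ, ‖S.P s‖ ≤ P0 := by
    intro s
    refine le_trans (norm_sum_le _ _) (le_trans ?_ hS.mass)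
    apply Finset.sum_le_sum
    intro i hi
    rw [norm_div, Complex.norm_natCast]
    exact div_le_div_of_nonneg_right (pos_norm S hl0 hi s) (Nat.cast_nonneg _)
  obtain ⟨E, hE⟩ : ∃ E : Finset ℕ, E =
    (Finset.Icc 1 M).filter (fun s : ℕ => LFree l s ∧ ρ < ‖S.P s‖) := ⟨_, rfl⟩
  have hρr : 0 < ρ ^ (2 * r) := by positivity
  have hEc : (E.card : ℝ) ≤ C1 / ρ ^ (2 * r) := by
    rw [le_div_iff₀ hρr, hE]
    exact hS.count ρ hρ hρ1
  have hC0 : 0 ≤ C1 / ρ ^ (2 * r) := le_trans (Nat.cast_nonneg _) hEc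
  obtain ⟨s, hs⟩ : ∃ s : ℕ → ℕ → ℕ, ∀ n n', s n n' = fr l (g n * g n' ^ (l - 1)) :=
    ⟨_, fun _ _ => rfl⟩
  have hmax : ∀ n ∈ A, ∀ n' ∈ A, max (g n) (g n') ^ l ≤ M := by
    intro n hn n' hn'
    rcases le_total (g n) (g n') with h | h
    · rw [max_eq_right h]
      exact hgl n' hn'
    · rw [max_eq_left h]
      exact hgl n hn
  have hsM : ∀ n ∈ A, ∀ n' ∈ A, s n n' ≤ M := by
    intro n hn n' hn'
    rw [hs]
    refine (fr_le l (mul_ne_zero (hg0 n hn) (pow_ne_zero _ (hg0 n' hn')))).trans ?_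
    refine le_trans ?_ (hmax n hn n' hn')
    calc g n * g n' ^ (l - 1) ≤ max (g n) (g n') * max (g n) (g n') ^ (l - 1) :=
          Nat.mul_le_mul (le_max_left _ _) (Nat.pow_le_pow_left (le_max_right _ _) _)
      _ = max (g n) (g n') ^ l := by
          rw [← pow_succ', Nat.sub_add_cancel hl0]
  have hggM : ∀ n ∈ A, ∀ n' ∈ A, g n * g n' ≤ M := by
    intro n hn n' hn'
    refine le_trans ?_ (hmax n hn n' hn')
    have h1 : 1 ≤ max (g n) (g n') :=
      le_trans (Nat.one_le_iff_ne_zero.2 (hg0 n hn)) (le_max_left _ _)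
    calc g n * g n' ≤ max (g n) (g n') * max (g n) (g n') :=
          Nat.mul_le_mul (le_max_left _ _) (le_max_right _ _)
      _ = max (g n) (g n') ^ 2 := by ring
      _ ≤ max (g n) (g n') ^ l := Nat.pow_le_pow_right h1 hl2
  have hB0 : 0 ≤ m0 * (Nat.log 2 M : ℝ) / lo := by positivity
  obtain ⟨Bd, hBd⟩ : ∃ Bd : ℝ, Bd = ρ + P0 * (C1 / ρ ^ (2 * r)) * W +
    m0 * (Nat.log 2 M : ℝ) / lo := ⟨_, rfl⟩
  have hBd0 : 0 ≤ Bd := by
    rw [hBd]
    have := mul_nonneg (mul_nonneg hP0 hC0) hW0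
    linarith
  obtain ⟨K, hK⟩ : ∃ K : ℕ → ℕ → ℂ, ∀ n n', K n n' = ∑ i ∈ S.V, (1 / (S.p i : ℂ)) *
      (S.χ i (G n) * (starRingEnd ℂ) (S.χ i (G n'))) := ⟨_, fun _ _ => rfl⟩
  -- the inner sum
  have hin : ∀ n ∈ A, ∑ n' ∈ A, w n' * ‖K n n'‖ ≤ Bd := by
    intro n hn
    have h1 : ∀ n' ∈ A, w n' * ‖K n n'‖ ≤ w n' * (ρ + m0 * (Nat.log 2 M : ℝ) / lo) +
        P0 * (if s n n' ∈ E then w n' else 0) := by
      intro n' hn'
      have h2 := pos_K hl2 hlo S hS (hg0 n hn) (hg0 n' hn') (hggM n hn n' hn')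
      rw [hgG n hn, hgG n' hn', ← hK, ← hs] at h2
      have h3 : ‖S.P (s n n' : ℕ)‖ ≤ ρ + P0 * (if s n n' ∈ E then 1 else 0) := by
        by_cases hsE : s n n' ∈ E
        · rw [if_pos hsE, mul_one]
          have := hPs (s n n' : ℕ)
          linarith
        · rw [if_neg hsE, mul_zero, add_zero]
          by_contra hcon
          apply hsE
          rw [hE, Finset.mem_filter, Finset.mem_Icc]
          refine ⟨⟨?_, hsM n hn n' hn'⟩, ?_, not_le.1 hcon⟩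
          · rw [hs]
            exact fr_pos _ _
          · rw [hs]
            exact fr_lfree hl0 _
      have h4 : ‖K n n'‖ ≤ (ρ + m0 * (Nat.log 2 M : ℝ) / lo) +
          P0 * (if s n n' ∈ E then 1 else 0) := by linarith
      refine (mul_le_mul_of_nonneg_left h4 (hw n' hn')).trans (le_of_eq ?_)
      by_cases hsE : s n n' ∈ E
      · rw [if_pos hsE, if_pos hsE]
        ring
      · rw [if_neg hsE, if_neg hsE]
        ring
    refine (Finset.sum_le_sum h1).trans ?_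
    rw [Finset.sum_add_distrib, ← Finset.sum_mul, ← Finset.mul_sum, ← Finset.sum_filter]
    have h5 : ∑ n' ∈ A.filter (fun n' => s n n' ∈ E), w n' ≤ (C1 / ρ ^ (2 * r)) * W := by
      have h6 : ∑ n' ∈ A.filter (fun n' => s n n' ∈ E), w n' =
          ∑ t ∈ E, ∑ n' ∈ A.filter (fun n' => s n n' = t), w n' := by
        rw [← Finset.sum_fiberwise_of_maps_to (s := A.filter (fun n' => s n n' ∈ E)) (t := E)
          (g := fun n' => s n n') (fun n' hn' => (Finset.mem_filter.1 hn').2)]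
        refine Finset.sum_congr rfl fun t ht => ?_
        refine Finset.sum_congr ?_ fun _ _ => rfl
        ext n'
        simp only [Finset.mem_filter]
        constructor
        · rintro ⟨⟨h1, _⟩, h3⟩
          exact ⟨h1, h3⟩
        · rintro ⟨h1, h2⟩
          exact ⟨⟨h1, by rw [h2]; exact ht⟩, h2⟩
      rw [h6]
      calc ∑ t ∈ E, ∑ n' ∈ A.filter (fun n' => s n n' = t), w n' ≤ ∑ t ∈ E, W := by
            apply Finset.sum_le_sum
            intro t _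
            rcases (A.filter (fun n' => s n n' = t)).eq_empty_or_nonempty with h7 | ⟨n0, h7⟩
            · rw [h7, Finset.sum_empty]
              exact hW0
            · rw [Finset.mem_filter] at h7
              refine le_trans ?_ (hW (fr l (G n0).toNat))
              apply Finset.sum_le_sum_of_subset_of_nonneg
              · intro n' hn'
                rw [Finset.mem_filter] at hn' ⊢
                refine ⟨hn'.1, ?_⟩
                rw [← hg, ← hg]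
                apply fr_cancel hl0 (hg0 n hn) (hg0 n' hn'.1) (hg0 n0 h7.1)
                rw [← hs, ← hs, hn'.2, h7.2]
              · intro n' hn' _
                exact hw n' (Finset.mem_of_mem_filter n' hn')
        _ = E.card * W := by rw [Finset.sum_const, nsmul_eq_mul]
        _ ≤ (C1 / ρ ^ (2 * r)) * W := mul_le_mul_of_nonneg_right hEc hW0
    have h8 := mul_le_mul_of_nonneg_left h5 hP0
    have h9 : (∑ n' ∈ A, w n') * (ρ + m0 * (Nat.log 2 M : ℝ) / lo) ≤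
        1 * (ρ + m0 * (Nat.log 2 M : ℝ) / lo) :=
      mul_le_mul_of_nonneg_right hw1 (by linarith)
    rw [hBd]
    linarith
  -- the expansion
  have hexp : ((∑ i ∈ S.V, 1 / (S.p i : ℝ) * ‖∑ n ∈ A, (w n : ℂ) * S.χ i (G n)‖ ^ 2 : ℝ) : ℂ) =
      ∑ n ∈ A, ∑ n' ∈ A, ((w n : ℂ) * (w n' : ℂ)) * K n n' := by
    have h1 : ∀ i ∈ S.V, ((1 / (S.p i : ℝ) * ‖∑ n ∈ A, (w n : ℂ) * S.χ i (G n)‖ ^ 2 : ℝ) : ℂ) =
        ∑ n ∈ A, ∑ n' ∈ A, ((w n : ℂ) * (w n' : ℂ)) * ((1 / (S.p i : ℂ)) *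
          (S.χ i (G n) * (starRingEnd ℂ) (S.χ i (G n')))) := by
      intro i _
      have h2 : ((‖∑ n ∈ A, (w n : ℂ) * S.χ i (G n)‖ ^ 2 : ℝ) : ℂ) =
          (∑ n ∈ A, (w n : ℂ) * S.χ i (G n)) *
            ∑ n' ∈ A, (w n' : ℂ) * (starRingEnd ℂ) (S.χ i (G n')) := by
        have h3 : ∑ n' ∈ A, (w n' : ℂ) * (starRingEnd ℂ) (S.χ i (G n')) =
            (starRingEnd ℂ) (∑ n ∈ A, (w n : ℂ) * S.χ i (G n)) := by
          rw [map_sum]
          refine Finset.sum_congr rfl fun n _ => ?_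
          rw [map_mul, Complex.conj_ofReal]
        rw [h3, Complex.mul_conj, Complex.normSq_eq_norm_sq]
      rw [Complex.ofReal_mul, h2, Finset.sum_mul_sum, Finset.mul_sum]
      refine Finset.sum_congr rfl fun n _ => ?_
      rw [Finset.mul_sum]
      refine Finset.sum_congr rfl fun n' _ => ?_
      push_cast
      ring
    rw [Complex.ofReal_sum, Finset.sum_congr rfl h1, Finset.sum_comm]
    refine Finset.sum_congr rfl fun n _ => ?_
    rw [Finset.sum_comm]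
    refine Finset.sum_congr rfl fun n' _ => ?_
    rw [← Finset.mul_sum, hK]
  have hfin : ∑ i ∈ S.V, 1 / (S.p i : ℝ) * ‖∑ n ∈ A, (w n : ℂ) * S.χ i (G n)‖ ^ 2 ≤
      ∑ n ∈ A, w n * ∑ n' ∈ A, w n' * ‖K n n'‖ := by
    refine (le_abs_self _).trans ?_
    rw [← Real.norm_eq_abs, ← Complex.norm_real, hexp]
    refine (norm_sum_le _ _).trans ?_
    apply Finset.sum_le_sum
    intro n hn
    refine (norm_sum_le _ _).trans ?_
    rw [Finset.mul_sum]
    apply Finset.sum_le_sum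
    intro n' hn'
    rw [norm_mul, norm_mul, Complex.norm_real, Complex.norm_real,
      Real.norm_of_nonneg (hw n hn), Real.norm_of_nonneg (hw n' hn'), mul_assoc]
  refine hfin.trans ?_
  calc ∑ n ∈ A, w n * ∑ n' ∈ A, w n' * ‖K n n'‖ ≤ ∑ n ∈ A, w n * Bd := by
        apply Finset.sum_le_sum
        intro n hn
        exact mul_le_mul_of_nonneg_left (hin n hn) (hw n hn)
    _ = (∑ n ∈ A, w n) * Bd := by rw [Finset.sum_mul]
    _ ≤ 1 * Bd := mul_le_mul_of_nonneg_right hw1 hBd0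
    _ = _ := by rw [one_mul, hBd]

end H95.IS
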