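import Mathlib

/-!
# IS-SEL: the Selberg weights, abstract form

`N(T) = ∏_{i∈T} q i`, `f(T) = ∏_{i∈T} (q i - 1) > 0` for `T ⊆ P`, `V = ∑_{T ⊆ P, N(T) ≤ R} 1/f(T) ≥ 1` (`T = ∅`). Put
`lam T = (-1)^|T| (N(T)/f(T)) (1/V) ∑_{U ⊆ P \ T, N(U) N(T) ≤ R} 1/f(U)` for `T ⊆ P`, `N(T) ≤ R`, and `0` otherwise.
* `lam ∅ = 1`.
* `|lam T| ≤ 1`: `V = ∑_{A ⊆ T} ∑_{W ∩ T = A} 1/f(W) = ∑_{A ⊆ T} (1/f(A)) ∑_{U ⊆ P\T, N(U) N(A) ≤ R} 1/f(U) ≥ (∑_{A ⊆ T} 1/f(A)) ∑_{U ⊆ P\T, N(U)N(T) ≤ R} 1/f(U)`
  and `∑_{A ⊆ T} 1/f(A) = ∏_{i ∈ T} (1 + 1/(q i - 1)) = N(T)/f(T)` (`Finset.prod_add` / `Finset.prod_one_add`).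
* The quadratic form: `N(T ∪ T') = N(T) N(T') / N(T ∩ T')` and `N(D) = ∑_{E ⊆ D} f(E)`, so it is
  `∑_{E ⊆ P} f(E) (∑_{T ⊇ E} lam T/N(T))²`. For `E ⊆ P`: `∑_{T ⊇ E} lam T/N(T) = (1/V) ∑_{W ⊇ E, N(W) ≤ R} (1/f(W)) ∑_{E ⊆ T ⊆ W} (-1)^|T|`
  (`W = T ∪ U`, `f(W) = f(T) f(U)`), and the inner sum is `(-1)^|E|` if `W = E` and `0` otherwise; so it is `(-1)^|E|/(f(E) V)` if
  `N(E) ≤ R` and `0` otherwise. The form is `∑_{N(E) ≤ R} 1/(f(E) V²) = 1/V`.
-/

set_option autoImplicit false
open scoped Classical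

namespace H95.IS

private theorem sel_one_le {ι : Type*} (q : ι → ℝ) (s : Finset ι) (hs : ∀ i ∈ s, 1 ≤ q i) :
    1 ≤ ∏ i ∈ s, q i := by
  induction s using Finset.induction_on with
  | empty => simp
  | insert i s hi ih =>
    rw [Finset.prod_insert hi]
    exact one_le_mul_of_one_le_of_one_le (hs i (Finset.mem_insert_self i s))
      (ih fun j hj => hs j (Finset.mem_insert_of_mem hj))

private theorem sel_mono {ι : Type*} (q : ι → ℝ) {T E : Finset ι} (hTE : T ⊆ E)
    (hs : ∀ i ∈ E, 1 ≤ q i) : ∏ i ∈ T, q i ≤ ∏ i ∈ E, q i := by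
  rw [← Finset.prod_sdiff hTE]
  apply le_mul_of_one_le_left
  · exact Finset.prod_nonneg fun i hi => le_trans zero_le_one (hs i (hTE hi))
  · exact sel_one_le q _ fun i hi => hs i (Finset.mem_sdiff.1 hi).1

private theorem sel_alt {ι : Type*} (P E W : Finset ι) (hW : W ⊆ P) :
    ∑ T ∈ P.powerset, (if E ⊆ T then (if T ⊆ W then (-1 : ℝ) ^ T.card else 0) else 0) =
      if E = W then (-1 : ℝ) ^ E.card else 0 := by
  by_cases hEW : E ⊆ W
  · have h1 : ∑ T ∈ P.powerset, (if E ⊆ T then (if T ⊆ W then (-1 : ℝ) ^ T.card else 0) else 0) =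
        ∑ U ∈ (W \ E).powerset, (-1 : ℝ) ^ (E.card + U.card) := by
      rw [← Finset.sum_filter, ← Finset.sum_filter]
      symm
      refine Finset.sum_bij (fun U _ => E ∪ U) ?_ ?_ ?_ ?_
      · intro U hU
        rw [Finset.mem_powerset] at hU
        rw [Finset.mem_filter, Finset.mem_filter, Finset.mem_powerset]
        have h2 : E ∪ U ⊆ W := Finset.union_subset hEW (hU.trans Finset.sdiff_subset)
        exact ⟨⟨h2.trans hW, Finset.subset_union_left⟩, h2⟩
      · intro U hU U' hU' h
        rw [Finset.mem_powerset] at hU hU'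
        ext i
        have h3 := Finset.ext_iff.1 h i
        rw [Finset.mem_union, Finset.mem_union] at h3
        constructor
        · intro hi
          have h4 := (Finset.mem_sdiff.1 (hU hi)).2
          exact (h3.1 (Or.inr hi)).resolve_left h4
        · intro hi
          have h4 := (Finset.mem_sdiff.1 (hU' hi)).2
          exact (h3.2 (Or.inr hi)).resolve_left h4
      · intro T hT
        rw [Finset.mem_filter, Finset.mem_filter, Finset.mem_powerset] at hT
        refine ⟨T \ E, ?_, Finset.union_sdiff_of_subset hT.1.2⟩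
        rw [Finset.mem_powerset]
        exact Finset.sdiff_subset_sdiff hT.2 (Finset.Subset.refl E)
      · intro U hU
        rw [Finset.mem_powerset] at hU
        have h5 : Disjoint E U := by
          rw [Finset.disjoint_left]
          intro i hi hiU
          exact (Finset.mem_sdiff.1 (hU hiU)).2 hi
        rw [Finset.card_union_of_disjoint h5]
    have h6 : ∑ U ∈ (W \ E).powerset, (-1 : ℝ) ^ U.card = if W \ E = ∅ then 1 else 0 := by
      have h7 := Finset.sum_powerset_neg_one_pow_card (x := W \ E)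
      have h8 : ((∑ U ∈ (W \ E).powerset, (-1 : ℤ) ^ U.card : ℤ) : ℝ) =
          ((if W \ E = ∅ then (1 : ℤ) else 0 : ℤ) : ℝ) := by rw [h7]
      push_cast at h8
      exact h8
    rw [h1]
    simp only [pow_add]
    rw [← Finset.mul_sum, h6]
    by_cases hE : E = W
    · rw [if_pos hE, if_pos (by rw [hE, Finset.sdiff_self]), mul_one]
    · rw [if_neg hE, if_neg, mul_zero]
      intro h9
      exact hE (Finset.Subset.antisymm hEW (Finset.sdiff_eq_empty_iff_subset.1 h9))
  · rw [if_neg (show ¬ E = W from fun h => hEW (by rw [h]))]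
    apply Finset.sum_eq_zero
    intro T _
    by_cases h1 : E ⊆ T
    · rw [if_pos h1, if_neg (fun h2 => hEW (h1.trans h2))]
    · rw [if_neg h1]

theorem sel {ι : Type*} (P : Finset ι) (q : ι → ℝ) (hq : ∀ i ∈ P, 1 < q i) {R : ℝ}
    (hR : 1 ≤ R) :
    ∃ lam : Finset ι → ℝ, lam ∅ = 1 ∧ (∀ T, ¬ (T ⊆ P ∧ ∏ i ∈ T, q i ≤ R) → lam T = 0) ∧
      (∀ T, |lam T| ≤ 1) ∧
      ∑ T ∈ P.powerset, ∑ T' ∈ P.powerset, lam T * lam T' / ∏ i ∈ T ∪ T', q i =
        1 / ∑ T ∈ P.powerset.filter (fun T => ∏ i ∈ T, q i ≤ R), ∏ i ∈ T, 1 / (q i - 1) := by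
  have hq0 : ∀ i ∈ P, 0 < q i - 1 := fun i hi => sub_pos.2 (hq i hi)
  have hq1 : ∀ T ⊆ P, ∀ i ∈ T, 1 ≤ q i := fun T hT i hi => (hq i (hT hi)).le
  obtain ⟨D, hD⟩ : ∃ D : Finset (Finset ι), D = P.powerset.filter (fun T => ∏ i ∈ T, q i ≤ R) :=
    ⟨_, rfl⟩
  have hDm : ∀ T, T ∈ D ↔ T ⊆ P ∧ ∏ i ∈ T, q i ≤ R := by
    intro T
    rw [hD, Finset.mem_filter, Finset.mem_powerset]
  obtain ⟨h, hh⟩ : ∃ h : Finset ι → ℝ, ∀ T, h T = ∏ i ∈ T, 1 / (q i - 1) := ⟨_, fun _ => rfl⟩
  have hhp : ∀ T ⊆ P, 0 < h T := by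
    intro T hT
    rw [hh]
    exact Finset.prod_pos fun i hi => one_div_pos.2 (hq0 i (hT hi))
  obtain ⟨V, hV⟩ : ∃ V : ℝ, V = ∑ T ∈ D, h T := ⟨_, rfl⟩
  have h0D : (∅ : Finset ι) ∈ D := by
    rw [hDm]
    exact ⟨Finset.empty_subset _, by rw [Finset.prod_empty]; exact hR⟩
  have hV0 : 0 < V := by
    rw [hV]
    exact Finset.sum_pos (fun T hT => hhp T ((hDm T).1 hT).1) ⟨∅, h0D⟩
  have hNp : ∀ T ⊆ P, 0 < ∏ i ∈ T, q i := by
    intro T hT
    exact lt_of_lt_of_le one_pos (sel_one_le q T (hq1 T hT))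
  -- the coefficients
  obtain ⟨lam, hlam⟩ : ∃ lam : Finset ι → ℝ, ∀ T, lam T =
      (-1) ^ T.card * (∏ i ∈ T, q i) * ((∑ W ∈ D, if T ⊆ W then h W else 0) / V) :=
    ⟨_, fun _ => rfl⟩
  have hempty : lam ∅ = 1 := by
    rw [hlam, Finset.card_empty, pow_zero, Finset.prod_empty]
    have h1 : ∑ W ∈ D, (if (∅ : Finset ι) ⊆ W then h W else 0) = V := by
      rw [hV]
      refine Finset.sum_congr rfl fun W _ => ?_
      rw [if_pos (Finset.empty_subset W)]
    rw [h1, div_self hV0.ne']
    ring
  have hzero : ∀ T, ¬ (T ⊆ P ∧ ∏ i ∈ T, q i ≤ R) → lam T = 0 := by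
    intro T hT
    have h1 : ∑ W ∈ D, (if T ⊆ W then h W else 0) = 0 := by
      apply Finset.sum_eq_zero
      intro W hW
      rw [if_neg]
      intro hTW
      have h2 := (hDm W).1 hW
      exact hT ⟨hTW.trans h2.1, (sel_mono q hTW (hq1 W h2.1)).trans h2.2⟩
    rw [hlam, h1, zero_div, mul_zero]
  refine ⟨lam, hempty, hzero, ?_, ?_⟩
  · intro T
    by_cases hT : T ⊆ P ∧ ∏ i ∈ T, q i ≤ R
    · rw [hlam, abs_mul, abs_mul, abs_pow, abs_neg, abs_one, one_pow, one_mul,
        abs_of_pos (hNp T hT.1)]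
      have h1 : 0 ≤ ∑ W ∈ D, (if T ⊆ W then h W else 0) := by
        apply Finset.sum_nonneg
        intro W hW
        split_ifs
        · exact (hhp W ((hDm W).1 hW).1).le
        · exact le_refl _
      rw [abs_of_nonneg (div_nonneg h1 hV0.le), mul_div_assoc', div_le_one hV0,
        ← Finset.sum_filter]
      have h2 : (∏ i ∈ T, q i) = (∏ i ∈ T, (q i - 1)) * ∑ A ∈ T.powerset, h A := by
        have h3 : ∑ A ∈ T.powerset, h A = ∏ i ∈ T, (1 + 1 / (q i - 1)) := by
          rw [Finset.prod_one_add]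
          refine Finset.sum_congr rfl fun A _ => ?_
          rw [hh]
        rw [h3, ← Finset.prod_mul_distrib]
        refine Finset.prod_congr rfl fun i hi => ?_
        have h4 := (hq0 i (hT.1 hi)).ne'
        field_simp
        ring
      have h5 : ∀ W ∈ D.filter (fun W => T ⊆ W), (∏ i ∈ T, (q i - 1)) * h W = h (W \ T) := by
        intro W hW
        rw [Finset.mem_filter] at hW
        rw [hh, hh, ← Finset.prod_sdiff hW.2, mul_comm, mul_assoc, ← Finset.prod_mul_distrib]
        have h6 : ∏ i ∈ T, 1 / (q i - 1) * (q i - 1) = 1 := by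
          apply Finset.prod_eq_one
          intro i hi
          have h4 := (hq0 i (hT.1 hi)).ne'
          field_simp
        rw [h6, mul_one]
      calc (∏ i ∈ T, q i) * ∑ W ∈ D.filter (fun W => T ⊆ W), h W
          = ∑ A ∈ T.powerset, ∑ W ∈ D.filter (fun W => T ⊆ W), h A * h (W \ T) := by
            rw [h2, mul_comm (∏ i ∈ T, (q i - 1)), mul_assoc, Finset.mul_sum, Finset.sum_congr rfl h5,
              Finset.sum_mul_sum]
        _ = ∑ x ∈ T.powerset ×ˢ D.filter (fun W => T ⊆ W), h (x.1 ∪ (x.2 \ T)) := by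
            rw [Finset.sum_product]
            refine Finset.sum_congr rfl fun A hA => Finset.sum_congr rfl fun W hW => ?_
            rw [Finset.mem_powerset] at hA
            have h7 : Disjoint A (W \ T) := by
              rw [Finset.disjoint_left]
              intro i hi hiW
              exact (Finset.mem_sdiff.1 hiW).2 (hA hi)
            simp only [hh]
            rw [Finset.prod_union h7]
        _ = ∑ Z ∈ (T.powerset ×ˢ D.filter (fun W => T ⊆ W)).image
              (fun x : Finset ι × Finset ι => x.1 ∪ (x.2 \ T)), h Z := by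
            rw [Finset.sum_image]
            intro x hx y hy hxy
            rw [Finset.mem_coe, Finset.mem_product, Finset.mem_powerset, Finset.mem_filter] at hx hy
            have hxy' : x.1 ∪ (x.2 \ T) = y.1 ∪ (y.2 \ T) := hxy
            have e1 : ∀ i, (i ∈ x.1 ∨ (i ∈ x.2 ∧ i ∉ T)) ↔ (i ∈ y.1 ∨ (i ∈ y.2 ∧ i ∉ T)) := by
              intro i
              have := Finset.ext_iff.1 hxy' i
              simpa only [Finset.mem_union, Finset.mem_sdiff] using this
            refine Prod.ext ?_ ?_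
            · ext i
              have h8 := e1 i
              constructor
              · intro hi
                rcases h8.1 (Or.inl hi) with h9 | h9
                · exact h9
                · exact absurd (hx.1 hi) h9.2
              · intro hi
                rcases h8.2 (Or.inl hi) with h9 | h9
                · exact h9
                · exact absurd (hy.1 hi) h9.2
            · ext i
              have h8 := e1 i
              by_cases hiT : i ∈ T
              · exact ⟨fun _ => hy.2.2 hiT, fun _ => hx.2.2 hiT⟩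
              · constructor
                · intro hi
                  rcases h8.1 (Or.inr ⟨hi, hiT⟩) with h9 | h9
                  · exact absurd (hy.1 h9) hiT
                  · exact h9.1
                · intro hi
                  rcases h8.2 (Or.inr ⟨hi, hiT⟩) with h9 | h9
                  · exact absurd (hx.1 h9) hiT
                  · exact h9.1
        _ ≤ ∑ Z ∈ D, h Z := by
            apply Finset.sum_le_sum_of_subset_of_nonneg
            · intro Z hZ
              rw [Finset.mem_image] at hZ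
              obtain ⟨x, hx, rfl⟩ := hZ
              rw [Finset.mem_product, Finset.mem_powerset, Finset.mem_filter] at hx
              have h10 : x.1 ∪ (x.2 \ T) ⊆ x.2 :=
                Finset.union_subset (hx.1.trans hx.2.2) Finset.sdiff_subset
              have h11 := (hDm x.2).1 hx.2.1
              rw [hDm]
              exact ⟨h10.trans h11.1, (sel_mono q h10 (hq1 x.2 h11.1)).trans h11.2⟩
            · intro Z hZ _
              exact (hhp Z ((hDm Z).1 hZ).1).le
        _ = V := hV.symm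
    · rw [hzero T hT, abs_zero]
      exact zero_le_one
  · -- the quadratic form
    obtain ⟨a, ha⟩ : ∃ a : Finset ι → ℝ, ∀ T, a T =
        (-1) ^ T.card * ((∑ W ∈ D, if T ⊆ W then h W else 0) / V) := ⟨_, fun _ => rfl⟩
    have hla : ∀ T, lam T = (∏ i ∈ T, q i) * a T := by
      intro T
      rw [hlam, ha]
      ring
    obtain ⟨f, hf⟩ : ∃ f : Finset ι → ℝ, ∀ T, f T = ∏ i ∈ T, (q i - 1) := ⟨_, fun _ => rfl⟩
    have hNi : ∀ T ∈ P.powerset, ∀ T' ∈ P.powerset, lam T * lam T' / ∏ i ∈ T ∪ T', q i =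
        ∑ E ∈ P.powerset, f E * ((if E ⊆ T then a T else 0) * (if E ⊆ T' then a T' else 0)) := by
      intro T hT T' hT'
      rw [Finset.mem_powerset] at hT hT'
      have h1 : (∏ i ∈ T, q i) * ∏ i ∈ T', q i = (∏ i ∈ T ∪ T', q i) * ∏ i ∈ T ∩ T', q i :=
        (Finset.prod_union_inter).symm
      have h2 : ∏ i ∈ T ∩ T', q i = ∑ E ∈ P.powerset, if E ⊆ T ∩ T' then f E else 0 := by
        have h3 : ∏ i ∈ T ∩ T', q i = ∏ i ∈ T ∩ T', (1 + (q i - 1)) := by
          refine Finset.prod_congr rfl fun i _ => ?_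
          ring
        rw [h3, Finset.prod_one_add, ← Finset.sum_filter]
        refine Finset.sum_congr ?_ fun E _ => (hf E).symm
        ext E
        rw [Finset.mem_filter, Finset.mem_powerset, Finset.mem_powerset]
        exact ⟨fun h4 => ⟨(h4.trans Finset.inter_subset_left).trans hT, h4⟩, fun h4 => h4.2⟩
      have h4 : (∏ i ∈ T ∪ T', q i) ≠ 0 := (hNp _ (Finset.union_subset hT hT')).ne'
      have h5 : lam T * lam T' / ∏ i ∈ T ∪ T', q i = (∏ i ∈ T ∩ T', q i) * (a T * a T') := by
        rw [hla, hla]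
        have h6 : (∏ i ∈ T, q i) * a T * ((∏ i ∈ T', q i) * a T') =
            (∏ i ∈ T ∪ T', q i) * ((∏ i ∈ T ∩ T', q i) * (a T * a T')) := by
          calc _ = ((∏ i ∈ T, q i) * ∏ i ∈ T', q i) * (a T * a T') := by ring
            _ = _ := by rw [h1]; ring
        rw [h6, mul_div_cancel_left₀ _ h4]
      rw [h5, h2, Finset.sum_mul]
      refine Finset.sum_congr rfl fun E _ => ?_
      by_cases h7 : E ⊆ T
      · by_cases h8 : E ⊆ T'
        · rw [if_pos (Finset.subset_inter h7 h8), if_pos h7, if_pos h8]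
        · rw [if_neg (fun h9 => h8 (h9.trans Finset.inter_subset_right)), if_neg h8]
          ring
      · rw [if_neg (fun h9 => h7 (h9.trans Finset.inter_subset_left)), if_neg h7]
        ring
    have hz : ∀ E ∈ P.powerset, ∑ T ∈ P.powerset, (if E ⊆ T then a T else 0) =
        if E ∈ D then (-1) ^ E.card * (h E / V) else 0 := by
      intro E hE
      have h1 : ∀ T ∈ P.powerset, (if E ⊆ T then a T else 0) = ∑ W ∈ D, (h W / V) *
          (if E ⊆ T then (if T ⊆ W then (-1 : ℝ) ^ T.card else 0) else 0) := by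
        intro T _
        by_cases h2 : E ⊆ T
        · simp only [if_pos h2]
          rw [ha, Finset.sum_div, Finset.mul_sum]
          refine Finset.sum_congr rfl fun W _ => ?_
          by_cases h3 : T ⊆ W
          · rw [if_pos h3, if_pos h3]
            ring
          · rw [if_neg h3, if_neg h3]
            ring
        · simp only [if_neg h2, mul_zero, Finset.sum_const_zero]
      rw [Finset.sum_congr rfl h1, Finset.sum_comm]
      have h4 : ∀ W ∈ D, ∑ T ∈ P.powerset, (h W / V) *
          (if E ⊆ T then (if T ⊆ W then (-1 : ℝ) ^ T.card else 0) else 0) =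
          if E = W then (-1 : ℝ) ^ E.card * (h W / V) else 0 := by
        intro W hW
        rw [← Finset.mul_sum, sel_alt P E W ((hDm W).1 hW).1]
        by_cases h5 : E = W
        · rw [if_pos h5, if_pos h5]
          ring
        · rw [if_neg h5, if_neg h5, mul_zero]
      rw [Finset.sum_congr rfl h4, Finset.sum_ite_eq]
    calc ∑ T ∈ P.powerset, ∑ T' ∈ P.powerset, lam T * lam T' / ∏ i ∈ T ∪ T', q i
        = ∑ T ∈ P.powerset, ∑ T' ∈ P.powerset, ∑ E ∈ P.powerset,
            f E * ((if E ⊆ T then a T else 0) * (if E ⊆ T' then a T' else 0)) :=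
          Finset.sum_congr rfl fun T hT => Finset.sum_congr rfl fun T' hT' => hNi T hT T' hT'
      _ = ∑ E ∈ P.powerset, f E * ((∑ T ∈ P.powerset, (if E ⊆ T then a T else 0)) *
            ∑ T' ∈ P.powerset, (if E ⊆ T' then a T' else 0)) := by
          have h1 : ∀ T ∈ P.powerset, ∑ T' ∈ P.powerset, ∑ E ∈ P.powerset,
              f E * ((if E ⊆ T then a T else 0) * (if E ⊆ T' then a T' else 0)) =
              ∑ E ∈ P.powerset, ∑ T' ∈ P.powerset,
                f E * ((if E ⊆ T then a T else 0) * (if E ⊆ T' then a T' else 0)) :=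
            fun T _ => Finset.sum_comm
          rw [Finset.sum_congr rfl h1, Finset.sum_comm]
          refine Finset.sum_congr rfl fun E _ => ?_
          rw [Finset.sum_mul_sum, Finset.mul_sum]
          refine Finset.sum_congr rfl fun T _ => ?_
          rw [Finset.mul_sum]
      _ = ∑ E ∈ P.powerset, (if E ∈ D then h E / V ^ 2 else 0) := by
          refine Finset.sum_congr rfl fun E hE => ?_
          rw [hz E hE]
          by_cases h2 : E ∈ D
          · rw [if_pos h2, if_pos h2]
            have h3 : f E * h E = 1 := by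
              rw [hf, hh, ← Finset.prod_mul_distrib]
              apply Finset.prod_eq_one
              intro i hi
              have h4 := (hq0 i (Finset.mem_powerset.1 hE hi)).ne'
              field_simp
            have h5 : ((-1 : ℝ) ^ E.card) * (-1 : ℝ) ^ E.card = 1 := by
              rw [← mul_pow]
              norm_num
            calc f E * ((-1) ^ E.card * (h E / V) * ((-1) ^ E.card * (h E / V)))
                = (((-1 : ℝ) ^ E.card) * (-1 : ℝ) ^ E.card) * (f E * h E) * (h E / V ^ 2) := by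
                  field_simp
              _ = h E / V ^ 2 := by rw [h5, h3]; ring
          · rw [if_neg h2, if_neg h2]
            ring
      _ = V / V ^ 2 := by
          rw [← Finset.sum_filter, ← Finset.sum_div]
          congr 1
          rw [hV]
          refine Finset.sum_congr ?_ fun _ _ => rfl
          ext E
          rw [Finset.mem_filter, Finset.mem_powerset]
          exact ⟨fun h1 => h1.2, fun h1 => ⟨((hDm E).1 h1).1, h1⟩⟩
      _ = 1 / V := by
          field_simp
      _ = 1 / ∑ T ∈ P.powerset.filter (fun T => ∏ i ∈ T, q i ≤ R), ∏ i ∈ T, 1 / (q i - 1) := by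
          rw [hV, hD]
          congr 1
          refine Finset.sum_congr rfl fun T _ => ?_
          rw [hh]

end H95.IS
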