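import Pool.Agent.H95.IS.Cen

/-!
# IS-SGN: from the sum over all `n` to a sum of a type (all linear forms positive)

Let `I = {c ∈ Sc : j c ≠ 0}` (nonempty). For `s ⊂ I` let `T_s = {(c, if c ∈ s then -1 else 1, j c) : c ∈ I}`, an element of `typs l k H`.
`χ i 0 = 0`, so the `n` with `Lf c 1 n = 0` for some `c ∈ I` contribute `0` (`j c ≥ 1`), and the factors with `j c = 0` are `1`. The other
`n ∈ [N]` are partitioned according to `s(n) = {c ∈ I : Lf c 1 n < 0}`, and `s(n) = s` iff `dom T_s n` (`Lf c (-1) n = - Lf c 1 n`). For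
those `χ i (Lf c 1 n) = χ i (σ) χ i (Lf c σ n)`, so `∏_{c ∈ I} χ i (Lf c 1 n)^{j c} = (∏ χ i (σ_c)^{j c}) χ i (gT T_s n)`, with `|χ i (σ)| ≤ 1`
(`pow` for `±1`, or `0`). Hence the norm of the sum is `≤ ∑_{s ⊂ I} ‖ST S i w [N] T_s‖ ≤ 2^{|I|} max ≤ 2^k max`.
-/

set_option autoImplicit false
open scoped Classical

namespace H95.IS

theorem sgn_one {l : ℕ} (hl : l.Prime) {lo hi : ℝ} (S : CharSys l lo hi) {i : S.ι}
    (hiV : i ∈ S.V) : S.χ i 1 = 1 := by
  have hp : ¬ (S.p i : ℤ) ∣ 1 := by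
    intro h
    have h1 := Int.natCast_dvd_natCast.mp (show (S.p i : ℤ) ∣ ((1 : ℕ) : ℤ) by exact_mod_cast h)
    exact (S.prime i hiV).one_lt.ne' (Nat.dvd_one.mp h1)
  have h1 : S.χ i 1 ^ l = 1 := S.pow i hiV 1 hp
  have h2 : S.χ i 1 = S.χ i 1 * S.χ i 1 := by
    have := S.mul i hiV 1 1
    rwa [mul_one] at this
  have h3 : S.χ i 1 ≠ 0 := by
    intro h0
    rw [h0, zero_pow hl.ne_zero] at h1
    exact zero_ne_one h1
  have h4 : S.χ i 1 * (S.χ i 1 - 1) = 0 := by
    rw [mul_sub, mul_one, ← h2, sub_self]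
  rcases mul_eq_zero.mp h4 with h | h
  · exact absurd h h3
  · exact sub_eq_zero.mp h

/-- the character as a monoid homomorphism -/
noncomputable def sgnHom {l : ℕ} (hl : l.Prime) {lo hi : ℝ} (S : CharSys l lo hi) {i : S.ι}
    (hiV : i ∈ S.V) : ℤ →* ℂ where
  toFun := S.χ i
  map_one' := sgn_one hl S hiV
  map_mul' := S.mul i hiV

theorem sgn_norm {l : ℕ} (hl : l.Prime) {lo hi : ℝ} (S : CharSys l lo hi) {i : S.ι}
    (hiV : i ∈ S.V) (a : ℤ) : ‖S.χ i a‖ ≤ 1 := by
  by_cases h : (S.p i : ℤ) ∣ a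
  · rw [S.zero i hiV a h, norm_zero]
    exact zero_le_one
  · have h1 := S.pow i hiV a h
    have h2 : ‖S.χ i a‖ ^ l = 1 := by rw [← norm_pow, h1, norm_one]
    exact (pow_le_one_iff_of_nonneg (norm_nonneg _) hl.ne_zero).mp h2.le

/-- the type with the negative forms `s` -/
noncomputable def sgnT (I : Finset ℚ) (j : ℚ → ℕ) (s : Finset ℚ) : Finset (ℚ × ℤ × ℕ) :=
  I.image fun c => (c, (if c ∈ s then (-1 : ℤ) else 1), j c)

theorem sgnT_mem {l k H : ℕ} (Sc : Finset ℚ) (hk : Sc.card ≤ k) (hSc : Sc ⊆ cen H)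
    (j : ℚ → ℕ) (hj : ∀ c ∈ Sc, j c < l) (hj0 : ∃ c ∈ Sc, j c ≠ 0) (s : Finset ℚ) :
    sgnT (Sc.filter fun c => j c ≠ 0) j s ∈ typs l k H := by
  unfold typs
  rw [Finset.mem_filter, Finset.mem_powerset]
  refine ⟨?_, ?_, ?_, ?_⟩
  · intro t ht
    unfold sgnT at ht
    rw [Finset.mem_image] at ht
    obtain ⟨c, hc, rfl⟩ := ht
    rw [Finset.mem_filter] at hc
    rw [Finset.mem_product, Finset.mem_product]
    refine ⟨hSc hc.1, ?_, ?_⟩
    · by_cases h : c ∈ s
      · simp [h]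
      · simp [h]
    · rw [Finset.mem_Icc]
      have := hj c hc.1
      have := hc.2
      constructor
      · show 1 ≤ j c
        omega
      · show j c ≤ l - 1
        omega
  · obtain ⟨c, hc, hc0⟩ := hj0
    exact ⟨_, Finset.mem_image_of_mem _ (Finset.mem_filter.mpr ⟨hc, hc0⟩)⟩
  · exact Finset.card_image_le.trans ((Finset.card_filter_le _ _).trans hk)
  · intro t ht t' ht' h
    unfold sgnT at ht ht'
    rw [Finset.mem_image] at ht ht'
    obtain ⟨c, _, rfl⟩ := ht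
    obtain ⟨c', _, rfl⟩ := ht'
    have hcc : c = c' := h
    rw [hcc]

theorem sgn_prodT {M : Type} [CommMonoid M] (I : Finset ℚ) (j : ℚ → ℕ) (s : Finset ℚ)
    (F : ℚ × ℤ × ℕ → M) :
    ∏ t ∈ sgnT I j s, F t = ∏ c ∈ I, F (c, (if c ∈ s then (-1 : ℤ) else 1), j c) := by
  unfold sgnT
  rw [Finset.prod_image]
  intro c _ c' _ h
  exact congrArg Prod.fst h

theorem sgn_dom_iff (I : Finset ℚ) (j : ℚ → ℕ) (s : Finset ℚ) (n : ℕ) :
    dom (sgnT I j s) n ↔ ∀ c ∈ I, 0 < Lf c (if c ∈ s then (-1 : ℤ) else 1) n := by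
  unfold dom sgnT
  constructor
  · intro h c hc
    exact h _ (Finset.mem_image_of_mem _ hc)
  · intro h t ht
    rw [Finset.mem_image] at ht
    obtain ⟨c, hc, rfl⟩ := ht
    exact h c hc

theorem sgn_Lf (c : ℚ) (σ : ℤ) (n : ℕ) : Lf c σ n = σ * Lf c 1 n := by
  unfold Lf
  ring

theorem sgn {l k H : ℕ} (hl : l.Prime) {lo hi : ℝ} (S : CharSys l lo hi) {i : S.ι}
    (hiV : i ∈ S.V) {N : ℕ} (w : ℕ → ℝ) (Sc : Finset ℚ) (hk : Sc.card ≤ k) (hSc : Sc ⊆ cen H)
    (j : ℚ → ℕ) (hj : ∀ c ∈ Sc, j c < l) (hj0 : ∃ c ∈ Sc, j c ≠ 0) :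
    ∃ T ∈ typs l k H,
      ‖∑ n ∈ Finset.Icc 1 N, (w n : ℂ) * ∏ c ∈ Sc, S.χ i (Lf c 1 n) ^ j c‖ ≤
        2 ^ k * ‖ST S i w (Finset.Icc 1 N) T‖ := by
  set I : Finset ℚ := Sc.filter fun c => j c ≠ 0 with hI
  set eps : Finset ℚ → ℂ := fun s => ∏ c ∈ I, S.χ i (if c ∈ s then (-1 : ℤ) else 1) ^ j c
    with heps
  have hone := sgn_one hl S hiV
  -- the value of the product on the domain of a type
  have hval : ∀ s n, ∏ c ∈ I, S.χ i (Lf c 1 n) ^ j c = eps s * S.χ i (gT (sgnT I j s) n) := by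
    intro s n
    have h1 : S.χ i (gT (sgnT I j s) n) =
        ∏ c ∈ I, S.χ i (Lf c (if c ∈ s then (-1 : ℤ) else 1) n) ^ j c := by
      have h2 : S.χ i (gT (sgnT I j s) n) = sgnHom hl S hiV (gT (sgnT I j s) n) := rfl
      rw [h2]
      unfold gT
      rw [sgn_prodT, map_prod]
      refine Finset.prod_congr rfl fun c _ => ?_
      rw [map_pow]
      rfl
    rw [h1, heps]
    simp only
    rw [← Finset.prod_mul_distrib]
    refine Finset.prod_congr rfl fun c _ => ?_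
    rw [← mul_pow, ← S.mul i hiV]
    congr 2
    rw [sgn_Lf c (if c ∈ s then (-1 : ℤ) else 1) n]
    by_cases h : c ∈ s
    · simp [h]
    · simp [h]
  have hterm : ∀ n, (w n : ℂ) * ∏ c ∈ Sc, S.χ i (Lf c 1 n) ^ j c =
      ∑ s ∈ I.powerset, if dom (sgnT I j s) n then
        eps s * ((w n : ℂ) * S.χ i (gT (sgnT I j s) n)) else 0 := by
    intro n
    have h0 : ∏ c ∈ Sc, S.χ i (Lf c 1 n) ^ j c = ∏ c ∈ I, S.χ i (Lf c 1 n) ^ j c := by
      rw [hI, Finset.prod_filter]
      refine Finset.prod_congr rfl fun c _ => ?_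
      by_cases h : j c = 0
      · simp [h]
      · simp [h]
    rw [h0]
    by_cases hz : ∃ c ∈ I, Lf c 1 n = 0
    · obtain ⟨c, hc, hc0⟩ := hz
      have h1 : ∏ c ∈ I, S.χ i (Lf c 1 n) ^ j c = 0 := by
        refine Finset.prod_eq_zero hc ?_
        rw [hc0, S.zero i hiV 0 (dvd_zero _)]
        exact zero_pow (Finset.mem_filter.mp hc).2
      rw [h1, mul_zero]
      symm
      refine Finset.sum_eq_zero fun s _ => ?_
      rw [if_neg]
      intro hd
      rw [sgn_dom_iff] at hd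
      have h2 := hd c hc
      rw [sgn_Lf, hc0, mul_zero] at h2
      exact lt_irrefl _ h2
    · push Not at hz
      set s0 : Finset ℚ := I.filter fun c => Lf c 1 n < 0 with hs0
      have hd0 : dom (sgnT I j s0) n := by
        rw [sgn_dom_iff]
        intro c hc
        rw [sgn_Lf]
        have h1 := hz c hc
        by_cases h : Lf c 1 n < 0
        · have : c ∈ s0 := Finset.mem_filter.mpr ⟨hc, h⟩
          rw [if_pos this]
          linarith
        · have : c ∉ s0 := fun hh => h (Finset.mem_filter.mp hh).2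
          rw [if_neg this]
          have h2 : 0 ≤ Lf c 1 n := not_lt.mp h
          have := lt_of_le_of_ne h2 (Ne.symm h1)
          linarith
      rw [Finset.sum_eq_single s0]
      · rw [if_pos hd0, hval s0 n]
        ring
      · intro s hs hne
        rw [if_neg]
        intro hd
        apply hne
        rw [sgn_dom_iff] at hd
        ext c
        constructor
        · intro hc
          have hcI := Finset.mem_powerset.mp hs hc
          have h1 := hd c hcI
          rw [if_pos hc, sgn_Lf] at h1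
          exact Finset.mem_filter.mpr ⟨hcI, by linarith⟩
        · intro hc
          rw [hs0, Finset.mem_filter] at hc
          by_contra hcs
          have h1 := hd c hc.1
          rw [if_neg hcs] at h1
          linarith [hc.2]
      · intro hns
        exact absurd (Finset.mem_powerset.mpr (Finset.filter_subset _ _)) hns
  have hsum : ∑ n ∈ Finset.Icc 1 N, (w n : ℂ) * ∏ c ∈ Sc, S.χ i (Lf c 1 n) ^ j c =
      ∑ s ∈ I.powerset, eps s * ST S i w (Finset.Icc 1 N) (sgnT I j s) := by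
    rw [Finset.sum_congr rfl fun n _ => hterm n, Finset.sum_comm]
    refine Finset.sum_congr rfl fun s _ => ?_
    unfold ST
    rw [← Finset.sum_filter, Finset.mul_sum]
  obtain ⟨s0, hs0, hmax⟩ := Finset.exists_max_image I.powerset
    (fun s => ‖ST S i w (Finset.Icc 1 N) (sgnT I j s)‖) ⟨∅, Finset.empty_mem_powerset _⟩
  refine ⟨sgnT I j s0, sgnT_mem Sc hk hSc j hj hj0 s0, ?_⟩
  rw [hsum]
  have heps1 : ∀ s, ‖eps s‖ ≤ 1 := by
    intro s
    rw [heps]
    simp only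
    rw [norm_prod]
    refine Finset.prod_le_one (fun c _ => norm_nonneg _) fun c _ => ?_
    rw [norm_pow]
    exact pow_le_one₀ (norm_nonneg _) (sgn_norm hl S hiV _)
  calc ‖∑ s ∈ I.powerset, eps s * ST S i w (Finset.Icc 1 N) (sgnT I j s)‖
      ≤ ∑ s ∈ I.powerset, ‖eps s * ST S i w (Finset.Icc 1 N) (sgnT I j s)‖ := norm_sum_le _ _
    _ ≤ ∑ s ∈ I.powerset, ‖ST S i w (Finset.Icc 1 N) (sgnT I j s0)‖ := by
        refine Finset.sum_le_sum fun s hs => ?_
        rw [norm_mul]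
        calc ‖eps s‖ * ‖ST S i w (Finset.Icc 1 N) (sgnT I j s)‖
            ≤ 1 * ‖ST S i w (Finset.Icc 1 N) (sgnT I j s)‖ :=
              mul_le_mul_of_nonneg_right (heps1 s) (norm_nonneg _)
          _ = ‖ST S i w (Finset.Icc 1 N) (sgnT I j s)‖ := one_mul _
          _ ≤ _ := hmax s hs
    _ = (2 ^ I.card : ℝ) * ‖ST S i w (Finset.Icc 1 N) (sgnT I j s0)‖ := by
        rw [Finset.sum_const, Finset.card_powerset, nsmul_eq_mul]
        push_cast
        rfl
    _ ≤ 2 ^ k * ‖ST S i w (Finset.Icc 1 N) (sgnT I j s0)‖ := by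
        refine mul_le_mul_of_nonneg_right ?_ (norm_nonneg _)
        exact pow_le_pow_right₀ (by norm_num) ((Finset.card_filter_le _ _).trans hk)

end H95.IS
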