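import Pool.Agent.H95.IS.Loc
import Pool.Agent.H95.IS.Sgn
import Pool.Agent.H95.IS.Bad
import Pool.Agent.H95.IS.Light
import Pool.Agent.H95.IS.HeavyN
import Pool.Agent.H95.IS.Extr

/-!
# IS-WMAIN: the weighted theorem (assembly)

`hlin` is the statement of the module LIN. Put `κ3 = κ / (2 (2l)^k)`, `κ2 = κ3/2`, `η1 = ε/4`. From `hlin` with `B = 3 l² k`: `r, m0, P0, C1`. `δ` is the
minimum of `1` and the `δ`'s of `bad` (`τ = κ/(2 l^k)`, `η/4`), `light_small` (`θ = κ3/2`, `η/4`), `heavy_few` (`κ2`), `big2` (`ξ = ε/2`); `c` from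
`extract` with `η2 = η/(2 M1)`, `M1 = 4l/κ2² + 1`.
Let `S` be the character system of `N`. For `p ∈ G` choose `i(p) ∈ S.V` with `S.p (i p) = p` (`surj`; injective) and `Sc p, θ p` from
`CellW`. Remove from `G` the `p` in the set of `bad` and the `p` with `i(p)` in the set of `light_small`: the rest `G1` has `∑ 1/p ≥ η/2`. For
`p ∈ G1`: `loc` (transport along `S.p (i p) = p`: `subst`/`▸`, e.g. obtain `CellW .. (S.p i)` by rewriting) and `sgn` give `T_p ∈ typs` with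
`‖ST S i w [N] T_p‖ ≥ κ3`. `[N] ∩ dom T` is the disjoint union of `light` and `heavy`, the light part has norm `≤ κ3/2`, so the heavy part has norm
`≥ κ3/2` and (`|χ| ≤ 1`) `w(heavy T_p) ≥ κ2`. If `T_p.card ≥ 2` then every class has mass `≤ N^(ε/2) N^(-ε) < N^(-η1)` (`N ≥ 2`), so `heavy = ∅`:
contradiction. So `T_p.card = 1` (`T_p` is nonempty) and `T_p` is one of at most `M1` types (`heavy_few`); by pigeonhole there is `T` with
`∑_{p ∈ G1, T_p = T} 1/p ≥ η/(2 M1)`; `extract` gives `t` with `Wm l N w T t ≥ c`. `T = {(c0, σ, j)}`, and the class contains some `n₀`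
(`c > 0`); all its `n` have `0 < Lf c0 σ n` and `fr l (Lf c0 σ n).toNat = fr l (Lf c0 σ n₀).toNat` (`fr_pow_cancel`).
-/

set_option autoImplicit false
open scoped Classical

namespace H95.IS

theorem WMain_chi {l : ℕ} (hl : l.Prime) {lo hi : ℝ} (S : CharSys l lo hi) {i : S.ι}
    (hiV : i ∈ S.V) (x : ℤ) : ‖S.χ i x‖ ≤ 1 := by
  by_cases hx : ((S.p i : ℕ) : ℤ) ∣ x
  · rw [S.zero i hiV x hx, norm_zero]
    exact zero_le_one
  · exact (Complex.norm_eq_one_of_pow_eq_one (S.pow i hiV x hx) hl.pos.ne').le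

theorem WMain_split {l : ℕ} (hl : l.Prime) {lo hi : ℝ} (S : CharSys l lo hi) {i : S.ι}
    (hiV : i ∈ S.V) (N : ℕ) (w : ℕ → ℝ) (hw : ∀ n, 0 ≤ w n) (T : Finset (ℚ × ℤ × ℕ)) (τ : ℝ) :
    ‖ST S i w (Finset.Icc 1 N) T‖ ≤
      ‖ST S i w (light l N w T τ) T‖ + ∑ n ∈ heavy l N w T τ, w n := by
  have h1 : ST S i w (Finset.Icc 1 N) T =
      (∑ n ∈ light l N w T τ, (w n : ℂ) * S.χ i (gT T n)) +
        ∑ n ∈ heavy l N w T τ, (w n : ℂ) * S.χ i (gT T n) := by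
    unfold ST light heavy
    rw [← Finset.sum_filter_add_sum_filter_not ((Finset.Icc 1 N).filter fun n => dom T n)
      (fun n => Wm l N w T (fr l (gT T n).toNat) < τ), Finset.filter_filter, Finset.filter_filter]
    congr 1
    apply Finset.sum_congr _ fun _ _ => rfl
    ext n
    simp only [Finset.mem_filter, not_lt]
  have h2 : ST S i w (light l N w T τ) T =
      ∑ n ∈ light l N w T τ, (w n : ℂ) * S.χ i (gT T n) := by
    unfold ST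
    rw [Finset.filter_true_of_mem]
    intro n hn
    unfold light at hn
    exact (Finset.mem_filter.mp hn).2.1
  rw [h1, h2]
  refine (norm_add_le _ _).trans (add_le_add le_rfl ?_)
  refine (norm_sum_le _ _).trans (Finset.sum_le_sum fun n _ => ?_)
  rw [norm_mul, Complex.norm_real, Real.norm_of_nonneg (hw n)]
  exact mul_le_of_le_one_right (hw n) (WMain_chi hl S hiV _)

theorem WMain_inj {l : ℕ} {lo hi : ℝ} (S : CharSys l lo hi) (G : Finset ℕ) (e : ℕ → S.ι)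
    (he : ∀ p ∈ G, e p ∈ S.V ∧ S.p (e p) = p) (Q : S.ι → Prop) (hQ : ∀ p ∈ G, Q (e p)) :
    ∑ p ∈ G, (1 : ℝ) / p ≤ ∑ i ∈ S.V.filter Q, (1 : ℝ) / S.p i := by
  have h1 : ∑ p ∈ G, (1 : ℝ) / p = ∑ i ∈ G.image e, (1 : ℝ) / S.p i := by
    rw [Finset.sum_image]
    · exact Finset.sum_congr rfl fun p hp => by rw [(he p hp).2]
    · intro p hp q hq hpq
      rw [← (he p hp).2, ← (he q hq).2, hpq]
  rw [h1]
  apply Finset.sum_le_sum_of_subset_of_nonneg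
  · intro i hi
    obtain ⟨p, hp, rfl⟩ := Finset.mem_image.mp hi
    exact Finset.mem_filter.mpr ⟨(he p hp).1, hQ p hp⟩
  · intro i _ _
    positivity

theorem WMain_loc {l k H : ℕ} (hl : l.Prime) {lo hi : ℝ} (S : CharSys l lo hi) {i : S.ι}
    (hiV : i ∈ S.V) {N : ℕ} {κ m : ℝ} (hκ : 0 < κ) (w : ℕ → ℝ) (hw : Wt N m w) (p : ℕ)
    (hp : S.p i = p) (Sc : Finset ℚ) (θ : ℚ → ZMod p) (hk : Sc.card ≤ k) (hSc : Sc ⊆ cen H)
    (hθ : ∀ c ∈ Sc, θ c ≠ 0)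
    (hcell : (l : ℝ) ^ Sc.card *
      ∑ n ∈ (Finset.Icc 1 N).filter (fun n => inCell l p Sc θ n), w n ≤ 1 - κ)
    (hbad : ∑ n ∈ (Finset.Icc 1 N).filter
      (fun n : ℕ => ∃ c ∈ Sc, (p : ℤ) ∣ Lf c 1 n), w n ≤ κ / (2 * (l : ℝ) ^ k)) :
    ∃ T ∈ typs l k H, κ / (2 * (2 * (l : ℝ)) ^ k) ≤ ‖ST S i w (Finset.Icc 1 N) T‖ := by
  subst hp
  have hl0 : (0 : ℝ) < l := by exact_mod_cast hl.pos
  have hlk : (0 : ℝ) ≤ (l : ℝ) ^ k := by positivity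
  have hbad2 := mul_le_mul_of_nonneg_left hbad hlk
  have hbad3 : (l : ℝ) ^ k * (κ / (2 * (l : ℝ) ^ k)) = κ / 2 := by field_simp
  rw [hbad3] at hbad2
  obtain ⟨j, hj1, hj2, hj3⟩ := loc hl S hiV hκ w hw Sc θ hk hθ hcell hbad2
  obtain ⟨T, hT, hT2⟩ := sgn (H := H) hl S hiV w Sc hk hSc j hj1 hj2
  refine ⟨T, hT, ?_⟩
  have h1 := hj3.trans hT2
  have h2 : κ / (2 * (l : ℝ) ^ k) = 2 ^ k * (κ / (2 * (2 * (l : ℝ)) ^ k)) := by
    rw [mul_pow]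
    field_simp
  rw [h2] at h1
  exact le_of_mul_le_mul_left h1 (by positivity)

theorem WMain_two {l N : ℕ} {ε : ℝ} (hε : 0 < ε) (hN : 2 ≤ N) (w : ℕ → ℝ)
    (hw : Wt N ((N : ℝ) ^ (-ε)) w) (T : Finset (ℚ × ℤ × ℕ))
    (hcl : ∀ t : ℕ, (((Finset.Icc 1 N).filter
        (fun n : ℕ => dom T n ∧ fr l (gT T n).toNat = t)).card : ℝ) ≤ (N : ℝ) ^ (ε / 2)) :
    heavy l N w T ((N : ℝ) ^ (-(ε / 4))) = ∅ := by
  have hN1 : (1 : ℝ) < N := by exact_mod_cast hN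
  have hN0 : (0 : ℝ) < N := by linarith
  unfold heavy
  rw [Finset.filter_eq_empty_iff]
  rintro n _ ⟨_, hn⟩
  have h1 : Wm l N w T (fr l (gT T n).toNat) ≤ (N : ℝ) ^ (ε / 2) * (N : ℝ) ^ (-ε) := by
    unfold Wm
    have h2 : ∀ n' ∈ (Finset.Icc 1 N).filter
        (fun n' => dom T n' ∧ fr l (gT T n').toNat = fr l (gT T n).toNat),
        w n' ≤ (N : ℝ) ^ (-ε) := fun n' hn' => hw.le n' (Finset.mem_filter.mp hn').1
    refine (Finset.sum_le_card_nsmul _ _ _ h2).trans ?_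
    rw [nsmul_eq_mul]
    exact mul_le_mul_of_nonneg_right (hcl _) (by positivity)
  rw [← Real.rpow_add hN0] at h1
  have h3 : (N : ℝ) ^ (ε / 2 + -ε) < (N : ℝ) ^ (-(ε / 4)) := by
    apply Real.rpow_lt_rpow_of_exponent_lt hN1
    linarith
  linarith

theorem WMain_end {l k H N : ℕ} (hl : l.Prime) (w : ℕ → ℝ) (hw : ∀ n, 0 ≤ w n)
    (T : Finset (ℚ × ℤ × ℕ)) (hT : T ∈ typs l k H) (hT1 : T.card = 1) {c : ℝ} (hc : 0 < c) (t : ℕ)
    (ht : c ≤ Wm l N w T t) :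
    ∃ c0 ∈ cen H, ∃ σ : ℤ, (σ = 1 ∨ σ = -1) ∧ ∃ t : ℕ,
        c ≤ ∑ n ∈ (Finset.Icc 1 N).filter
          (fun n : ℕ => 0 < Lf c0 σ n ∧ fr l (Lf c0 σ n).toNat = t), w n := by
  obtain ⟨⟨c0, σ, j⟩, rfl⟩ := Finset.card_eq_one.mp hT1
  obtain ⟨_, _, _, hmem⟩ := mem_typs hT
  obtain ⟨hc0, hσ, hj1, hj2⟩ := hmem (c0, σ, j) (Finset.mem_singleton_self _)
  dsimp only at hc0 hσ hj1 hj2
  have hdom : ∀ n, dom {(c0, σ, j)} n → 0 < Lf c0 σ n := fun n h =>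
    h (c0, σ, j) (Finset.mem_singleton_self _)
  have hgT : ∀ n, 0 < Lf c0 σ n → (gT {(c0, σ, j)} n).toNat = (Lf c0 σ n).toNat ^ j := by
    intro n hn
    have h1 : gT {(c0, σ, j)} n = Lf c0 σ n ^ j := by
      unfold gT
      rw [Finset.prod_singleton]
    rw [h1]
    obtain ⟨m, hm⟩ := Int.eq_ofNat_of_zero_le hn.le
    rw [hm]
    have h2 : ((m : ℤ) ^ j) = ((m ^ j : ℕ) : ℤ) := by push_cast; rfl
    rw [h2, Int.toNat_natCast, Int.toNat_natCast]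
  have hne : ((Finset.Icc 1 N).filter
      (fun n => dom {(c0, σ, j)} n ∧ fr l (gT {(c0, σ, j)} n).toNat = t)).Nonempty := by
    rw [Finset.nonempty_iff_ne_empty]
    intro h0
    unfold Wm at ht
    rw [h0, Finset.sum_empty] at ht
    linarith
  obtain ⟨n0, hn0⟩ := hne
  have hn0' := (Finset.mem_filter.mp hn0).2
  refine ⟨c0, hc0, σ, hσ, fr l (Lf c0 σ n0).toNat, ht.trans ?_⟩
  unfold Wm
  apply Finset.sum_le_sum_of_subset_of_nonneg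
  · intro n hn
    rw [Finset.mem_filter] at hn ⊢
    refine ⟨hn.1, hdom n hn.2.1, ?_⟩
    rw [← fr_pow_cancel hl hj1 hj2, ← hgT n (hdom n hn.2.1), ← hgT n0 (hdom n0 hn0'.1), hn.2.2,
      hn0'.2]
  · intro n _ _
    exact hw n

theorem weights {l : ℕ} (hl : l.Prime) (k : ℕ) {ε κ η α β : ℝ} (hε : 0 < ε) (hκ : 0 < κ)
    (hη : 0 < η) (hα : 0 < α)
    (hlin : ∀ B : ℕ, ∃ (r m0 N0 : ℕ) (P0 C1 : ℝ), ∀ N ≥ N0,
      ∃ S : CharSys l ((N : ℝ) ^ α) ((N : ℝ) ^ β), S.Bnd (N ^ B) r m0 P0 C1) :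
    ∃ δ c : ℝ, 0 < δ ∧ 0 < c ∧ ∃ N0 : ℕ, ∀ N ≥ N0, ∀ H : ℕ, (H : ℝ) ≤ (N : ℝ) ^ δ →
      ∀ w : ℕ → ℝ, Wt N ((N : ℝ) ^ (-ε)) w →
      ∀ G : Finset ℕ, (∀ p ∈ G, p.Prime ∧ (N : ℝ) ^ α < p ∧ (p : ℝ) ≤ (N : ℝ) ^ β ∧ l ∣ p - 1 ∧
        CellW l k H N κ w p) → η ≤ ∑ p ∈ G, (1 : ℝ) / p →
      ∃ c0 ∈ cen H, ∃ σ : ℤ, (σ = 1 ∨ σ = -1) ∧ ∃ t : ℕ,
        c ≤ ∑ n ∈ (Finset.Icc 1 N).filter
          (fun n : ℕ => 0 < Lf c0 σ n ∧ fr l (Lf c0 σ n).toNat = t), w n := by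
  have hl0 : (0 : ℝ) < l := by exact_mod_cast hl.pos
  obtain ⟨κ3, hκ3d⟩ : ∃ κ3 : ℝ, κ3 = κ / (2 * (2 * (l : ℝ)) ^ k) := ⟨_, rfl⟩
  have hκ3 : 0 < κ3 := by rw [hκ3d]; positivity
  obtain ⟨κ2, hκ2d⟩ : ∃ κ2 : ℝ, κ2 = κ3 / 2 := ⟨_, rfl⟩
  have hκ2 : 0 < κ2 := by rw [hκ2d]; positivity
  obtain ⟨M1, hM1d⟩ : ∃ M1 : ℝ, M1 = 4 * l / κ2 ^ 2 + 1 := ⟨_, rfl⟩
  have hM1 : 0 < M1 := by rw [hM1d]; positivity
  obtain ⟨η2, hη2d⟩ : ∃ η2 : ℝ, η2 = η / (2 * M1) := ⟨_, rfl⟩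
  have hη2 : 0 < η2 := by rw [hη2d]; positivity
  obtain ⟨r, m0, N1, P0, C1, hS⟩ := hlin (3 * l ^ 2 * k)
  obtain ⟨δ1, hδ1, N2, h2⟩ := bad k (η := η / 4) (τ := κ / (2 * (l : ℝ) ^ k)) hε hα
    (by positivity) (by positivity)
  obtain ⟨δ2, hδ2, N3, h3⟩ := light_small hl k r m0 (η1 := ε / 4) (θ := κ3 / 2) (η := η / 4) P0 C1
    hα (by positivity) (by positivity) (by positivity)
  obtain ⟨δ3, hδ3, N4, h4⟩ := heavy_few hl k (ε := ε) (η1 := ε / 4) (κ2 := κ2) (by positivity)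
    (by linarith) hκ2
  obtain ⟨δ4, hδ4, N5, h5⟩ := big2 hl k (ξ := ε / 2) (by positivity)
  obtain ⟨c, hc, N6, h6⟩ := extract hl k r m0 P0 C1 hα hκ3 hη2
  refine ⟨min 1 (min δ1 (min δ2 (min δ3 δ4))), c, ?_, hc, N1 + N2 + N3 + N4 + N5 + N6 + 2, ?_⟩
  · exact lt_min one_pos (lt_min hδ1 (lt_min hδ2 (lt_min hδ3 hδ4)))
  intro N hN H hH w hw G hG hGη
  have hN1 : (1 : ℝ) ≤ N := by
    have : 1 ≤ N := by omega
    exact_mod_cast this
  have hpw : ∀ δ' : ℝ, min 1 (min δ1 (min δ2 (min δ3 δ4))) ≤ δ' → (H : ℝ) ≤ (N : ℝ) ^ δ' :=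
    fun δ' h => hH.trans (Real.rpow_le_rpow_of_exponent_le hN1 h)
  have hd0 : (H : ℝ) ≤ (N : ℝ) ^ (1 : ℝ) := hpw 1 (min_le_left _ _)
  have hd1 : (H : ℝ) ≤ (N : ℝ) ^ δ1 := hpw δ1 ((min_le_right _ _).trans (min_le_left _ _))
  have hd2 : (H : ℝ) ≤ (N : ℝ) ^ δ2 :=
    hpw δ2 ((min_le_right _ _).trans ((min_le_right _ _).trans (min_le_left _ _)))
  have hd3 : (H : ℝ) ≤ (N : ℝ) ^ δ3 :=
    hpw δ3 ((min_le_right _ _).trans ((min_le_right _ _).trans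
      ((min_le_right _ _).trans (min_le_left _ _))))
  have hd4 : (H : ℝ) ≤ (N : ℝ) ^ δ4 :=
    hpw δ4 ((min_le_right _ _).trans ((min_le_right _ _).trans
      ((min_le_right _ _).trans (min_le_right _ _))))
  have hHN : H ≤ N := by
    rw [Real.rpow_one] at hd0
    exact_mod_cast hd0
  obtain ⟨S, hSB⟩ := hS N (by omega)
  -- the cells
  have hcell : ∀ p, ∃ (Sc : Finset ℚ) (θ : ℚ → ZMod p), p ∈ G → Sc.card ≤ k ∧ Sc ⊆ cen H ∧
      (∀ c ∈ Sc, θ c ≠ 0) ∧ (l : ℝ) ^ Sc.card *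
        ∑ n ∈ (Finset.Icc 1 N).filter (fun n => inCell l p Sc θ n), w n ≤ 1 - κ := by
    intro p
    by_cases hp : p ∈ G
    · obtain ⟨Sc, θ, h⟩ := (hG p hp).2.2.2.2
      exact ⟨Sc, θ, fun _ => h⟩
    · exact ⟨∅, fun _ => 0, fun h => absurd h hp⟩
  choose Sc θ hSc using hcell
  have hB := h2 N (by omega) H hd1 w hw G (fun p hp => ⟨(hG p hp).1, (hG p hp).2.1⟩) Sc
    (fun p hp => ⟨(hSc p hp).1, (hSc p hp).2.1⟩)
  have hL := h3 N (by omega) H hd2 _ S hSB _ w hw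
  -- the indices
  have hGne : G.Nonempty := by
    rw [Finset.nonempty_iff_ne_empty]
    intro h0
    rw [h0, Finset.sum_empty] at hGη
    linarith
  have hex : ∀ p ∈ G, ∃ i, i ∈ S.V ∧ S.p i = p := by
    intro p hp
    obtain ⟨h1, h2, h3, h4, _⟩ := hG p hp
    obtain ⟨i, hi, hip⟩ := S.surj p h1 h2 h3 h4
    exact ⟨i, hi, hip⟩
  obtain ⟨p0, hp0⟩ := hGne
  obtain ⟨i0, _⟩ := hex p0 hp0
  have : Nonempty S.ι := ⟨i0⟩
  choose! e he using hex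
  obtain ⟨Lp, hLp⟩ : ∃ Lp : S.ι → Prop, Lp = fun i => ∃ T ∈ typs l k H,
    κ3 / 2 < ‖ST S i w (light l N w T ((N : ℝ) ^ (-(ε / 4)))) T‖ := ⟨_, rfl⟩
  have hL' : ∑ i ∈ S.V.filter Lp, (1 : ℝ) / S.p i ≤ η / 4 := by
    refine le_trans (le_of_eq ?_) hL
    apply Finset.sum_congr _ fun _ _ => rfl
    ext i
    simp only [Finset.mem_filter, hLp]
  obtain ⟨Bp, hBp⟩ : ∃ Bp : ℕ → Prop, Bp = fun p : ℕ => κ / (2 * (l : ℝ) ^ k) <
    ∑ n ∈ (Finset.Icc 1 N).filter (fun n : ℕ => ∃ c ∈ Sc p, (p : ℤ) ∣ Lf c 1 n), w n := ⟨_, rfl⟩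
  have hB' : ∑ p ∈ G.filter Bp, (1 : ℝ) / p ≤ η / 4 := by
    refine le_trans (le_of_eq ?_) hB
    apply Finset.sum_congr _ fun _ _ => rfl
    ext i
    simp only [Finset.mem_filter, hBp]
  obtain ⟨G1, hG1⟩ : ∃ G1 : Finset ℕ, G1 = G.filter (fun p => ¬ Bp p ∧ ¬ Lp (e p)) := ⟨_, rfl⟩
  have hLG : ∑ p ∈ G.filter (fun p => Lp (e p)), (1 : ℝ) / p ≤ η / 4 := by
    refine (WMain_inj S (G.filter (fun p => Lp (e p))) e ?_ Lp ?_).trans hL'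
    · intro p hp
      exact he p (Finset.mem_filter.mp hp).1
    · intro p hp
      exact (Finset.mem_filter.mp hp).2
  have hG1s : η / 2 ≤ ∑ p ∈ G1, (1 : ℝ) / p := by
    have h7 : ∑ p ∈ G, (1 : ℝ) / p ≤ ∑ p ∈ G.filter Bp, (1 : ℝ) / p +
        ∑ p ∈ G.filter (fun p => Lp (e p)), (1 : ℝ) / p + ∑ p ∈ G1, (1 : ℝ) / p := by
      rw [hG1, Finset.sum_filter, Finset.sum_filter, Finset.sum_filter, ← Finset.sum_add_distrib,
        ← Finset.sum_add_distrib]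
      apply Finset.sum_le_sum
      intro p _
      have h8 : (0 : ℝ) ≤ 1 / p := by positivity
      by_cases hb : Bp p
      · rw [if_pos hb]
        by_cases hlp : Lp (e p)
        · rw [if_pos hlp, if_neg (fun h => h.1 hb)]
          linarith
        · rw [if_neg hlp, if_neg (fun h => h.1 hb)]
          linarith
      · rw [if_neg hb]
        by_cases hlp : Lp (e p)
        · rw [if_pos hlp, if_neg (fun h => h.2 hlp)]
          linarith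
        · rw [if_neg hlp, if_pos ⟨hb, hlp⟩]
          linarith
    linarith
  -- the types
  have hTex : ∀ p ∈ G1, ∃ T, T ∈ typs l k H ∧ T.card = 1 ∧
      κ3 ≤ ‖ST S (e p) w (Finset.Icc 1 N) T‖ ∧
      κ2 ≤ ∑ n ∈ heavy l N w T ((N : ℝ) ^ (-(ε / 4))), w n := by
    intro p hp
    rw [hG1, Finset.mem_filter] at hp
    obtain ⟨hpG, hpB, hpL⟩ := hp
    obtain ⟨s1, s2, s3, s4⟩ := hSc p hpG
    rw [hBp] at hpB
    obtain ⟨T, hT, hT2⟩ := WMain_loc (H := H) hl S (he p hpG).1 hκ w hw p (he p hpG).2 (Sc p)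
      (θ p) s1 s2 s3 s4 (not_lt.mp hpB)
    rw [← hκ3d] at hT2
    have h7 := WMain_split hl S (he p hpG).1 N w hw.nonneg T ((N : ℝ) ^ (-(ε / 4)))
    have h8 : ‖ST S (e p) w (light l N w T ((N : ℝ) ^ (-(ε / 4)))) T‖ ≤ κ3 / 2 := by
      by_contra hcon
      apply hpL
      rw [hLp]
      exact ⟨T, hT, not_le.mp hcon⟩
    have h9 : κ2 ≤ ∑ n ∈ heavy l N w T ((N : ℝ) ^ (-(ε / 4))), w n := by
      rw [hκ2d]
      linarith
    refine ⟨T, hT, ?_, hT2, h9⟩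
    by_contra hne
    have h10 : 2 ≤ T.card := by
      have := Finset.card_pos.mpr (mem_typs hT).1
      omega
    have h11 := WMain_two (l := l) hε (by omega) w hw T
      (fun t => h5 N (by omega) H hd4 T hT h10 t)
    rw [h11, Finset.sum_empty] at h9
    linarith
  choose! Tp hTp using hTex
  obtain ⟨F, hF⟩ : ∃ F : Finset (Finset (ℚ × ℤ × ℕ)), F = (typs l k H).filter fun T =>
    T.card = 1 ∧ κ2 ≤ ∑ n ∈ heavy l N w T ((N : ℝ) ^ (-(ε / 4))), w n := ⟨_, rfl⟩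
  have hFc := h4 N (by omega) H hd3 w hw
  rw [← hF] at hFc
  have hmap : ∀ p ∈ G1, Tp p ∈ F := by
    intro p hp
    obtain ⟨t1, t2, _, t4⟩ := hTp p hp
    rw [hF, Finset.mem_filter]
    exact ⟨t1, t2, t4⟩
  have hpig : ∃ T ∈ F, η2 ≤ ∑ p ∈ G1.filter (fun p => Tp p = T), (1 : ℝ) / p := by
    by_contra hcon
    push Not at hcon
    have h7 : ∑ p ∈ G1, (1 : ℝ) / p ≤ F.card * η2 := by
      rw [← Finset.sum_fiberwise_of_maps_to hmap, ← nsmul_eq_mul]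
      exact Finset.sum_le_card_nsmul _ _ _ fun T hT => (hcon T hT).le
    have h8 : (F.card : ℝ) * η2 < M1 * η2 := by
      apply mul_lt_mul_of_pos_right _ hη2
      rw [hM1d]
      linarith
    have h9 : M1 * η2 = η / 2 := by
      rw [hη2d]
      field_simp
    linarith
  obtain ⟨T, hTF, hTs⟩ := hpig
  rw [hF, Finset.mem_filter] at hTF
  obtain ⟨t, ht⟩ := h6 N (by omega) H hHN _ S hSB _ w hw T hTF.1 (by
    refine hTs.trans (WMain_inj S (G1.filter (fun p => Tp p = T)) e ?_ _ ?_)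
    · intro p hp
      have h7 := (Finset.mem_filter.mp hp).1
      rw [hG1] at h7
      exact he p (Finset.mem_filter.mp h7).1
    · intro p hp
      rw [Finset.mem_filter] at hp
      rw [← hp.2]
      exact (hTp p hp.1).2.2.1)
  exact WMain_end hl w hw.nonneg T hTF.1 hTF.2.1 hc t ht

end H95.IS
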